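import Pool.Agent.H13.SK.Good

/-! # Russo-Seymour-Welsh for probabilities bounded away from zero, up to a given scale -/

set_option autoImplicit false

open MeasureTheory ProbabilityTheory unitInterval

namespace Pool.Agent.H13.SK

open Pool.Agent.H89.Perc Pool.Agent.H83.Site

/-- The left end of a crossing of the square `[0, n]²` is joined to the top of
`[0, 2 n] × [0, m]`. -/
private def XV (n m : ℤ) : Set Config :=
  {η | ∃ y y' x : ℤ, TConn η (TR 0 n 0 n) (0, y, false) (n, y', false) ∧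
    TConn η (TR 0 (2 * n) 0 m) (0, y, false) (x, m, false)}

/-- The mirror image of `XV n m`. -/
private def XV' (n m : ℤ) : Set Config :=
  {η | ∃ y y' x : ℤ, TConn η (TR 0 n 0 n) (0, y, false) (n, y', false) ∧
    TConn η (TR 0 (2 * n) (n - m) n) (0, y, false) (x, n - m, false)}

private theorem localOn_XV {n m : ℤ} (hn : 0 ≤ n) (hnm : n ≤ m) :
    LocalOn (eRect 0 (2 * n) 0 m) (XV n m) := by
  rintro η η' h ⟨y, y', x, h1, h2⟩
  refine ⟨y, y', x, h1.congr fun v hv => h v (TR_subset_eRect ?_),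
    h2.congr fun v hv => h v (TR_subset_eRect hv)⟩
  exact TR_mono le_rfl (by omega) le_rfl hnm hv

private theorem incr_XV (n m : ℤ) : Incr (XV n m) := by
  rintro η η' h ⟨y, y', x, h1, h2⟩
  exact ⟨y, y', x, h1.mono le_rfl fun v _ => h v, h2.mono le_rfl fun v _ => h v⟩

private theorem localOn_XV' {n m : ℤ} (hn : 0 ≤ n) (hnm : n ≤ m) :
    LocalOn (eRect 0 (2 * n) (n - m) n) (XV' n m) := by
  rintro η η' h ⟨y, y', x, h1, h2⟩
  refine ⟨y, y', x, h1.congr fun v hv => h v (TR_subset_eRect ?_),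
    h2.congr fun v hv => h v (TR_subset_eRect hv)⟩
  exact TR_mono le_rfl (by omega) (by omega) le_rfl hv

private theorem incr_XV' (n m : ℤ) : Incr (XV' n m) := by
  rintro η η' h ⟨y, y', x, h1, h2⟩
  exact ⟨y, y', x, h1.mono le_rfl fun v _ => h v, h2.mono le_rfl fun v _ => h v⟩

private theorem rfy_site (z x y : ℤ) : rfy z (x, y, false) = (x, z - y, false) := by
  simp [rfy]

private theorem XV'_eq (n m : ℤ) :
    {η : Config | (fun v => η (rfy n v)) ∈ XV n m} = XV' n m := by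
  ext η
  constructor
  · rintro ⟨y, y', x, h1, h2⟩
    rw [tconn_rfy, rfy_site, rfy_site] at h1 h2
    refine ⟨n - y, n - y', x, ?_, ?_⟩
    · simpa using h1
    · simpa using h2
  · rintro ⟨y, y', x, h1, h2⟩
    refine ⟨n - y, n - y', x, ?_, ?_⟩
    · rw [tconn_rfy, rfy_site, rfy_site]
      simpa using h1
    · rw [tconn_rfy, rfy_site, rfy_site]
      simpa using h2

private theorem PT_XV' (p : I) (r : Bool) {n m : ℤ} (hn : 0 ≤ n) (hnm : n ≤ m) :
    PT p r (XV' n m) = PT p r (XV n m) := by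
  rw [← XV'_eq, PT_comp (localOn_XV hn hnm) (rfy_injective n).injOn (fun _ => rfl)]

private theorem LJ_subset_XV {n m : ℤ} (hn : 0 ≤ n) (hnm : n ≤ m) : LJ n 0 n m ⊆ XV n m := by
  rintro η ⟨h1, h2⟩
  obtain ⟨y, y', h⟩ := low_exists hn hn h1
  obtain ⟨x, hx⟩ := low_joined hnm h h2
  exact ⟨y, y', x, h.mono le_rfl fun v _ hv => (zet_eq_true.1 hv).1, hx⟩

private theorem glue_XV {n m : ℤ} (hn : 0 ≤ n) (hnm : n ≤ m) :
    (XV n m ∩ XV' n m) ∩ {η | VC η 0 n 0 n} ⊆ {η | VC η 0 (2 * n) (n - m) m} := by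
  rintro η ⟨⟨⟨y, y', x, h1, h2⟩, ⟨z, z', x', h1', h2'⟩⟩, ⟨w, w', h3⟩⟩
  have h4 := glue_hv h1 h3
  have h5 := glue_hv h1' h3
  have h6 := (h5.trans h4.symm).mono_set (TR_mono (a' := 0) (b' := 2 * n) (c' := n - m) (d' := m)
    le_rfl (by omega) (by omega) hnm)
  have h7 := h2.mono_set (TR_mono (a' := 0) (b' := 2 * n) (c' := n - m) (d' := m)
    le_rfl le_rfl (by omega) le_rfl)
  have h8 := h2'.mono_set (TR_mono (a' := 0) (b' := 2 * n) (c' := n - m) (d' := m)
    le_rfl le_rfl le_rfl hnm)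
  exact ⟨x', x, (h8.symm.trans h6).trans h7⟩

private theorem half_le_sqrt {v : ℝ} (h0 : 0 ≤ v) (h1 : v ≤ 1) : v / 2 ≤ 1 - Real.sqrt (1 - v) := by
  have h2 : Real.sqrt (1 - v) ≤ 1 - v / 2 := by
    rw [Real.sqrt_le_left (by linarith)]
    nlinarith
  linarith

/-- One step of the iteration, from height `m` to height `2 m - n`. -/
private theorem bdd_step (p : I) (r : Bool) {n m : ℤ} (hn : 0 ≤ n) (hnm : n ≤ m) {δ v : ℝ}
    (hδ : 0 ≤ δ) (hv0 : 0 ≤ v) (hH : δ ≤ PT p r {η | HC η 0 n 0 n})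
    (hv : v ≤ PT p r {η | VC η 0 (2 * n) 0 m}) :
    (δ * (v / 2)) ^ 2 * δ ≤ PT p r {η | VC η 0 (2 * n) 0 (2 * m - n)} := by
  have h1 : δ * (v / 2) ≤ PT p r (XV n m) := by
    refine le_trans ?_ (PT_mono (LJ_subset_XV hn hnm))
    refine le_trans ?_ (expl_prob p r hn hn hnm)
    have h2 := half_le_sqrt (v := PT p r {η | VC η 0 (2 * n) 0 m}) PT_nonneg PT_le_one
    have h3 : v / 2 ≤ 1 - Real.sqrt (1 - PT p r {η | VC η 0 (2 * n) 0 m}) := by linarith
    exact mul_le_mul hH h3 (by positivity) PT_nonneg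
  have h4 : δ ≤ PT p r {η | VC η 0 n 0 n} := by rwa [PT_VC_eq_HC]
  have h5 := PT_fkg (p := p) (r := r) (localOn_XV hn hnm) (localOn_XV' hn hnm) (incr_XV n m)
    (incr_XV' n m)
  rw [PT_XV' p r hn hnm] at h5
  have h6 := PT_fkg (p := p) (r := r) ((localOn_XV hn hnm).inter' (localOn_XV' hn hnm))
    (localOn_VC 0 n 0 n) ((incr_XV n m).inter (incr_XV' n m)) (incr_VC 0 n 0 n)
  have h7 := h6.trans (PT_mono (glue_XV hn hnm))
  have h8 : PT p r {η | VC η 0 (2 * n) (n - m) m} =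
      PT p r {η | VC η 0 (2 * n) 0 (2 * m - n)} := by
    have := PT_VC_shf p r 0 (2 * n) 0 (2 * m - n) 0 (n - m)
    rw [← this]
    congr 1
    ext η
    simp only [Set.mem_ofPred_eq, zero_add, add_zero]
    rw [show 2 * m - n + (n - m) = m by ring]
  rw [h8] at h7
  refine le_trans ?_ h7
  have h9 : (δ * (v / 2)) ^ 2 ≤ PT p r (XV n m ∩ XV' n m) := by
    refine le_trans ?_ h5
    rw [sq]
    exact mul_le_mul h1 h1 (by positivity) PT_nonneg
  exact mul_le_mul h9 h4 hδ PT_nonneg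

private theorem bdd_iter {δ : ℝ} (hδ : 0 < δ) (j : ℕ) : ∃ c > (0 : ℝ), ∀ (p : I) (r : Bool)
    (k : ℕ), 1 ≤ k → δ ≤ PT p r {η | HC η 0 (4 * k) 0 (4 * k)} →
      δ ≤ PT p r {η | HC η 0 (4 * (2 * k : ℕ)) 0 (4 * (2 * k : ℕ))} →
      c ≤ PT p r {η | VC η 0 (2 * (4 * k)) 0 ((2 ^ j + 1) * (4 * k))} := by
  induction j with
  | zero =>
    refine ⟨δ, hδ, fun p r k hk _ h1 => ?_⟩
    rw [PT_VC_eq_HC]
    push_cast at h1
    have e : ((2 : ℤ) ^ 0 + 1) * (4 * (k : ℤ)) = 4 * (2 * k) := by ring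
    have e' : (2 : ℤ) * (4 * (k : ℤ)) = 4 * (2 * k) := by ring
    rw [e, e']
    exact h1
  | succ j ih =>
    obtain ⟨c, hc, hstep⟩ := ih
    refine ⟨(δ * (c / 2)) ^ 2 * δ, by positivity, fun p r k hk h h' => ?_⟩
    have h1 := hstep p r k hk h h'
    have h2 : ((4 : ℤ) * k) ≤ (2 ^ j + 1) * (4 * k) := by
      have : (0 : ℤ) < 2 ^ j := by positivity
      nlinarith
    have h3 := bdd_step p r (n := 4 * k) (m := (2 ^ j + 1) * (4 * k)) (by omega) h2 hδ.le hc.le
      h h1
    have e : (2 : ℤ) * ((2 ^ j + 1) * (4 * k)) - 4 * k = (2 ^ (j + 1) + 1) * (4 * k) := by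
      ring
    rwa [e] at h3

private theorem localOn_site (v : TV) : LocalOn {v} {η : Config | η v = true} := by
  intro η η' h hA
  have : η v = η' v := h v (by simp)
  simp only [Set.mem_ofPred_eq] at hA ⊢
  rw [← this]
  exact hA

private theorem incr_site (v : TV) : Incr {η : Config | η v = true} := fun _ _ h hA => h v hA

/-- All sites of a row are open. -/
private theorem row_prob (p : I) (r : Bool) {q : ℝ} (hq : 0 ≤ q)
    (h : ∀ x : ℤ, q ≤ PT p r {η | η (x, 0, false) = true}) (N : ℕ) :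
    q ^ (N + 1) ≤ PT p r {η | ∀ i ≤ N, η ((i : ℤ), 0, false) = true} ∧
      ∃ s, LocalOn s {η : Config | ∀ i ≤ N, η ((i : ℤ), 0, false) = true} := by
  classical
  induction N with
  | zero =>
    have e : {η : Config | ∀ i ≤ (0 : ℕ), η ((i : ℤ), 0, false) = true} =
        {η | η (0, 0, false) = true} := by
      ext η
      simp only [Set.mem_ofPred_eq, Nat.le_zero, forall_eq, Nat.cast_zero]
    rw [e]
    exact ⟨by simpa using h 0, _, localOn_site _⟩
  | succ N ih =>
    obtain ⟨h1, s, h2⟩ := ih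
    have e : {η : Config | ∀ i ≤ N + 1, η ((i : ℤ), 0, false) = true} =
        {η : Config | ∀ i ≤ N, η ((i : ℤ), 0, false) = true} ∩
          {η | η (((N + 1 : ℕ) : ℤ), 0, false) = true} := by
      ext η
      simp only [Set.mem_ofPred_eq, Set.mem_inter_iff]
      constructor
      · exact fun h => ⟨fun i hi => h i (by omega), h (N + 1) le_rfl⟩
      · rintro ⟨h, h'⟩ i hi
        rcases Nat.lt_or_ge N i with hi' | hi'
        · obtain rfl : i = N + 1 := by omega
          exact h'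
        · exact h i hi'
    have hi : Incr {η : Config | ∀ i ≤ N, η ((i : ℤ), 0, false) = true} :=
      fun _ _ h hA i hi => h _ (hA i hi)
    rw [e]
    refine ⟨?_, _, h2.inter' (localOn_site _)⟩
    refine le_trans ?_ (PT_fkg h2 (localOn_site _) hi (incr_site _))
    rw [pow_succ]
    exact mul_le_mul h1 (h _) hq PT_nonneg

private theorem row_subset {m : ℤ} (hm : 0 ≤ m) (N : ℕ) :
    {η : Config | ∀ i ≤ N, η ((i : ℤ), 0, false) = true} ⊆ {η | HC η 0 N 0 m} := by
  intro η h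
  refine ⟨0, 0, ?_⟩
  have key : ∀ i : ℕ, i ≤ N → TConn η (TR 0 N 0 m) (0, 0, false) ((i : ℤ), 0, false) := by
    intro i
    induction i with
    | zero =>
      intro _
      exact TConn.refl (mem_TR_site.2 ⟨le_rfl, by omega, le_rfl, hm⟩) (by
        simpa using h 0 (Nat.zero_le _))
    | succ i ih =>
      intro hi
      refine (ih (by omega)).tail ⟨mem_TR_site.2 ⟨by omega, by omega, le_rfl, hm⟩,
        mem_TR_site.2 ⟨by omega, by omega, le_rfl, hm⟩, ?_, h i (by omega), h (i + 1) hi⟩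
      refine Or.inl ⟨rfl, rfl, Or.inr ⟨rfl, Or.inr ?_⟩⟩
      push_cast
      ring
  exact key N le_rfl

private theorem PT_site (p : I) (r : Bool) (x y : ℤ) :
    PT p r {η | η (x, y, false) = true} = PT p r {η | η (0, 0, false) = true} := by
  rw [← PT_comp (p := p) (r := r) (localOn_site (0, 0, false)) (shf_injective x y).injOn
    (fun _ => rfl)]
  congr 1
  ext η
  simp [shf]

private theorem site_prob (p : I) (r : Bool) {δ : ℝ}
    (h : δ ≤ PT p r {η | HC η 0 4 0 4}) : δ / 5 ≤ PT p r {η | η (0, 0, false) = true} := by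
  have h1 : {η : Config | HC η 0 4 0 4} ⊆ (((({η | η (0, 0, false) = true} ∪
      {η | η (0, 1, false) = true}) ∪ {η | η (0, 2, false) = true}) ∪
      {η | η (0, 3, false) = true}) ∪ {η | η (0, 4, false) = true}) := by
    rintro η ⟨y, y', hc⟩
    have h2 := mem_TR_site.1 hc.mem_left
    have h3 := hc.open_left
    have h4 : y = 0 ∨ y = 1 ∨ y = 2 ∨ y = 3 ∨ y = 4 := by omega
    rcases h4 with rfl | rfl | rfl | rfl | rfl
    · exact Or.inl (Or.inl (Or.inl (Or.inl h3)))
    · exact Or.inl (Or.inl (Or.inl (Or.inr h3)))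
    · exact Or.inl (Or.inl (Or.inr h3))
    · exact Or.inl (Or.inr h3)
    · exact Or.inr h3
  have h2 := h.trans (PT_mono (p := p) (r := r) h1)
  have e1 := PT_union_le (p := p) (r := r) (E := ((({η : Config | η (0, 0, false) = true} ∪
      {η | η (0, 1, false) = true}) ∪ {η | η (0, 2, false) = true}) ∪
      {η | η (0, 3, false) = true})) (F := {η | η (0, 4, false) = true})
  have e2 := PT_union_le (p := p) (r := r) (E := (({η : Config | η (0, 0, false) = true} ∪
      {η | η (0, 1, false) = true}) ∪ {η | η (0, 2, false) = true}))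
      (F := {η | η (0, 3, false) = true})
  have e3 := PT_union_le (p := p) (r := r) (E := ({η : Config | η (0, 0, false) = true} ∪
      {η | η (0, 1, false) = true})) (F := {η | η (0, 2, false) = true})
  have e4 := PT_union_le (p := p) (r := r) (E := {η : Config | η (0, 0, false) = true})
      (F := {η | η (0, 1, false) = true})
  rw [PT_site p r 0 1] at e4
  rw [PT_site p r 0 2] at e3
  rw [PT_site p r 0 3] at e2
  rw [PT_site p r 0 4] at e1
  linarith

/-- If the squares of side `4 k` are crossed with probability at least `δ` for all `k ≤ n`, then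
rectangles of aspect ratio `K` and height up to `4 n` are crossed with probability at least `c`. -/
theorem bdd_local {δ : ℝ} (hδ : 0 < δ) (K : ℕ) : ∃ c > (0 : ℝ), ∀ (p : I) (r : Bool) (n : ℕ),
    1 ≤ n → (∀ k : ℕ, 1 ≤ k → k ≤ n → δ ≤ PT p r {η | HC η 0 (4 * k) 0 (4 * k)}) →
    ∀ m : ℕ, 1 ≤ m → m ≤ 4 * n → c ≤ PT p r {η | HC η 0 (K * m) 0 m} := by
  obtain ⟨c, hc, hcP⟩ := bdd_iter hδ (4 * K)
  refine ⟨min c (min (δ / 5) 1 ^ (7 * K + 1)), by positivity, fun p r n hn h m hm hmn => ?_⟩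
  by_cases hm4 : 8 ≤ m
  · refine (min_le_left _ _).trans ((hcP p r (m / 8) (by omega) (h _ (by omega) (by omega))
      (h _ (by omega) (by omega))).trans ?_)
    rw [PT_VC_eq_HC]
    refine PT_mono fun η hη => ?_
    refine HC.mono hη le_rfl (by positivity) ?_ le_rfl (by omega)
    have h1 : 4 * K + 1 ≤ 2 ^ (4 * K) := Nat.lt_two_pow_self
    have h2 : (4 * (K : ℤ) + 1) ≤ 2 ^ (4 * K) := by exact_mod_cast h1
    have h3 : (m : ℤ) ≤ 15 * ((m / 8 : ℕ) : ℤ) := by omega
    have h4 : (0 : ℤ) ≤ ((m / 8 : ℕ) : ℤ) := by omega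
    have h5 : (0 : ℤ) ≤ K := by omega
    calc (K : ℤ) * m ≤ K * (15 * ((m / 8 : ℕ) : ℤ)) := mul_le_mul_of_nonneg_left h3 h5
      _ ≤ (4 * K + 1 + 1) * (4 * ((m / 8 : ℕ) : ℤ)) := by nlinarith
      _ ≤ (2 ^ (4 * K) + 1) * (4 * ((m / 8 : ℕ) : ℤ)) := by
        apply mul_le_mul_of_nonneg_right _ (by omega)
        omega
  · refine (min_le_right _ _).trans ?_
    have h1 := h 1 le_rfl hn
    norm_num at h1
    have h2 := site_prob p r h1
    have h3 : ∀ x : ℤ, min (δ / 5) 1 ≤ PT p r {η | η (x, 0, false) = true} := fun x => by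
      rw [PT_site p r x 0]
      exact (min_le_left _ _).trans h2
    have h4 := (row_prob p r (q := min (δ / 5) 1) (by positivity) h3 (K * m)).1
    have h5 : min (δ / 5) 1 ^ (7 * K + 1) ≤ min (δ / 5) 1 ^ (K * m + 1) := by
      apply pow_le_pow_of_le_one (by positivity) (min_le_right _ _)
      have : K * m ≤ K * 7 := Nat.mul_le_mul_left K (by omega)
      omega
    refine h5.trans (h4.trans ?_)
    have h6 := row_subset (m := (m : ℤ)) (by omega) (K * m)
    push_cast at h6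
    exact PT_mono h6

/-- The same up to an arbitrary multiple of the scale. -/
theorem bdd_local' {δ : ℝ} (hδ : 0 < δ) (K K' : ℕ) : ∃ c > (0 : ℝ), ∀ (p : I) (r : Bool) (n : ℕ),
    1 ≤ n → (∀ k : ℕ, 1 ≤ k → k ≤ n → δ ≤ PT p r {η | HC η 0 (4 * k) 0 (4 * k)}) →
    ∀ m : ℕ, 1 ≤ m → m ≤ K' * n → c ≤ PT p r {η | HC η 0 (K * m) 0 m} := by
  obtain ⟨c, hc, H⟩ := bdd_local hδ (K * (K' + 1))
  refine ⟨c, hc, fun p r n hn h m hm hmn => ?_⟩
  refine (H p r n hn h (min m (4 * n)) (by omega) (min_le_right _ _)).trans ?_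
  refine PT_mono fun η hη => ?_
  refine HC.mono hη le_rfl (by positivity) ?_ le_rfl (by
    have : min m (4 * n) ≤ m := min_le_left _ _
    exact_mod_cast this)
  have h1 : m ≤ (K' + 1) * min m (4 * n) := by
    rcases le_total m (4 * n) with h2 | h2
    · rw [min_eq_left h2]
      nlinarith
    · rw [min_eq_right h2]
      nlinarith
  have h2 : K * m ≤ K * (K' + 1) * min m (4 * n) := by
    calc K * m ≤ K * ((K' + 1) * min m (4 * n)) := Nat.mul_le_mul_left K h1
      _ = _ := by ring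
  exact_mod_cast h2

end Pool.Agent.H13.SK
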