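import Pool.Agent.H13.SK.BlockL1

/-!
# Level-one inequality for block explorations: events
-/

set_option autoImplicit false

open MeasureTheory ProbabilityTheory unitInterval

namespace Pool.Agent.H13.SK

open Pool.Agent.H89.Perc Pool.Agent.H85.Kes
open Pool.Agent.Perc (Ex ind ind_of ind_of_not)

variable {κ : Type*} [DecidableEq κ] {s : Finset Edge} {β : Edge → κ} {R : BRule κ}

/-- If the increasing event `O` makes the block `B` effectively open and the decreasing event `C`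
makes it effectively closed, then the difference of the conditional probabilities of `A` is at
least the probability that `B` is pivotal. -/
theorem piv_le_diff {A O C : Set Config} {t t' : Finset Edge} (hA : LocalOn s A) (iA : Incr A)
    (hO : LocalOn t O) (iO : Incr O) (hC : LocalOn t' C) (iC : Incr Cᶜ) (B : Finset Edge)
    (h1 : ∀ ω ∈ O, setB B true ω ∈ A → ω ∈ A) (h2 : ∀ ω ∈ C, ω ∈ A → setB B false ω ∈ A) (p : I)
    (pO : 0 < Pr p O) (pC : 0 < Pr p C) :
    Pr p (BPiv B A) ≤ Pr p (A ∩ O) / Pr p O - Pr p (A ∩ C) / Pr p C := by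
  set Ap : Set Config := {ω | setB B true ω ∈ A} with hAp
  set Am : Set Config := {ω | setB B false ω ∈ A} with hAm
  have key : ∀ (b : Bool) (ω ω' : Config), (∀ e ∈ s, ω e = ω' e) →
      ∀ e ∈ s, setB B b ω e = setB B b ω' e := by
    intro b ω ω' h e he
    unfold setB
    split_ifs
    · rfl
    · exact h e he
  have lAp : LocalOn s Ap := fun ω ω' h hω => hA _ _ (key true ω ω' h) hω
  have lAm : LocalOn s Am := fun ω ω' h hω => hA _ _ (key false ω ω' h) hω
  have keyi : ∀ (b : Bool) (ω ω' : Config), (∀ e, ω e = true → ω' e = true) →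
      ∀ e, setB B b ω e = true → setB B b ω' e = true := by
    intro b ω ω' h e he
    unfold setB at he ⊢
    split_ifs at he ⊢ with h'
    · exact he
    · exact h e he
  have iAp : Incr Ap := fun ω ω' h hω => iA _ _ (keyi true ω ω' h) hω
  have iAm : Incr Am := fun ω ω' h hω => iA _ _ (keyi false ω ω' h) hω
  have s1 : Ap ∩ O ⊆ A ∩ O := fun ω hω => ⟨h1 ω hω.2 hω.1, hω.2⟩
  have s2 : A ∩ C ⊆ Am ∩ C := fun ω hω => ⟨h2 ω hω.2 hω.1, hω.2⟩
  have e1 : Pr p Ap * Pr p O ≤ Pr p (A ∩ O) := (fkg lAp hO iAp iO).trans (Pr_mono s1)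
  have e2 : Pr p (A ∩ C) ≤ Pr p Am * Pr p C := (Pr_mono s2).trans (fkg_mixed lAm hC iAm iC)
  have e3 : Pr p (BPiv B A) = Pr p Ap - Pr p Am := by
    have hsub : Am ⊆ Ap := fun ω hω => iA _ _ (setB_mono ω) hω
    have h3 : BPiv B A = Ap \ Am := by
      ext ω
      simp only [BPiv, Set.mem_ofPred_eq, Set.mem_sdiff, hAp, hAm]
    rw [h3]
    unfold Pr
    rw [measureReal_sdiff hsub lAm.measurableSet]
  rw [e3]
  have e4 : Pr p Ap ≤ Pr p (A ∩ O) / Pr p O := by
    rw [le_div_iff₀ pO]; exact e1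
  have e5 : Pr p (A ∩ C) / Pr p C ≤ Pr p Am := by
    rw [div_le_iff₀ pC]; exact e2
  linarith

theorem blk_subset_s (b : κ) : blk s β b ⊆ s := fun _ he => (mem_blk.1 he).1

/-- **Level-one inequality for events**: if around each block of `T` the events `O b` and `C b`,
local on the block, make the smaller block `B b` effectively open and closed, then the sum of the
influences of the blocks `B b` is bounded by the revealments. -/
theorem block_l1_event {A : Set Config} (hA : LocalOn s A) (iA : Incr A) {K T : Finset κ}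
    (hK : ∀ e ∈ s, β e ∈ K) (hR : ∀ D O b, R D O = some b → b ∈ K ∧ b ∉ D) (hTK : T ⊆ K)
    (hdet : ∀ ω ω' : Config, (∀ e ∈ s, β e ∈ revealed s β R ω K.card → ω e = ω' e) →
      ω ∈ A → ω' ∈ A)
    (O C : κ → Set Config) (B : κ → Finset Edge)
    (hO : ∀ b ∈ T, LocalOn (blk s β b) (O b)) (iO : ∀ b ∈ T, Incr (O b))
    (hC : ∀ b ∈ T, LocalOn (blk s β b) (C b)) (iC : ∀ b ∈ T, Incr (C b)ᶜ)
    (h1 : ∀ b ∈ T, ∀ ω ∈ O b, setB (B b) true ω ∈ A → ω ∈ A)
    (h2 : ∀ b ∈ T, ∀ ω ∈ C b, ω ∈ A → setB (B b) false ω ∈ A)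
    (p : I) {c : ℝ} (hc : 0 < c) (pO : ∀ b ∈ T, c ≤ Pr p (O b)) (pC : ∀ b ∈ T, c ≤ Pr p (C b)) :
    (∑ b ∈ T, Pr p (BPiv (B b) A)) ^ 2 ≤
      2 / c * ∑ b ∈ T, Pr p {ω | b ∈ revealed s β R ω K.card} := by
  have hp0 := p.2.1
  have hp1 := p.2.2
  set f : Finset Edge → ℝ := ind (fun S => ofS S ∈ A) with hf
  set g : κ → Finset Edge → ℝ := fun b S =>
    ind (fun S => ofS S ∈ O b) S / Pr p (O b) - ind (fun S => ofS S ∈ C b) S / Pr p (C b) with hg
  have hloc : ∀ (b : κ) (E : Set Config), LocalOn (blk s β b) E → ∀ S : Finset Edge,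
      ind (fun S => ofS S ∈ E) S = ind (fun S => ofS S ∈ E) (S ∩ blk s β b) := by
    intro b E hE S
    apply Pool.Agent.Perc.ind_congr
    have h : ∀ e ∈ blk s β b, ofS S e = ofS (S ∩ blk s β b) e := by
      intro e he
      simp [ofS, he]
    exact ⟨fun h' => hE _ _ h h', fun h' => hE _ _ (fun e he => (h e he).symm) h'⟩
  have hLG : LocG s β T g := by
    intro b hb S
    simp only [hg]
    rw [hloc b (O b) (hO b hb) S, hloc b (C b) (hC b hb) S]
  have hmean : ∀ b ∈ T, Ex (p : ℝ) (blk s β b) (g b) = 0 := by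
    intro b hb
    have hO0 : Pr p (O b) ≠ 0 := (lt_of_lt_of_le hc (pO b hb)).ne'
    have hC0 : Pr p (C b) ≠ 0 := (lt_of_lt_of_le hc (pC b hb)).ne'
    simp only [hg, div_eq_mul_inv]
    rw [Pool.Agent.Perc.Ex_sub, Pool.Agent.Perc.Ex_mul_const, Pool.Agent.Perc.Ex_mul_const,
      ← Pr_eq_Ex (hO b hb), ← Pr_eq_Ex (hC b hb), mul_inv_cancel₀ hO0, mul_inv_cancel₀ hC0,
      sub_self]
  have hdet' : ∀ S S', S ⊆ s → S' ⊆ s →
      (∀ e ∈ s, β e ∈ revealed s β R (ofS S) K.card → (e ∈ S ↔ e ∈ S')) → f S = f S' := by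
    intro S S' _ _ h
    apply Pool.Agent.Perc.ind_congr
    have h3 : ∀ e ∈ s, β e ∈ revealed s β R (ofS S) K.card → ofS S e = ofS S' e := by
      intro e he he'
      simp only [ofS, h e he he']
    refine ⟨fun h' => hdet _ _ h3 h', fun h' => hdet _ _ ?_ h'⟩
    intro e he he'
    have h4 : revealed s β R (ofS S') K.card = revealed s β R (ofS S) K.card := by
      unfold revealed
      exact bFrom_congr K.card (∅, ∅) fun e he h'' => h3 e he h''
    rw [h4] at he'
    exact (h3 e he he').symm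
  have main := block_l1 (T := T) (g := g) hp0 hp1 hK hR hTK hLG hmean hdet'
  -- the coefficients
  have hcoef : ∀ b ∈ T, Pr p (BPiv (B b) A) ≤ Ex (p : ℝ) s (fun S => f S * g b S) := by
    intro b hb
    have pO' := lt_of_lt_of_le hc (pO b hb)
    have pC' := lt_of_lt_of_le hc (pC b hb)
    refine (piv_le_diff hA iA (hO b hb) (iO b hb) (hC b hb) (iC b hb) (B b) (h1 b hb) (h2 b hb) p
      pO' pC').trans (le_of_eq ?_)
    have e1 : ∀ E : Set Config, LocalOn (blk s β b) E →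
        Pr p (A ∩ E) = Ex (p : ℝ) s (fun S => f S * ind (fun S => ofS S ∈ E) S) := by
      intro E hE
      rw [Pr_eq_Ex (hA.inter (hE.mono (blk_subset_s b)))]
      refine Pool.Agent.Perc.Ex_congr fun S _ => ?_
      rw [hf, Pool.Agent.Perc.ind_mul]
      exact Pool.Agent.Perc.ind_congr Iff.rfl
    rw [e1 _ (hO b hb), e1 _ (hC b hb)]
    have e2 : ∀ S, S ⊆ s → f S * g b S = f S * ind (fun S => ofS S ∈ O b) S * (Pr p (O b))⁻¹ -
        f S * ind (fun S => ofS S ∈ C b) S * (Pr p (C b))⁻¹ := by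
      intro S _
      simp only [hg]
      ring
    rw [Pool.Agent.Perc.Ex_congr e2, Pool.Agent.Perc.Ex_sub, Pool.Agent.Perc.Ex_mul_const,
      Pool.Agent.Perc.Ex_mul_const, div_eq_mul_inv, div_eq_mul_inv]
  -- the variances
  have hvar : ∀ b ∈ T, Ex (p : ℝ) (blk s β b) (fun S => g b S ^ 2) ≤ 2 / c := by
    intro b hb
    have pO' := lt_of_lt_of_le hc (pO b hb)
    have pC' := lt_of_lt_of_le hc (pC b hb)
    have e1 : ∀ S, S ⊆ blk s β b → g b S ^ 2 ≤
        ind (fun S => ofS S ∈ O b) S * ((Pr p (O b))⁻¹ * (Pr p (O b))⁻¹) +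
        ind (fun S => ofS S ∈ C b) S * ((Pr p (C b))⁻¹ * (Pr p (C b))⁻¹) := by
      intro S _
      simp only [hg]
      have a1 := Pool.Agent.Perc.ind_nonneg (fun S => ofS S ∈ O b) S
      have a2 := Pool.Agent.Perc.ind_nonneg (fun S => ofS S ∈ C b) S
      have a3 := Pool.Agent.Perc.ind_sq (fun S => ofS S ∈ O b) S
      have a4 := Pool.Agent.Perc.ind_sq (fun S => ofS S ∈ C b) S
      have a5 : 0 ≤ ind (fun S => ofS S ∈ O b) S / Pr p (O b) := by positivity
      have a6 : 0 ≤ ind (fun S => ofS S ∈ C b) S / Pr p (C b) := by positivity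
      have a7 : (ind (fun S => ofS S ∈ O b) S / Pr p (O b)) ^ 2 =
          ind (fun S => ofS S ∈ O b) S * ((Pr p (O b))⁻¹ * (Pr p (O b))⁻¹) := by
        rw [div_pow, a3]
        field_simp
      have a8 : (ind (fun S => ofS S ∈ C b) S / Pr p (C b)) ^ 2 =
          ind (fun S => ofS S ∈ C b) S * ((Pr p (C b))⁻¹ * (Pr p (C b))⁻¹) := by
        rw [div_pow, a4]
        field_simp
      rw [← a7, ← a8]
      nlinarith
    refine (Pool.Agent.Perc.Ex_mono hp0 hp1 e1).trans ?_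
    rw [Pool.Agent.Perc.Ex_add, Pool.Agent.Perc.Ex_mul_const, Pool.Agent.Perc.Ex_mul_const,
      ← Pr_eq_Ex (hO b hb), ← Pr_eq_Ex (hC b hb), ← mul_assoc, ← mul_assoc,
      mul_inv_cancel₀ pO'.ne', mul_inv_cancel₀ pC'.ne', one_mul, one_mul]
    have b1 : (Pr p (O b))⁻¹ ≤ c⁻¹ := inv_anti₀ hc (pO b hb)
    have b2 : (Pr p (C b))⁻¹ ≤ c⁻¹ := inv_anti₀ hc (pC b hb)
    calc (Pr p (O b))⁻¹ + (Pr p (C b))⁻¹ ≤ c⁻¹ + c⁻¹ := add_le_add b1 b2
      _ = 2 / c := by ring
  have hsum0 : 0 ≤ ∑ b ∈ T, Pr p (BPiv (B b) A) := Finset.sum_nonneg fun b _ => Pr_nonneg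
  have hle : ∑ b ∈ T, Pr p (BPiv (B b) A) ≤ ∑ b ∈ T, Ex (p : ℝ) s (fun S => f S * g b S) :=
    Finset.sum_le_sum hcoef
  have hf2 : Ex (p : ℝ) s (fun S => f S ^ 2) ≤ 1 := by
    have : ∀ S, S ⊆ s → f S ^ 2 ≤ 1 := by
      intro S _
      rw [hf, Pool.Agent.Perc.ind_sq]
      exact Pool.Agent.Perc.ind_le_one _ _
    refine (Pool.Agent.Perc.Ex_mono hp0 hp1 this).trans ?_
    rw [Pool.Agent.Perc.Ex_const]
  calc (∑ b ∈ T, Pr p (BPiv (B b) A)) ^ 2
      ≤ (∑ b ∈ T, Ex (p : ℝ) s (fun S => f S * g b S)) ^ 2 := by gcongr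
    _ ≤ _ := main
    _ ≤ 1 * ∑ b ∈ T, 2 / c * Pr p {ω | b ∈ revealed s β R ω K.card} := by
        refine mul_le_mul hf2 ?_ ?_ zero_le_one
        · refine Finset.sum_le_sum fun b hb => ?_
          have h3 : Ex (p : ℝ) s (ind fun S => b ∈ revealed s β R (ofS S) K.card) =
              Pr p {ω | b ∈ revealed s β R ω K.card} :=
            (Pr_eq_Ex (localOn_revealed (s := s) (β := β) (R := R) K.card b) p).symm
          rw [h3]
          exact mul_le_mul_of_nonneg_right (hvar b hb) Pr_nonneg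
        · refine Finset.sum_nonneg fun b _ => mul_nonneg ?_ ?_
          · exact Pool.Agent.Perc.Ex_nonneg hp0 hp1 fun S _ => sq_nonneg _
          · exact Pool.Agent.Perc.Ex_nonneg hp0 hp1 fun S _ => Pool.Agent.Perc.ind_nonneg _ _
    _ = _ := by rw [one_mul, Finset.mul_sum]

end Pool.Agent.H13.SK
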