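import Pool.Agent.H85.Kes.BlockOSSS

/-!
# Level-one inequality for block explorations
-/

set_option autoImplicit false

open MeasureTheory ProbabilityTheory unitInterval

namespace Pool.Agent.H13.SK

open Pool.Agent.H89.Perc Pool.Agent.H85.Kes
open Pool.Agent.Perc (Ex ind ind_of ind_of_not)

variable {κ : Type*} [DecidableEq κ] {s : Finset Edge} {β : Edge → κ} {R : BRule κ}

/-- The edges of the blocks outside `D`. -/
def fr (s : Finset Edge) (β : Edge → κ) (D : Finset κ) : Finset Edge :=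
  s.filter (fun e => β e ∉ D)

theorem mem_fr {D : Finset κ} {e : Edge} : e ∈ fr s β D ↔ e ∈ s ∧ β e ∉ D := by
  rw [fr, Finset.mem_filter]

theorem blk_subset_fr {D : Finset κ} {b : κ} (hb : b ∉ D) : blk s β b ⊆ fr s β D := by
  intro e he
  rw [mem_blk] at he
  rw [mem_fr]
  exact ⟨he.1, by rw [he.2]; exact hb⟩

theorem disj_blk_fr (D : Finset κ) (b : κ) : Disjoint (blk s β b) (fr s β (insert b D)) := by
  rw [Finset.disjoint_left]
  intro e he he'
  rw [mem_blk] at he
  rw [mem_fr, Finset.mem_insert, not_or] at he'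
  exact he'.2.1 he.2

theorem blk_union_fr {D : Finset κ} {b : κ} (hb : b ∉ D) :
    blk s β b ∪ fr s β (insert b D) = fr s β D := by
  ext e
  rw [Finset.mem_union, mem_blk, mem_fr, mem_fr, Finset.mem_insert]
  constructor
  · rintro (h | h)
    · exact ⟨h.1, by rw [h.2]; exact hb⟩
    · exact ⟨h.1, fun h' => h.2 (Or.inr h')⟩
  · rintro ⟨h1, h2⟩
    by_cases h : β e = b
    · exact Or.inl ⟨h1, h⟩
    · exact Or.inr ⟨h1, fun h' => h'.elim h h2⟩

theorem fr_insert_subset (D : Finset κ) (b : κ) : fr s β (insert b D) ⊆ fr s β D := by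
  intro e he
  rw [mem_fr, Finset.mem_insert, not_or] at he
  rw [mem_fr]
  exact ⟨he.1, he.2.2⟩

/-- The revealed blocks when the unrevealed open edges are `S`. -/
def JJ (s : Finset Edge) (β : Edge → κ) (R : BRule κ) (n : ℕ) (D : Finset κ) (O S : Finset Edge) :
    Finset κ := bFrom s β R (ofS (O ∪ S)) n (D, O)

theorem JJ_step {n : ℕ} {D : Finset κ} {O : Finset Edge} {b : κ} (hNe : R D O = some b)
    (hb : b ∉ D) (hO : ∀ e ∈ O, β e ∈ D) {T S : Finset Edge} (hT : T ⊆ blk s β b)
    (hS : S ⊆ fr s β (insert b D)) :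
    JJ s β R (n + 1) D O (T ∪ S) = JJ s β R n (insert b D) (O ∪ T) S := by
  unfold JJ
  rw [bFrom_succ, bStep_some (x := (D, O)) hNe, ← Finset.union_assoc]
  congr 2
  congr 1
  ext e
  rw [Finset.mem_filter, ofS_eq_true, Finset.mem_union, Finset.mem_union]
  constructor
  · rintro ⟨h1, (h2 | h2) | h2⟩
    · exfalso
      have h3 := hO e h2
      rw [mem_blk] at h1
      rw [h1.2] at h3
      exact hb h3
    · exact h2
    · exact absurd (hS h2) (Finset.disjoint_left.1 (disj_blk_fr D b) h1)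
  · intro h
    exact ⟨hT h, Or.inl (Or.inr h)⟩

/-- The sum of the test functions of the revealed blocks. -/
noncomputable def XX (s : Finset Edge) (β : Edge → κ) (R : BRule κ) (T : Finset κ)
    (g : κ → Finset Edge → ℝ) (n : ℕ) (D : Finset κ) (O S : Finset Edge) : ℝ :=
  ∑ b ∈ T \ D, if b ∈ JJ s β R n D O S then g b S else 0

variable {T : Finset κ} {g : κ → Finset Edge → ℝ}

theorem sdiff_insert_sum {D : Finset κ} {b : κ} (hb : b ∉ D) (h : κ → ℝ) :
    ∑ x ∈ T \ D, h x = (if b ∈ T then h b else 0) + ∑ x ∈ T \ insert b D, h x := by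
  by_cases hT : b ∈ T
  · rw [if_pos hT]
    have h1 : T \ D = insert b (T \ insert b D) := by
      ext x
      simp only [Finset.mem_sdiff, Finset.mem_insert, not_or]
      constructor
      · rintro ⟨h1, h2⟩
        by_cases hx : x = b
        · exact Or.inl hx
        · exact Or.inr ⟨h1, hx, h2⟩
      · rintro (rfl | ⟨h1, -, h2⟩)
        · exact ⟨hT, hb⟩
        · exact ⟨h1, h2⟩
    rw [h1, Finset.sum_insert (by simp)]
  · rw [if_neg hT, zero_add]
    refine Finset.sum_congr ?_ fun _ _ => rfl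
    ext x
    simp only [Finset.mem_sdiff, Finset.mem_insert, not_or]
    constructor
    · rintro ⟨h1, h2⟩
      exact ⟨h1, fun hx => hT (hx ▸ h1), h2⟩
    · rintro ⟨h1, -, h2⟩
      exact ⟨h1, h2⟩

/-- Locality of the test functions. -/
def LocG (s : Finset Edge) (β : Edge → κ) (T : Finset κ) (g : κ → Finset Edge → ℝ) : Prop :=
  ∀ b ∈ T, ∀ S : Finset Edge, g b S = g b (S ∩ blk s β b)

theorem LocG.own (hg : LocG s β T g) {D : Finset κ} {b : κ} (hb : b ∈ T) {T' S : Finset Edge}
    (hT : T' ⊆ blk s β b) (hS : S ⊆ fr s β (insert b D)) : g b (T' ∪ S) = g b T' := by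
  rw [hg b hb (T' ∪ S), hg b hb T']
  congr 1
  ext e
  simp only [Finset.mem_inter, Finset.mem_union]
  constructor
  · rintro ⟨h1 | h1, h2⟩
    · exact ⟨h1, h2⟩
    · exact absurd (hS h1) (Finset.disjoint_left.1 (disj_blk_fr D b) h2)
  · rintro ⟨h1, h2⟩
    exact ⟨Or.inl h1, h2⟩

theorem LocG.other (hg : LocG s β T g) {b x : κ} (hx : x ∈ T) (hxb : x ≠ b)
    {T' S : Finset Edge} (hT : T' ⊆ blk s β b) : g x (T' ∪ S) = g x S := by
  rw [hg x hx (T' ∪ S), hg x hx S]
  congr 1
  ext e
  simp only [Finset.mem_inter, Finset.mem_union]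
  constructor
  · rintro ⟨h1 | h1, h2⟩
    · have h3 := hT h1
      rw [mem_blk] at h2 h3
      exact absurd (h2.2.symm.trans h3.2) hxb
    · exact ⟨h1, h2⟩
  · rintro ⟨h1, h2⟩
    exact ⟨Or.inr h1, h2⟩

theorem XX_step (hg : LocG s β T g) {n : ℕ} {D : Finset κ} {O : Finset Edge} {b : κ}
    (hNe : R D O = some b) (hb : b ∉ D) (hO : ∀ e ∈ O, β e ∈ D) {T' S : Finset Edge}
    (hT : T' ⊆ blk s β b) (hS : S ⊆ fr s β (insert b D)) :
    XX s β R T g (n + 1) D O (T' ∪ S) =
      (if b ∈ T then g b T' else 0) + XX s β R T g n (insert b D) (O ∪ T') S := by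
  unfold XX
  rw [sdiff_insert_sum hb, JJ_step hNe hb hO hT hS]
  have h1 : b ∈ JJ s β R n (insert b D) (O ∪ T') S :=
    subset_bFrom _ _ _ (Finset.mem_insert_self b D)
  congr 1
  · by_cases hbT : b ∈ T
    · rw [if_pos hbT, if_pos hbT, if_pos h1, hg.own hbT hT hS]
    · rw [if_neg hbT, if_neg hbT]
  · refine Finset.sum_congr rfl fun x hx => ?_
    rw [Finset.mem_sdiff, Finset.mem_insert, not_or] at hx
    rw [hg.other hx.1 hx.2.1 hT]

theorem Ex_fr {p : ℝ} {D : Finset κ} {b : κ} (hb : b ∉ D) (h : Finset Edge → ℝ) :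
    Ex p (fr s β D) h =
      Ex p (blk s β b) (fun T' => Ex p (fr s β (insert b D)) (fun S => h (T' ∪ S))) := by
  rw [← Pool.Agent.Perc.Ex_union (disj_blk_fr D b), blk_union_fr hb]

theorem card_step {K D : Finset κ} {b : κ} {n : ℕ} (hbK : b ∈ K) (hbD : b ∉ D)
    (hD : (K \ D).card ≤ n + 1) : (K \ insert b D).card ≤ n := by
  have h1 : K \ insert b D = (K \ D).erase b := by
    ext x
    simp only [Finset.mem_sdiff, Finset.mem_insert, Finset.mem_erase, not_or]
    tauto
  rw [h1, Finset.card_erase_of_mem (Finset.mem_sdiff.2 ⟨hbK, hbD⟩)]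
  omega

theorem fr_empty {K D : Finset κ} (hK : ∀ e ∈ s, β e ∈ K) (hKD : K \ D = ∅) :
    fr s β D = ∅ := by
  rw [fr, Finset.filter_eq_empty_iff]
  intro e he h
  have : β e ∈ K \ D := Finset.mem_sdiff.2 ⟨hK e he, h⟩
  rw [hKD] at this
  exact absurd this (Finset.notMem_empty _)

theorem O_step {D : Finset κ} {O T' : Finset Edge} {b : κ} (hO : ∀ e ∈ O, β e ∈ D)
    (hT : T' ⊆ blk s β b) : ∀ e ∈ O ∪ T', β e ∈ insert b D := by
  intro e he
  rcases Finset.mem_union.1 he with h | h
  · exact Finset.mem_insert_of_mem (hO e h)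
  · have := hT h
    rw [mem_blk] at this
    rw [this.2]
    exact Finset.mem_insert_self _ _

theorem XX_none {n : ℕ} {D : Finset κ} {O S : Finset Edge} (h : R D O = none) :
    XX s β R T g n D O S = 0 := by
  unfold XX
  refine Finset.sum_eq_zero fun b hb => ?_
  rw [if_neg]
  unfold JJ
  rw [bFrom_none (x := (D, O)) h]
  exact (Finset.mem_sdiff.1 hb).2

/-- Mean value. -/
theorem XX_mean {p : ℝ} {K : Finset κ} (hR : ∀ D O b, R D O = some b → b ∈ K ∧ b ∉ D)
    (hTK : T ⊆ K) (hg : LocG s β T g) (hmean : ∀ b ∈ T, Ex p (blk s β b) (g b) = 0) (n : ℕ) :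
    ∀ (D : Finset κ) (O : Finset Edge), (K \ D).card ≤ n → (∀ e ∈ O, β e ∈ D) →
      Ex p (fr s β D) (fun S => XX s β R T g n D O S) = 0 := by
  induction n with
  | zero =>
    intro D O hD _
    have hKD : K \ D = ∅ := Finset.card_eq_zero.1 (Nat.le_zero.1 hD)
    have hTD : T \ D = ∅ := by
      rw [Finset.sdiff_eq_empty_iff_subset] at hKD ⊢
      exact hTK.trans hKD
    unfold XX
    simp [hTD]
  | succ n ih =>
    intro D O hD hO
    rcases hNe : R D O with _ | b
    · simp [XX_none hNe]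
    · obtain ⟨hbK, hbD⟩ := hR D O b hNe
      rw [Ex_fr hbD]
      have h1 : ∀ T', T' ⊆ blk s β b →
          Ex p (fr s β (insert b D)) (fun S => XX s β R T g (n + 1) D O (T' ∪ S)) =
            if b ∈ T then g b T' else 0 := by
        intro T' hT'
        rw [Pool.Agent.Perc.Ex_congr fun S hS => XX_step hg hNe hbD hO hT' hS,
          Pool.Agent.Perc.Ex_add, Pool.Agent.Perc.Ex_const,
          ih (insert b D) (O ∪ T') (card_step hbK hbD hD) (O_step hO hT'), add_zero]
      rw [Pool.Agent.Perc.Ex_congr h1]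
      by_cases hbT : b ∈ T
      · simp only [if_pos hbT]
        exact hmean b hbT
      · simp [hbT]

/-- Second moment. -/
theorem XX_sq {p : ℝ} {K : Finset κ} (hR : ∀ D O b, R D O = some b → b ∈ K ∧ b ∉ D)
    (hTK : T ⊆ K) (hg : LocG s β T g) (hmean : ∀ b ∈ T, Ex p (blk s β b) (g b) = 0) (n : ℕ) :
    ∀ (D : Finset κ) (O : Finset Edge), (K \ D).card ≤ n → (∀ e ∈ O, β e ∈ D) →
      Ex p (fr s β D) (fun S => XX s β R T g n D O S ^ 2) =
        ∑ b ∈ T \ D, Ex p (blk s β b) (fun S => g b S ^ 2) *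
          Ex p (fr s β D) (ind fun S => b ∈ JJ s β R n D O S) := by
  induction n with
  | zero =>
    intro D O hD _
    have hKD : K \ D = ∅ := Finset.card_eq_zero.1 (Nat.le_zero.1 hD)
    have hTD : T \ D = ∅ := by
      rw [Finset.sdiff_eq_empty_iff_subset] at hKD ⊢
      exact hTK.trans hKD
    unfold XX
    simp [hTD]
  | succ n ih =>
    intro D O hD hO
    rcases hNe : R D O with _ | b
    · simp only [XX_none hNe]
      rw [Finset.sum_eq_zero]
      · simp
      · intro b hb
        have : ∀ S, S ⊆ fr s β D → ind (fun S => b ∈ JJ s β R (n + 1) D O S) S = 0 := by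
          intro S _
          apply ind_of_not
          unfold JJ
          rw [bFrom_none (x := (D, O)) hNe]
          exact (Finset.mem_sdiff.1 hb).2
        rw [Pool.Agent.Perc.Ex_congr this]
        simp
    · obtain ⟨hbK, hbD⟩ := hR D O b hNe
      have hc := card_step hbK hbD hD
      rw [Ex_fr hbD]
      have h1 : ∀ T', T' ⊆ blk s β b →
          Ex p (fr s β (insert b D)) (fun S => XX s β R T g (n + 1) D O (T' ∪ S) ^ 2) =
            (if b ∈ T then g b T' ^ 2 else 0) +
            ∑ x ∈ T \ insert b D, Ex p (blk s β x) (fun S => g x S ^ 2) *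
              Ex p (fr s β (insert b D)) (ind fun S => x ∈ JJ s β R n (insert b D) (O ∪ T') S) := by
        intro T' hT'
        rw [← ih (insert b D) (O ∪ T') hc (O_step hO hT')]
        have h2 : ∀ S, S ⊆ fr s β (insert b D) → XX s β R T g (n + 1) D O (T' ∪ S) ^ 2 =
            (if b ∈ T then g b T' ^ 2 else 0) +
              (2 * (if b ∈ T then g b T' else 0) * XX s β R T g n (insert b D) (O ∪ T') S +
              XX s β R T g n (insert b D) (O ∪ T') S ^ 2) := by
          intro S hS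
          rw [XX_step hg hNe hbD hO hT' hS]
          split_ifs <;> ring
        rw [Pool.Agent.Perc.Ex_congr h2, Pool.Agent.Perc.Ex_add, Pool.Agent.Perc.Ex_const,
          Pool.Agent.Perc.Ex_add, Pool.Agent.Perc.Ex_const_mul,
          XX_mean hR hTK hg hmean n (insert b D) (O ∪ T') hc (O_step hO hT'), mul_zero, zero_add]
      rw [Pool.Agent.Perc.Ex_congr h1, Pool.Agent.Perc.Ex_add, Pool.Agent.Perc.Ex_sum,
        sdiff_insert_sum hbD]
      congr 1
      · by_cases hbT : b ∈ T
        · simp only [if_pos hbT]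
          have : ∀ S, S ⊆ fr s β D → ind (fun S => b ∈ JJ s β R (n + 1) D O S) S = 1 := by
            intro S hS
            apply ind_of
            have hS' : S = (S ∩ blk s β b) ∪ (S ∩ fr s β (insert b D)) := by
              rw [← Finset.inter_union_distrib_left, blk_union_fr hbD,
                Finset.inter_eq_left.2 hS]
            rw [hS', JJ_step hNe hbD hO Finset.inter_subset_right Finset.inter_subset_right]
            exact subset_bFrom _ _ _ (Finset.mem_insert_self b D)
          rw [Pool.Agent.Perc.Ex_congr this, Pool.Agent.Perc.Ex_const, mul_one]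
        · simp [hbT]
      · refine Finset.sum_congr rfl fun x hx => ?_
        rw [Pool.Agent.Perc.Ex_const_mul, Ex_fr hbD]
        congr 1
        refine Pool.Agent.Perc.Ex_congr fun T' hT' => ?_
        refine Pool.Agent.Perc.Ex_congr fun S hS => ?_
        exact Pool.Agent.Perc.ind_congr (by rw [JJ_step hNe hbD hO hT' hS])

/-- The unrevealed blocks do not contribute. -/
theorem XX_proj {p : ℝ} {K : Finset κ} (hK : ∀ e ∈ s, β e ∈ K)
    (hR : ∀ D O b, R D O = some b → b ∈ K ∧ b ∉ D)
    (hTK : T ⊆ K) (hg : LocG s β T g) (hmean : ∀ b ∈ T, Ex p (blk s β b) (g b) = 0) (n : ℕ) :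
    ∀ (D : Finset κ) (O : Finset Edge), (K \ D).card ≤ n → (∀ e ∈ O, β e ∈ D) →
      ∀ f : Finset Edge → ℝ,
      (∀ S S', S ⊆ fr s β D → S' ⊆ fr s β D →
        (∀ e ∈ fr s β D, β e ∈ JJ s β R n D O S → (e ∈ S ↔ e ∈ S')) → f S = f S') →
      Ex p (fr s β D) (fun S => f S * ∑ b ∈ T \ D, g b S) =
        Ex p (fr s β D) (fun S => f S * XX s β R T g n D O S) := by
  induction n with
  | zero =>
    intro D O hD _ f _
    have hKD : K \ D = ∅ := Finset.card_eq_zero.1 (Nat.le_zero.1 hD)
    have hTD : T \ D = ∅ := by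
      rw [Finset.sdiff_eq_empty_iff_subset] at hKD ⊢
      exact hTK.trans hKD
    unfold XX
    simp [hTD]
  | succ n ih =>
    intro D O hD hO f hdet
    rcases hNe : R D O with _ | b
    · simp only [XX_none hNe, mul_zero, Pool.Agent.Perc.Ex_const]
      have hconst : ∀ S, S ⊆ fr s β D → f S = f ∅ := by
        intro S hS
        refine hdet S ∅ hS (Finset.empty_subset _) fun e heF he => ?_
        unfold JJ at he
        rw [bFrom_none (x := (D, O)) hNe] at he
        exact absurd he (mem_fr.1 heF).2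
      have h1 : ∀ S, S ⊆ fr s β D → f S * ∑ b ∈ T \ D, g b S = f ∅ * ∑ b ∈ T \ D, g b S := by
        intro S hS
        rw [hconst S hS]
      rw [Pool.Agent.Perc.Ex_congr h1, Pool.Agent.Perc.Ex_const_mul, Pool.Agent.Perc.Ex_sum,
        Finset.sum_eq_zero, mul_zero]
      intro b hb
      obtain ⟨hbT, hbD⟩ := Finset.mem_sdiff.1 hb
      rw [Pool.Agent.Perc.Ex_restrict (blk_subset_fr hbD) (fun S _ => hg b hbT S)]
      exact hmean b hbT
    · obtain ⟨hbK, hbD⟩ := hR D O b hNe
      have hc := card_step hbK hbD hD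
      rw [Ex_fr hbD, Ex_fr hbD]
      refine Pool.Agent.Perc.Ex_congr fun T' hT' => ?_
      have h1 : ∀ S, S ⊆ fr s β (insert b D) → f (T' ∪ S) * ∑ x ∈ T \ D, g x (T' ∪ S) =
          f (T' ∪ S) * (if b ∈ T then g b T' else 0) +
            f (T' ∪ S) * ∑ x ∈ T \ insert b D, g x S := by
        intro S hS
        rw [sdiff_insert_sum hbD, mul_add]
        congr 2
        · by_cases hbT : b ∈ T
          · rw [if_pos hbT, if_pos hbT, hg.own hbT hT' hS]
          · rw [if_neg hbT, if_neg hbT]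
        · refine Finset.sum_congr rfl fun x hx => ?_
          rw [Finset.mem_sdiff, Finset.mem_insert, not_or] at hx
          rw [hg.other hx.1 hx.2.1 hT']
      have h2 : ∀ S, S ⊆ fr s β (insert b D) → f (T' ∪ S) * XX s β R T g (n + 1) D O (T' ∪ S) =
          f (T' ∪ S) * (if b ∈ T then g b T' else 0) +
            f (T' ∪ S) * XX s β R T g n (insert b D) (O ∪ T') S := by
        intro S hS
        rw [XX_step hg hNe hbD hO hT' hS, mul_add]
      rw [Pool.Agent.Perc.Ex_congr h1, Pool.Agent.Perc.Ex_congr h2, Pool.Agent.Perc.Ex_add,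
        Pool.Agent.Perc.Ex_add]
      congr 1
      refine ih (insert b D) (O ∪ T') hc (O_step hO hT') (fun S => f (T' ∪ S)) ?_
      intro S S' hS hS' h
      have hsub : ∀ S, S ⊆ fr s β (insert b D) → T' ∪ S ⊆ fr s β D := fun S hS =>
        Finset.union_subset (hT'.trans (blk_subset_fr hbD)) (hS.trans (fr_insert_subset D b))
      refine hdet _ _ (hsub S hS) (hsub S' hS') fun e heF he => ?_
      rw [JJ_step hNe hbD hO hT' hS] at he
      rw [Finset.mem_union, Finset.mem_union]
      by_cases heB : e ∈ blk s β b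
      · have h1 : e ∉ S := fun h' => Finset.disjoint_left.1 (disj_blk_fr D b) heB (hS h')
        have h2 : e ∉ S' := fun h' => Finset.disjoint_left.1 (disj_blk_fr D b) heB (hS' h')
        tauto
      · have heF' : e ∈ fr s β (insert b D) := by
          rw [← blk_union_fr hbD, Finset.mem_union] at heF
          exact heF.resolve_left heB
        have := h e heF' he
        tauto

/-- **Level-one inequality** for a function determined by a block exploration. -/
theorem block_l1 {p : ℝ} (hp0 : 0 ≤ p) (hp1 : p ≤ 1) {K : Finset κ} (hK : ∀ e ∈ s, β e ∈ K)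
    (hR : ∀ D O b, R D O = some b → b ∈ K ∧ b ∉ D)
    (hTK : T ⊆ K) (hg : LocG s β T g) (hmean : ∀ b ∈ T, Ex p (blk s β b) (g b) = 0)
    {f : Finset Edge → ℝ}
    (hdet : ∀ S S', S ⊆ s → S' ⊆ s →
      (∀ e ∈ s, β e ∈ revealed s β R (ofS S) K.card → (e ∈ S ↔ e ∈ S')) → f S = f S') :
    (∑ b ∈ T, Ex p s (fun S => f S * g b S)) ^ 2 ≤
      Ex p s (fun S => f S ^ 2) * ∑ b ∈ T, Ex p (blk s β b) (fun S => g b S ^ 2) *
        Ex p s (ind fun S => b ∈ revealed s β R (ofS S) K.card) := by
  have hfr : fr s β ∅ = s := by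
    ext e
    rw [mem_fr]
    simp
  have hJ : ∀ S, JJ s β R K.card ∅ ∅ S = revealed s β R (ofS S) K.card := by
    intro S
    unfold JJ revealed
    rw [Finset.empty_union]
  have h1 := XX_proj (p := p) (R := R) hK hR hTK hg hmean K.card ∅ ∅ (by simp) (by simp) f (by
    intro S S' hS hS' h
    rw [hfr] at hS hS' h
    exact hdet S S' hS hS' fun e he h' => h e he (by rw [hJ]; exact h'))
  have h2 := XX_sq (p := p) (R := R) hR hTK hg hmean K.card ∅ ∅ (by simp) (by simp)
  rw [hfr, Finset.sdiff_empty] at h1 h2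
  have h3 : ∑ b ∈ T, Ex p s (fun S => f S * g b S) = Ex p s (fun S => f S * ∑ b ∈ T, g b S) := by
    rw [← Pool.Agent.Perc.Ex_sum]
    exact Pool.Agent.Perc.Ex_congr fun S _ => by rw [Finset.mul_sum]
  rw [h3, h1]
  refine (Pool.Agent.Perc.Ex_mul_sq_le hp0 hp1 s f _).trans ?_
  rw [h2]
  simp only [hJ]
  exact le_rfl

end Pool.Agent.H13.SK
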