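import Pool.Agent.H13.SK.BlockUpS

/-!
# Lower bound for the probability that a block is pivotal (sites, block OSSS)
-/

open MeasureTheory ProbabilityTheory unitInterval

namespace Pool.Agent.H13.SK

open Pool.Agent.H89.Perc Pool.Agent.H85.Kes
open Pool.Agent.H83.SK (sit sv sit_mono)
open Pool.Agent.H92.SN (tSites WindS blkS BlockPiv SReg)
open Pool.Agent.H83.SK.WG (mem_tSites localOn_windS incr_windS)
open Pool.Agent.H61.NC (Two Ring mid)
open Pool.Agent.H31.EX (bIdx bAll nB nB_spec bIdx_mem sum_rpow_le sum_blocks_le)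

/-- The blocks of the tiling have smaller influence than the block in the middle. -/
theorem Pr_blkT_le {N r : ℕ} (hr : 1 ≤ r) (h4 : 4 * r ≤ N) (q : I) (b : ℤ × ℤ) :
    Pr q (BPiv (blk (tSites N) (bIdx r) b) (WindS N)) ≤ Pr q (BlockPiv N r) := by
  classical
  have hN : 1 ≤ N := by omega
  set z : Vert := (b.1 * (2 * r + 1) + r - mid N, b.2 * (2 * r + 1) + r - mid N) with hz
  rw [blockPiv_eq, ← Pr_bpiv_tau hN q (blkS_subset hr h4) z]
  refine Pr_mono (Pool.Agent.H31.EX.bpiv_mono ?_ (incr_windS N))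
  intro e he
  rw [mem_blkT, mem_tSites] at he
  obtain ⟨⟨h0, h1, h2, h3, h5⟩, h6⟩ := he
  rw [mem_ball] at h6
  simp only [src, bCtr] at h6
  rw [Finset.mem_image]
  refine ⟨(e.1 - z.1, e.2.1 - z.2, e.2.2), ?_, ?_⟩
  · rw [← zB_mid, mem_zB]
    simp only [hz]
    exact ⟨h0, by omega, by omega⟩
  · unfold torusSym_tau
    simp only [sub_add_cancel]
    rw [Int.emod_eq_of_lt h1 h2, Int.emod_eq_of_lt h3 h5]

/-- The influence of a block of radius `r` on the winding event is at least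
`(r / N) ^ (2 - δ)` in the box-crossing regime. -/
theorem blockLow : Pool.Agent.H92.SN.BlockLow := by
  classical
  intro c hc
  obtain ⟨C, a, hC, ha, ha4, hdec⟩ := Pool.Agent.H83.SK.armBox_decay0 hc
  set b : ℝ := a with hb
  have hb0 : 0 < b := ha
  have hb1 : b ≤ 1 / 2 := by linarith
  set C1 : ℝ := 1 + 2 * C with hC1
  have hC1p : 1 ≤ C1 := by linarith
  refine ⟨8 * C1 / c ^ 8, b, by positivity, hb0, ?_⟩
  intro N r q hr h4 hreg
  have hN4 : 4 ≤ N := by omega
  have hN1 : 1 ≤ N := by omega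
  set P : ℝ := Pr q (BlockPiv N r) with hP
  have hP0 : 0 ≤ P := Pr_nonneg
  set K : ℕ := nB N r with hK
  obtain ⟨hK1, hK2, hK3⟩ := nB_spec (r := r) hN1
  rw [← hK] at hK1 hK2 hK3
  have hKm : ∀ e ∈ tSites N, bIdx r e ∈ bAll N r := fun e he => bIdx_mem hN1 (tSites_subset N he)
  have hosss := block_osss (s := tSites N) (β := bIdx r) (R := tRule N (bIdx r))
    (localOn_windS hN1) (incr_windS N) hKm (tRule_mem hKm) (tRule_det hN1 hKm) q
  -- the revealment
  set G : ℕ → ℝ := fun d => C1 * ((d : ℝ) + 1) ^ (-b) with hG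
  have hG0 : ∀ d, 0 ≤ G d := fun d => by
    have : (0 : ℝ) ≤ ((d : ℝ) + 1) ^ (-b) := by positivity
    exact mul_nonneg (by linarith) this
  set g : ℤ × ℤ → ℝ := fun x =>
    Pr q {ω | x ∈ revealed (tSites N) (bIdx r) (tRule N (bIdx r)) ω (bAll N r).card} with hg
  have hgG : ∀ x ∈ Finset.Ico (0 : ℤ) K ×ˢ Finset.Ico (0 : ℤ) K, ∀ d : ℕ, (d : ℤ) ≤ x.1 →
      (d : ℤ) ≤ K - 1 - x.1 → (d : ℤ) ≤ x.2 → (d : ℤ) ≤ K - 1 - x.2 → g x ≤ G d := by
    intro x hx d d1 d2 d3 d4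
    rcases Nat.eq_zero_or_pos d with h0 | hd
    · have : g x ≤ 1 := Pr_le_one
      have h5 : G d = C1 := by rw [hG, h0]; simp
      rw [h5]
      linarith
    · obtain ⟨R, hR⟩ : ∃ R : ℕ, R + r = d * (2 * r + 1) :=
        ⟨d * (2 * r + 1) - r, by
          have : r ≤ d * (2 * r + 1) := by nlinarith
          omega⟩
      have hRr : (r + 1) * d ≤ R := by
        have : (r + 1) * d + r ≤ d * (2 * r + 1) := by nlinarith
        omega
      have hRr1 : r + 1 ≤ R := by nlinarith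
      have hRw : (R : ℤ) + r = d * (2 * r + 1) := by exact_mod_cast hR
      have hw0 : (0 : ℤ) < 2 * r + 1 := by positivity
      have g1 : (d : ℤ) * (2 * r + 1) ≤ x.1 * (2 * r + 1) :=
        mul_le_mul_of_nonneg_right d1 hw0.le
      have g3 : (d : ℤ) * (2 * r + 1) ≤ x.2 * (2 * r + 1) :=
        mul_le_mul_of_nonneg_right d3 hw0.le
      have g2 : (d : ℤ) * (2 * r + 1) ≤ (K - 1) * (2 * r + 1) - x.1 * (2 * r + 1) := by
        have := mul_le_mul_of_nonneg_right d2 hw0.le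
        linarith [this, sub_mul ((K : ℤ) - 1) x.1 (2 * (r : ℤ) + 1)]
      have g4 : (d : ℤ) * (2 * r + 1) ≤ (K - 1) * (2 * r + 1) - x.2 * (2 * r + 1) := by
        have := mul_le_mul_of_nonneg_right d4 hw0.le
        linarith [this, sub_mul ((K : ℤ) - 1) x.2 (2 * (r : ℤ) + 1)]
      have hr1 : (1 : ℤ) ≤ r := by exact_mod_cast hr
      have q1 : (R : ℤ) < (bCtr r x).1 := by simp only [bCtr]; omega
      have q2 : (bCtr r x).1 + R < N := by simp only [bCtr]; omega
      have q3 : (R : ℤ) < (bCtr r x).2 := by simp only [bCtr]; omega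
      have q4 : (bCtr r x).2 + R < N := by simp only [bCtr]; omega
      have hRN : R ≤ N := by omega
      have hsub := tRule_arm (N := N) (β := bIdx r) (b := x) (z := bCtr r x) (ρ := r) (R := R)
        (fun e he => (mem_blkT.1 he).2) hRr1 ⟨q1, q2⟩ ⟨q3, q4⟩ (bAll N r).card
      have h10 : g x ≤ Pool.Agent.H83.SK.Pr q (ArmBox (bCtr r x) (r + 1) R) := Pr_mono hsub
      rw [Pool.Agent.H83.SK.Pr_armBox (p := q)] at h10
      have hR0 : (0 : ℝ) < R := by exact_mod_cast (by omega : 0 < R)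
      have hd0 : (0 : ℝ) < d := by exact_mod_cast hd
      have hd1 : (1 : ℝ) ≤ d := by exact_mod_cast hd
      have hfrac : ((r + 1 : ℕ) : ℝ) / R ≤ 1 / d := by
        rw [div_le_div_iff₀ hR0 hd0, one_mul]
        exact_mod_cast hRr
      have hx1 := hdec N (r + 1) R q hreg (by omega) hRr1 hRN
      have hy : C * (((r + 1 : ℕ) : ℝ) / R) ^ a ≤ C * (1 / (d : ℝ)) ^ a :=
        mul_le_mul_of_nonneg_left (Real.rpow_le_rpow (by positivity) hfrac ha.le) hC.le
      have h11 : g x ≤ C * (1 / (d : ℝ)) ^ b := h10.trans (hx1.trans hy)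
      refine h11.trans ?_
      have h13 : (1 / (d : ℝ)) ^ b ≤ 2 * ((d : ℝ) + 1) ^ (-b) := by
        have h14 : (1 / (d : ℝ)) ≤ 2 / ((d : ℝ) + 1) := by
          rw [div_le_div_iff₀ hd0 (by positivity)]
          linarith
        have h15 : (1 / (d : ℝ)) ^ b ≤ (2 / ((d : ℝ) + 1)) ^ b :=
          Real.rpow_le_rpow (by positivity) h14 hb0.le
        have h16 : (2 / ((d : ℝ) + 1)) ^ b = 2 ^ b * ((d : ℝ) + 1) ^ (-b) := by
          rw [Real.div_rpow (by norm_num) (by positivity), Real.rpow_neg (by positivity)]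
          rfl
        have h17 : (2 : ℝ) ^ b ≤ 2 := by
          calc (2 : ℝ) ^ b ≤ 2 ^ (1 : ℝ) :=
                Real.rpow_le_rpow_of_exponent_le (by norm_num) (by linarith)
            _ = 2 := by norm_num
        rw [h16] at h15
        refine h15.trans (mul_le_mul_of_nonneg_right h17 (by positivity))
      have h18 : (0 : ℝ) ≤ ((d : ℝ) + 1) ^ (-b) := by positivity
      calc C * (1 / (d : ℝ)) ^ b ≤ C * (2 * ((d : ℝ) + 1) ^ (-b)) :=
            mul_le_mul_of_nonneg_left h13 hC.le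
        _ = (2 * C) * ((d : ℝ) + 1) ^ (-b) := by ring
        _ ≤ C1 * ((d : ℝ) + 1) ^ (-b) := mul_le_mul_of_nonneg_right (by linarith) h18
  have hsum := sum_blocks_le hG0 hgG
  have hsumG : ∑ d ∈ Finset.range K, G d ≤ C1 * (2 * (K : ℝ) ^ (1 - b)) := by
    rw [hG, ← Finset.mul_sum]
    exact mul_le_mul_of_nonneg_left (sum_rpow_le hb0.le hb1 K) (by linarith)
  have hK0 : (0 : ℝ) < K := by exact_mod_cast hK1
  have hKpow : (K : ℝ) * (K : ℝ) ^ (1 - b) = (K : ℝ) ^ (2 - b) := by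
    rw [show (2 - b : ℝ) = 1 + (1 - b) by ring, Real.rpow_add hK0, Real.rpow_one]
  have hfin : Pr q (WindS N) * (1 - Pr q (WindS N)) ≤ 8 * C1 * (K : ℝ) ^ (2 - b) * P := by
    have h20 : Pr q (WindS N) * (1 - Pr q (WindS N)) ≤
        ∑ x ∈ Finset.Ico (0 : ℤ) K ×ˢ Finset.Ico (0 : ℤ) K, g x * P := by
      refine hosss.trans (Finset.sum_le_sum fun x _ => ?_)
      exact mul_le_mul_of_nonneg_left (Pr_blkT_le hr h4 q x) Pr_nonneg
    rw [← Finset.sum_mul] at h20
    refine h20.trans (mul_le_mul_of_nonneg_right ?_ hP0)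
    refine hsum.trans ?_
    calc 4 * (K : ℝ) * ∑ d ∈ Finset.range K, G d ≤ 4 * K * (C1 * (2 * (K : ℝ) ^ (1 - b))) :=
          mul_le_mul_of_nonneg_left hsumG (by positivity)
      _ = 8 * C1 * ((K : ℝ) * (K : ℝ) ^ (1 - b)) := by ring
      _ = _ := by rw [hKpow]
  have hlow : c ^ 8 ≤ Pr q (WindS N) * (1 - Pr q (WindS N)) := by
    have h21 := Pool.Agent.H83.SK.WG.wind_reg_lower hc hreg hN4
    have h22 := Pool.Agent.H83.SK.WG.wind_reg_upper hc hreg hN4
    calc c ^ 8 = c ^ 4 * c ^ 4 := by ring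
      _ ≤ _ := mul_le_mul h21 h22 (by positivity) Pr_nonneg
  have hr0 : (0 : ℝ) < r := by exact_mod_cast hr
  have hNr : (0 : ℝ) < N := by exact_mod_cast hN1
  have hKN : (K : ℝ) ≤ (N : ℝ) / r := by
    rw [le_div_iff₀ hr0]
    have h23 : K * (2 * r + 1) ≤ N + 2 * r := Nat.div_mul_le_self _ _
    have h24 : K * r ≤ N := by
      by_contra hlt
      push Not at hlt
      have : K * (2 * r + 1) = 2 * (K * r) + K := by ring
      nlinarith
    exact_mod_cast h24
  have hKN' : (K : ℝ) ^ (2 - b) ≤ ((N : ℝ) / r) ^ (2 - b) :=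
    Real.rpow_le_rpow hK0.le hKN (by linarith)
  have hinv : ((r : ℝ) / N) ^ (2 - b) * ((N : ℝ) / r) ^ (2 - b) = 1 := by
    rw [← Real.mul_rpow (by positivity) (by positivity)]
    have : (r : ℝ) / N * (N / r) = 1 := by field_simp
    rw [this, Real.one_rpow]
  have hx0 : 0 ≤ ((r : ℝ) / N) ^ (2 - b) := by positivity
  have hall : c ^ 8 ≤ 8 * C1 * ((N : ℝ) / r) ^ (2 - b) * P :=
    hlow.trans (hfin.trans (by gcongr))
  have hc8 : 0 < c ^ 8 := by positivity
  rw [div_mul_eq_mul_div, le_div_iff₀ hc8]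
  calc ((r : ℝ) / N) ^ (2 - b) * c ^ 8
      ≤ ((r : ℝ) / N) ^ (2 - b) * (8 * C1 * ((N : ℝ) / r) ^ (2 - b) * P) :=
        mul_le_mul_of_nonneg_left hall hx0
    _ = 8 * C1 * P * (((r : ℝ) / N) ^ (2 - b) * ((N : ℝ) / r) ^ (2 - b)) := by ring
    _ = 8 * C1 * P := by rw [hinv, mul_one]

end Pool.Agent.H13.SK
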