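import Pool.Agent.H13.SK.TTwo
import Pool.Agent.H83.SK.P29.CircProb
import Pool.Agent.H83.SK.P29.NoArm
import Pool.Agent.H29.Sep.Ring

/-!
# Upper bound for the probability that a block is pivotal (sites, level-one inequality)
-/

open MeasureTheory ProbabilityTheory unitInterval

namespace Pool.Agent.H13.SK

open Pool.Agent.H89.Perc Pool.Agent.H85.Kes
open Pool.Agent.H83.SK (sit sv sit_mono)
open Pool.Agent.H92.SN (tSites WindS blkS BlockPiv SReg)
open Pool.Agent.H83.SK.WG (mem_tSites localOn_windS incr_windS)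
open Pool.Agent.H61.NC (Two Ring mid)
open Pool.Agent.H29.Sep (Circ circ_ring IsRing ann ring)
open Pool.Agent.H31.EX (bIdx bAll nB nB_spec bIdx_mem)

/-! ### Circuits and cuts around a block -/

theorem per_eq_on {N ρ : ℕ} {z : Vert} (h1 : (ρ : ℤ) ≤ z.1 ∧ z.1 + ρ < N)
    (h2 : (ρ : ℤ) ≤ z.2 ∧ z.2 + ρ < N) (ω : Config) {v : Vert} (hv : v ∈ ball z ρ) :
    per N ω (sv v) = ω (sv v) := by
  rw [mem_ball] at hv
  simp only [per, sv]
  rw [Int.emod_eq_of_lt (by omega) (by omega), Int.emod_eq_of_lt (by omega) (by omega)]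

theorem conn_per {N ρ : ℕ} {z : Vert} (h1 : (ρ : ℤ) ≤ z.1 ∧ z.1 + ρ < N)
    (h2 : (ρ : ℤ) ≤ z.2 ∧ z.2 + ρ < N) {ω : Config} {S : Set Vert} (hS : S ⊆ ball z ρ)
    {u v : Vert} : Conn (sit (per N ω)) S u v ↔ Conn (sit ω) S u v := by
  constructor
  · intro h
    refine h.congr fun e a b => ?_
    simp only [sit]
    rw [per_eq_on h1 h2 ω (hS a), per_eq_on h1 h2 ω (hS b)]
  · intro h
    refine h.congr fun e a b => ?_
    simp only [sit]
    rw [per_eq_on h1 h2 ω (hS a), per_eq_on h1 h2 ω (hS b)]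

theorem setB_false_le {B : Finset Edge} (ω : Config) (e : Edge) (h : setB B false ω e = true) :
    ω e = true := by
  unfold setB at h
  split_ifs at h with h1
  exact h

theorem setB_true_ge {B : Finset Edge} (ω : Config) (e : Edge) (h : ω e = true) :
    setB B true ω e = true := by
  unfold setB
  split_ifs with h1
  · rfl
  · exact h

theorem ann_subset_ring {z : Vert} {s : ℕ} (hs : 1 ≤ s) : ann z s (3 * s) ⊆ Ring z s (3 * s) := by
  rintro v ⟨h1, h2⟩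
  refine ⟨h1, fun h3 => h2 ?_⟩
  have ht1 : ((s - 1 : ℕ) : ℤ) = (s : ℤ) - 1 := by push_cast [Nat.cast_sub hs]; ring
  rw [mem_ball] at h3 ⊢
  rw [ht1] at h3
  omega

/-- An open circuit makes the block effectively open. -/
theorem open_circ {N r s : ℕ} {z : Vert} (hs : r + 1 ≤ s) (hN : r + 3 * s + 2 ≤ N)
    (h1 : 3 * (s : ℤ) ≤ z.1 ∧ z.1 + 3 * s < N) (h2 : 3 * (s : ℤ) ≤ z.2 ∧ z.2 + 3 * s < N)
    {ω : Config} (h : sit ω ∈ Circ z s) (ht : setB (zB z r) true ω ∈ WindS N) : ω ∈ WindS N := by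
  by_contra hne
  have hp : ω ∈ BPiv (zB z r) (WindS N) :=
    ⟨ht, fun h3 => hne (incr_windS N _ _ (setB_false_le ω) h3)⟩
  have hb1 : ((3 * s : ℕ) : ℤ) ≤ z.1 ∧ z.1 + (3 * s : ℕ) < N := by push_cast; exact h1
  have hb2 : ((3 * s : ℕ) : ℤ) ≤ z.2 ∧ z.2 + (3 * s : ℕ) < N := by push_cast; exact h2
  obtain ⟨u, u', hu, hu', ⟨w, hw, hc⟩, ⟨w', hw', hc'⟩, hno⟩ :=
    two_of_bpiv (t := s) (R' := 3 * s) hs (by omega) hN hp
  obtain ⟨-, hC, hmeet⟩ := circ_ring (by omega) h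
  obtain ⟨a, ha, hua⟩ := hmeet _ _ _ _ hc (sphere_subset_ball hu) (Or.inl hw)
  obtain ⟨a', ha', hua'⟩ := hmeet _ _ _ _ hc' (sphere_subset_ball hu') (Or.inl hw')
  have h3 := (hC a ha a' ha').mono_set (ann_subset_ring (z := z) (s := s) (by omega))
  have h4 := (conn_per hb1 hb2 (S := Ring z s (3 * s)) (fun x hx => hx.1)).2 h3
  exact hno ((hua.trans h4).trans hua'.symm)

/-- Absence of arms makes the block effectively closed. -/
theorem closed_circ {N r s : ℕ} {z : Vert} (hs : r + 1 ≤ s) (hN : r + 3 * s + 2 ≤ N)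
    (h1 : 3 * (s : ℤ) ≤ z.1 ∧ z.1 + 3 * s < N) (h2 : 3 * (s : ℤ) ≤ z.2 ∧ z.2 + 3 * s < N)
    {ω : Config} (h : sit ω ∉ ArmBox z s (3 * s)) (ht : ω ∈ WindS N) :
    setB (zB z r) false ω ∈ WindS N := by
  by_contra hne
  have hp : ω ∈ BPiv (zB z r) (WindS N) :=
    ⟨incr_windS N _ _ (setB_true_ge ω) ht, hne⟩
  have hb1 : ((3 * s : ℕ) : ℤ) ≤ z.1 ∧ z.1 + (3 * s : ℕ) < N := by push_cast; exact h1
  have hb2 : ((3 * s : ℕ) : ℤ) ≤ z.2 ∧ z.2 + (3 * s : ℕ) < N := by push_cast; exact h2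
  obtain ⟨u, u', hu, hu', ⟨w, hw, hc⟩, -, -⟩ :=
    two_of_bpiv (t := s) (R' := 3 * s) hs (by omega) hN hp
  apply h
  refine ⟨u, sphere_subset_ball hu, w, hw, ?_⟩
  exact (conn_per hb1 hb2 subset_rfl).1 (hc.mono_set fun x hx => hx.1)

/-! ### Locality -/

/-- Events depending on the edges inside a ball are local on its sites. -/
theorem localOn_sit_ball {A : Set Config} {z : Vert} {ρ : ℕ}
    (hA : ∀ η η' : Config, (∀ e, src e ∈ ball z ρ → tgt e ∈ ball z ρ → η e = η' e) →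
      η ∈ A → η' ∈ A) : LocalOn (zB z ρ) {ω | sit ω ∈ A} := by
  intro ω ω' h hω
  refine hA _ _ (fun e h1 h2 => ?_) hω
  have key : ∀ v ∈ ball z ρ, ω (sv v) = ω' (sv v) := by
    intro v hv
    refine h _ ?_
    rw [mem_ball] at hv
    rw [mem_zB]
    simp only [sv]
    exact ⟨trivial, by omega, by omega⟩
  simp only [sit]
  rw [key _ h1, key _ h2]

theorem localOn_circS (z : Vert) (s : ℕ) : LocalOn (zB z (3 * s)) {ω | sit ω ∈ Circ z s} := by
  refine localOn_sit_ball fun η η' h hη => ?_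
  refine Pool.Agent.H29.Sep.localOn_circ z s _ _ (fun e he => ?_) hη
  rw [Pool.Agent.H29.Sep.mem_eCirc] at he
  exact h e he.1.1 he.2.1

theorem localOn_noarmS (z : Vert) (s : ℕ) :
    LocalOn (zB z (3 * s)) {ω | sit ω ∉ ArmBox z s (3 * s)} := by
  refine localOn_sit_ball (A := (ArmBox z s (3 * s))ᶜ) fun η η' h hη hη' => hη ?_
  obtain ⟨w, hw, u, hu, hc⟩ := hη'
  exact ⟨w, hw, u, hu, hc.congr fun e h1 h2 => (h e h1 h2).symm⟩

/-! ### Blocks -/

/-- Centre of a block. -/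
def bCtr (ρ : ℕ) (b : ℤ × ℤ) : Vert := (b.1 * (2 * ρ + 1) + ρ, b.2 * (2 * ρ + 1) + ρ)

theorem ediv_iff {ρ : ℕ} (x i : ℤ) :
    x / (2 * ρ + 1) = i ↔ (i * (2 * ρ + 1) ≤ x ∧ x ≤ i * (2 * ρ + 1) + 2 * ρ) := by
  have hw : (0 : ℤ) < 2 * ρ + 1 := by positivity
  constructor
  · rintro rfl
    have h1 := Int.ediv_mul_le x hw.ne'
    have h2 := Int.lt_ediv_add_one_mul_self x hw
    have h3 : (x / (2 * ρ + 1) + 1) * (2 * (ρ : ℤ) + 1) =
        x / (2 * ρ + 1) * (2 * ρ + 1) + (2 * ρ + 1) := by ring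
    rw [h3] at h2
    exact ⟨h1, by omega⟩
  · rintro ⟨h1, h2⟩
    apply le_antisymm
    · apply Int.lt_add_one_iff.1
      apply Int.ediv_lt_of_lt_mul hw
      have h3 : (i + 1) * (2 * (ρ : ℤ) + 1) = i * (2 * ρ + 1) + (2 * ρ + 1) := by ring
      rw [h3]
      omega
    · exact (Int.le_ediv_iff_mul_le hw).2 h1

theorem mem_blkT {N ρ : ℕ} {b : ℤ × ℤ} {e : Edge} :
    e ∈ blk (tSites N) (bIdx ρ) b ↔ e ∈ tSites N ∧ src e ∈ ball (bCtr ρ b) ρ := by
  rw [mem_blk]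
  unfold bIdx
  rw [Prod.ext_iff]
  simp only [ediv_iff, mem_ball, src, bCtr]
  constructor
  · rintro ⟨h1, h2, h3⟩
    exact ⟨h1, by omega⟩
  · rintro ⟨h1, h2⟩
    exact ⟨h1, by omega⟩

theorem zB_subset_blk {N ρ : ℕ} {b : ℤ × ℤ} (h1 : (ρ : ℤ) ≤ (bCtr ρ b).1 ∧ (bCtr ρ b).1 + ρ < N)
    (h2 : (ρ : ℤ) ≤ (bCtr ρ b).2 ∧ (bCtr ρ b).2 + ρ < N) :
    zB (bCtr ρ b) ρ ⊆ blk (tSites N) (bIdx ρ) b := by
  intro e he
  rw [mem_blkT]
  refine ⟨zB_subset h1 h2 he, ?_⟩
  rw [mem_zB] at he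
  rw [mem_ball]
  simp only [src]
  omega

/-- Upper bound for the influence of a block, for large tori. -/
theorem blockUp_large {c : ℝ} (hc : 0 < c) : ∃ C κ : ℝ, 0 < C ∧ 0 < κ ∧
    ∀ (N r M : ℕ) (q : I), 1 ≤ r → 1 ≤ M → 8 * M * (6 * r + 7) ≤ N → SReg c N q →
      Pr q (BlockPiv N r) ^ 2 ≤ C * (1 / (M : ℝ)) ^ (2 + κ) := by
  classical
  obtain ⟨c1, hc1, H1⟩ := Pool.Agent.H83.SK.circ_lower c hc 1
  obtain ⟨c2, hc2, H2⟩ := Pool.Agent.H83.SK.noarm_lower c hc 1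
  obtain ⟨C, κ, hC, hκ, H3⟩ := Pool.Agent.H83.SK.armBox_decay c hc 1
  set c' := min c1 c2 with hc'
  have hc'0 : 0 < c' := lt_min hc1 hc2
  refine ⟨2 / c' * C, κ, by positivity, hκ, ?_⟩
  intro N r M q hr hM hN hreg
  set s : ℕ := r + 1 with hs
  set ρ : ℕ := 3 * s with hρ
  have hk : 2 * ρ + 1 = 6 * r + 7 := by omega
  set k : ℕ := 2 * ρ + 1 with hkdef
  rw [← hk] at hN
  have hMk : k ≤ M * k := Nat.le_mul_of_pos_left k hM
  have hN8 : 8 * (M * k) ≤ N := by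
    calc 8 * (M * k) = 8 * M * k := by ring
      _ ≤ N := hN
  have hN1 : 1 ≤ N := by omega
  have hkz : (2 * (ρ : ℤ) + 1) = k := by rw [hkdef]; push_cast; ring
  set P : ℝ := Pr q (BlockPiv N r) with hP
  have hP0 : 0 ≤ P := Pr_nonneg
  have hP1 : P ≤ 1 := Pr_le_one
  -- the blocks in the middle
  set T : Finset (ℤ × ℤ) := Finset.Ico (2 * M : ℤ) (6 * M) ×ˢ Finset.Ico (2 * M : ℤ) (6 * M)
    with hT
  have hTcard : (T.card : ℝ) = 16 * (M : ℝ) ^ 2 := by
    rw [hT, Finset.card_product, Int.card_Ico]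
    have : ((6 * M - 2 * M : ℤ)).toNat = 4 * M := by omega
    rw [this]
    push_cast
    ring
  have hctr : ∀ x : ℤ, 2 * (M : ℤ) ≤ x → x < 6 * M →
      2 * ((M * k : ℕ) : ℤ) ≤ x * (2 * ρ + 1) ∧
        x * (2 * ρ + 1) + (M * k : ℕ) + (2 * ρ + 1) ≤ N := by
    intro x hx1 hx2
    rw [hkz]
    have hN8' : 8 * ((M * k : ℕ) : ℤ) ≤ N := by exact_mod_cast hN8
    have hk0 : (0 : ℤ) ≤ k := by positivity
    have e1 : 2 * (M : ℤ) * k ≤ x * k := mul_le_mul_of_nonneg_right hx1 hk0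
    have e2 : x * k ≤ (6 * M - 1) * k := mul_le_mul_of_nonneg_right (by omega) hk0
    have hMk0 : (0 : ℤ) ≤ M * k := by positivity
    push_cast at hN8' ⊢
    constructor
    · linarith
    · nlinarith
  have hmemT : ∀ b ∈ T, (2 * (M : ℤ) ≤ b.1 ∧ b.1 < 6 * M) ∧ (2 * (M : ℤ) ≤ b.2 ∧ b.2 < 6 * M) := by
    intro b hb
    rw [hT, Finset.mem_product, Finset.mem_Ico, Finset.mem_Ico] at hb
    exact hb
  have hMk' : (2 * (ρ : ℤ) + 1) ≤ (M * k : ℕ) := by rw [hkz]; exact_mod_cast hMk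
  have hpos : ∀ b ∈ T, ((M * k : ℕ) : ℤ) < (bCtr ρ b).1 ∧ (bCtr ρ b).1 + (M * k : ℕ) < N ∧
      ((M * k : ℕ) : ℤ) < (bCtr ρ b).2 ∧ (bCtr ρ b).2 + (M * k : ℕ) < N := by
    intro b hb
    obtain ⟨⟨a1, a2⟩, ⟨a3, a4⟩⟩ := hmemT b hb
    have b1 := hctr b.1 a1 a2
    have b2 := hctr b.2 a3 a4
    simp only [bCtr]
    omega
  have hsR : r + 3 * s + 2 ≤ N := by omega
  have hρz : ((3 * s : ℕ) : ℤ) = 3 * (s : ℤ) := by push_cast; ring
  have hK : ∀ e ∈ tSites N, bIdx ρ e ∈ bAll N ρ := fun e he => bIdx_mem hN1 (tSites_subset N he)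
  have hTK : T ⊆ bAll N ρ := by
    intro b hb
    obtain ⟨⟨a1, a2⟩, ⟨a3, a4⟩⟩ := hmemT b hb
    obtain ⟨-, -, h3⟩ := nB_spec (r := ρ) hN1
    rw [hkz] at h3
    have h4 : (6 * M : ℤ) ≤ nB N ρ := by
      by_contra hlt
      push Not at hlt
      have h5 : (nB N ρ : ℤ) * k ≤ (6 * M) * k :=
        mul_le_mul_of_nonneg_right hlt.le (by positivity)
      have hN8' : 8 * ((M : ℤ) * k) ≤ N := by exact_mod_cast hN8
      have h6 : (0 : ℤ) < M * k := by
        have : 0 < M * k := by omega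
        exact_mod_cast this
      nlinarith
    unfold bAll
    rw [Finset.mem_product, Finset.mem_Ico, Finset.mem_Ico]
    omega
  have hmain := block_l1_event (s := tSites N) (β := bIdx ρ) (R := tRule N (bIdx ρ))
    (localOn_windS hN1) (incr_windS N) hK (tRule_mem hK) hTK
    (tRule_det hN1 hK)
    (fun b => {ω | sit ω ∈ Circ (bCtr ρ b) s}) (fun b => {ω | sit ω ∉ ArmBox (bCtr ρ b) s (3 * s)})
    (fun b => zB (bCtr ρ b) r)
    (fun b hb => by
      obtain ⟨p1, p2, p3, p4⟩ := hpos b hb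
      exact (localOn_circS _ s).mono (zB_subset_blk (by omega) (by omega)))
    (fun b _ => Pool.Agent.H83.SK.incr_sit (Pool.Agent.H29.Sep.incr_circ _ s))
    (fun b hb => by
      obtain ⟨p1, p2, p3, p4⟩ := hpos b hb
      exact (localOn_noarmS _ s).mono (zB_subset_blk (by omega) (by omega)))
    (fun b _ => by
      have h := Pool.Agent.H83.SK.incr_sit (incr_armBox (bCtr ρ b) s (3 * s))
      have h2 : {ω : Config | sit ω ∉ ArmBox (bCtr ρ b) s (3 * s)}ᶜ =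
          {ω | sit ω ∈ ArmBox (bCtr ρ b) s (3 * s)} := by
        ext ω
        simp
      rw [h2]
      exact h)
    (fun b hb ω hω => by
      obtain ⟨p1, p2, p3, p4⟩ := hpos b hb
      exact open_circ (le_refl s) hsR (by omega) (by omega) hω)
    (fun b hb ω hω => by
      obtain ⟨p1, p2, p3, p4⟩ := hpos b hb
      exact closed_circ (le_refl s) hsR (by omega) (by omega) hω)
    q hc'0
    (fun b _ => (min_le_left c1 c2).trans (H1 N q hN1 hreg (bCtr ρ b) s (by omega) (by omega)))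
    (fun b _ => (min_le_right c1 c2).trans (H2 N q hN1 hreg (bCtr ρ b) s (by omega) (by omega)))
  have hleft : ∑ b ∈ T, Pr q (BPiv (zB (bCtr ρ b) r) (WindS N)) = T.card * P := by
    rw [Finset.sum_congr rfl fun b hb => Pr_bpiv_zB hr (by omega) q
      (by obtain ⟨p1, p2, p3, p4⟩ := hpos b hb; omega)
      (by obtain ⟨p1, p2, p3, p4⟩ := hpos b hb; omega), Finset.sum_const, nsmul_eq_mul]
  have hM0 : (0 : ℝ) < M := by exact_mod_cast hM
  have hrev : ∀ b ∈ T, Pr q {ω | b ∈ revealed (tSites N) (bIdx ρ) (tRule N (bIdx ρ)) ω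
      (bAll N ρ).card} ≤ C * (1 / (M : ℝ)) ^ κ := by
    intro b hb
    obtain ⟨p1, p2, p3, p4⟩ := hpos b hb
    have h1 : ρ + 1 ≤ M * k := by omega
    have h2 := tRule_arm (N := N) (β := bIdx ρ) (b := b) (z := bCtr ρ b) (ρ := ρ) (R := M * k)
      (fun e he => (mem_blkT.1 he).2) h1 ⟨p1, p2⟩ ⟨p3, p4⟩ (bAll N ρ).card
    refine (Pr_mono h2).trans ((H3 N q hN1 hreg (bCtr ρ b) (ρ + 1) (M * k) (by omega) h1
      (by omega)).trans ?_)
    refine mul_le_mul_of_nonneg_left (Real.rpow_le_rpow (by positivity) ?_ hκ.le) hC.le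
    have hk0 : (0 : ℝ) < k := by
      have : 0 < k := by omega
      exact_mod_cast this
    rw [div_le_div_iff₀ (by positivity) hM0]
    have h5 : (((ρ + 1 : ℕ) : ℝ)) ≤ k := by exact_mod_cast (by omega : ρ + 1 ≤ k)
    push_cast at h5 ⊢
    nlinarith
  rw [hleft] at hmain
  have hsum : ∑ b ∈ T, Pr q {ω | b ∈ revealed (tSites N) (bIdx ρ) (tRule N (bIdx ρ)) ω
      (bAll N ρ).card} ≤ T.card * (C * (1 / (M : ℝ)) ^ κ) := by
    refine (Finset.sum_le_sum hrev).trans ?_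
    rw [Finset.sum_const, nsmul_eq_mul]
  have hTpos : (0 : ℝ) < T.card := by rw [hTcard]; positivity
  have hsq : (T.card * P) ^ 2 ≤ 2 / c' * (T.card * (C * (1 / (M : ℝ)) ^ κ)) :=
    hmain.trans (mul_le_mul_of_nonneg_left hsum (by positivity))
  have h7 : (T.card : ℝ) * P ^ 2 ≤ 2 / c' * (C * (1 / (M : ℝ)) ^ κ) := by
    have h8 : (T.card : ℝ) * ((T.card : ℝ) * P ^ 2) ≤
        T.card * (2 / c' * (C * (1 / (M : ℝ)) ^ κ)) := by
      calc (T.card : ℝ) * ((T.card : ℝ) * P ^ 2) = (T.card * P) ^ 2 := by ring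
        _ ≤ _ := hsq
        _ = _ := by ring
    exact le_of_mul_le_mul_left h8 hTpos
  have h9 : (M : ℝ) ^ 2 * P ^ 2 ≤ 2 / c' * (C * (1 / (M : ℝ)) ^ κ) := by
    refine le_trans ?_ h7
    rw [hTcard]
    have : 0 ≤ (M : ℝ) ^ 2 * P ^ 2 := by positivity
    linarith
  have h10 : (1 / (M : ℝ)) ^ (2 + κ) = (1 / (M : ℝ)) ^ κ / (M : ℝ) ^ 2 := by
    rw [Real.rpow_add (by positivity), Real.rpow_two]
    field_simp
  rw [h10, ← mul_div_assoc, le_div_iff₀ (by positivity)]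
  calc P ^ 2 * (M : ℝ) ^ 2 = (M : ℝ) ^ 2 * P ^ 2 := by ring
    _ ≤ _ := h9
    _ = _ := by ring

/-- **Level-one bound**: the probability that a block of radius `r` is pivotal for the winding of
the torus of side `N` is at most `C (r / N) ^ (1 + δ)`. -/
theorem blockUp : Pool.Agent.H92.SN.BlockUp := by
  intro c hc
  obtain ⟨C, κ, hC, hκ, H⟩ := blockUp_large hc
  refine ⟨(1 + C) * 208 ^ (1 + κ / 2), κ / 2, by positivity, by positivity, ?_⟩
  intro N r q hr h4 hreg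
  have hr0 : (0 : ℝ) < r := by exact_mod_cast hr
  have hN0 : (0 : ℝ) < N := by exact_mod_cast (by omega : 0 < N)
  set P : ℝ := Pr q (BlockPiv N r) with hP
  have hP0 : 0 ≤ P := Pr_nonneg
  have hP1 : P ≤ 1 := Pr_le_one
  set x : ℝ := 208 * ((r : ℝ) / N) with hx
  have hx0 : 0 < x := by positivity
  have hgoal : P ≤ (1 + C) * x ^ (1 + κ / 2) := by
    rcases lt_or_ge N (16 * (6 * r + 7)) with hlt | hge
    · have h1 : 1 ≤ x := by
        rw [hx, ← mul_div_assoc, one_le_div hN0]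
        have : N ≤ 208 * r := by omega
        exact_mod_cast this
      have h2 : 1 ≤ x ^ (1 + κ / 2) := Real.one_le_rpow h1 (by positivity)
      nlinarith
    · set k : ℕ := 6 * r + 7 with hk
      set M : ℕ := N / (8 * k) with hM
      have hk0 : 0 < 8 * k := by omega
      have h1 : M * (8 * k) ≤ N := Nat.div_mul_le_self _ _
      have h2 : N < (M + 1) * (8 * k) := by
        have h := Nat.lt_mul_div_succ N hk0
        calc N < 8 * k * (N / (8 * k) + 1) := h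
          _ = _ := Nat.mul_comm _ _
      have hM2 : 2 ≤ M := by
        rw [hM, Nat.le_div_iff_mul_le hk0]
        omega
      have h3 := H N r M q hr (by omega) (by calc 8 * M * k = M * (8 * k) := by ring
                                                _ ≤ N := h1) hreg
      have hM0 : (0 : ℝ) < M := by exact_mod_cast (by omega : 0 < M)
      have h5 : 1 / (M : ℝ) ≤ x := by
        have h6 : N ≤ M * (208 * r) := by
          have h7 : (M + 1) * (8 * k) ≤ M * (16 * k) := by nlinarith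
          have h8 : M * (16 * k) ≤ M * (208 * r) := Nat.mul_le_mul_left _ (by omega)
          omega
        have h6' : (N : ℝ) ≤ M * (208 * r) := by exact_mod_cast h6
        rw [hx, div_le_iff₀ hM0]
        have h9 : 208 * ((r : ℝ) / N) * M = M * (208 * r) / N := by ring
        rw [h9, le_div_iff₀ hN0]
        linarith
      have h6 : (1 / (M : ℝ)) ^ (2 + κ) ≤ x ^ (2 + κ) :=
        Real.rpow_le_rpow (by positivity) h5 (by positivity)
      have h7 : x ^ (2 + κ) = (x ^ (1 + κ / 2)) ^ 2 := by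
        rw [← Real.rpow_natCast, ← Real.rpow_mul hx0.le]
        congr 1
        push_cast
        ring
      have h8 : P ^ 2 ≤ ((1 + C) * x ^ (1 + κ / 2)) ^ 2 := by
        have h9 : P ^ 2 ≤ C * (x ^ (1 + κ / 2)) ^ 2 := by
          rw [← h7]
          exact h3.trans (mul_le_mul_of_nonneg_left h6 hC.le)
        have h10 : 0 ≤ (x ^ (1 + κ / 2)) ^ 2 := by positivity
        rw [mul_pow]
        nlinarith
      exact le_of_sq_le_sq h8 (by positivity)
  rw [hx, Real.mul_rpow (by norm_num) (by positivity)] at hgoal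
  calc P ≤ _ := hgoal
    _ = _ := by ring

end Pool.Agent.H13.SK
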