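import Pool.Agent.H13.SK.KExp

/-!
# The cluster density
-/

set_option autoImplicit false

open MeasureTheory ProbabilityTheory unitInterval Filter Topology

namespace Pool.Agent.H13.SK

open Pool.Agent.H89.Perc Pool.Agent.H92.SN
open Pool.Agent.H83.SK (sv sit)

/-- The derivative of the expected number of clusters. -/
noncomputable def DN (n : ℕ) (q : I) : ℝ := ∑ e ∈ tSites n, dS n q (src e)

theorem abs_DN_le (n : ℕ) (q : I) : |DN n q| ≤ 4 * (n : ℝ) ^ 2 := by
  unfold DN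
  refine (Finset.abs_sum_le_sum_abs _ _).trans ?_
  refine (Finset.sum_le_sum fun e _ => abs_dS_le n q (src e)).trans ?_
  rw [Finset.sum_const, nsmul_eq_mul, card_tSites]
  linarith

theorem nb_mem_ball (v : Vert) {m : ℕ} (hm : 1 ≤ m) (i : ℕ) : nb v i ∈ ball v m :=
  (nb_Nb v i).mem_ball hm

theorem nbc_interior {n m : ℕ} (hm : 1 ≤ m) {v : Vert} (h : ball v m ⊆ bV n) : nbc n v = 4 := by
  classical
  unfold nbc
  have h1 : ∀ i : ℕ, i ∈ Finset.range 4 → nb v i ∈ bV n := fun i _ => h (nb_mem_ball v hm i)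
  rw [Finset.sum_congr rfl fun i hi => if_pos (h1 i hi)]
  simp

/-- The error of the approximation in the ball of radius `m`. -/
noncomputable def errS (m : ℕ) (q : I) : ℝ :=
  ∑ i ∈ Finset.Icc 1 3, (Pool.Agent.H83.SK.Pr q (Dn Set.univ 0 i) - tl i m q)

theorem errS_nonneg (m : ℕ) (q : I) : 0 ≤ errS m q :=
  Finset.sum_nonneg fun i _ => sub_nonneg.2 (tl_le i m q)

theorem errS_tendsto (q : I) : Tendsto (fun m => errS m q) atTop (𝓝 0) := by
  have h : Tendsto (fun m => ∑ i ∈ Finset.Icc 1 3,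
      (Pool.Agent.H83.SK.Pr q (Dn Set.univ 0 i) - tl i m q)) atTop
      (𝓝 (∑ i ∈ Finset.Icc 1 3, (Pool.Agent.H83.SK.Pr q (Dn Set.univ 0 i) -
        Pool.Agent.H83.SK.Pr q (Dn Set.univ 0 i)))) :=
    tendsto_finsetSum _ fun i _ => (Dn_univ_tendsto q 0 i).const_sub _
  simp only [sub_self, Finset.sum_const_zero] at h
  exact h

theorem dS_interior {n m : ℕ} (hm : 1 ≤ m) {v : Vert} (h : ball v m ⊆ bV n) (q : I) :
    |dS n q v - (1 - 4 * q + tau q)| ≤ errS m q := by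
  have h1 : dS n q v - (1 - 4 * q + tau q) = -∑ i ∈ Finset.Icc 1 3,
      (Pool.Agent.H83.SK.Pr q (Dn Set.univ 0 i) - Pool.Agent.H83.SK.Pr q (Dn (bV n) v i)) := by
    unfold dS tau
    rw [nbc_interior hm h, Finset.sum_sub_distrib]
    ring
  have h2 : ∀ i, tl i m q ≤ Pool.Agent.H83.SK.Pr q (Dn (bV n) v i) := fun i => by
    rw [← Pr_Dn_ball q v m i]
    exact Pool.Agent.H83.SK.Pr_mono (Dn_mono h v i)
  have h3 : ∀ i, Pool.Agent.H83.SK.Pr q (Dn (bV n) v i) ≤
      Pool.Agent.H83.SK.Pr q (Dn Set.univ 0 i) := fun i => by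
    rw [← Pr_Dn_univ q v i]
    exact Pool.Agent.H83.SK.Pr_mono (Dn_mono (Set.subset_univ _) v i)
  rw [h1, abs_neg, abs_of_nonneg (Finset.sum_nonneg fun i _ => sub_nonneg.2 (h3 i))]
  unfold errS
  exact Finset.sum_le_sum fun i _ => by linarith [h2 i]

theorem abs_tgt_le (q : I) : |1 - 4 * (q : ℝ) + tau q| ≤ 4 := by
  have h1 := tau_nonneg q
  have h2 := tau_le_three q
  have h3 := q.2.1
  have h4 := q.2.2
  rw [abs_le]
  constructor <;> linarith

theorem DN_near {n m : ℕ} (hm : 1 ≤ m) (hn : 2 * m ≤ n) (q : I) :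
    |DN n q - (n : ℝ) ^ 2 * (1 - 4 * q + tau q)| ≤ (n : ℝ) ^ 2 * errS m q + 32 * m * n := by
  classical
  obtain ⟨t, ht⟩ : ∃ t : ℝ, t = 1 - 4 * q + tau q := ⟨_, rfl⟩
  rw [← ht]
  have habs : |t| ≤ 4 := by rw [ht]; exact abs_tgt_le q
  set F : Finset Edge := Finset.Ico (m : ℤ) (n - m) ×ˢ Finset.Ico (m : ℤ) (n - m) ×ˢ {false} with hF
  have hsub : F ⊆ tSites n := by
    intro e he
    simp only [hF, tSites, Finset.mem_product, Finset.mem_Ico, Finset.mem_singleton] at he ⊢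
    exact ⟨by omega, by omega, he.2.2⟩
  have hcard : (F.card : ℝ) = ((n : ℝ) - 2 * m) ^ 2 := by
    rw [hF, Finset.card_product, Finset.card_product, Int.card_Ico, Finset.card_singleton]
    have e1 : ((n : ℤ) - m - m).toNat = n - 2 * m := by omega
    rw [e1]
    push_cast [Nat.cast_sub hn]
    ring
  have hint : ∀ e ∈ F, |dS n q (src e) - t| ≤ errS m q := by
    intro e he
    rw [ht]
    refine dS_interior hm ?_ q
    intro w hw
    rw [mem_ball] at hw
    simp only [hF, Finset.mem_product, Finset.mem_Ico, Finset.mem_singleton] at he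
    simp only [bV, Set.mem_ofPred_eq]
    simp only [src] at hw
    omega
  have h1 : DN n q - (n : ℝ) ^ 2 * t = ∑ e ∈ tSites n, (dS n q (src e) - t) := by
    rw [Finset.sum_sub_distrib, Finset.sum_const, nsmul_eq_mul, card_tSites]
    rfl
  rw [h1, ← Finset.sum_sdiff hsub]
  have h2 : |∑ e ∈ tSites n \ F, (dS n q (src e) - t)| ≤ 32 * m * n := by
    refine (Finset.abs_sum_le_sum_abs _ _).trans ?_
    have h3 : ∑ e ∈ tSites n \ F, |dS n q (src e) - t| ≤ ∑ e ∈ tSites n \ F, (8 : ℝ) := by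
      refine Finset.sum_le_sum fun e _ => ?_
      have h4 := abs_dS_le n q (src e)
      calc |dS n q (src e) - t| ≤ |dS n q (src e)| + |t| := abs_sub _ _
        _ ≤ 8 := by linarith
    refine h3.trans ?_
    rw [Finset.sum_const, nsmul_eq_mul]
    have h5 : ((tSites n \ F).card : ℝ) = (n : ℝ) ^ 2 - ((n : ℝ) - 2 * m) ^ 2 := by
      rw [Finset.card_sdiff_of_subset hsub, Nat.cast_sub (Finset.card_le_card hsub), card_tSites,
        hcard]
    rw [h5]
    have h6 : 0 ≤ (m : ℝ) ^ 2 := sq_nonneg _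
    nlinarith
  have h3 : |∑ e ∈ F, (dS n q (src e) - t)| ≤ (n : ℝ) ^ 2 * errS m q := by
    refine (Finset.abs_sum_le_sum_abs _ _).trans ((Finset.sum_le_sum hint).trans ?_)
    rw [Finset.sum_const, nsmul_eq_mul, hcard]
    refine mul_le_mul_of_nonneg_right ?_ (errS_nonneg m q)
    have h4 : (2 * m : ℝ) ≤ n := by exact_mod_cast hn
    have h5 : (0 : ℝ) ≤ m := Nat.cast_nonneg m
    nlinarith
  calc |∑ e ∈ tSites n \ F, (dS n q (src e) - t) + ∑ e ∈ F, (dS n q (src e) - t)| ≤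
      |∑ e ∈ tSites n \ F, (dS n q (src e) - t)| + |∑ e ∈ F, (dS n q (src e) - t)| :=
        abs_add_le _ _
    _ ≤ _ := by linarith

theorem DN_tendsto (q : I) :
    Tendsto (fun n : ℕ => DN n q / (n : ℝ) ^ 2) atTop (𝓝 (1 - 4 * q + tau q)) := by
  rw [Metric.tendsto_atTop]
  intro ε hε
  obtain ⟨m, hm1, hm2⟩ := (((errS_tendsto q).eventually (gt_mem_nhds (half_pos hε))).and
    (eventually_ge_atTop 1)).exists
  have hlim : Tendsto (fun n : ℕ => 32 * (m : ℝ) * (1 / (n : ℝ))) atTop (𝓝 (32 * m * 0)) :=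
    tendsto_one_div_atTop_nhds_zero_nat.const_mul _
  rw [mul_zero] at hlim
  obtain ⟨n₀, hn₀⟩ := eventually_atTop.1 ((hlim.eventually (gt_mem_nhds (half_pos hε))).and
    (eventually_ge_atTop (2 * m)))
  refine ⟨n₀, fun n hn => ?_⟩
  obtain ⟨h1, h2⟩ := hn₀ n hn
  have hn0 : (0 : ℝ) < n := by
    have : 0 < n := by omega
    exact_mod_cast this
  have h3 := DN_near hm2 h2 q
  rw [Real.dist_eq]
  have h4 : DN n q / (n : ℝ) ^ 2 - (1 - 4 * q + tau q) =
      (DN n q - (n : ℝ) ^ 2 * (1 - 4 * q + tau q)) / (n : ℝ) ^ 2 := by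
    field_simp
  rw [h4, abs_div, abs_of_pos (by positivity : (0 : ℝ) < (n : ℝ) ^ 2), div_lt_iff₀ (by positivity)]
  refine h3.trans_lt ?_
  have h5 : 32 * (m : ℝ) * n = 32 * (m : ℝ) * (1 / (n : ℝ)) * (n : ℝ) ^ 2 := by
    field_simp
  rw [h5]
  have h6 : (0 : ℝ) < (n : ℝ) ^ 2 := by positivity
  nlinarith

/-- The cluster density. -/
noncomputable def kapS (p : ℝ) : ℝ := ∫ x in (0 : ℝ)..p, (1 - 4 * x + tauR x)

theorem EKO_eq_integral (n : ℕ) (p : I) :
    ∃ g : ℝ → ℝ, Continuous g ∧ (∀ q : I, g q = DN n q) ∧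
      EKO n p = ∫ x in (0 : ℝ)..p, g x := by
  obtain ⟨g, hg⟩ : ∃ g : ℝ → ℝ, g = fun x => ∑ e ∈ tSites n, Pool.Agent.Perc.Ex x (tSites n)
    (Pool.Agent.Perc.DD e (fun S => (KO (ofS S) (bV n) : ℝ))) := ⟨_, rfl⟩
  have hd : ∀ x : ℝ, HasDerivAt (EKO n) (g x) x := fun x => by
    rw [hg]
    exact Pool.Agent.Perc.hasDerivAt_Ex (tSites n) _ x
  have hc : Continuous g := by
    rw [hg]
    exact continuous_finsetSum _ fun e _ => Pool.Agent.Perc.continuous_Ex _ _
  refine ⟨g, hc, fun q => (hd q).unique (EKO_hasDerivAt n q), ?_⟩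
  rw [intervalIntegral.integral_eq_sub_of_hasDerivAt (fun x _ => hd x)
    (hc.intervalIntegrable _ _), EKO_zero, sub_zero]

/-- The cluster density is the limit of the expected number of clusters per site. -/
theorem EKO_tendsto (p : I) :
    Tendsto (fun n : ℕ => EKO n p / (n : ℝ) ^ 2) atTop (𝓝 (kapS p)) := by
  choose g hc hg hi using fun n => EKO_eq_integral n p
  have h1 : ∀ n : ℕ, EKO n p / (n : ℝ) ^ 2 = ∫ x in (0 : ℝ)..p, g n x / (n : ℝ) ^ 2 := by
    intro n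
    rw [hi n, intervalIntegral.integral_div]
  simp only [h1]
  unfold kapS
  refine intervalIntegral.tendsto_integral_filter_of_dominated_convergence (fun _ => (4 : ℝ))
    ?_ ?_ ?_ ?_
  · exact Eventually.of_forall fun n => ((hc n).div_const _).aestronglyMeasurable
  · refine Eventually.of_forall fun n => Eventually.of_forall fun x hx => ?_
    rw [Set.uIoc_of_le p.2.1] at hx
    have hx' : x ∈ I := ⟨hx.1.le, hx.2.trans p.2.2⟩
    have h2 := hg n ⟨x, hx'⟩
    have h3 := abs_DN_le n ⟨x, hx'⟩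
    simp only at h2
    rw [h2, Real.norm_eq_abs, abs_div, abs_of_nonneg (by positivity : (0 : ℝ) ≤ (n : ℝ) ^ 2)]
    exact div_le_of_le_mul₀ (by positivity) (by norm_num) h3
  · exact _root_.intervalIntegrable_const
  · refine Eventually.of_forall fun x hx => ?_
    rw [Set.uIoc_of_le p.2.1] at hx
    have hx' : x ∈ I := ⟨hx.1.le, hx.2.trans p.2.2⟩
    have h2 : ∀ n, g n x = DN n ⟨x, hx'⟩ := fun n => hg n ⟨x, hx'⟩
    simp only [h2]
    have h3 : tauR x = tau ⟨x, hx'⟩ := by unfold tauR; rw [dif_pos hx']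
    rw [h3]
    exact DN_tendsto ⟨x, hx'⟩

/-! ### The derivative -/

theorem tauR_eq (q : I) : tauR q = tau q := by
  unfold tauR
  rw [dif_pos q.2]

theorem tauR_continuousOn (h : Continuous tau) : ContinuousOn tauR (Set.Icc 0 1) := by
  rw [continuousOn_iff_continuous_domRestrict]
  have : (Set.Icc (0 : ℝ) 1).domRestrict tauR = tau := by
    funext q
    exact tauR_eq q
  rw [this]
  exact h

theorem kapS_hasDerivAt (h : Continuous tau) {x : ℝ} (h0 : 0 < x) (h1 : x < 1) :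
    HasDerivAt kapS (1 - 4 * x + tauR x) x := by
  have hcon : ContinuousOn (fun x : ℝ => 1 - 4 * x + tauR x) (Set.Icc 0 1) :=
    (Continuous.continuousOn (by fun_prop)).add (tauR_continuousOn h)
  have hco : ∀ y ∈ Set.Ioo (0 : ℝ) 1, ContinuousAt (fun x : ℝ => 1 - 4 * x + tauR x) y :=
    fun y hy => hcon.continuousAt (Icc_mem_nhds hy.1 hy.2)
  unfold kapS
  refine intervalIntegral.integral_hasDerivAt_right ?_ ?_ (hco x ⟨h0, h1⟩)
  · refine ContinuousOn.intervalIntegrable ?_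
    rw [Set.uIcc_of_le h0.le]
    exact hcon.mono (Set.Icc_subset_Icc_right h1.le)
  · exact ContinuousAt.stronglyMeasurableAtFilter isOpen_Ioo hco x ⟨h0, h1⟩

end Pool.Agent.H13.SK
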