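import Pool.Agent.H13.SK.Dyad

/-!
# The second order remainder of the cluster density
-/

set_option autoImplicit false

open Filter Topology

namespace Pool.Agent.H13.SK

/-- Remainder of the second order Taylor expansion. -/
noncomputable def Rm2 (κ : ℝ → ℝ) (x₀ p : ℝ) : ℝ :=
  κ p - κ x₀ - deriv κ x₀ * (p - x₀) - 1 / 2 * deriv (deriv κ) x₀ * (p - x₀) ^ 2

/-- **The remainder of `κ` from the dyadic approximations of `τ`**, where `κ' = 1 - 4 x + τ`. -/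
theorem rem_of_win {a : ℕ → ℝ} {c₀ δ₀ C₁ δ₁ : ℝ} (hc₀ : 0 < c₀) (hδ₀ : 0 < δ₀) (hC₁ : 0 < C₁)
    (hδ₁ : 0 < δ₁) (hG : Grow c₀ δ₀ 1 a)
    (hU : ∀ m n : ℕ, 1 ≤ m → m ≤ n → a n ≤ C₁ * ((m : ℝ) / n) ^ (1 + δ₁) * a m)
    (hpos : ∀ n, 1 ≤ n → 0 < a n) (hanti : ∀ m n, 1 ≤ m → m ≤ n → a n ≤ a m)
    {κ τ : ℝ → ℝ} {x₀ η : ℝ} (hη : 0 < η)
    (hκ : ∀ x : ℝ, |x - x₀| < η → HasDerivAt κ (1 - 4 * x + τ x) x)
    {c C : ℝ} (hc : 0 < c) (hC : 0 < C) {k₀ : ℕ} {b : ℕ → ℝ}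
    (h : ∀ k, k₀ ≤ k → ∀ t : ℝ, |t| ≤ c * (1 / uu a k) →
      |τ (x₀ + t) - τ x₀ - b k * t| ≤ C * (a (2 ^ k) + t ^ 2 * SumB a (2 ^ k))) :
    (∀ᶠ x in 𝓝 x₀, DifferentiableAt ℝ κ x) ∧ DifferentiableAt ℝ (deriv κ) x₀ ∧
    ∃ cr > (0 : ℝ), ∃ Cr > (0 : ℝ), ∃ n₀ : ℕ, ∀ n : ℕ, n₀ ≤ n → 1 ≤ n → ∀ x : ℝ, 0 < x →
      x * ((n : ℝ) ^ 2 * a n) ≤ cr →
      max |Rm2 κ x₀ (x₀ + x)| |Rm2 κ x₀ (x₀ - x)| ≤
        Cr * (1 / (n : ℝ) ^ 2 + (1 / ((n : ℝ) ^ 2 * a n)) ^ 3 * SumB a n) := by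
  obtain ⟨⟨β, C', hC', hβ⟩, hlim⟩ := dyadS hc₀ hδ₀ hC₁ hδ₁ hG hU hpos hanti
    (f := fun t => τ (x₀ + t) - τ x₀) hc hC h
  have hu : ∀ k, 0 < uu a k := uu_pos hpos
  have ha : ∀ k, 0 < a (2 ^ k) := fun k => hpos _ Nat.one_le_two_pow
  have hu4 : ∀ k, uu a (k + 1) ≤ 4 * uu a k := by
    intro k
    unfold uu
    have h1 : a (2 ^ (k + 1)) ≤ a (2 ^ k) :=
      hanti _ _ Nat.one_le_two_pow (Nat.pow_le_pow_right (by norm_num) (by omega))
    calc ((2 : ℝ) ^ (k + 1)) ^ 2 * a (2 ^ (k + 1)) ≤ ((2 : ℝ) ^ (k + 1)) ^ 2 * a (2 ^ k) := by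
          gcongr
      _ = _ := by ring
  -- `u` tends to infinity
  have hb1 : 1 < (2 : ℝ) ^ δ₀ := Real.one_lt_rpow (by norm_num) hδ₀
  have hutop : Tendsto (uu a) atTop atTop := by
    have h1 : Tendsto (fun k : ℕ => c₀ * uu a 0 * ((2 : ℝ) ^ δ₀) ^ k) atTop atTop :=
      (tendsto_pow_atTop_atTop_of_one_lt hb1).const_mul_atTop (mul_pos hc₀ (hu 0))
    refine tendsto_atTop_mono (fun k => ?_) h1
    have h2 := uu_grow hG 0 k
    rw [Nat.zero_add] at h2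
    calc c₀ * uu a 0 * ((2 : ℝ) ^ δ₀) ^ k = c₀ * ((2 : ℝ) ^ δ₀) ^ k * uu a 0 := by ring
      _ ≤ _ := h2
  have hder : ∀ x : ℝ, |x - x₀| < η → deriv κ x = 1 - 4 * x + τ x := fun x hx =>
    (hκ x hx).deriv
  have hd0 : deriv κ x₀ = 1 - 4 * x₀ + τ x₀ := hder x₀ (by simpa using hη)
  -- second derivative
  have hdd : HasDerivAt (deriv κ) (β - 4) x₀ := by
    rw [hasDerivAt_iff_isLittleO, Asymptotics.isLittleO_iff]
    intro ε hε
    obtain ⟨M, hM⟩ : ∃ M : ℝ, M = C' * (4 / c) := ⟨_, rfl⟩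
    have hM0 : 0 < M := by rw [hM]; positivity
    obtain ⟨k₁, hk₁⟩ := eventually_atTop.1 (hlim (Iio_mem_nhds (by positivity : 0 < ε / M)))
    obtain ⟨K, hK⟩ : ∃ K : ℕ, K = max k₀ k₁ := ⟨_, rfl⟩
    have hr : 0 < min η (c * (1 / uu a K)) := lt_min hη (by have := hu K; positivity)
    filter_upwards [Metric.ball_mem_nhds x₀ hr] with x hx
    rw [Metric.mem_ball, Real.dist_eq] at hx
    have hxη := hx.trans_le (min_le_left _ _)
    have hxc := hx.trans_le (min_le_right _ _)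
    rw [hder x hxη, hd0, smul_eq_mul, Real.norm_eq_abs, Real.norm_eq_abs]
    obtain ⟨t, ht⟩ : ∃ t : ℝ, t = x - x₀ := ⟨_, rfl⟩
    have hxt : x = x₀ + t := by rw [ht]; ring
    rw [← ht] at hxc ⊢
    rw [hxt]
    have e1 : 1 - 4 * (x₀ + t) + τ (x₀ + t) - (1 - 4 * x₀ + τ x₀) - t * (β - 4) =
        τ (x₀ + t) - τ x₀ - β * t := by ring
    rw [e1]
    rcases eq_or_ne t 0 with h0 | h0
    · rw [h0]
      simp
    have ht0 : 0 < |t| := abs_pos.2 h0
    -- the last scale with `t` in the window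
    classical
    have hex : ∃ k : ℕ, K ≤ k ∧ c * (1 / uu a k) < |t| := by
      obtain ⟨k, hk1, hk2⟩ := ((hutop.eventually_gt_atTop (c / |t|)).and
        (eventually_ge_atTop K)).exists
      refine ⟨k, hk2, ?_⟩
      have := hu k
      rw [mul_one_div, div_lt_iff₀ this]
      rw [div_lt_iff₀ ht0] at hk1
      linarith
    have hspec := Nat.find_spec hex
    have hne : Nat.find hex ≠ K := by
      intro he
      rw [he] at hspec
      linarith [hspec.2]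
    obtain ⟨k, hk⟩ : ∃ k, Nat.find hex = k + 1 := ⟨Nat.find hex - 1, by omega⟩
    have hmin := Nat.find_min hex (m := k) (by omega)
    rw [hk] at hspec
    have hKk : K ≤ k := by omega
    have hkt : |t| ≤ c * (1 / uu a k) := by
      by_contra hlt
      push Not at hlt
      exact hmin ⟨hKk, hlt⟩
    have h1 := hβ k (by omega) t hkt
    have h2 : (a (2 ^ k) + (1 / uu a k) ^ 2 * SumB a (2 ^ k)) * uu a k < ε / M :=
      hk₁ k (by omega)
    have h3 : 1 ≤ 4 / c * (|t| * uu a k) := by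
      have h4 := hspec.2
      have h5 := hu4 k
      have h6 := hu k
      have h7 := hu (k + 1)
      rw [mul_one_div, div_lt_iff₀ h7] at h4
      have h8 : c ≤ 4 * (|t| * uu a k) := by nlinarith
      calc (1 : ℝ) = c / c := (div_self hc.ne').symm
        _ ≤ 4 * (|t| * uu a k) / c := by gcongr
        _ = _ := by ring
    have hX : 0 ≤ a (2 ^ k) + (1 / uu a k) ^ 2 * SumB a (2 ^ k) := by
      have h4 := (ha k).le
      have h5 := SumB_nonneg hpos (2 ^ k)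
      positivity
    refine h1.trans ?_
    have h4 : a (2 ^ k) + (1 / uu a k) ^ 2 * SumB a (2 ^ k) ≤
        4 / c * |t| * ((a (2 ^ k) + (1 / uu a k) ^ 2 * SumB a (2 ^ k)) * uu a k) := by
      calc a (2 ^ k) + (1 / uu a k) ^ 2 * SumB a (2 ^ k)
          ≤ (a (2 ^ k) + (1 / uu a k) ^ 2 * SumB a (2 ^ k)) * (4 / c * (|t| * uu a k)) :=
            le_mul_of_one_le_right hX h3
        _ = _ := by ring
    calc C' * (a (2 ^ k) + (1 / uu a k) ^ 2 * SumB a (2 ^ k))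
        ≤ C' * (4 / c * |t| * (ε / M)) := by
          refine mul_le_mul_of_nonneg_left (h4.trans ?_) hC'.le
          exact mul_le_mul_of_nonneg_left h2.le (by positivity)
      _ = ε * |t| := by
          rw [hM]
          field_simp
  have hdd' : deriv (deriv κ) x₀ = β - 4 := hdd.deriv
  refine ⟨?_, hdd.differentiableAt, ?_⟩
  · filter_upwards [Metric.ball_mem_nhds x₀ hη] with x hx
    rw [Metric.mem_ball, Real.dist_eq] at hx
    exact (hκ x hx).differentiableAt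
  -- the remainder
  have hrem : ∀ k, k₀ ≤ k → c * (1 / uu a k) < η → ∀ x : ℝ, |x - x₀| ≤ c * (1 / uu a k) →
      |Rm2 κ x₀ x| ≤ C' * (a (2 ^ k) + (1 / uu a k) ^ 2 * SumB a (2 ^ k)) * (c * (1 / uu a k)) := by
    intro k hk hkη x hx
    have hX : 0 ≤ a (2 ^ k) + (1 / uu a k) ^ 2 * SumB a (2 ^ k) := by
      have h4 := (ha k).le
      have h5 := SumB_nonneg hpos (2 ^ k)
      have h6 := hu k
      positivity
    have hx0m : x₀ ∈ Metric.closedBall x₀ |x - x₀| := by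
      rw [Metric.mem_closedBall, dist_self]; exact abs_nonneg _
    have hxm : x ∈ Metric.closedBall x₀ |x - x₀| := by
      rw [Metric.mem_closedBall, Real.dist_eq]
    have h3 := (convex_closedBall x₀ |x - x₀|).norm_image_sub_le_of_norm_hasDerivWithin_le
      (f := Rm2 κ x₀) (f' := fun z => τ z - τ x₀ - β * (z - x₀))
      (C := C' * (a (2 ^ k) + (1 / uu a k) ^ 2 * SumB a (2 ^ k)))
      (fun z hz => by
        rw [Metric.mem_closedBall, Real.dist_eq] at hz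
        have h4 := hκ z ((hz.trans hx).trans_lt hkη)
        have h5 : HasDerivAt (fun z : ℝ => z - x₀) 1 z := (hasDerivAt_id z).sub_const _
        have h6 := ((h4.sub_const (κ x₀)).sub (h5.const_mul (deriv κ x₀))).sub
          ((h5.pow 2).const_mul (1 / 2 * deriv (deriv κ) x₀))
        refine HasDerivAt.hasDerivWithinAt (h6.congr_deriv ?_)
        rw [hd0, hdd']
        simp only [Nat.cast_ofNat, Nat.add_one_sub_one, pow_one]
        ring)
      (fun z hz => by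
        rw [Metric.mem_closedBall, Real.dist_eq] at hz
        have h4 := hβ k hk (z - x₀) (hz.trans hx)
        rw [add_sub_cancel] at h4
        rw [Real.norm_eq_abs]
        exact h4) hx0m hxm
    rw [Real.norm_eq_abs, Real.norm_eq_abs] at h3
    have hR0 : Rm2 κ x₀ x₀ = 0 := by unfold Rm2; simp
    rw [hR0, sub_zero] at h3
    exact h3.trans (mul_le_mul_of_nonneg_left hx (mul_nonneg hC'.le hX))
  obtain ⟨k₂, hk₂⟩ := eventually_atTop.1 (hutop.eventually_gt_atTop (c / η))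
  refine ⟨c * c₀ / 4, by positivity, C' * c * 64, by positivity, 2 ^ (max k₀ k₂), ?_⟩
  intro n hn hn1 x hx0 hx
  obtain ⟨k, hk⟩ : ∃ k, k = Nat.log 2 n := ⟨_, rfl⟩
  have hk1 : 2 ^ k ≤ n := by rw [hk]; exact Nat.pow_log_le_self 2 (by omega)
  have hk2 : n < 2 ^ (k + 1) := by rw [hk]; exact Nat.lt_pow_succ_log_self (by norm_num) _
  have hkk : max k₀ k₂ ≤ k := by
    rw [hk]
    exact Nat.le_log_of_pow_le (by norm_num) hn
  have hu0 := hu k
  have han := hpos n hn1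
  have hn0 : (0 : ℝ) < n := by exact_mod_cast hn1
  have hk1' : (2 : ℝ) ^ k ≤ n := by exact_mod_cast hk1
  have hk2' : (n : ℝ) ≤ 2 * (2 : ℝ) ^ k := by
    have h1 : n ≤ 2 * 2 ^ k := by rw [pow_succ] at hk2; omega
    exact_mod_cast h1
  have hup : uu a k ≤ 4 / c₀ * ((n : ℝ) ^ 2 * a n) := by
    have h1 := uu_grow hG k 1
    rw [pow_one] at h1
    have h2 : a (2 ^ (k + 1)) ≤ a n := hanti n _ hn1 hk2.le
    have h3 : uu a (k + 1) ≤ 4 * ((n : ℝ) ^ 2 * a n) := by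
      unfold uu
      calc ((2 : ℝ) ^ (k + 1)) ^ 2 * a (2 ^ (k + 1)) = 4 * (((2 : ℝ) ^ k) ^ 2 * a (2 ^ (k + 1))) := by
            ring
        _ ≤ 4 * ((n : ℝ) ^ 2 * a n) := by
            have := (ha (k + 1)).le
            gcongr
    have h4 : c₀ * uu a k ≤ 4 * ((n : ℝ) ^ 2 * a n) := by
      refine le_trans ?_ h3
      refine le_trans ?_ h1
      have h5 : 0 < c₀ * uu a k := by positivity
      nlinarith
    rw [div_mul_eq_mul_div, le_div_iff₀ hc₀]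
    linarith
  have hlow : (n : ℝ) ^ 2 * a n ≤ 4 * uu a k := by
    unfold uu
    have h1 : a n ≤ a (2 ^ k) := hanti _ _ Nat.one_le_two_pow hk1
    calc (n : ℝ) ^ 2 * a n ≤ (2 * (2 : ℝ) ^ k) ^ 2 * a (2 ^ k) := by gcongr
      _ = _ := by ring
  have hwin : x ≤ c * (1 / uu a k) := by
    rw [mul_one_div, le_div_iff₀ hu0]
    calc x * uu a k ≤ x * (4 / c₀ * ((n : ℝ) ^ 2 * a n)) := by gcongr
      _ = 4 / c₀ * (x * ((n : ℝ) ^ 2 * a n)) := by ring
      _ ≤ 4 / c₀ * (c * c₀ / 4) := by gcongr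
      _ = c := by field_simp
  have hkη : c * (1 / uu a k) < η := by
    have h1 := hk₂ k (by omega)
    rw [mul_one_div, div_lt_iff₀ hu0]
    rw [div_lt_iff₀ hη] at h1
    linarith
  have hb : ∀ y : ℝ, |y - x₀| ≤ c * (1 / uu a k) → |Rm2 κ x₀ y| ≤
      C' * c * 64 * (1 / (n : ℝ) ^ 2 + (1 / ((n : ℝ) ^ 2 * a n)) ^ 3 * SumB a n) := by
    intro y hy
    refine (hrem k (by omega) hkη y hy).trans ?_
    have h1 : a (2 ^ k) * (1 / uu a k) ≤ 4 * (1 / (n : ℝ) ^ 2) := by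
      have h2 : a (2 ^ k) * (1 / uu a k) = 1 / ((2 : ℝ) ^ k) ^ 2 := by
        unfold uu
        have := ha k
        field_simp
      rw [h2, mul_one_div, div_le_div_iff₀ (by positivity) (by positivity), one_mul]
      calc (n : ℝ) ^ 2 ≤ (2 * (2 : ℝ) ^ k) ^ 2 := by gcongr
        _ = _ := by ring
    have h2 : 1 / uu a k ≤ 4 * (1 / ((n : ℝ) ^ 2 * a n)) := by
      rw [mul_one_div, div_le_div_iff₀ hu0 (by positivity), one_mul]
      exact hlow
    have h3 : SumB a (2 ^ k) ≤ SumB a n := SumB_mono hpos hk1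
    have h4 := SumB_nonneg hpos (2 ^ k)
    have h5 : (1 / uu a k) ^ 3 * SumB a (2 ^ k) ≤
        64 * ((1 / ((n : ℝ) ^ 2 * a n)) ^ 3 * SumB a n) := by
      calc (1 / uu a k) ^ 3 * SumB a (2 ^ k)
          ≤ (4 * (1 / ((n : ℝ) ^ 2 * a n))) ^ 3 * SumB a n := by gcongr
        _ = _ := by ring
    have h6 : 0 ≤ 1 / (n : ℝ) ^ 2 := by positivity
    calc C' * (a (2 ^ k) + (1 / uu a k) ^ 2 * SumB a (2 ^ k)) * (c * (1 / uu a k))
        = C' * c * (a (2 ^ k) * (1 / uu a k) + (1 / uu a k) ^ 3 * SumB a (2 ^ k)) := by ring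
      _ ≤ C' * c * (4 * (1 / (n : ℝ) ^ 2) + 64 * ((1 / ((n : ℝ) ^ 2 * a n)) ^ 3 * SumB a n)) := by
          gcongr
      _ ≤ C' * c * (64 * (1 / (n : ℝ) ^ 2) +
          64 * ((1 / ((n : ℝ) ^ 2 * a n)) ^ 3 * SumB a n)) := by
          gcongr
          norm_num
      _ = _ := by ring
  refine max_le (hb _ ?_) (hb _ ?_)
  · rw [add_sub_cancel_left, abs_of_pos hx0]
    exact hwin
  · rw [show x₀ - x - x₀ = -x by ring, abs_neg, abs_of_pos hx0]
    exact hwin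

end Pool.Agent.H13.SK
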