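import Pool.Agent.H13.SK.Inst
import Pool.Agent.H13.SK.Rem
import Pool.Agent.H13.SK.KLim
import Pool.Agent.H92.SN.Unif

/-!
# The remainder of the cluster density at the critical density
-/

set_option autoImplicit false

open MeasureTheory ProbabilityTheory unitInterval Filter Topology

namespace Pool.Agent.H13.SK

open Pool.Agent.H83.Site (pc pc_pos pc_lt_one)
open Pool.Agent.H92.SN (tauR GLTorus)

/-- The dyadic approximations of `τ` in the window. -/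
def WinS : Prop :=
  ∃ c > (0 : ℝ), ∃ C > (0 : ℝ), ∃ k₀ : ℕ, ∃ b : ℕ → ℝ, ∀ k, k₀ ≤ k → ∀ t : ℝ,
    |t| ≤ c * (1 / uu (Pool.Agent.H92.SN.a4 pc) k) →
      |tauR (pc + t) - tauR pc - b k * t| ≤
        C * (Pool.Agent.H92.SN.a4 pc (2 ^ k) + t ^ 2 * SumB (Pool.Agent.H92.SN.a4 pc) (2 ^ k))

/-- The bound of the remainder only depends on the values near zero. -/
theorem RemB.congr {a : ℕ → ℝ} {Rm Rm' : ℝ → ℝ} {c₀ δ₀ : ℝ} (hc₀ : 0 < c₀) (hδ₀ : 0 < δ₀)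
    (hG : Grow c₀ δ₀ 1 a) (hpos : ∀ n, 1 ≤ n → 0 < a n) (h : RemB a Rm) {η : ℝ} (hη : 0 < η)
    (he : ∀ x : ℝ, 0 < x → x < η → Rm' x = Rm x) : RemB a Rm' := by
  obtain ⟨cr, hcr, Cr, hCr, n₀, hb⟩ := h
  have hlim : Tendsto (fun n : ℕ => c₀ * (n : ℝ) ^ δ₀ * a 1) atTop atTop := by
    have h1 : Tendsto (fun n : ℕ => (n : ℝ) ^ δ₀) atTop atTop :=
      (tendsto_rpow_atTop hδ₀).comp tendsto_natCast_atTop_atTop
    exact (h1.const_mul_atTop hc₀).atTop_mul_const (hpos 1 le_rfl)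
  obtain ⟨n₁, hn₁⟩ := eventually_atTop.1 (hlim.eventually_gt_atTop (cr / η))
  refine ⟨cr, hcr, Cr, hCr, max n₀ n₁, fun n hn h1 x hx hxn => ?_⟩
  have h2 := hn₁ n ((le_max_right _ _).trans hn)
  have h3 : c₀ * (n : ℝ) ^ δ₀ * a 1 ≤ (n : ℝ) ^ 2 * a n := by
    have := grow_sq hG le_rfl h1 (by omega : 1 * 1 ≤ n)
    simpa using this
  have h4 : x < η := by
    have h5 : cr / η < (n : ℝ) ^ 2 * a n := h2.trans_le h3
    rw [div_lt_iff₀ hη] at h5
    by_contra hcon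
    push Not at hcon
    have h6 : 0 < (n : ℝ) ^ 2 * a n := (div_pos hcr hη).trans (h2.trans_le h3)
    nlinarith
  rw [he x hx h4]
  exact hb n ((le_max_left _ _).trans hn) h1 x hx hxn

/-- Continuity of `τ`. -/
theorem tau_cont (hGL : GLTorus) : Continuous Pool.Agent.H92.SN.tau := by
  obtain ⟨c, hc, h⟩ := (nc_holds hGL).reg_pc
  exact Pool.Agent.H92.SN.tau_continuous (Pool.Agent.H92.SN.a4_unif ⟨c, hc, h⟩)

/-- The cluster density is differentiable on `(0, 1)`, twice differentiable at the critical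
density, and the remainder is bounded by the four-arm probabilities. -/
theorem comb (hGL : GLTorus) (hW : WinS) :
    (∀ᶠ x in 𝓝 (pc : ℝ), DifferentiableAt ℝ kapS x) ∧ DifferentiableAt ℝ (deriv kapS) pc ∧
    RemB (Pool.Agent.H92.SN.a4 pc)
      (fun x => max |Rm2 kapS pc (pc + x)| |Rm2 kapS pc (pc - x)|) := by
  have H := nc_holds hGL
  have hp0 := pc_pos
  have hp1 := pc_lt_one
  obtain ⟨c₀, hc₀, δ₀, hδ₀, -, hG⟩ := H.growth1
  obtain ⟨cp, hcp, hreg⟩ := H.reg_pc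
  obtain ⟨C₁, hC₁, δ₁, hδ₁, -, hU⟩ := H.high cp hcp
  obtain ⟨c, hc, C, hC, k₀, b, hw⟩ := hW
  have hη : 0 < min (pc : ℝ) (1 - pc) := lt_min hp0 (by linarith)
  refine rem_of_win (a := Pool.Agent.H92.SN.a4 pc) (x₀ := pc) hc₀ hδ₀ hC₁ hδ₁ hG
    (fun m n hm hmn => hU m n pc hm hmn (hreg _)) (fun n hn => H.pos_pc n hn)
    (fun m n hm hmn => H.anti pc m n hm hmn) hη (fun x hx => ?_) hc hC hw
  rw [abs_lt] at hx
  have h1 := min_le_left (pc : ℝ) (1 - pc)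
  have h2 := min_le_right (pc : ℝ) (1 - pc)
  exact kapS_hasDerivAt (tau_cont hGL) (by linarith) (by linarith)

end Pool.Agent.H13.SK
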