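import Mathlib

/-!
# Comparison of scales
-/

set_option autoImplicit false

namespace Pool.Agent.H13.SK

/-- The sequence `n ^ 2 a(n)` grows at least like a power. -/
def Grow (c₀ δ₀ : ℝ) (k : ℕ) (a : ℕ → ℝ) : Prop :=
  ∀ m n : ℕ, 1 ≤ m → k * m ≤ n → c₀ * ((m : ℝ) / n) ^ (2 - δ₀) * a m ≤ a n

/-- `m ^ 2 a m` and `n ^ 2 a n` are compared by the ratio of the scales. -/
theorem grow_sq {c₀ δ₀ : ℝ} {k : ℕ} {a : ℕ → ℝ} (hG : Grow c₀ δ₀ k a) {m n : ℕ} (hm : 1 ≤ m)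
    (hn : 1 ≤ n) (hk : k * m ≤ n) :
    c₀ * ((n : ℝ) / m) ^ δ₀ * ((m : ℝ) ^ 2 * a m) ≤ (n : ℝ) ^ 2 * a n := by
  have hm0 : (0 : ℝ) < m := by exact_mod_cast hm
  have hn0 : (0 : ℝ) < n := by exact_mod_cast hn
  have h1 := mul_le_mul_of_nonneg_left (hG m n hm hk) (by positivity : (0 : ℝ) ≤ (n : ℝ) ^ 2)
  refine le_trans (le_of_eq ?_) h1
  have h2 : ((m : ℝ) / n) ^ (2 - δ₀) = ((m : ℝ) / n) ^ 2 * ((n : ℝ) / m) ^ δ₀ := by
    rw [Real.rpow_sub (by positivity), Real.rpow_two, div_eq_mul_inv, ← Real.inv_rpow (by positivity),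
      inv_div]
  rw [h2]
  field_simp

/-- If `h m ^ 2 a m` is bounded below and `h n ^ 2 a n` is bounded above then `n ≤ K m`. -/
theorem scale_cmp {c₀ δ₀ c₁ C₁ : ℝ} (h0 : 0 < c₀) (hδ : 0 < δ₀) (h1 : 0 < c₁) (hC : 0 < C₁)
    (k : ℕ) : ∃ K : ℕ, 1 ≤ K ∧ ∀ (a : ℕ → ℝ), Grow c₀ δ₀ k a → ∀ (x y : ℝ) (m n : ℕ), 1 ≤ m →
      1 ≤ n → 0 < x → x ≤ y → c₁ ≤ x * ((m : ℝ) ^ 2 * a m) → y * ((n : ℝ) ^ 2 * a n) ≤ C₁ →
      n ≤ K * m := by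
  obtain ⟨K, hK⟩ := exists_nat_gt ((C₁ / (c₀ * c₁)) ^ (1 / δ₀))
  refine ⟨max (max K k) 1, le_max_right _ _, fun a hG x y m n hm hn hx hxy h2 h3 => ?_⟩
  have hm0 : (0 : ℝ) < m := by exact_mod_cast hm
  have hn0 : (0 : ℝ) < n := by exact_mod_cast hn
  by_contra hlt
  push Not at hlt
  have hk : k * m ≤ n := by
    refine le_trans ?_ hlt.le
    exact Nat.mul_le_mul_right m ((le_max_right _ _).trans (le_max_left _ _))
  have hKm : K * m ≤ n := by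
    refine le_trans ?_ hlt.le
    exact Nat.mul_le_mul_right m ((le_max_left _ _).trans (le_max_left _ _))
  have h4 := grow_sq hG hm hn hk
  have hmp : 0 < (m : ℝ) ^ 2 * a m := by
    by_contra hcon
    push Not at hcon
    have := mul_nonpos_of_nonneg_of_nonpos hx.le hcon
    linarith
  have hnp : 0 ≤ (n : ℝ) ^ 2 * a n := by
    refine le_trans ?_ h4
    positivity
  have h5 : x * (c₀ * ((n : ℝ) / m) ^ δ₀ * ((m : ℝ) ^ 2 * a m)) ≤ C₁ := by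
    calc x * (c₀ * ((n : ℝ) / m) ^ δ₀ * ((m : ℝ) ^ 2 * a m)) ≤ x * ((n : ℝ) ^ 2 * a n) :=
          mul_le_mul_of_nonneg_left h4 hx.le
      _ ≤ y * ((n : ℝ) ^ 2 * a n) := mul_le_mul_of_nonneg_right hxy hnp
      _ ≤ C₁ := h3
  have h6 : c₀ * ((n : ℝ) / m) ^ δ₀ * c₁ ≤ C₁ := by
    refine le_trans ?_ h5
    calc c₀ * ((n : ℝ) / m) ^ δ₀ * c₁ ≤ c₀ * ((n : ℝ) / m) ^ δ₀ * (x * ((m : ℝ) ^ 2 * a m)) := by
          gcongr
      _ = _ := by ring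
  have h7 : ((n : ℝ) / m) ^ δ₀ ≤ C₁ / (c₀ * c₁) := by
    rw [le_div_iff₀ (by positivity)]
    linarith
  have h8 : (n : ℝ) / m ≤ (C₁ / (c₀ * c₁)) ^ (1 / δ₀) := by
    have h9 := Real.rpow_le_rpow (by positivity) h7 (by positivity : (0 : ℝ) ≤ 1 / δ₀)
    rwa [← Real.rpow_mul (by positivity), mul_one_div_cancel hδ.ne', Real.rpow_one] at h9
  have h9 : (K : ℝ) ≤ (n : ℝ) / m := by
    rw [le_div_iff₀ hm0]
    exact_mod_cast hKm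
  linarith

/-- If `y n ^ 2 a n` is small enough compared with the lower bound of `x m ^ 2 a m`, and `x ≤ y`,
then `n ≤ k m`. -/
theorem scale_small {c₀ δ₀ c₁ : ℝ} (h0 : 0 < c₀) (hδ : 0 < δ₀) (h1 : 0 < c₁) {k : ℕ}
    (hk1 : 1 ≤ k) :
    ∃ c₂ > (0 : ℝ), ∀ (a : ℕ → ℝ), Grow c₀ δ₀ k a → ∀ (x y : ℝ) (m n : ℕ), 1 ≤ m → 1 ≤ n →
      0 < x → x ≤ y → c₁ ≤ x * ((m : ℝ) ^ 2 * a m) → y * ((n : ℝ) ^ 2 * a n) ≤ c₂ →
      n ≤ k * m := by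
  refine ⟨c₀ * c₁ / 2, by positivity, fun a hG x y m n hm hn hx hxy h2 h3 => ?_⟩
  have hm0 : (0 : ℝ) < m := by exact_mod_cast hm
  have hn0 : (0 : ℝ) < n := by exact_mod_cast hn
  by_contra hlt
  push Not at hlt
  have h4 := grow_sq hG hm hn hlt.le
  have hmp : 0 < (m : ℝ) ^ 2 * a m := by
    by_contra hcon
    push Not at hcon
    have := mul_nonpos_of_nonneg_of_nonpos hx.le hcon
    linarith
  have hnp : 0 ≤ (n : ℝ) ^ 2 * a n := by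
    refine le_trans ?_ h4
    positivity
  have h5 : m ≤ n := le_trans (Nat.le_mul_of_pos_left m hk1) hlt.le
  have h6 : (1 : ℝ) ≤ ((n : ℝ) / m) ^ δ₀ := by
    apply Real.one_le_rpow _ hδ.le
    rw [le_div_iff₀ hm0, one_mul]
    exact_mod_cast h5
  have h7 : x * (c₀ * ((m : ℝ) ^ 2 * a m)) ≤ c₀ * c₁ / 2 := by
    calc x * (c₀ * ((m : ℝ) ^ 2 * a m)) ≤ x * (c₀ * ((n : ℝ) / m) ^ δ₀ * ((m : ℝ) ^ 2 * a m)) := by
          gcongr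
          exact le_mul_of_one_le_right h0.le h6
      _ ≤ x * ((n : ℝ) ^ 2 * a n) := mul_le_mul_of_nonneg_left h4 hx.le
      _ ≤ y * ((n : ℝ) ^ 2 * a n) := mul_le_mul_of_nonneg_right hxy hnp
      _ ≤ _ := h3
  have h8 : c₀ * c₁ ≤ c₀ * (x * ((m : ℝ) ^ 2 * a m)) := mul_le_mul_of_nonneg_left h2 h0.le
  have h9 : 0 < c₀ * c₁ := by positivity
  linarith

end Pool.Agent.H13.SK
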