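import Pool.Agent.H13.SK.FinalAlg

/-!
# Linear approximations at all dyadic scales give a derivative
-/

set_option autoImplicit false

open Filter Topology

namespace Pool.Agent.H13.SK

/-- Tail sums of a geometrically decreasing sequence. -/
theorem exists_tail {x : ℕ → ℝ} {A ρ : ℝ} (hx0 : ∀ k, 0 < x k) (hρ0 : 0 < ρ) (hρ1 : ρ < 1)
    (hx : ∀ k i, x (k + i) ≤ A * ρ ^ i * x k) :
    ∃ X : ℕ → ℝ, (∀ k, X k = x k + X (k + 1)) ∧ (∀ k, 0 ≤ X k) ∧
      ∀ k, X k ≤ A / (1 - ρ) * x k := by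
  have hsum : ∀ k, Summable fun i => x (k + i) := by
    intro k
    refine Summable.of_nonneg_of_le (fun i => (hx0 _).le) (fun i => hx k i) ?_
    exact ((summable_geometric_of_lt_one hρ0.le hρ1).mul_left A).mul_right (x k)
  refine ⟨fun k => ∑' i, x (k + i), fun k => ?_, fun k => tsum_nonneg fun i => (hx0 _).le,
    fun k => ?_⟩
  · have h := (hsum k).tsum_eq_zero_add
    simp only [add_zero] at h
    simp only
    rw [h]
    congr 1
    refine tsum_congr fun i => ?_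
    congr 1
    omega
  · have h1 : ∑' i, x (k + i) ≤ ∑' i, A * ρ ^ i * x k :=
      (hsum k).tsum_le_tsum (fun i => hx k i)
        (((summable_geometric_of_lt_one hρ0.le hρ1).mul_left A).mul_right (x k))
    refine h1.trans (le_of_eq ?_)
    rw [tsum_mul_right, tsum_mul_left, tsum_geometric_of_lt_one hρ0.le hρ1]
    ring

/-- A sequence whose increments are bounded by the decrements of a nonnegative sequence
converges. -/
theorem exists_lim {b Ψ : ℕ → ℝ} (hΨ : ∀ k, 0 ≤ Ψ k) {k₀ : ℕ}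
    (h : ∀ k, k₀ ≤ k → |b k - b (k + 1)| ≤ Ψ k - Ψ (k + 1)) :
    ∃ β : ℝ, ∀ k, k₀ ≤ k → |b k - β| ≤ Ψ k := by
  have hstep : ∀ k, k₀ ≤ k → ∀ i, |b k - b (k + i)| ≤ Ψ k - Ψ (k + i) := by
    intro k hk i
    induction i with
    | zero => simp
    | succ i ih =>
      have h1 := h (k + i) (by omega)
      have h2 : b k - b (k + (i + 1)) = (b k - b (k + i)) + (b (k + i) - b (k + i + 1)) := by
        rw [show k + (i + 1) = k + i + 1 by ring]
        ring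
      rw [h2]
      refine (abs_add_le _ _).trans ?_
      rw [show k + (i + 1) = k + i + 1 by ring]
      linarith
  have hanti : Antitone fun i => Ψ (k₀ + i) := by
    refine antitone_nat_of_succ_le fun i => ?_
    have h1 := h (k₀ + i) (by omega)
    have h2 := abs_nonneg (b (k₀ + i) - b (k₀ + i + 1))
    rw [show k₀ + (i + 1) = k₀ + i + 1 by ring]
    linarith
  have hbdd : BddBelow (Set.range fun i => Ψ (k₀ + i)) :=
    ⟨0, by rintro _ ⟨i, rfl⟩; exact hΨ _⟩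
  have hconv := tendsto_atTop_ciInf hanti hbdd
  set ℓ := ⨅ i, Ψ (k₀ + i) with hℓ
  have hle : ∀ i, ℓ ≤ Ψ (k₀ + i) := fun i => ciInf_le hbdd i
  have hcau : CauchySeq fun i => b (k₀ + i) := by
    refine cauchySeq_of_le_tendsto_0 (fun i => 2 * (Ψ (k₀ + i) - ℓ)) ?_ ?_
    · intro n m N hn hm
      rw [Real.dist_eq]
      have h1 := hstep (k₀ + N) (by omega) (n - N)
      have h2 := hstep (k₀ + N) (by omega) (m - N)
      rw [show k₀ + N + (n - N) = k₀ + n by omega] at h1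
      rw [show k₀ + N + (m - N) = k₀ + m by omega] at h2
      have h3 := hle n
      have h4 := hle m
      have h5 : b (k₀ + n) - b (k₀ + m) =
          -(b (k₀ + N) - b (k₀ + n)) + (b (k₀ + N) - b (k₀ + m)) := by ring
      rw [h5]
      refine (abs_add_le _ _).trans ?_
      rw [abs_neg]
      linarith
    · have h1 := (hconv.sub_const ℓ).const_mul 2
      rw [sub_self, mul_zero] at h1
      exact h1
  obtain ⟨β, hβ⟩ := cauchySeq_tendsto_of_complete hcau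
  refine ⟨β, fun k hk => ?_⟩
  have hβ' : Tendsto (fun i => b (k + i)) atTop (𝓝 β) := by
    have h1 := (tendsto_add_atTop_iff_nat (f := fun i => b (k₀ + i)) (k - k₀)).2 hβ
    refine h1.congr fun i => ?_
    congr 1
    omega
  have h1 : Tendsto (fun i => |b k - b (k + i)|) atTop (𝓝 |b k - β|) :=
    (tendsto_const_nhds.sub hβ').abs
  refine le_of_tendsto h1 (Eventually.of_forall fun i => ?_)
  have h2 := hstep k hk i
  have h3 := hΨ (k + i)
  linarith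

/-- The inverse of the width of the window at scale `2 ^ k`. -/
noncomputable def uu (a : ℕ → ℝ) (k : ℕ) : ℝ := ((2 : ℝ) ^ k) ^ 2 * a (2 ^ k)

theorem uu_pos {a : ℕ → ℝ} (hpos : ∀ n, 1 ≤ n → 0 < a n) (k : ℕ) : 0 < uu a k := by
  unfold uu
  have := hpos (2 ^ k) Nat.one_le_two_pow
  positivity

theorem uu_grow {a : ℕ → ℝ} {c₀ δ₀ : ℝ} (hG : Grow c₀ δ₀ 1 a) (k i : ℕ) :
    c₀ * ((2 : ℝ) ^ δ₀) ^ i * uu a k ≤ uu a (k + i) := by
  have h1 := grow_sq hG (m := 2 ^ k) (n := 2 ^ (k + i)) Nat.one_le_two_pow Nat.one_le_two_pow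
    (by rw [one_mul]; exact Nat.pow_le_pow_right (by norm_num) (by omega))
  have h2 : (((2 ^ (k + i) : ℕ) : ℝ) / ((2 ^ k : ℕ) : ℝ)) ^ δ₀ = ((2 : ℝ) ^ δ₀) ^ i := by
    push_cast
    rw [pow_add, mul_div_cancel_left₀ _ (by positivity), ← Real.rpow_natCast, ← Real.rpow_natCast,
      ← Real.rpow_mul (by norm_num), ← Real.rpow_mul (by norm_num), mul_comm]
  rw [h2] at h1
  unfold uu
  push_cast at h1 ⊢
  exact h1

theorem SumB_two (a : ℕ → ℝ) (k : ℕ) : SumB a (2 ^ (k + 1)) =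
    SumB a (2 ^ k) + uu a (k + 1) ^ 2 * a (2 ^ (k + 1)) := by
  unfold SumB uu
  rw [Nat.log_pow (by norm_num), Nat.log_pow (by norm_num), Finset.sum_range_succ]
  ring

/-- **From linear approximations at all dyadic scales to the derivative.** -/
theorem dyadS {a : ℕ → ℝ} {c₀ δ₀ C₁ δ₁ : ℝ} (hc₀ : 0 < c₀) (hδ₀ : 0 < δ₀) (hC₁ : 0 < C₁)
    (hδ₁ : 0 < δ₁) (hG : Grow c₀ δ₀ 1 a)
    (hU : ∀ m n : ℕ, 1 ≤ m → m ≤ n → a n ≤ C₁ * ((m : ℝ) / n) ^ (1 + δ₁) * a m)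
    (hpos : ∀ n, 1 ≤ n → 0 < a n) (hanti : ∀ m n, 1 ≤ m → m ≤ n → a n ≤ a m)
    {f : ℝ → ℝ} {c C : ℝ} (hc : 0 < c) (hC : 0 < C) {k₀ : ℕ} {b : ℕ → ℝ}
    (h : ∀ k, k₀ ≤ k → ∀ t : ℝ, |t| ≤ c * (1 / uu a k) →
      |f t - b k * t| ≤ C * (a (2 ^ k) + t ^ 2 * SumB a (2 ^ k))) :
    (∃ β C' : ℝ, 0 < C' ∧ ∀ k, k₀ ≤ k → ∀ t : ℝ, |t| ≤ c * (1 / uu a k) →
      |f t - β * t| ≤ C' * (a (2 ^ k) + (1 / uu a k) ^ 2 * SumB a (2 ^ k))) ∧
    Tendsto (fun k => (a (2 ^ k) + (1 / uu a k) ^ 2 * SumB a (2 ^ k)) * uu a k) atTop (𝓝 0) := by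
  have hu : ∀ k, 0 < uu a k := uu_pos hpos
  have ha : ∀ k, 0 < a (2 ^ k) := fun k => hpos _ Nat.one_le_two_pow
  have hS : ∀ k, 0 ≤ SumB a (2 ^ k) := fun k => SumB_nonneg hpos _
  -- the windows
  have hb1 : 1 < (2 : ℝ) ^ δ₀ := Real.one_lt_rpow (by norm_num) hδ₀
  obtain ⟨w, hw⟩ : ∃ w : ℕ → ℝ, w = fun k => 1 / uu a k := ⟨_, rfl⟩
  have hw0 : ∀ k, 0 < w k := fun k => by rw [hw]; have := hu k; positivity
  have hwdec : ∀ k i, w (k + i) ≤ 1 / c₀ * (((2 : ℝ) ^ δ₀)⁻¹) ^ i * w k := by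
    intro k i
    rw [hw]
    have h1 := uu_grow hG k i
    have h2 := hu k
    have h3 := hu (k + i)
    have h4 : 0 < ((2 : ℝ) ^ δ₀) ^ i := by positivity
    simp only
    rw [inv_pow, div_le_iff₀ h3]
    calc (1 : ℝ) = 1 / c₀ * (((2 : ℝ) ^ δ₀) ^ i)⁻¹ * (1 / uu a k) *
          (c₀ * ((2 : ℝ) ^ δ₀) ^ i * uu a k) := by field_simp
      _ ≤ _ := by gcongr
  obtain ⟨W, hW1, hW0, hW2⟩ := exists_tail hw0 (inv_pos.2 (by linarith)) (inv_lt_one_of_one_lt₀ hb1)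
    hwdec
  -- the products `a u`
  obtain ⟨v, hv⟩ : ∃ v : ℕ → ℝ, v = fun k => a (2 ^ k) * uu a k := ⟨_, rfl⟩
  have hv0 : ∀ k, 0 < v k := fun k => by rw [hv]; exact mul_pos (ha k) (hu k)
  have hb2 : 1 < (4 : ℝ) ^ δ₁ := Real.one_lt_rpow (by norm_num) hδ₁
  have hvdec : ∀ k i, v (k + i) ≤ C₁ ^ 2 * (((4 : ℝ) ^ δ₁)⁻¹) ^ i * v k := by
    intro k i
    rw [hv]
    have h1 := hU (2 ^ k) (2 ^ (k + i)) Nat.one_le_two_pow
      (Nat.pow_le_pow_right (by norm_num) (by omega))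
    have h2 : (((2 ^ k : ℕ) : ℝ) / ((2 ^ (k + i) : ℕ) : ℝ)) ^ (1 + δ₁) =
        ((2 : ℝ) ^ i * ((2 : ℝ) ^ δ₁) ^ i)⁻¹ := by
      have h3 : (((2 ^ k : ℕ) : ℝ) / ((2 ^ (k + i) : ℕ) : ℝ)) = ((2 : ℝ) ^ i)⁻¹ := by
        push_cast
        rw [pow_add]
        field_simp
      rw [h3, Real.inv_rpow (by positivity)]
      congr 1
      rw [← Real.rpow_natCast, ← Real.rpow_natCast, ← Real.rpow_mul (by norm_num),
        ← Real.rpow_mul (by norm_num), ← Real.rpow_add (by norm_num)]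
      congr 1
      ring
    rw [h2] at h1
    have h4 : ((4 : ℝ) ^ δ₁) ^ i = (((2 : ℝ) ^ δ₁) ^ i) ^ 2 := by
      rw [← pow_mul, mul_comm i 2, pow_mul, ← Real.rpow_natCast ((2 : ℝ) ^ δ₁) 2,
        ← Real.rpow_mul (by norm_num)]
      congr 1
      rw [show (4 : ℝ) = 2 ^ (2 : ℝ) by norm_num, ← Real.rpow_mul (by norm_num)]
      congr 1
      push_cast
      ring
    have ha1 := ha k
    have ha2 := ha (k + i)
    simp only [uu]
    rw [inv_pow, h4]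
    have h5 : (0 : ℝ) < (2 : ℝ) ^ i := by positivity
    have h6 : (0 : ℝ) < ((2 : ℝ) ^ δ₁) ^ i := by positivity
    calc a (2 ^ (k + i)) * (((2 : ℝ) ^ (k + i)) ^ 2 * a (2 ^ (k + i)))
        = ((2 : ℝ) ^ (k + i)) ^ 2 * a (2 ^ (k + i)) ^ 2 := by ring
      _ ≤ ((2 : ℝ) ^ (k + i)) ^ 2 * (C₁ * ((2 : ℝ) ^ i * ((2 : ℝ) ^ δ₁) ^ i)⁻¹ * a (2 ^ k)) ^ 2 := by
          gcongr
      _ = C₁ ^ 2 * ((((2 : ℝ) ^ δ₁) ^ i) ^ 2)⁻¹ * (a (2 ^ k) * (((2 : ℝ) ^ k) ^ 2 * a (2 ^ k))) := by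
          rw [pow_add]
          field_simp
  obtain ⟨V, hV1, hV0, hV2⟩ := exists_tail hv0 (inv_pos.2 (by linarith)) (inv_lt_one_of_one_lt₀ hb2)
    hvdec
  obtain ⟨A, hA⟩ : ∃ A : ℝ, A = 1 / c₀ / (1 - ((2 : ℝ) ^ δ₀)⁻¹) := ⟨_, rfl⟩
  obtain ⟨B, hB⟩ : ∃ B : ℝ, B = C₁ ^ 2 / (1 - ((4 : ℝ) ^ δ₁)⁻¹) := ⟨_, rfl⟩
  rw [← hA] at hW2
  rw [← hB] at hV2
  have hA0 : 0 < A := by
    have : 0 < 1 - ((2 : ℝ) ^ δ₀)⁻¹ := sub_pos.2 (inv_lt_one_of_one_lt₀ hb1)
    rw [hA]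
    positivity
  have hB0 : 0 < B := by
    have : 0 < 1 - ((4 : ℝ) ^ δ₁)⁻¹ := sub_pos.2 (inv_lt_one_of_one_lt₀ hb2)
    rw [hB]
    positivity
  -- the potential
  obtain ⟨E, hE⟩ : ∃ E : ℕ → ℝ, E = fun k => v k + w k * SumB a (2 ^ k) := ⟨_, rfl⟩
  obtain ⟨Ψ, hΨ⟩ : ∃ Ψ : ℕ → ℝ, Ψ = fun k => W k * SumB a (2 ^ k) + A * V (k + 1) + V k :=
    ⟨_, rfl⟩
  have hΨ0 : ∀ k, 0 ≤ Ψ k := by
    intro k
    rw [hΨ]
    have h1 := hW0 k
    have h2 := hV0 k
    have h3 := hV0 (k + 1)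
    have h4 := hS k
    positivity
  have hstep : ∀ k, E k ≤ Ψ k - Ψ (k + 1) := by
    intro k
    rw [hE, hΨ]
    simp only
    have h1 := hW1 k
    have h2 := hV1 k
    have h3 := hV1 (k + 1)
    have h4 := hW2 (k + 1)
    rw [SumB_two, h1, h2]
    have h5 : w (k + 1) * (uu a (k + 1) ^ 2 * a (2 ^ (k + 1))) = v (k + 1) := by
      have := hu (k + 1)
      rw [hw, hv]
      field_simp
    have h6 : 0 ≤ uu a (k + 1) ^ 2 * a (2 ^ (k + 1)) := by
      have := ha (k + 1)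
      positivity
    have h7 : W (k + 1) * (uu a (k + 1) ^ 2 * a (2 ^ (k + 1))) ≤ A * v (k + 1) := by
      calc W (k + 1) * (uu a (k + 1) ^ 2 * a (2 ^ (k + 1)))
          ≤ A * w (k + 1) * (uu a (k + 1) ^ 2 * a (2 ^ (k + 1))) :=
            mul_le_mul_of_nonneg_right h4 h6
        _ = A * v (k + 1) := by rw [mul_assoc, h5]
    have h8 : A * V (k + 1) = A * v (k + 1) + A * V (k + 2) := by
      rw [h3]
      ring
    have e1 : k + 1 + 1 = k + 2 := rfl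
    rw [e1, h8]
    nlinarith
  have hΨE : ∀ k, Ψ k ≤ (A + A * B + B) * E k := by
    intro k
    rw [hE, hΨ]
    simp only
    have h1 := hW2 k
    have h2 := hV2 k
    have h3 : V (k + 1) ≤ B * v k := by
      have h4 := hV1 k
      have h5 := hv0 k
      linarith
    have h4 := hS k
    have h5 := (hw0 k).le
    have h6 := (hv0 k).le
    have h7 : W k * SumB a (2 ^ k) ≤ A * w k * SumB a (2 ^ k) := mul_le_mul_of_nonneg_right h1 h4
    have h8 : A * V (k + 1) ≤ A * (B * v k) := mul_le_mul_of_nonneg_left h3 hA0.le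
    have h9 : 0 ≤ w k * SumB a (2 ^ k) := mul_nonneg h5 h4
    nlinarith [mul_nonneg hA0.le h6, mul_nonneg hB0.le h9, mul_nonneg (mul_nonneg hA0.le hB0.le) h9]
  -- the increments
  obtain ⟨D, hD⟩ : ∃ D : ℝ, D = max 1 (1 / c₀) := ⟨_, rfl⟩
  have hD1 : 1 ≤ D := by rw [hD]; exact le_max_left _ _
  have hDw : ∀ k, w (k + 1) ≤ D * w k := by
    intro k
    have h1 := hwdec k 1
    rw [pow_one] at h1
    have h2 : ((2 : ℝ) ^ δ₀)⁻¹ ≤ 1 := (inv_lt_one_of_one_lt₀ hb1).le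
    have h3 := hw0 k
    have h4 : 1 / c₀ ≤ D := by rw [hD]; exact le_max_right _ _
    have h5 : 1 / c₀ * ((2 : ℝ) ^ δ₀)⁻¹ ≤ D := by
      calc 1 / c₀ * ((2 : ℝ) ^ δ₀)⁻¹ ≤ 1 / c₀ * 1 := by gcongr
        _ ≤ D := by rw [mul_one]; exact h4
    exact h1.trans (mul_le_mul_of_nonneg_right h5 h3.le)
  have hdbl : ∀ k, a (2 ^ k) ≤ 4 / c₀ * a (2 ^ (k + 1)) := by
    intro k
    have h1 := uu_grow hG k 1
    rw [pow_one] at h1
    unfold uu at h1
    have h2 : 0 < a (2 ^ k) := ha k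
    have h3 : c₀ * 1 * (((2 : ℝ) ^ k) ^ 2 * a (2 ^ k)) ≤ ((2 : ℝ) ^ (k + 1)) ^ 2 * a (2 ^ (k + 1)) := by
      refine le_trans ?_ h1
      gcongr
    have h4 : (0 : ℝ) < ((2 : ℝ) ^ k) ^ 2 := by positivity
    rw [pow_succ (2 : ℝ) k, mul_pow] at h3
    have h5 : ((2 : ℝ) ^ k) ^ 2 * (c₀ * a (2 ^ k)) ≤ ((2 : ℝ) ^ k) ^ 2 * (4 * a (2 ^ (k + 1))) := by
      nlinarith
    have h6 := le_of_mul_le_mul_left h5 h4
    rw [div_mul_eq_mul_div, le_div_iff₀ hc₀]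
    linarith
  obtain ⟨F, hF⟩ : ∃ F : ℝ, F = 2 * C * (D / c * (4 / c₀) + c) := ⟨_, rfl⟩
  have hF0 : 0 < F := by rw [hF]; positivity
  have hinc : ∀ k, k₀ ≤ k → |b k - b (k + 1)| ≤ F * E (k + 1) := by
    intro k hk
    obtain ⟨t, ht⟩ : ∃ t : ℝ, t = c * w (k + 1) / D := ⟨_, rfl⟩
    have hD0 : 0 < D := by linarith
    have hwk := hw0 (k + 1)
    have ht0 : 0 < t := by rw [ht]; positivity
    have ht1 : |t| ≤ c * (1 / uu a (k + 1)) := by
      rw [abs_of_pos ht0, ht, div_le_iff₀ hD0]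
      have h1 : c * (1 / uu a (k + 1)) = c * w (k + 1) := by rw [hw]
      rw [h1]
      exact le_mul_of_one_le_right (by positivity) hD1
    have ht2 : |t| ≤ c * (1 / uu a k) := by
      rw [abs_of_pos ht0, ht, div_le_iff₀ hD0]
      have h1 : c * (1 / uu a k) = c * w k := by rw [hw]
      rw [h1]
      calc c * w (k + 1) ≤ c * (D * w k) := mul_le_mul_of_nonneg_left (hDw k) hc.le
        _ = c * w k * D := by ring
    have h1 := h k hk t ht2
    have h2 := h (k + 1) (by omega) t ht1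
    have hSm : SumB a (2 ^ k) ≤ SumB a (2 ^ (k + 1)) :=
      SumB_mono hpos (Nat.pow_le_pow_right (by norm_num) (by omega))
    have ham : a (2 ^ (k + 1)) ≤ a (2 ^ k) :=
      hanti _ _ Nat.one_le_two_pow (Nat.pow_le_pow_right (by norm_num) (by omega))
    have h3 : |b k - b (k + 1)| * t ≤ 2 * C * (a (2 ^ k) + t ^ 2 * SumB a (2 ^ (k + 1))) := by
      have h4 : |b k - b (k + 1)| * t = |(f t - b (k + 1) * t) - (f t - b k * t)| := by
        rw [← abs_of_pos ht0, ← abs_mul, abs_of_pos ht0]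
        congr 1
        ring
      rw [h4]
      refine (abs_sub _ _).trans ((add_le_add h2 h1).trans ?_)
      have h5 : t ^ 2 * SumB a (2 ^ k) ≤ t ^ 2 * SumB a (2 ^ (k + 1)) := by gcongr
      nlinarith
    have h4 : |b k - b (k + 1)| ≤ 2 * C * (a (2 ^ k) / t + t * SumB a (2 ^ (k + 1))) := by
      have h5 : 2 * C * (a (2 ^ k) + t ^ 2 * SumB a (2 ^ (k + 1))) =
          2 * C * (a (2 ^ k) / t + t * SumB a (2 ^ (k + 1))) * t := by
        field_simp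
      rw [h5] at h3
      exact le_of_mul_le_mul_right h3 ht0
    refine h4.trans ?_
    have h5 : a (2 ^ k) / t ≤ D / c * (4 / c₀) * v (k + 1) := by
      have hak := ha (k + 1)
      have huk := hu (k + 1)
      have h6 : a (2 ^ k) / t = D / c * (a (2 ^ k) * uu a (k + 1)) := by
        rw [ht, hw]
        field_simp
      rw [h6, hv]
      calc D / c * (a (2 ^ k) * uu a (k + 1)) ≤
            D / c * (4 / c₀ * a (2 ^ (k + 1)) * uu a (k + 1)) := by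
            have := hdbl k
            gcongr
        _ = _ := by ring
    have h6 : t ≤ c * w (k + 1) := by
      rw [ht, div_le_iff₀ hD0]
      exact le_mul_of_one_le_right (by positivity) hD1
    have h7 : t * SumB a (2 ^ (k + 1)) ≤ c * (w (k + 1) * SumB a (2 ^ (k + 1))) := by
      rw [← mul_assoc]
      exact mul_le_mul_of_nonneg_right h6 (hS _)
    rw [hF, hE]
    have h8 : 0 ≤ v (k + 1) := (hv0 _).le
    have h9 : 0 ≤ w (k + 1) * SumB a (2 ^ (k + 1)) := mul_nonneg (hw0 _).le (hS _)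
    have h10 : 0 ≤ D / c * (4 / c₀) := by positivity
    calc 2 * C * (a (2 ^ k) / t + t * SumB a (2 ^ (k + 1)))
        ≤ 2 * C * (D / c * (4 / c₀) * v (k + 1) + c * (w (k + 1) * SumB a (2 ^ (k + 1)))) := by
          gcongr
      _ ≤ 2 * C * ((D / c * (4 / c₀) + c) * (v (k + 1) + w (k + 1) * SumB a (2 ^ (k + 1)))) := by
          gcongr
          nlinarith
      _ = _ := by ring
  -- the limit
  obtain ⟨β, hβ⟩ := exists_lim (b := b) (Ψ := fun k => F * Ψ (k + 1)) (k₀ := k₀)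
    (fun k => mul_nonneg hF0.le (hΨ0 _)) (fun k hk => by
      have h1 := hinc k hk
      have h2 := hstep (k + 1)
      calc |b k - b (k + 1)| ≤ F * E (k + 1) := h1
        _ ≤ F * (Ψ (k + 1) - Ψ (k + 1 + 1)) := mul_le_mul_of_nonneg_left h2 hF0.le
        _ = _ := by ring)
  obtain ⟨M, hM⟩ : ∃ M : ℝ, M = F * (A + A * B + B) := ⟨_, rfl⟩
  have hM0 : 0 < M := by rw [hM]; positivity
  have hE0 : ∀ k, 0 ≤ E k := by
    intro k
    rw [hE]
    exact add_nonneg (hv0 k).le (mul_nonneg (hw0 k).le (hS k))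
  have hβ' : ∀ k, k₀ ≤ k → |b k - β| ≤ M * E k := by
    intro k hk
    have h1 := hβ k hk
    have h2 := hstep k
    have h3 := hE0 k
    have h4 := hΨE k
    calc |b k - β| ≤ F * Ψ (k + 1) := h1
      _ ≤ F * Ψ k := mul_le_mul_of_nonneg_left (by linarith) hF0.le
      _ ≤ F * ((A + A * B + B) * E k) := mul_le_mul_of_nonneg_left h4 hF0.le
      _ = M * E k := by rw [hM]; ring
  have hEw : ∀ k, E k * w k = a (2 ^ k) + w k ^ 2 * SumB a (2 ^ k) := by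
    intro k
    rw [hE]
    simp only
    have h7 : v k * w k = a (2 ^ k) := by
      have := hu k
      rw [hv, hw]
      field_simp
    rw [add_mul, h7]
    ring
  refine ⟨⟨β, C * (1 + c ^ 2) + M * c, by positivity, fun k hk t ht => ?_⟩, ?_⟩
  swap
  · have hanti : Antitone Ψ := by
      refine antitone_nat_of_succ_le fun k => ?_
      have h1 := hstep k
      have h2 := hE0 k
      linarith
    have hconv := tendsto_atTop_ciInf hanti ⟨0, by rintro _ ⟨i, rfl⟩; exact hΨ0 _⟩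
    have h1 : Tendsto (fun k => Ψ k - Ψ (k + 1)) atTop (𝓝 0) := by
      have h2 := hconv.sub ((tendsto_add_atTop_iff_nat 1).2 hconv)
      rwa [sub_self] at h2
    have h3 : Tendsto E atTop (𝓝 0) :=
      squeeze_zero hE0 hstep h1
    refine h3.congr fun k => ?_
    have h4 := hEw k
    have h5 := hu k
    have h6 : w k = 1 / uu a k := by rw [hw]
    rw [← h6, ← h4, mul_assoc, h6, one_div_mul_cancel h5.ne', mul_one]
  have h1 := h k hk t ht
  have h2 := hβ' k hk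
  have h3 : f t - β * t = (f t - b k * t) + (b k - β) * t := by ring
  have hwk : 1 / uu a k = w k := by rw [hw]
  rw [hwk] at ht ⊢
  have h4 : t ^ 2 ≤ c ^ 2 * w k ^ 2 := by
    rw [← mul_pow, ← sq_abs t]
    gcongr
  have h5 : |b k - β| * |t| ≤ M * E k * (c * w k) :=
    mul_le_mul h2 ht (abs_nonneg _) (mul_nonneg hM0.le (hE0 k))
  have h6 := hEw k
  have h8 := (ha k).le
  have h9 : 0 ≤ w k ^ 2 * SumB a (2 ^ k) := mul_nonneg (by positivity) (hS k)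
  rw [h3]
  refine (abs_add_le _ _).trans ?_
  rw [abs_mul]
  calc |f t - b k * t| + |b k - β| * |t|
      ≤ C * (a (2 ^ k) + t ^ 2 * SumB a (2 ^ k)) + M * E k * (c * w k) := add_le_add h1 h5
    _ ≤ C * (a (2 ^ k) + c ^ 2 * w k ^ 2 * SumB a (2 ^ k)) + M * E k * (c * w k) := by
        have := hS k
        gcongr
    _ = C * (a (2 ^ k) + c ^ 2 * (w k ^ 2 * SumB a (2 ^ k))) + M * c * (E k * w k) := by ring
    _ ≤ C * ((1 + c ^ 2) * (a (2 ^ k) + w k ^ 2 * SumB a (2 ^ k))) +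
        M * c * (a (2 ^ k) + w k ^ 2 * SumB a (2 ^ k)) := by
        rw [h6]
        have h10 : 0 ≤ c ^ 2 := by positivity
        gcongr
        nlinarith [mul_nonneg h10 h8]
    _ = _ := by ring

end Pool.Agent.H13.SK
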