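import Pool.Agent.H13.SK.Compare

/-!
# From the bound of the remainder to the dyadic inequality
-/

set_option autoImplicit false

open Filter Topology

namespace Pool.Agent.H13.SK

/-- Sum over the dyadic scales up to `n`. -/
noncomputable def SumB (a : ℕ → ℝ) (n : ℕ) : ℝ :=
  ∑ j ∈ Finset.range (Nat.log 2 n + 1), ((2 : ℝ) ^ j) ^ 4 * a (2 ^ j) ^ 3

variable {a : ℕ → ℝ} {L : ℝ → ℕ} {c₀ δ₀ cs Cs η : ℝ}

theorem SumB_mono (ha : ∀ n, 1 ≤ n → 0 < a n) {m n : ℕ} (h : m ≤ n) : SumB a m ≤ SumB a n := by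
  unfold SumB
  refine Finset.sum_le_sum_of_subset_of_nonneg ?_ fun j _ _ => ?_
  · refine Finset.range_subset_range.2 ?_
    have := Nat.log_mono_right (b := 2) h
    omega
  · have := ha (2 ^ j) Nat.one_le_two_pow
    positivity

theorem SumB_nonneg (ha : ∀ n, 1 ≤ n → 0 < a n) (n : ℕ) : 0 ≤ SumB a n := by
  unfold SumB
  refine Finset.sum_nonneg fun j _ => ?_
  have := ha (2 ^ j) Nat.one_le_two_pow
  positivity

/-- A characteristic length with its scale relation. -/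
structure Scl (a : ℕ → ℝ) (L : ℝ → ℕ) (c₀ δ₀ cs Cs η : ℝ) : Prop where
  hc₀ : 0 < c₀
  hδ₀ : 0 < δ₀
  hcs : 0 < cs
  hCs : 0 < Cs
  hη : 0 < η
  grow : Grow c₀ δ₀ 1 a
  pos : ∀ n, 1 ≤ n → 0 < a n
  anti : ∀ m n, 1 ≤ m → m ≤ n → a n ≤ a m
  one : ∀ h : ℝ, 0 < h → h < η → 1 ≤ L h
  large : ∀ n : ℕ, ∃ η' > (0 : ℝ), ∀ h : ℝ, 0 < h → h < η' → n ≤ L h
  scale : ∀ h : ℝ, 0 < h → h < η →
    cs ≤ h * ((L h : ℝ) ^ 2 * a (L h)) ∧ h * ((L h : ℝ) ^ 2 * a (L h)) ≤ Cs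

/-- The bound at the scale of the characteristic length. -/
theorem rem_len (S : Scl a L c₀ δ₀ cs Cs η) {Rm : ℝ → ℝ} {cr Cr : ℝ} (hcr : 0 < cr)
    (hCr : 0 < Cr) (n₀ : ℕ) (hR : ∀ n : ℕ, n₀ ≤ n → 1 ≤ n → ∀ x : ℝ, 0 < x →
      x * ((n : ℝ) ^ 2 * a n) ≤ cr →
      Rm x ≤ Cr * (1 / (n : ℝ) ^ 2 + (1 / ((n : ℝ) ^ 2 * a n)) ^ 3 * SumB a n)) :
    ∃ C > (0 : ℝ), ∃ η' > (0 : ℝ), η' ≤ η ∧ ∀ h : ℝ, 0 < h → h < η' →
      Rm h ≤ C * (1 / (L h : ℝ) ^ 2 + h ^ 3 * SumB a (L h)) := by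
  have hc₀ := S.hc₀
  have hδ₀ := S.hδ₀
  have hCs := S.hCs
  obtain ⟨K, hK1, hK⟩ : ∃ K : ℕ, 1 ≤ K ∧ Cs / (c₀ * cr) ≤ (K : ℝ) ^ δ₀ := by
    have h6 : Tendsto (fun r : ℕ => (r : ℝ) ^ δ₀) atTop atTop :=
      (tendsto_rpow_atTop hδ₀).comp tendsto_natCast_atTop_atTop
    obtain ⟨K, h1, h2⟩ := ((h6.eventually_ge_atTop (Cs / (c₀ * cr))).and
      (eventually_ge_atTop 1)).exists
    exact ⟨K, h2, h1⟩
  obtain ⟨η₁, hη₁, hl⟩ := S.large (K * (n₀ + 2))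
  have hcs := S.hcs
  have hKpos : (0 : ℝ) < K := by exact_mod_cast (by omega : 0 < K)
  refine ⟨Cr * (4 * (K : ℝ) ^ 2 + (4 * (K : ℝ) ^ 2 / cs) ^ 3), by positivity, min η η₁,
    lt_min S.hη hη₁, min_le_left _ _, ?_⟩
  intro h hh0 hh
  obtain ⟨Lh, hLh⟩ : ∃ Lh : ℕ, Lh = L h := ⟨_, rfl⟩
  have h1 := hl h hh0 (hh.trans_le (min_le_right _ _))
  have h2 := (S.scale h hh0 (hh.trans_le (min_le_left _ _))).2
  have h2' := (S.scale h hh0 (hh.trans_le (min_le_left _ _))).1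
  rw [← hLh] at h1 h2 h2' ⊢
  set n : ℕ := Lh / K with hn
  have hnn : n₀ + 2 ≤ n := by
    rw [hn, Nat.le_div_iff_mul_le (by omega)]
    rw [Nat.mul_comm]
    exact h1
  have hnK : n * K ≤ Lh := Nat.div_mul_le_self _ _
  have hnK' : Lh < (n + 1) * K := by
    have h := Nat.lt_mul_div_succ Lh (by omega : 0 < K)
    calc Lh < K * (Lh / K + 1) := h
      _ = _ := Nat.mul_comm _ _
  have hn0 : (0 : ℝ) < n := by exact_mod_cast (by omega : 0 < n)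
  have hK0 : (0 : ℝ) < K := by exact_mod_cast (by omega : 0 < K)
  have hnL : n ≤ Lh := le_trans (Nat.le_mul_of_pos_right n (by omega)) hnK
  have hL0 : (0 : ℝ) < Lh := by exact_mod_cast (by omega : 0 < Lh)
  have g1 := grow_sq S.grow (m := n) (n := Lh) (by omega) (by omega) (by omega)
  have g2 : (K : ℝ) ^ δ₀ ≤ ((Lh : ℝ) / n) ^ δ₀ := by
    refine Real.rpow_le_rpow hK0.le ?_ hδ₀.le
    rw [le_div_iff₀ hn0, mul_comm]
    exact_mod_cast hnK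
  have han := S.pos n (by omega)
  have haL := S.pos Lh (by omega)
  have hu : 0 < (n : ℝ) ^ 2 * a n := by positivity
  have g3 : h * ((n : ℝ) ^ 2 * a n) ≤ cr := by
    rw [div_le_iff₀ (by positivity)] at hK
    have hKδ : 0 < (K : ℝ) ^ δ₀ := by positivity
    have g4 : c₀ * (K : ℝ) ^ δ₀ * ((n : ℝ) ^ 2 * a n) ≤ (Lh : ℝ) ^ 2 * a Lh :=
      le_trans (by gcongr) g1
    have g5 : c₀ * (K : ℝ) ^ δ₀ * (h * ((n : ℝ) ^ 2 * a n)) ≤ c₀ * (K : ℝ) ^ δ₀ * cr := by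
      calc c₀ * (K : ℝ) ^ δ₀ * (h * ((n : ℝ) ^ 2 * a n))
          = h * (c₀ * (K : ℝ) ^ δ₀ * ((n : ℝ) ^ 2 * a n)) := by ring
        _ ≤ h * ((Lh : ℝ) ^ 2 * a Lh) := mul_le_mul_of_nonneg_left g4 hh0.le
        _ ≤ Cs := h2
        _ ≤ (K : ℝ) ^ δ₀ * (c₀ * cr) := hK
        _ = _ := by ring
    exact le_of_mul_le_mul_left g5 (by positivity)
  have g6 := hR n (by omega) (by omega) h hh0 g3
  have g7 : SumB a n ≤ SumB a Lh := SumB_mono S.pos hnL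
  have g8 : 1 / (n : ℝ) ^ 2 ≤ 4 * (K : ℝ) ^ 2 * (1 / (Lh : ℝ) ^ 2) := by
    have g9 : (Lh : ℝ) ≤ 2 * K * n := by
      have : Lh ≤ 2 * K * n := by nlinarith
      exact_mod_cast this
    rw [mul_one_div, div_le_div_iff₀ (by positivity) (by positivity), one_mul]
    calc (Lh : ℝ) ^ 2 ≤ (2 * K * n) ^ 2 := by gcongr
      _ = _ := by ring
  have hS0 := SumB_nonneg S.pos Lh
  have g10 : 1 / ((n : ℝ) ^ 2 * a n) ≤ 4 * (K : ℝ) ^ 2 / cs * h := by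
    have g11 : (Lh : ℝ) ^ 2 * a Lh ≤ 4 * (K : ℝ) ^ 2 * ((n : ℝ) ^ 2 * a n) := by
      have g12 : (Lh : ℝ) ≤ 2 * K * n := by
        have : Lh ≤ 2 * K * n := by nlinarith
        exact_mod_cast this
      calc (Lh : ℝ) ^ 2 * a Lh ≤ (2 * K * n) ^ 2 * a n := by
            have := S.anti n Lh (by omega) hnL
            gcongr
        _ = _ := by ring
    rw [div_le_iff₀ hu]
    have g13 : cs ≤ h * (4 * (K : ℝ) ^ 2 * ((n : ℝ) ^ 2 * a n)) :=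
      h2'.trans (mul_le_mul_of_nonneg_left g11 hh0.le)
    calc (1 : ℝ) = cs / cs := (div_self hcs.ne').symm
      _ ≤ h * (4 * (K : ℝ) ^ 2 * ((n : ℝ) ^ 2 * a n)) / cs := by gcongr
      _ = _ := by ring
  have g14 : (1 / ((n : ℝ) ^ 2 * a n)) ^ 3 ≤ (4 * (K : ℝ) ^ 2 / cs) ^ 3 * h ^ 3 := by
    rw [← mul_pow]
    gcongr
  have g15 := SumB_nonneg S.pos n
  have g16 : 0 ≤ h ^ 3 * SumB a Lh := by positivity
  have g17 : 0 ≤ 1 / (Lh : ℝ) ^ 2 := by positivity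
  have g18 : 0 ≤ (4 * (K : ℝ) ^ 2 / cs) ^ 3 := by positivity
  calc Rm h ≤ Cr * (1 / (n : ℝ) ^ 2 + (1 / ((n : ℝ) ^ 2 * a n)) ^ 3 * SumB a n) := g6
    _ ≤ Cr * (4 * (K : ℝ) ^ 2 * (1 / (Lh : ℝ) ^ 2) +
        (4 * (K : ℝ) ^ 2 / cs) ^ 3 * h ^ 3 * SumB a Lh) := by gcongr
    _ = Cr * (4 * (K : ℝ) ^ 2 * (1 / (Lh : ℝ) ^ 2) +
        (4 * (K : ℝ) ^ 2 / cs) ^ 3 * (h ^ 3 * SumB a Lh)) := by ring
    _ ≤ Cr * ((4 * (K : ℝ) ^ 2 + (4 * (K : ℝ) ^ 2 / cs) ^ 3) * (1 / (Lh : ℝ) ^ 2) +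
        (4 * (K : ℝ) ^ 2 + (4 * (K : ℝ) ^ 2 / cs) ^ 3) * (h ^ 3 * SumB a Lh)) := by
        have g19 : 0 ≤ 4 * (K : ℝ) ^ 2 := by positivity
        gcongr <;> linarith
    _ = _ := by ring

/-- The dyadic sum of the four-arm probabilities is bounded by the dyadic sum of a function which
is at least `L ^ (-2)`. -/
theorem sum_dyadic (S : Scl a L c₀ δ₀ cs Cs η) {f : ℝ → ℝ} (hf0 : ∀ t, 0 ≤ f t) {cf : ℝ}
    (hcf : 0 < cf) (hf : ∀ t : ℝ, 0 < t → t < η → cf / (L t : ℝ) ^ 2 ≤ f t) {η' : ℝ}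
    (hη' : 0 < η') (hηη : η' ≤ η) :
    ∃ C > (0 : ℝ), ∀ h : ℝ, 0 < h → h < η' → ∀ m : ℕ, η' ≤ 2 ^ m * h →
      SumB a (L h) ≤ C * (1 + ∑ k ∈ Finset.range m, f (2 ^ k * h) / (2 ^ k * h) ^ 3) := by
  classical
  have hc₀ := S.hc₀
  have hδ₀ := S.hδ₀
  have hCs := S.hCs
  obtain ⟨u, hu⟩ : ∃ u : ℕ → ℝ, u = fun j => ((2 : ℝ) ^ j) ^ 2 * a (2 ^ j) := ⟨_, rfl⟩
  have hupos : ∀ j, 0 < u j := by
    intro j
    rw [hu]
    have := S.pos (2 ^ j) Nat.one_le_two_pow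
    positivity
  have hb1 : 1 < (2 : ℝ) ^ δ₀ := Real.one_lt_rpow (by norm_num) hδ₀
  -- growth of `u`
  have hgrow : ∀ i j : ℕ, i ≤ j → c₀ * ((2 : ℝ) ^ δ₀) ^ (j - i) * u i ≤ u j := by
    intro i j hij
    have h1 := grow_sq S.grow (m := 2 ^ i) (n := 2 ^ j) Nat.one_le_two_pow Nat.one_le_two_pow
      (by rw [one_mul]; exact Nat.pow_le_pow_right (by norm_num) hij)
    have h2 : (((2 ^ j : ℕ) : ℝ) / ((2 ^ i : ℕ) : ℝ)) ^ δ₀ = ((2 : ℝ) ^ δ₀) ^ (j - i) := by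
      push_cast
      rw [div_eq_mul_inv, ← pow_sub₀ (2 : ℝ) (by norm_num) hij, ← Real.rpow_natCast, ← Real.rpow_natCast,
        ← Real.rpow_mul (by norm_num), ← Real.rpow_mul (by norm_num), mul_comm]
    rw [h2] at h1
    rw [hu]
    push_cast at h1 ⊢
    exact h1
  obtain ⟨lam, hlam⟩ : ∃ lam : ℝ, lam = Cs / c₀ + 1 := ⟨_, rfl⟩
  have hlam1 : 1 ≤ lam := by
    have : 0 < Cs / c₀ := by positivity
    linarith
  obtain ⟨K, hK1, hK⟩ := scale_cmp hc₀ hδ₀ one_pos hCs 1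
  obtain ⟨J, hJ⟩ : ∃ J : ℕ, 2 / c₀ ≤ ((2 : ℝ) ^ δ₀) ^ J :=
    ((tendsto_pow_atTop_atTop_of_one_lt hb1).eventually_ge_atTop (2 / c₀)).exists
  obtain ⟨J0, hJ0⟩ : ∃ J0 : ℕ, ∀ j, J0 ≤ j → 2 * lam / (η' * (c₀ * u 0)) < ((2 : ℝ) ^ δ₀) ^ j :=
    eventually_atTop.1 ((tendsto_pow_atTop_atTop_of_one_lt hb1).eventually_gt_atTop _)
  have hsmall : ∀ j, J0 ≤ j → 2 * lam / u j < η' := by
    intro j hj
    have h1 := hJ0 j hj
    have h2 := hgrow 0 j (Nat.zero_le _)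
    rw [Nat.sub_zero] at h2
    have h3 := hupos 0
    rw [div_lt_iff₀ (by positivity)] at h1
    rw [div_lt_iff₀ (hupos j)]
    calc 2 * lam < ((2 : ℝ) ^ δ₀) ^ j * (η' * (c₀ * u 0)) := h1
      _ = η' * (c₀ * ((2 : ℝ) ^ δ₀) ^ j * u 0) := by ring
      _ ≤ η' * u j := mul_le_mul_of_nonneg_left h2 hη'.le
  obtain ⟨D, hD⟩ : ∃ D : ℝ, D = 8 * lam ^ 3 * (K : ℝ) ^ 2 / cf := ⟨_, rfl⟩
  have hK0 : (0 : ℝ) < K := by exact_mod_cast (by omega : 0 < K)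
  have hD0 : 0 < D := by rw [hD]; positivity
  obtain ⟨C0, hC0⟩ : ∃ C0 : ℝ, C0 = ∑ j ∈ Finset.range J0, ((2 : ℝ) ^ j) ^ 4 * a (2 ^ j) ^ 3 :=
    ⟨_, rfl⟩
  have hterm : ∀ j : ℕ, 0 < ((2 : ℝ) ^ j) ^ 4 * a (2 ^ j) ^ 3 := by
    intro j
    have := S.pos (2 ^ j) Nat.one_le_two_pow
    positivity
  have hC00 : 0 ≤ C0 := by
    rw [hC0]
    exact Finset.sum_nonneg fun j _ => (hterm j).le
  refine ⟨C0 + 1 + J * D, by positivity, ?_⟩
  intro h hh0 hh m hm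
  have hhη : h < η := hh.trans_le hηη
  obtain ⟨Lh, hLh⟩ : ∃ Lh : ℕ, Lh = L h := ⟨_, rfl⟩
  have hL1 := S.one h hh0 hhη
  have hsc := (S.scale h hh0 hhη).2
  rw [← hLh] at hL1 hsc ⊢
  -- the index
  obtain ⟨κ, hκ⟩ : ∃ κ : ℕ → ℕ, κ = fun j => Nat.log 2 ⌊2 * lam / u j / h⌋₊ := ⟨_, rfl⟩
  have hX : ∀ j, 2 ^ j ≤ Lh → h ≤ lam / u j := by
    intro j hj
    have h1 := grow_sq S.grow (m := 2 ^ j) (n := Lh) Nat.one_le_two_pow hL1 (by rw [one_mul]; exact hj)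
    have h2 : (1 : ℝ) ≤ ((Lh : ℝ) / ((2 ^ j : ℕ) : ℝ)) ^ δ₀ := by
      refine Real.one_le_rpow ?_ hδ₀.le
      rw [one_le_div (by positivity)]
      exact_mod_cast hj
    have h3 : c₀ * u j ≤ (Lh : ℝ) ^ 2 * a Lh := by
      refine le_trans ?_ h1
      have e : c₀ * u j = c₀ * 1 * (((2 ^ j : ℕ) : ℝ) ^ 2 * a (2 ^ j)) := by
        rw [hu]
        push_cast
        ring
      rw [e]
      have h4 : 0 < ((2 ^ j : ℕ) : ℝ) ^ 2 * a (2 ^ j) := by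
        have := S.pos (2 ^ j) Nat.one_le_two_pow
        positivity
      gcongr
    rw [le_div_iff₀ (hupos j), hlam]
    have h5 : c₀ * (h * u j) ≤ Cs := by
      calc c₀ * (h * u j) = h * (c₀ * u j) := by ring
        _ ≤ h * ((Lh : ℝ) ^ 2 * a Lh) := mul_le_mul_of_nonneg_left h3 hh0.le
        _ ≤ Cs := hsc
    have h6 : h * u j ≤ Cs / c₀ := by
      rw [le_div_iff₀ hc₀]
      linarith
    linarith
  have hs : ∀ j, 2 ^ j ≤ Lh → lam / u j < 2 ^ κ j * h ∧ 2 ^ κ j * h ≤ 2 * lam / u j := by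
    intro j hj
    have h1 := hX j hj
    have hx2 : 2 ≤ 2 * lam / u j / h := by
      rw [le_div_iff₀ hh0]
      calc 2 * h ≤ 2 * (lam / u j) := by linarith
        _ = 2 * lam / u j := by ring
    set X : ℝ := 2 * lam / u j / h with hXd
    have hXh : X * h = 2 * lam / u j := by rw [hXd]; field_simp
    have hfl : 2 ≤ ⌊X⌋₊ := Nat.le_floor (by exact_mod_cast hx2)
    have hκj : κ j = Nat.log 2 ⌊X⌋₊ := by rw [hκ]
    have h2 : (2 ^ κ j : ℕ) ≤ ⌊X⌋₊ := by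
      rw [hκj]
      exact Nat.pow_log_le_self 2 (by omega)
    have h3 : ⌊X⌋₊ < 2 ^ (κ j + 1) := by
      rw [hκj]
      exact Nat.lt_pow_succ_log_self (by norm_num) _
    have h4 : (2 : ℝ) ^ κ j ≤ X := by
      have h5 : ((2 ^ κ j : ℕ) : ℝ) ≤ ⌊X⌋₊ := by exact_mod_cast h2
      push_cast at h5
      exact h5.trans (Nat.floor_le (by linarith))
    have h6 : X < 2 ^ (κ j + 1) := by
      have h7 : ((⌊X⌋₊ + 1 : ℕ) : ℝ) ≤ ((2 ^ (κ j + 1) : ℕ) : ℝ) := by exact_mod_cast h3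
      push_cast at h7
      exact (Nat.lt_floor_add_one X).trans_le h7
    constructor
    · have h8 : X * h < 2 ^ (κ j + 1) * h := mul_lt_mul_of_pos_right h6 hh0
      rw [hXh, pow_succ] at h8
      have h9 : 2 * (lam / u j) = 2 * lam / u j := by ring
      nlinarith
    · rw [← hXh]
      exact mul_le_mul_of_nonneg_right h4 hh0.le
  -- the terms
  have hmain : ∀ j, 2 ^ j ≤ Lh → J0 ≤ j → κ j ∈ Finset.range m ∧
      ((2 : ℝ) ^ j) ^ 4 * a (2 ^ j) ^ 3 ≤ D * (f (2 ^ κ j * h) / (2 ^ κ j * h) ^ 3) := by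
    intro j hj hj0
    obtain ⟨h1, h2⟩ := hs j hj
    obtain ⟨s, hsd⟩ : ∃ s : ℝ, s = 2 ^ κ j * h := ⟨_, rfl⟩
    rw [← hsd] at h1 h2 ⊢
    have hs0 : 0 < s := by rw [hsd]; positivity
    have h3 : s < η' := h2.trans_lt (hsmall j hj0)
    constructor
    · rw [Finset.mem_range]
      by_contra hlt
      push Not at hlt
      have h4 : (2 : ℝ) ^ m ≤ 2 ^ κ j := pow_le_pow_right₀ (by norm_num) hlt
      have h5 : (2 : ℝ) ^ m * h ≤ s := by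
        rw [hsd]
        exact mul_le_mul_of_nonneg_right h4 hh0.le
      linarith
    · have hsη : s < η := h3.trans_le hηη
      have hLs := S.one s hs0 hsη
      have h4 : 1 ≤ s * (((2 ^ j : ℕ) : ℝ) ^ 2 * a (2 ^ j)) := by
        have h5 : 1 / u j ≤ s := by
          refine le_trans ?_ h1.le
          have := hupos j
          gcongr
        rw [div_le_iff₀ (hupos j)] at h5
        rw [hu] at h5
        push_cast at h5 ⊢
        exact h5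
      have h6 := hK a S.grow s s (2 ^ j) (L s) Nat.one_le_two_pow hLs hs0 le_rfl h4
        (S.scale s hs0 hsη).2
      have h7 : (L s : ℝ) ≤ K * 2 ^ j := by exact_mod_cast h6
      have hLs0 : (0 : ℝ) < L s := by exact_mod_cast (by omega : 0 < L s)
      have h8 : cf / (K * 2 ^ j : ℝ) ^ 2 ≤ f s := by
        refine le_trans ?_ (hf s hs0 hsη)
        gcongr
      have h9 : s ^ 3 ≤ (2 * lam / u j) ^ 3 := by gcongr
      have huj := hupos j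
      have h10 : cf / (K * 2 ^ j : ℝ) ^ 2 / (2 * lam / u j) ^ 3 ≤ f s / s ^ 3 := by
        have h11 : 0 ≤ f s := hf0 s
        calc cf / (K * 2 ^ j : ℝ) ^ 2 / (2 * lam / u j) ^ 3 ≤ f s / (2 * lam / u j) ^ 3 := by
              gcongr
          _ ≤ f s / s ^ 3 := by gcongr
      have h12 : ((2 : ℝ) ^ j) ^ 4 * a (2 ^ j) ^ 3 =
          D * (cf / (K * 2 ^ j : ℝ) ^ 2 / (2 * lam / u j) ^ 3) := by
        rw [hD, hu]
        have ha0 := S.pos (2 ^ j) Nat.one_le_two_pow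
        field_simp
        ring
      rw [h12]
      exact mul_le_mul_of_nonneg_left h10 hD0.le
  -- fibres
  have hpair : ∀ i j : ℕ, 2 ^ i ≤ Lh → 2 ^ j ≤ Lh → i ≤ j → κ i = κ j → j < i + J := by
    intro i j hi hj hij hκe
    have h1 := (hs i hi).1
    have h2 := (hs j hj).2
    rw [hκe] at h1
    have h3 : lam / u i < 2 * lam / u j := h1.trans_le h2
    have hui := hupos i
    have huj := hupos j
    rw [div_lt_div_iff₀ hui huj] at h3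
    have h4 : u j < 2 * u i := by
      have h5 : 0 < lam := by linarith
      nlinarith
    have h5 := hgrow i j hij
    have h6 : ((2 : ℝ) ^ δ₀) ^ (j - i) < 2 / c₀ := by
      rw [lt_div_iff₀ hc₀]
      by_contra hlt
      push Not at hlt
      have h7 : 2 * u i ≤ ((2 : ℝ) ^ δ₀) ^ (j - i) * c₀ * u i :=
        mul_le_mul_of_nonneg_right hlt hui.le
      nlinarith
    have h7 := h6.trans_le hJ
    have h8 := (pow_lt_pow_iff_right₀ hb1).1 h7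
    omega
  set I : Finset ℕ := Finset.range (Nat.log 2 Lh + 1) with hI
  have hIL : ∀ j ∈ I, 2 ^ j ≤ Lh := by
    intro j hj
    rw [hI, Finset.mem_range] at hj
    exact (Nat.pow_le_pow_right (by norm_num) (by omega)).trans
      (Nat.pow_log_le_self 2 (by omega))
  obtain ⟨g, hg⟩ : ∃ g : ℕ → ℝ, g = fun k => f (2 ^ k * h) / (2 ^ k * h) ^ 3 := ⟨_, rfl⟩
  have hg0 : ∀ k, 0 ≤ g k := by
    intro k
    rw [hg]
    have := hf0 (2 ^ k * h)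
    positivity
  have hsplit : SumB a Lh = ∑ j ∈ I.filter (fun j => j < J0), ((2 : ℝ) ^ j) ^ 4 * a (2 ^ j) ^ 3 +
      ∑ j ∈ I.filter (fun j => ¬ j < J0), ((2 : ℝ) ^ j) ^ 4 * a (2 ^ j) ^ 3 := by
    rw [Finset.sum_filter_add_sum_filter_not]
    rfl
  have hpart1 : ∑ j ∈ I.filter (fun j => j < J0), ((2 : ℝ) ^ j) ^ 4 * a (2 ^ j) ^ 3 ≤ C0 := by
    rw [hC0]
    refine Finset.sum_le_sum_of_subset_of_nonneg ?_ fun j _ _ => (hterm j).le
    intro j hj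
    rw [Finset.mem_filter] at hj
    exact Finset.mem_range.2 hj.2
  have hpart2 : ∑ j ∈ I.filter (fun j => ¬ j < J0), ((2 : ℝ) ^ j) ^ 4 * a (2 ^ j) ^ 3 ≤
      J * D * ∑ k ∈ Finset.range m, g k := by
    have h1 : ∑ j ∈ I.filter (fun j => ¬ j < J0), ((2 : ℝ) ^ j) ^ 4 * a (2 ^ j) ^ 3 ≤
        ∑ j ∈ I.filter (fun j => ¬ j < J0), D * g (κ j) := by
      refine Finset.sum_le_sum fun j hj => ?_
      rw [Finset.mem_filter, not_lt] at hj
      rw [hg]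
      exact (hmain j (hIL j hj.1) hj.2).2
    refine h1.trans ?_
    rw [← Finset.sum_fiberwise_of_maps_to (t := Finset.range m) (g := κ)
      (fun j hj => by
        rw [Finset.mem_filter, not_lt] at hj
        exact (hmain j (hIL j hj.1) hj.2).1), Finset.mul_sum]
    refine Finset.sum_le_sum fun k _ => ?_
    have h2 : ∑ j ∈ (I.filter (fun j => ¬ j < J0)).filter (fun j => κ j = k), D * g (κ j) =
        (((I.filter (fun j => ¬ j < J0)).filter (fun j => κ j = k)).card : ℝ) * (D * g k) := by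
      rw [← nsmul_eq_mul, ← Finset.sum_const]
      refine Finset.sum_congr rfl fun j hj => ?_
      rw [(Finset.mem_filter.1 hj).2]
    rw [h2]
    have h3 : ((I.filter (fun j => ¬ j < J0)).filter (fun j => κ j = k)).card ≤ J := by
      rcases Finset.eq_empty_or_nonempty
        ((I.filter (fun j => ¬ j < J0)).filter (fun j => κ j = k)) with he | hne
      · rw [he]; simp
      · set i := Finset.min' _ hne with hi
        have hi' := Finset.min'_mem _ hne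
        rw [← hi, Finset.mem_filter, Finset.mem_filter] at hi'
        have h4 : (I.filter (fun j => ¬ j < J0)).filter (fun j => κ j = k) ⊆
            Finset.Ico i (i + J) := by
          intro j hj
          have h5 := Finset.min'_le _ j hj
          rw [← hi] at h5
          rw [Finset.mem_filter, Finset.mem_filter] at hj
          rw [Finset.mem_Ico]
          exact ⟨h5, hpair i j (hIL i hi'.1.1) (hIL j hj.1.1) h5 (by rw [hi'.2, hj.2])⟩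
        refine (Finset.card_le_card h4).trans ?_
        rw [Nat.card_Ico]
        omega
    have h5 : (((I.filter (fun j => ¬ j < J0)).filter (fun j => κ j = k)).card : ℝ) ≤ J := by
      exact_mod_cast h3
    have h6 : 0 ≤ D * g k := mul_nonneg hD0.le (hg0 k)
    calc _ ≤ (J : ℝ) * (D * g k) := mul_le_mul_of_nonneg_right h5 h6
      _ = _ := by ring
  have hG0 : 0 ≤ ∑ k ∈ Finset.range m, g k := Finset.sum_nonneg fun k _ => hg0 k
  have hfin : SumB a Lh ≤ C0 + J * D * ∑ k ∈ Finset.range m, g k := by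
    rw [hsplit]
    exact add_le_add hpart1 hpart2
  have hge : (∑ k ∈ Finset.range m, f (2 ^ k * h) / (2 ^ k * h) ^ 3) =
      ∑ k ∈ Finset.range m, g k := by rw [hg]
  rw [hge]
  have hJD : 0 ≤ (J : ℝ) * D := by positivity
  refine hfin.trans ?_
  nlinarith [mul_nonneg hC00 hG0, hJD, hG0, mul_nonneg hJD hG0]

/-- **The dyadic inequality.** -/
theorem rem_dyadic (S : Scl a L c₀ δ₀ cs Cs η) {f : ℝ → ℝ} (hf0 : ∀ t, 0 ≤ f t) {cf : ℝ}
    (hcf : 0 < cf) (hf : ∀ t : ℝ, 0 < t → t < η → cf / (L t : ℝ) ^ 2 ≤ f t)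
    {Rm : ℝ → ℝ} {cr Cr : ℝ} (hcr : 0 < cr)
    (hCr : 0 < Cr) (n₀ : ℕ) (hR : ∀ n : ℕ, n₀ ≤ n → 1 ≤ n → ∀ x : ℝ, 0 < x →
      x * ((n : ℝ) ^ 2 * a n) ≤ cr →
      Rm x ≤ Cr * (1 / (n : ℝ) ^ 2 + (1 / ((n : ℝ) ^ 2 * a n)) ^ 3 * SumB a n)) :
    ∃ η₁ > (0 : ℝ), ∀ η' : ℝ, 0 < η' → η' ≤ η₁ →
      ∃ C > (0 : ℝ), ∀ h : ℝ, 0 < h → h < η' → ∀ m : ℕ, η' ≤ 2 ^ m * h →
      Rm h ≤ C * (h ^ 3 * (1 + ∑ k ∈ Finset.range m, f (2 ^ k * h) / (2 ^ k * h) ^ 3)) := by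
  obtain ⟨C1, hC1, η₁, hη₁, hη₁η, h1⟩ := rem_len S hcr hCr n₀ hR
  refine ⟨η₁, hη₁, fun η' hη' hle => ?_⟩
  obtain ⟨C2, hC2, h2⟩ := sum_dyadic S hf0 hcf hf hη' (hle.trans hη₁η)
  refine ⟨C1 * (1 / cf + C2), by positivity, ?_⟩
  intro h hh0 hh m hm
  have h3 := h1 h hh0 (hh.trans_le hle)
  have h4 := h2 h hh0 hh m hm
  have hhη : h < η := hh.trans_le (hle.trans hη₁η)
  have h5 := hf h hh0 hhη
  have hm0 : 0 < m := by
    by_contra hlt
    have : m = 0 := by omega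
    rw [this, pow_zero, one_mul] at hm
    linarith
  set Sg : ℝ := ∑ k ∈ Finset.range m, f (2 ^ k * h) / (2 ^ k * h) ^ 3 with hSg
  have h6 : f h / h ^ 3 ≤ Sg := by
    have h7 := Finset.single_le_sum (f := fun k : ℕ => f (2 ^ k * h) / (2 ^ k * h) ^ 3)
      (fun k _ => by have := hf0 (2 ^ k * h); positivity) (Finset.mem_range.2 hm0)
    simp only [pow_zero, one_mul] at h7
    exact h7
  have h7 : 1 / (L h : ℝ) ^ 2 ≤ 1 / cf * (h ^ 3 * Sg) := by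
    have h8 : f h ≤ h ^ 3 * Sg := by
      rw [div_le_iff₀ (by positivity)] at h6
      linarith
    have h9 : cf / (L h : ℝ) ^ 2 ≤ h ^ 3 * Sg := h5.trans h8
    calc 1 / (L h : ℝ) ^ 2 = 1 / cf * (cf / (L h : ℝ) ^ 2) := by field_simp
      _ ≤ _ := mul_le_mul_of_nonneg_left h9 (by positivity)
  have hSg0 : 0 ≤ Sg := Finset.sum_nonneg fun k _ => by
    have := hf0 (2 ^ k * h)
    positivity
  calc Rm h ≤ C1 * (1 / (L h : ℝ) ^ 2 + h ^ 3 * SumB a (L h)) := h3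
    _ ≤ C1 * (1 / cf * (h ^ 3 * Sg) + h ^ 3 * (C2 * (1 + Sg))) := by gcongr
    _ = C1 * (h ^ 3 * (1 / cf * Sg + C2 * (1 + Sg))) := by ring
    _ ≤ C1 * (h ^ 3 * (1 / cf * (1 + Sg) + C2 * (1 + Sg))) := by
        gcongr
        linarith
    _ = _ := by ring

end Pool.Agent.H13.SK
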