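import Pool.Agent.H13.SK.LenTwo

/-!
# The regime in the window around the critical density
-/

set_option autoImplicit false

open MeasureTheory ProbabilityTheory unitInterval Filter Topology

namespace Pool.Agent.H13.SK

open Pool.Agent.H89.Perc Pool.Agent.H83.Site

variable {a4 : I → ℕ → ℝ} {Wp : I → ℕ → ℝ} {Reg : ℝ → ℕ → I → Prop}

/-- `n ^ 2 a4(n)` is bounded below. -/
theorem NC.sq_low (H : NC a4 Wp Reg) :
    ∃ c₂ > (0 : ℝ), ∀ n : ℕ, 1 ≤ n → c₂ ≤ (n : ℝ) ^ 2 * a4 pc n := by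
  obtain ⟨c₀, hc₀, δ₀, hδ₀, hδ₁, hG⟩ := H.growth1
  refine ⟨c₀ * a4 pc 1, mul_pos hc₀ H.pos, fun n hn => ?_⟩
  have hn1 : (1 : ℝ) ≤ n := by exact_mod_cast hn
  have h1 := grow_sq hG (m := 1) (n := n) le_rfl hn (by omega)
  have h2 : 1 ≤ ((n : ℝ) / (1 : ℕ)) ^ δ₀ := by
    refine Real.one_le_rpow ?_ hδ₀.le
    rw [Nat.cast_one, div_one]
    exact hn1
  have h3 : 0 < c₀ * a4 pc 1 := mul_pos hc₀ H.pos
  refine le_trans ?_ h1
  have e : c₀ * ((n : ℝ) / (1 : ℕ)) ^ δ₀ * (((1 : ℕ) : ℝ) ^ 2 * a4 pc 1) =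
      ((n : ℝ) / (1 : ℕ)) ^ δ₀ * (c₀ * a4 pc 1) := by
    push_cast
    ring
  rw [e]
  nlinarith

/-- Positivity of the four-arm probability at the critical density. -/
theorem NC.pos_pc (H : NC a4 Wp Reg) (n : ℕ) (hn : 1 ≤ n) : 0 < a4 pc n := by
  obtain ⟨c₂, hc₂, h⟩ := H.sq_low
  have h1 := hc₂.trans_le (h n hn)
  exact (mul_pos_iff_of_pos_left (by positivity)).1 h1

/-- The critical density is in the regime of crossings at all scales. -/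
theorem regT_pc (K : ℕ) : ∃ c > (0 : ℝ), ∀ n : ℕ, RegT K c n pc := by
  obtain ⟨c, hc, h1⟩ := bxp_pc.1 K
  obtain ⟨c', hc', h2⟩ := bxp_pc.2 K
  exact ⟨min c c', lt_min hc hc', fun n m hm _ =>
    ⟨(min_le_left _ _).trans (h1 m hm), (min_le_right _ _).trans (h2 m hm)⟩⟩

/-- **The window is in the regime.** -/
theorem window_reg (H : NC a4 Wp Reg) (K : ℕ) : ∃ c > (0 : ℝ), ∃ c' > (0 : ℝ),
    ∀ (n : ℕ) (q : I), 1 ≤ n → |(q : ℝ) - pc| * ((n : ℝ) ^ 2 * a4 pc n) ≤ c' →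
      RegT 8 c (K * n) q := by
  obtain ⟨L, F⟩ := len_facts H
  obtain ⟨c₀, hc₀, δ₀, hδ₀, hδ₁, hG⟩ := H.growth1
  obtain ⟨c₂, hc₂, hsq⟩ := H.sq_low
  obtain ⟨cs, hcs, Cs, hCs, ηs, hηs, hscale⟩ := F.scale
  obtain ⟨cr, hcr, ηr, hηr, hreg⟩ := F.reg K
  obtain ⟨ηl, hηl, hlarge⟩ := F.large 1
  obtain ⟨cp, hcp, hpc⟩ := regT_pc 8
  obtain ⟨c₃, hc₃, hsmall⟩ := scale_small hc₀ hδ₀ hcs (k := 1) le_rfl
  set η : ℝ := min ηs (min ηr ηl) with hη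
  have hη0 : 0 < η := lt_min hηs (lt_min hηr hηl)
  refine ⟨min cr cp, lt_min hcr hcp, min c₃ (η * c₂ / 2), lt_min hc₃ (by positivity), ?_⟩
  intro n q hn hq
  rcases eq_or_ne ((q : ℝ) - pc) 0 with h0 | h0
  · have : q = pc := Subtype.ext (by linarith)
    rw [this]
    exact (hpc (K * n)).mono_c (min_le_right _ _)
  · set h : ℝ := |(q : ℝ) - pc| with hh
    have hh0 : 0 < h := abs_pos.2 h0
    have h1 : h * c₂ ≤ h * ((n : ℝ) ^ 2 * a4 pc n) := mul_le_mul_of_nonneg_left (hsq n hn) hh0.le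
    have h2 : h < η := by
      have h3 : h * c₂ ≤ η * c₂ / 2 := h1.trans (hq.trans (min_le_right _ _))
      by_contra hlt
      push Not at hlt
      nlinarith
    have hs : h < ηs := h2.trans_le (min_le_left _ _)
    have hr : h < ηr := h2.trans_le ((min_le_right _ _).trans (min_le_left _ _))
    have hl : h < ηl := h2.trans_le ((min_le_right _ _).trans (min_le_right _ _))
    have h4 := hsmall (a4 pc) hG h h (L h) n (hlarge h hh0 hl) hn hh0 le_rfl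
      (hscale h hh0 hs).1 (hq.trans (min_le_left _ _))
    rw [one_mul] at h4
    exact ((hreg h hh0 hr q le_rfl).anti (Nat.mul_le_mul_left K h4)).mono_c (min_le_left _ _)

/-- The window is in the abstract regime. -/
theorem window_reg' (H : NC a4 Wp Reg) (K : ℕ) : ∃ c > (0 : ℝ), ∃ c' > (0 : ℝ),
    ∀ (n : ℕ) (q : I), 1 ≤ n → |(q : ℝ) - pc| * ((n : ℝ) ^ 2 * a4 pc n) ≤ c' →
      Reg c (K * n) q := by
  obtain ⟨c, hc, c', hc', h⟩ := window_reg H K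
  obtain ⟨c'', hc'', hd⟩ := H.dict c hc
  exact ⟨c'', hc'', c', hc', fun n q hn hq => hd _ q (h n q hn hq)⟩

/-- Upper bound for `n ^ 2 a4(n)`. -/
theorem NC.sq_up (H : NC a4 Wp Reg) : ∃ C > (0 : ℝ), ∃ δ > (0 : ℝ), δ < 1 ∧
    ∀ n : ℕ, 1 ≤ n → (n : ℝ) ^ 2 * a4 pc n ≤ C * (n : ℝ) ^ (1 - δ) := by
  obtain ⟨c, hc, hreg⟩ := H.reg_pc
  obtain ⟨C, hC, δ₀, hδ₀, hδ₁, hg⟩ := H.high c hc
  refine ⟨C * a4 pc 1, mul_pos hC H.pos, δ₀ / 2, by positivity, by linarith, fun n hn => ?_⟩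
  have hn1 : (1 : ℝ) ≤ n := by exact_mod_cast hn
  have hn0 : (0 : ℝ) < n := by linarith
  have h1 := hg 1 n pc le_rfl hn (hreg _)
  have h2 : (((1 : ℕ) : ℝ) / n) ^ (1 + δ₀) = (n : ℝ) ^ (-(1 + δ₀)) := by
    rw [Nat.cast_one, one_div, Real.inv_rpow hn0.le, Real.rpow_neg hn0.le]
  rw [h2] at h1
  have h3 : (n : ℝ) ^ 2 * (n : ℝ) ^ (-(1 + δ₀)) = (n : ℝ) ^ (1 - δ₀) := by
    rw [← Real.rpow_two, ← Real.rpow_add hn0]
    congr 1
    ring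
  have h4 : (n : ℝ) ^ (1 - δ₀) ≤ (n : ℝ) ^ (1 - δ₀ / 2) :=
    Real.rpow_le_rpow_of_exponent_le hn1 (by linarith)
  have hp := H.pos
  calc (n : ℝ) ^ 2 * a4 pc n ≤ (n : ℝ) ^ 2 * (C * (n : ℝ) ^ (-(1 + δ₀)) * a4 pc 1) :=
        mul_le_mul_of_nonneg_left h1 (by positivity)
    _ = C * a4 pc 1 * ((n : ℝ) ^ 2 * (n : ℝ) ^ (-(1 + δ₀))) := by ring
    _ = C * a4 pc 1 * (n : ℝ) ^ (1 - δ₀) := by rw [h3]
    _ ≤ C * a4 pc 1 * (n : ℝ) ^ (1 - δ₀ / 2) := mul_le_mul_of_nonneg_left h4 (by positivity)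

end Pool.Agent.H13.SK
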