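import Pool.Agent.H13.SK.SigmaTr

/-!
# The mean cluster size is nondecreasing in the density
-/

set_option autoImplicit false

open MeasureTheory ProbabilityTheory unitInterval
open scoped ENNReal

namespace Pool.Agent.H13.SK

open Pool.Agent.H89.Perc Pool.Agent.H83.Site

/-- The mean cluster size as the sum of the two-point function. -/
theorem sigma_eq_tsum (p : I) (r : Bool) (G : (ℤ × ℤ → Bool) → SimpleGraph (ℤ × ℤ))
    (hG : ∀ ω u v, (G ω).Adj u v ↔ ω u = true ∧ ω v = true ∧ SA r u v) :
    ∫⁻ ω, (({v | ω (0, 0) = true ∧ (G ω).Reachable (0, 0) v}.encard : ℕ∞) : ℝ≥0∞)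
        ∂(Measure.infinitePi (fun _ : ℤ × ℤ => bernoulliMeasure true false p)) =
      ∑' v : ℤ × ℤ, ENNReal.ofReal (PT p r (C0 v)) := by
  classical
  set ν := Measure.infinitePi (fun _ : ℤ × ℤ => bernoulliMeasure true false p) with hν
  have hext : Measurable extS := by
    refine measurable_pi_lambda _ fun v => ?_
    exact measurable_pi_apply (v.1, v.2.1)
  have hres : Measurable resS := by
    refine measurable_pi_lambda _ fun v => ?_
    exact measurable_pi_apply (v.1, v.2, false)
  set T : ℤ × ℤ → Set (ℤ × ℤ → Bool) := fun v => {w | full r (extS w) ∈ C0 v} with hT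
  have hmeas : ∀ v, MeasurableSet (T v) := fun v => hext (meas_C0 r v)
  have hiff : ∀ (w : ℤ × ℤ → Bool) (v : ℤ × ℤ),
      (w (0, 0) = true ∧ (G w).Reachable (0, 0) v) ↔ w ∈ T v := by
    intro w v
    constructor
    · rintro ⟨h1, h2⟩
      exact tconn_of_reachable (hG w) h1 h2
    · intro h
      have h0 : TConn (full r (extS w)) Set.univ (0, 0, false) (v.1, v.2, false) := h
      have h1 := h0.open_left
      have h2 := h0.open_right
      rw [full_site] at h1 h2
      exact ⟨h1, reachable_of_tconn (u := (0, 0)) (hG w) h0 v (by simp [crn]) h2⟩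
  have h1 : ∀ w : ℤ × ℤ → Bool,
      (({v | w (0, 0) = true ∧ (G w).Reachable (0, 0) v}.encard : ℕ∞) : ℝ≥0∞) =
      ∑' v : ℤ × ℤ, Set.indicator (T v) (fun _ => (1 : ℝ≥0∞)) w := by
    intro w
    rw [← ENNReal.tsum_set_one,
      tsum_subtype {v | w (0, 0) = true ∧ (G w).Reachable (0, 0) v} (fun _ => (1 : ℝ≥0∞))]
    refine tsum_congr fun v => ?_
    by_cases h : w ∈ T v
    · rw [Set.indicator_of_mem (show v ∈ {v | w (0, 0) = true ∧ (G w).Reachable (0, 0) v} from
        (hiff w v).2 h), Set.indicator_of_mem h]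
    · rw [Set.indicator_of_notMem (show v ∉ {v | w (0, 0) = true ∧ (G w).Reachable (0, 0) v} from
        fun h' => h ((hiff w v).1 h')), Set.indicator_of_notMem h]
  simp_rw [h1]
  rw [lintegral_tsum fun v => (measurable_const.indicator (hmeas v)).aemeasurable]
  refine tsum_congr fun v => ?_
  rw [lintegral_indicator (hmeas v), lintegral_const, Measure.restrict_apply_univ, one_mul,
    hν, ← map_resS, Measure.map_apply hres (hmeas v)]
  unfold PT Pr
  rw [ofReal_measureReal]
  congr 1
  ext ω
  simp only [hT, Set.mem_preimage, Set.mem_ofPred_eq, full_extS_resS]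

/-- The two-point function is nondecreasing in the density. -/
theorem PT_C0_mono {p q : I} (h : p ≤ q) (r : Bool) (v : ℤ × ℤ) :
    PT p r (C0 v) ≤ PT q r (C0 v) := by
  have hU : {ω : Config | full r ω ∈ C0 v} = ⋃ R : ℕ,
      {ω | full r ω ∈ {η | TConn η (TR (-R) R (-R) R) (0, 0, false) (sit0 v)}} := by
    ext ω
    simp only [Set.mem_ofPred_eq, Set.mem_iUnion]
    constructor
    · intro h
      exact tconn_box h
    · rintro ⟨R, hR⟩
      exact hR.mono_set (Set.subset_univ _)
  have hmono : Monotone fun R : ℕ =>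
      {ω : Config | full r ω ∈ {η | TConn η (TR (-R) R (-R) R) (0, 0, false) (sit0 v)}} := by
    intro R R' hRR ω hω
    simp only [Set.mem_ofPred_eq] at hω ⊢
    exact hω.mono_set (TR_mono (by omega) (by omega) (by omega) (by omega))
  have hle : μ p {ω : Config | full r ω ∈ C0 v} ≤ μ q {ω : Config | full r ω ∈ C0 v} := by
    rw [hU, hmono.measure_iUnion, hmono.measure_iUnion]
    refine iSup_mono fun R => ?_
    have h1 := PT_mono_param (r := r) (localOn_tconn (-R) R (-R) R (0, 0, false) (sit0 v))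
      (fun η η' hη hc => TConn.mono subset_rfl (fun x _ hx => hη x hx) hc) h
    unfold PT Pr at h1
    rw [measureReal_def, measureReal_def, ENNReal.toReal_le_toReal (measure_ne_top _ _)
      (measure_ne_top _ _)] at h1
    exact h1
  unfold PT Pr
  rw [measureReal_def, measureReal_def]
  exact ENNReal.toReal_mono (measure_ne_top _ _) hle

/-- The mean cluster size is nondecreasing in the density. -/
theorem sigma_mono {p q : I} (h : p ≤ q) (r : Bool) (G : (ℤ × ℤ → Bool) → SimpleGraph (ℤ × ℤ))
    (hG : ∀ ω u v, (G ω).Adj u v ↔ ω u = true ∧ ω v = true ∧ SA r u v) :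
    ∫⁻ ω, (({v | ω (0, 0) = true ∧ (G ω).Reachable (0, 0) v}.encard : ℕ∞) : ℝ≥0∞)
        ∂(Measure.infinitePi (fun _ : ℤ × ℤ => bernoulliMeasure true false p)) ≤
      ∫⁻ ω, (({v | ω (0, 0) = true ∧ (G ω).Reachable (0, 0) v}.encard : ℕ∞) : ℝ≥0∞)
        ∂(Measure.infinitePi (fun _ : ℤ × ℤ => bernoulliMeasure true false q)) := by
  rw [sigma_eq_tsum p r G hG, sigma_eq_tsum q r G hG]
  exact ENNReal.tsum_le_tsum fun v => ENNReal.ofReal_le_ofReal (PT_C0_mono h r v)

/-- The probability that one site is open. -/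
theorem Pr_open (q : I) (e : Edge) : Pr q {ω : Config | ω e = true} = q := by
  have hloc : LocalOn {e} {ω : Config | ω e = true} := by
    intro ω ω' h hω
    rw [Set.mem_ofPred_eq, ← h e (Finset.mem_singleton_self e)]
    exact hω
  rw [Pr_eq_update hloc e]
  have h1 : {ω : Config | Function.update ω e true ∈ {ω : Config | ω e = true}} = Set.univ := by
    ext ω; simp
  have h2 : {ω : Config | Function.update ω e false ∈ {ω : Config | ω e = true}} = ∅ := by
    ext ω; simp
  rw [h1, h2, Pr_univ]
  simp [Pr]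

theorem PT_C0_zero (p : I) (r : Bool) : PT p r (C0 (0, 0)) = p := by
  have h : {ω : Config | full r ω ∈ C0 (0, 0)} = {ω : Config | ω (0, 0, false) = true} := by
    ext ω
    simp only [Set.mem_ofPred_eq, C0, sit0]
    constructor
    · intro h
      have := h.open_left
      rwa [full_site] at this
    · intro h
      refine TConn.refl (Set.mem_univ _) ?_
      rw [full_site]
      exact h
  unfold PT
  rw [h]
  exact Pr_open p _

/-- The mean cluster size is at least the density. -/
theorem le_sigma (p : I) (r : Bool) (G : (ℤ × ℤ → Bool) → SimpleGraph (ℤ × ℤ))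
    (hG : ∀ ω u v, (G ω).Adj u v ↔ ω u = true ∧ ω v = true ∧ SA r u v) :
    ENNReal.ofReal p ≤
    ∫⁻ ω, (({v | ω (0, 0) = true ∧ (G ω).Reachable (0, 0) v}.encard : ℕ∞) : ℝ≥0∞)
        ∂(Measure.infinitePi (fun _ : ℤ × ℤ => bernoulliMeasure true false p)) := by
  rw [sigma_eq_tsum p r G hG]
  refine le_trans ?_ (ENNReal.le_tsum (0, 0))
  rw [PT_C0_zero]

end Pool.Agent.H13.SK
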