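import Pool.Agent.H13.SK.FinalTwo
import Pool.Agent.H13.SK.LenThree
import Pool.Agent.H13.SK.SigmaMono

/-!
# The remainder of the cluster density in terms of `θ` and `σ`
-/

set_option autoImplicit false

open MeasureTheory ProbabilityTheory unitInterval Filter Topology
open scoped ENNReal

namespace Pool.Agent.H13.SK

open Pool.Agent.H89.Perc Pool.Agent.H83.Site

variable {a4 : I → ℕ → ℝ} {Wp : I → ℕ → ℝ} {Reg : ℝ → ℕ → I → Prop}

/-- The mean cluster size. -/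
noncomputable def mcs (G : (ℤ × ℤ → Bool) → SimpleGraph (ℤ × ℤ)) (p : I) : ℝ≥0∞ :=
  ∫⁻ ω, (({v | ω (0, 0) = true ∧ (G ω).Reachable (0, 0) v}.encard : ℕ∞) : ℝ≥0∞)
    ∂(Measure.infinitePi (fun _ : ℤ × ℤ => bernoulliMeasure true false p))

/-- `θ(pc + t) ^ 2 / σ(pc - t)`. -/
noncomputable def fR (G : (ℤ × ℤ → Bool) → SimpleGraph (ℤ × ℤ)) (t : ℝ) : ℝ :=
  thT (pI (pc + t)) false ^ 2 / (mcs G (pI (pc - t))).toReal

theorem fR_nonneg (G : (ℤ × ℤ → Bool) → SimpleGraph (ℤ × ℤ)) (t : ℝ) : 0 ≤ fR G t := by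
  unfold fR
  positivity

theorem pI_mono {x y : ℝ} (h : x ≤ y) : pI x ≤ pI y := Set.monotone_projIcc _ h

/-- Data of the characteristic length. -/
theorem exists_scl (H : NC a4 Wp Reg) : ∃ (L : ℝ → ℕ) (c₀ δ₀ cs Cs η : ℝ),
    LenFacts a4 L ∧ Scl (a4 pc) L c₀ δ₀ cs Cs η := by
  obtain ⟨L, F⟩ := len_facts H
  obtain ⟨c₀, hc₀, δ₀, hδ₀, -, hG⟩ := H.growth1
  obtain ⟨cs, hcs, Cs, hCs, ηs, hηs, hscale⟩ := F.scale
  obtain ⟨ηl, hηl, hlarge⟩ := F.large 1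
  refine ⟨L, c₀, δ₀, cs, Cs, min ηs ηl, F, ?_⟩
  exact
    { hc₀ := hc₀
      hδ₀ := hδ₀
      hcs := hcs
      hCs := hCs
      hη := lt_min hηs hηl
      grow := hG
      pos := H.pos_pc
      anti := fun m n hm hmn => H.anti pc m n hm hmn
      one := fun h h0 h1 => hlarge h h0 (h1.trans_le (min_le_right _ _))
      large := F.large
      scale := fun h h0 h1 => hscale h h0 (h1.trans_le (min_le_left _ _)) }

/-- The function `θ² / σ` is at least `L ^ (-2)`. -/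
theorem fR_lower {L : ℝ → ℕ} (F : LenFacts a4 L) (G : (ℤ × ℤ → Bool) → SimpleGraph (ℤ × ℤ))
    (hG : ∀ ω u v, (G ω).Adj u v ↔ ω u = true ∧ ω v = true ∧ SA false u v) :
    ∃ cf > (0 : ℝ), ∃ η > (0 : ℝ), (∀ t : ℝ, 0 < t → t < η → cf / (L t : ℝ) ^ 2 ≤ fR G t) ∧
      (∀ t : ℝ, 0 < t → t < η → 0 < (mcs G (pI (pc - t))).toReal ∧
        mcs G (pI (pc - t)) ≠ ⊤) ∧ MonotoneOn (fR G) (Set.Ioo 0 η) := by
  obtain ⟨ct, hct, ηt, hηt, hth⟩ := F.theta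
  obtain ⟨C, hC, ησ, hησ, hsg⟩ := F.sigma
  obtain ⟨ηl, hηl, hlarge⟩ := F.large 1
  obtain ⟨ηa, hηa, habs⟩ := abs_small
  have hpc := pc_pos
  set η : ℝ := min (min ηt ησ) (min (min ηl ηa) pc) with hη
  have hη0 : 0 < η := lt_min (lt_min hηt hησ) (lt_min (lt_min hηl hηa) hpc)
  have hle1 : η ≤ ηt := (min_le_left _ _).trans (min_le_left _ _)
  have hle2 : η ≤ ησ := (min_le_left _ _).trans (min_le_right _ _)
  have hle3 : η ≤ ηl := (min_le_right _ _).trans ((min_le_left _ _).trans (min_le_left _ _))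
  have hle4 : η ≤ ηa := (min_le_right _ _).trans ((min_le_left _ _).trans (min_le_right _ _))
  have hle5 : η ≤ pc := (min_le_right _ _).trans (min_le_right _ _)
  have hval1 : ∀ t : ℝ, 0 < t → t < η → ((pI (pc + t) : I) : ℝ) = pc + t := by
    intro t h0 h1
    have := habs t h0 (h1.trans_le hle4)
    exact pI_val (by linarith [pc.2.1]) this.2
  have hval2 : ∀ t : ℝ, 0 < t → t < η → ((pI (pc - t) : I) : ℝ) = pc - t := by
    intro t h0 h1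
    have := habs t h0 (h1.trans_le hle4)
    exact pI_val this.1 (by linarith [pc.2.2])
  have hup : ∀ t : ℝ, 0 < t → t < η → mcs G (pI (pc - t)) ≤
      ENNReal.ofReal (C * (L t : ℝ) ^ 2 * ab pc false 0 (L t) ^ 2) := by
    intro t h0 h1
    exact sigma_le_of (pI (pc - t)) false G hG
      (hsg t h0 (h1.trans_le hle2) (pI (pc - t)) (hval2 t h0 h1))
  have hlo : ∀ t : ℝ, 0 < t → t < η → ENNReal.ofReal (pc - t) ≤ mcs G (pI (pc - t)) := by
    intro t h0 h1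
    have h2 := le_sigma (pI (pc - t)) false G hG
    rw [hval2 t h0 h1] at h2
    exact h2
  have hfin : ∀ t : ℝ, 0 < t → t < η → 0 < (mcs G (pI (pc - t))).toReal ∧
        mcs G (pI (pc - t)) ≠ ⊤ := by
    intro t h0 h1
    have h2 : mcs G (pI (pc - t)) ≠ ⊤ := ne_top_of_le_ne_top ENNReal.ofReal_ne_top (hup t h0 h1)
    refine ⟨ENNReal.toReal_pos ?_ h2, h2⟩
    have h3 := hlo t h0 h1
    have h4 : 0 < ENNReal.ofReal (pc - t) := ENNReal.ofReal_pos.2 (by linarith)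
    exact (h4.trans_le h3).ne'
  refine ⟨ct ^ 2 / C, by positivity, η, hη0, ?_, hfin, ?_⟩
  · intro t h0 h1
    obtain ⟨h2, h3⟩ := hfin t h0 h1
    have h4 := hth t h0 (h1.trans_le hle1) (pI (pc + t)) (hval1 t h0 h1)
    have hL : (0 : ℝ) < L t := by
      have := hlarge t h0 (h1.trans_le hle3)
      exact_mod_cast (by omega : 0 < L t)
    have h5 : (mcs G (pI (pc - t))).toReal ≤ C * (L t : ℝ) ^ 2 * ab pc false 0 (L t) ^ 2 := by
      have h6 := ENNReal.toReal_mono ENNReal.ofReal_ne_top (hup t h0 h1)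
      rwa [ENNReal.toReal_ofReal (by positivity)] at h6
    have hπ : 0 ≤ ab pc false 0 (L t) := ab_nonneg
    unfold fR
    rw [div_div, div_le_div_iff₀ (by positivity) h2]
    calc ct ^ 2 * (mcs G (pI (pc - t))).toReal
        ≤ ct ^ 2 * (C * (L t : ℝ) ^ 2 * ab pc false 0 (L t) ^ 2) := by gcongr
      _ = (ct * ab pc false 0 (L t)) ^ 2 * (C * (L t : ℝ) ^ 2) := by ring
      _ ≤ thT (pI (pc + t)) false ^ 2 * (C * (L t : ℝ) ^ 2) := by gcongr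
  · rintro s ⟨hs0, hs1⟩ t ⟨ht0, ht1⟩ hst
    obtain ⟨h2, h3⟩ := hfin s hs0 hs1
    obtain ⟨h4, h5⟩ := hfin t ht0 ht1
    have h6 : thT (pI (pc + s)) false ≤ thT (pI (pc + t)) false :=
      thT_mono false (pI_mono (by linarith))
    have h7 : (mcs G (pI (pc - t))).toReal ≤ (mcs G (pI (pc - s))).toReal :=
      ENNReal.toReal_mono h3 (sigma_mono (pI_mono (by linarith)) false G hG)
    have h8 : 0 ≤ thT (pI (pc + s)) false := measureReal_nonneg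
    unfold fR
    gcongr

/-- The bound of the remainder by the four-arm probabilities. -/
def RemB (a : ℕ → ℝ) (Rm : ℝ → ℝ) : Prop :=
  ∃ cr > (0 : ℝ), ∃ Cr > (0 : ℝ), ∃ n₀ : ℕ, ∀ n : ℕ, n₀ ≤ n → 1 ≤ n → ∀ x : ℝ, 0 < x →
    x * ((n : ℝ) ^ 2 * a n) ≤ cr →
    Rm x ≤ Cr * (1 / (n : ℝ) ^ 2 + (1 / ((n : ℝ) ^ 2 * a n)) ^ 3 * SumB a n)

theorem Scl.shrink {a : ℕ → ℝ} {L : ℝ → ℕ} {c₀ δ₀ cs Cs η η' : ℝ} (S : Scl a L c₀ δ₀ cs Cs η)
    (h0 : 0 < η') (h : η' ≤ η) : Scl a L c₀ δ₀ cs Cs η' :=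
  { S with
    hη := h0
    one := fun t h1 h2 => S.one t h1 (h2.trans_le h)
    scale := fun t h1 h2 => S.scale t h1 (h2.trans_le h) }

/-- The remainder is smaller than the square by a power. -/
theorem rem_power (H : NC a4 Wp Reg) {Rm : ℝ → ℝ} (hR : RemB (a4 pc) Rm) :
    ∃ e : ℝ, 2 < e ∧ e < 3 ∧ ∃ C > (0 : ℝ), ∃ η > (0 : ℝ), ∀ h : ℝ, 0 < h → h < η →
      Rm h ≤ C * h ^ e := by
  obtain ⟨L, c₀, δ₀, cs, Cs, η, F, S⟩ := exists_scl H
  obtain ⟨cr, hcr, Cr, hCr, n₀, hR⟩ := hR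
  obtain ⟨C, hC, δ, hδ, hδ1, hup⟩ := H.sq_up
  have hcs := S.hcs
  obtain ⟨b, hb⟩ : ∃ b : ℝ, b = 2 / (1 - δ) := ⟨_, rfl⟩
  have hδ2 : 0 < 1 - δ := by linarith
  have hb2 : 2 < b := by
    rw [hb, lt_div_iff₀ hδ2]
    linarith
  obtain ⟨e, he⟩ : ∃ e : ℝ, e = min b (5 / 2) := ⟨_, rfl⟩
  have he1 : 2 < e := by rw [he]; exact lt_min hb2 (by norm_num)
  have he2 : e < 3 := by rw [he]; exact (min_le_right _ _).trans_lt (by norm_num)
  have he3 : e ≤ b := by rw [he]; exact min_le_left _ _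
  obtain ⟨K, hK⟩ : ∃ K : ℝ, K = (C / cs) ^ b := ⟨_, rfl⟩
  have hK0 : 0 < K := by rw [hK]; positivity
  have S' := S.shrink (lt_min S.hη one_pos) (min_le_left η 1)
  obtain ⟨η₁, hη₁, hD⟩ := rem_dyadic S' (f := fun t => |t| ^ e) (fun t => by positivity)
    (cf := 1 / K) (by positivity) (fun t h0 h1 => by
      have h2 : t < η := h1.trans_le (min_le_left _ _)
      have h3 : t < 1 := h1.trans_le (min_le_right _ _)
      have h4 := (S.scale t h0 h2).1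
      have h5 := S.one t h0 h2
      have hL : (0 : ℝ) < L t := by exact_mod_cast (by omega : 0 < L t)
      have h6 := hup (L t) h5
      have h7 : cs ≤ t * (C * (L t : ℝ) ^ (1 - δ)) :=
        h4.trans (mul_le_mul_of_nonneg_left h6 h0.le)
      have h8 : ((L t : ℝ) ^ (1 - δ))⁻¹ ≤ C / cs * t := by
        have hpos : 0 < (L t : ℝ) ^ (1 - δ) := by positivity
        rw [inv_le_iff_one_le_mul₀ hpos]
        calc (1 : ℝ) = cs / cs := (div_self hcs.ne').symm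
          _ ≤ t * (C * (L t : ℝ) ^ (1 - δ)) / cs := by gcongr
          _ = C / cs * t * (L t : ℝ) ^ (1 - δ) := by ring
      have h9 : (((L t : ℝ) ^ (1 - δ))⁻¹) ^ b = 1 / (L t : ℝ) ^ 2 := by
        rw [Real.inv_rpow (by positivity), ← Real.rpow_mul hL.le, hb,
          mul_div_cancel₀ _ hδ2.ne', Real.rpow_two, one_div]
      have h10 : 1 / (L t : ℝ) ^ 2 ≤ K * t ^ b := by
        rw [← h9, hK, ← Real.mul_rpow (by positivity) h0.le]
        exact Real.rpow_le_rpow (by positivity) h8 (by linarith)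
      have h11 : t ^ b ≤ t ^ e := Real.rpow_le_rpow_of_exponent_ge h0 h3.le he3
      simp only [abs_of_pos h0]
      calc 1 / K / (L t : ℝ) ^ 2 = 1 / K * (1 / (L t : ℝ) ^ 2) := by ring
        _ ≤ 1 / K * (K * t ^ b) := by gcongr
        _ = t ^ b := by field_simp
        _ ≤ t ^ e := h11) hcr hCr n₀ hR
  have hD' : Dya (fun t => |t| ^ e) Rm η₁ := hD
  obtain ⟨C', hC', η', hη', h⟩ := pow_of_dya hη₁ hD' (e := e) (η₂ := 1) (Cf := 1) one_pos one_pos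
    he2 (fun t h0 _ => by simp only [abs_of_pos h0, one_mul, le_refl])
  exact ⟨e, he1, he2, C', hC', η', hη', h⟩

/-- **The integral inequality and its power form.** -/
theorem rem_theta_sigma (H : NC a4 Wp Reg) (G : (ℤ × ℤ → Bool) → SimpleGraph (ℤ × ℤ))
    (hG : ∀ ω u v, (G ω).Adj u v ↔ ω u = true ∧ ω v = true ∧ SA false u v) {Rm : ℝ → ℝ}
    (hR : RemB (a4 pc) Rm) {η₀ : ℝ} (hη₀ : 0 < η₀) :
    (∃ C > (0 : ℝ), ∃ η > (0 : ℝ), η < η₀ ∧ ∃ δ > (0 : ℝ), δ < η ∧ ∀ h : ℝ, 0 < h → h < δ →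
      IntervalIntegrable (fun t => fR G t / t ^ 4) volume h η ∧
      Rm h ≤ C * (h ^ 3 * (1 + ∫ t in h..η, fR G t / t ^ 4))) ∧
    ∀ e η₂ Cf : ℝ, 0 < η₂ → 0 < Cf → e < 3 →
      (∀ t : ℝ, 0 < t → t < η₂ → fR G t ≤ Cf * t ^ e) →
      ∃ C > (0 : ℝ), ∃ η' > (0 : ℝ), ∀ h : ℝ, 0 < h → h < η' → Rm h ≤ C * h ^ e := by
  obtain ⟨L, c₀, δ₀, cs, Cs, η, F, S⟩ := exists_scl H
  obtain ⟨cr, hcr, Cr, hCr, n₀, hR⟩ := hR
  obtain ⟨cf, hcf, ηf, hηf, hf, -, hmono⟩ := fR_lower F G hG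
  have S' := S.shrink (lt_min S.hη hηf) (min_le_left η ηf)
  obtain ⟨η₁, hη₁, hD⟩ := rem_dyadic S' (fR_nonneg G) hcf
    (fun t h0 h1 => hf t h0 (h1.trans_le (min_le_right _ _))) hcr hCr n₀ hR
  constructor
  · obtain ⟨C, hC, η', hη', hlt, δ, hδ, hδη, h⟩ := int_of_dya hη₁ hD
      (η₂ := min ηf η₀) (lt_min hηf hη₀) (fR_nonneg G)
      (hmono.mono fun t ht => ⟨ht.1, ht.2.trans_le (min_le_left _ _)⟩)
    exact ⟨C, hC, η', hη', hlt.trans_le (min_le_right _ _), δ, hδ, hδη, h⟩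
  · intro e η₂ Cf hη₂ hCf he hfe
    exact pow_of_dya hη₁ hD hη₂ hCf he hfe

end Pool.Agent.H13.SK
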