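import Pool.Agent.H13.SK.FinalAlg

/-!
# Consequences of the dyadic inequality: powers and the integral form
-/

set_option autoImplicit false

open Filter Topology MeasureTheory

namespace Pool.Agent.H13.SK

/-- The dyadic inequality at all small heights. -/
def Dya (f Rm : ℝ → ℝ) (η₁ : ℝ) : Prop :=
  ∀ η' : ℝ, 0 < η' → η' ≤ η₁ →
    ∃ C > (0 : ℝ), ∀ h : ℝ, 0 < h → h < η' → ∀ m : ℕ, η' ≤ 2 ^ m * h →
    Rm h ≤ C * (h ^ 3 * (1 + ∑ k ∈ Finset.range m, f (2 ^ k * h) / (2 ^ k * h) ^ 3))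

/-- The number of dyadic steps. -/
theorem exists_steps {η' h : ℝ} (hh : 0 < h) (hh' : h < η') :
    ∃ m : ℕ, 1 ≤ m ∧ η' ≤ 2 ^ m * h ∧ 2 ^ m * h < 2 * η' ∧ ∀ k : ℕ, k < m → 2 ^ k * h < η' := by
  classical
  have hex : ∃ m : ℕ, η' ≤ 2 ^ m * h := by
    obtain ⟨m, hm⟩ := ((tendsto_pow_atTop_atTop_of_one_lt
      (one_lt_two : (1 : ℝ) < 2)).eventually_ge_atTop (η' / h)).exists
    rw [div_le_iff₀ hh] at hm
    exact ⟨m, hm⟩
  have h1 := Nat.find_spec hex
  have h2 : ∀ k, k < Nat.find hex → 2 ^ k * h < η' := fun k hk => by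
    have := Nat.find_min hex hk
    push Not at this
    exact this
  have h3 : 1 ≤ Nat.find hex := by
    by_contra hlt
    have h4 : Nat.find hex = 0 := by omega
    rw [h4, pow_zero, one_mul] at h1
    linarith
  refine ⟨Nat.find hex, h3, h1, ?_, h2⟩
  obtain ⟨n, hn⟩ : ∃ n, Nat.find hex = n + 1 := ⟨Nat.find hex - 1, by omega⟩
  have h4 := h2 n (by omega)
  rw [hn, pow_succ]
  nlinarith

/-- Power bounds. -/
theorem pow_of_dya {f Rm : ℝ → ℝ} {η₁ : ℝ} (hη₁ : 0 < η₁) (H : Dya f Rm η₁) {e η₂ Cf : ℝ}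
    (hη₂ : 0 < η₂) (hCf : 0 < Cf) (he : e < 3)
    (hf : ∀ t : ℝ, 0 < t → t < η₂ → f t ≤ Cf * t ^ e) :
    ∃ C > (0 : ℝ), ∃ η' > (0 : ℝ), ∀ h : ℝ, 0 < h → h < η' → Rm h ≤ C * h ^ e := by
  obtain ⟨η', hη'⟩ : ∃ η' : ℝ, η' = min η₁ (min η₂ 1) := ⟨_, rfl⟩
  have hη'0 : 0 < η' := by rw [hη']; exact lt_min hη₁ (lt_min hη₂ one_pos)
  have hle1 : η' ≤ η₁ := by rw [hη']; exact min_le_left _ _
  have hle2 : η' ≤ η₂ := by rw [hη']; exact (min_le_right _ _).trans (min_le_left _ _)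
  have hle3 : η' ≤ 1 := by rw [hη']; exact (min_le_right _ _).trans (min_le_right _ _)
  obtain ⟨C, hC, h1⟩ := H η' hη'0 hle1
  obtain ⟨ρ, hρ⟩ : ∃ ρ : ℝ, ρ = (2 : ℝ) ^ (e - 3) := ⟨_, rfl⟩
  have hρ0 : 0 < ρ := by rw [hρ]; positivity
  have hρ1 : ρ < 1 := by rw [hρ]; exact Real.rpow_lt_one_of_one_lt_of_neg (by norm_num) (by linarith)
  have hρ2 : 0 < 1 - ρ := by linarith
  refine ⟨C * (1 + Cf / (1 - ρ)), by positivity, η', hη'0, fun h hh0 hh => ?_⟩
  obtain ⟨m, hm1, hm2, -, hm3⟩ := exists_steps hh0 hh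
  have h2 := h1 h hh0 hh m hm2
  have h3 : ∑ k ∈ Finset.range m, f (2 ^ k * h) / (2 ^ k * h) ^ 3 ≤
      ∑ k ∈ Finset.range m, Cf * h ^ (e - 3) * ρ ^ k := by
    refine Finset.sum_le_sum fun k hk => ?_
    have hk' := hm3 k (Finset.mem_range.1 hk)
    have ht : 0 < 2 ^ k * h := by positivity
    have h4 := hf _ ht (hk'.trans_le hle2)
    rw [div_le_iff₀ (by positivity)]
    refine h4.trans (le_of_eq ?_)
    have h5 : (2 ^ k * h) ^ e = (2 ^ k * h) ^ (e - 3) * (2 ^ k * h) ^ 3 := by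
      rw [← Real.rpow_natCast (2 ^ k * h) 3, ← Real.rpow_add ht]
      congr 1
      push_cast
      ring
    have h6 : (2 ^ k * h) ^ (e - 3) = ρ ^ k * h ^ (e - 3) := by
      rw [Real.mul_rpow (by positivity) hh0.le, hρ, ← Real.rpow_natCast, ← Real.rpow_natCast,
        ← Real.rpow_mul (by norm_num), ← Real.rpow_mul (by norm_num), mul_comm (k : ℝ)]
    rw [h5, h6]
    ring
  have h4 : ∑ k ∈ Finset.range m, Cf * h ^ (e - 3) * ρ ^ k ≤ Cf * h ^ (e - 3) / (1 - ρ) := by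
    rw [← Finset.mul_sum, div_eq_mul_inv]
    refine mul_le_mul_of_nonneg_left ?_ (by positivity)
    have h5 := Summable.sum_le_tsum (Finset.range m) (fun k _ => (pow_nonneg hρ0.le k))
      (summable_geometric_of_lt_one hρ0.le hρ1)
    rwa [tsum_geometric_of_lt_one hρ0.le hρ1] at h5
  have hh1 : h ≤ 1 := hh.le.trans hle3
  have h5 : h ^ 3 ≤ h ^ e := by
    rw [← Real.rpow_natCast h 3]
    exact Real.rpow_le_rpow_of_exponent_ge hh0 hh1 (by push_cast; linarith)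
  have h6 : h ^ 3 * h ^ (e - 3) = h ^ e := by
    rw [← Real.rpow_natCast h 3, ← Real.rpow_add hh0]
    congr 1
    push_cast
    ring
  calc Rm h ≤ C * (h ^ 3 * (1 + ∑ k ∈ Finset.range m, f (2 ^ k * h) / (2 ^ k * h) ^ 3)) := h2
    _ ≤ C * (h ^ 3 * (1 + Cf * h ^ (e - 3) / (1 - ρ))) := by
        have := h3.trans h4
        gcongr
    _ = C * (h ^ 3 + Cf / (1 - ρ) * (h ^ 3 * h ^ (e - 3))) := by ring
    _ = C * (h ^ 3 + Cf / (1 - ρ) * h ^ e) := by rw [h6]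
    _ ≤ C * (h ^ e + Cf / (1 - ρ) * h ^ e) := by gcongr
    _ = _ := by ring

/-- **The integral form.** -/
theorem int_of_dya {f Rm : ℝ → ℝ} {η₁ : ℝ} (hη₁ : 0 < η₁) (H : Dya f Rm η₁) {η₂ : ℝ}
    (hη₂ : 0 < η₂) (hf0 : ∀ t : ℝ, 0 ≤ f t) (hf : MonotoneOn f (Set.Ioo 0 η₂)) :
    ∃ C > (0 : ℝ), ∃ η > (0 : ℝ), η < η₂ ∧ ∃ δ > (0 : ℝ), δ < η ∧ ∀ h : ℝ, 0 < h → h < δ →
      IntervalIntegrable (fun t => f t / t ^ 4) volume h η ∧
      Rm h ≤ C * (h ^ 3 * (1 + ∫ t in h..η, f t / t ^ 4)) := by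
  obtain ⟨η', hη'⟩ : ∃ η' : ℝ, η' = min η₁ (η₂ / 4) := ⟨_, rfl⟩
  have hη'0 : 0 < η' := by rw [hη']; exact lt_min hη₁ (by positivity)
  have hle1 : η' ≤ η₁ := by rw [hη']; exact min_le_left _ _
  have hle2 : η' ≤ η₂ / 4 := by rw [hη']; exact min_le_right _ _
  obtain ⟨C, hC, h1⟩ := H η' hη'0 hle1
  have hint : ∀ x y : ℝ, 0 < x → x ≤ y → y < η₂ →
      IntervalIntegrable (fun t => f t / t ^ 4) volume x y := by
    intro x y hx hxy hy
    have h2 : IntervalIntegrable f volume x y := by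
      refine MonotoneOn.intervalIntegrable (hf.mono ?_)
      rw [Set.uIcc_of_le hxy]
      intro t ht
      exact ⟨hx.trans_le ht.1, ht.2.trans_lt hy⟩
    have h3 : (fun t => f t / t ^ 4) = fun t => f t * (t ^ 4)⁻¹ := by
      funext t
      rw [div_eq_mul_inv]
    rw [h3]
    refine h2.mul_continuousOn ?_
    rw [Set.uIcc_of_le hxy]
    refine ContinuousOn.inv₀ (by fun_prop) fun t ht => ?_
    have : 0 < t := hx.trans_le ht.1
    positivity
  refine ⟨16 * C, by positivity, 2 * η', by positivity, by linarith, η', hη'0, by linarith,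
    fun h hh0 hh => ⟨hint h (2 * η') hh0 (by linarith) (by linarith), ?_⟩⟩
  obtain ⟨m, hm1, hm2, hm4, hm3⟩ := exists_steps hh0 hh
  have h2 := h1 h hh0 hh m hm2
  have hstep : ∀ k, k < m → f (2 ^ k * h) / (2 ^ k * h) ^ 3 ≤
      16 * ∫ t in (2 ^ k * h)..(2 ^ (k + 1) * h), f t / t ^ 4 := by
    intro k hk
    have hk' := hm3 k hk
    have hx0 : 0 < 2 ^ k * h := by positivity
    obtain ⟨x, hx⟩ : ∃ x : ℝ, x = 2 ^ k * h := ⟨_, rfl⟩
    have e : 2 ^ (k + 1) * h = 2 * x := by rw [hx, pow_succ]; ring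
    rw [e, ← hx]
    rw [← hx] at hk' hx0
    have h3 : ∫ t in x..(2 * x), f x / (2 * x) ^ 4 ≤ ∫ t in x..(2 * x), f t / t ^ 4 := by
      refine intervalIntegral.integral_mono_on (by linarith) intervalIntegrable_const
        (hint x (2 * x) hx0 (by linarith) (by linarith)) fun t ht => ?_
      have ht0 : 0 < t := hx0.trans_le ht.1
      have h4 : f x ≤ f t := hf ⟨hx0, by linarith⟩ ⟨ht0, by linarith [ht.2]⟩ ht.1
      have h5 : t ^ 4 ≤ (2 * x) ^ 4 := by
        have := ht.2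
        gcongr
      have h6 := hf0 x
      have h7 := hf0 t
      calc f x / (2 * x) ^ 4 ≤ f t / (2 * x) ^ 4 := by gcongr
        _ ≤ f t / t ^ 4 := by gcongr
    rw [intervalIntegral.integral_const, smul_eq_mul] at h3
    have h4 : f x / x ^ 3 = 16 * ((2 * x - x) * (f x / (2 * x) ^ 4)) := by
      field_simp
      ring
    rw [h4]
    linarith
  have h3 : ∑ k ∈ Finset.range m, f (2 ^ k * h) / (2 ^ k * h) ^ 3 ≤
      16 * ∫ t in h..(2 * η'), f t / t ^ 4 := by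
    have h4 : ∑ k ∈ Finset.range m, f (2 ^ k * h) / (2 ^ k * h) ^ 3 ≤
        16 * ∑ k ∈ Finset.range m, ∫ t in (2 ^ k * h)..(2 ^ (k + 1) * h), f t / t ^ 4 := by
      rw [Finset.mul_sum]
      exact Finset.sum_le_sum fun k hk => hstep k (Finset.mem_range.1 hk)
    have h5 := intervalIntegral.sum_integral_adjacent_intervals
      (f := fun t => f t / t ^ 4) (μ := volume) (a := fun k : ℕ => (2 : ℝ) ^ k * h) (n := m)
      (fun k hk => by
        have h6 := hm3 k hk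
        refine hint _ _ (by positivity) ?_ ?_
        · rw [pow_succ]
          have : 0 < (2 : ℝ) ^ k * h := by positivity
          nlinarith
        · rw [pow_succ]
          have : (2 : ℝ) ^ k * 2 * h = 2 * (2 ^ k * h) := by ring
          rw [this]
          linarith)
    simp only [pow_zero, one_mul] at h5
    rw [h5] at h4
    refine h4.trans (mul_le_mul_of_nonneg_left ?_ (by norm_num))
    have hge : h ≤ 2 ^ m * h := by
      have : (1 : ℝ) ≤ 2 ^ m := one_le_pow₀ (by norm_num)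
      nlinarith
    rw [← intervalIntegral.integral_add_adjacent_intervals
      (hint h (2 ^ m * h) hh0 hge (by linarith))
      (hint (2 ^ m * h) (2 * η') (by positivity) hm4.le (by linarith))]
    have h6 : 0 ≤ ∫ t in (2 ^ m * h)..(2 * η'), f t / t ^ 4 := by
      refine intervalIntegral.integral_nonneg hm4.le fun t ht => ?_
      have := hf0 t
      positivity
    linarith
  have h7 : 0 ≤ ∫ t in h..(2 * η'), f t / t ^ 4 := by
    refine intervalIntegral.integral_nonneg (by linarith) fun t ht => ?_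
    have := hf0 t
    positivity
  calc Rm h ≤ C * (h ^ 3 * (1 + ∑ k ∈ Finset.range m, f (2 ^ k * h) / (2 ^ k * h) ^ 3)) := h2
    _ ≤ C * (h ^ 3 * (1 + 16 * ∫ t in h..(2 * η'), f t / t ^ 4)) := by gcongr
    _ ≤ C * (h ^ 3 * (16 * (1 + ∫ t in h..(2 * η'), f t / t ^ 4))) := by
        gcongr
        linarith
    _ = _ := by ring

end Pool.Agent.H13.SK
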