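import Pool.Agent.H83.Site.FSstrong
import Pool.Agent.H83.Site.PcRange

/-!
# Good scales of site percolation

`Good δ p r m`: the square of side `4 m` is crossed with probability at least `1 - δ` by paths of
the colour `r` (`r = false`: open sites of the square lattice, `r = true`: sites of the matching
lattice).
-/

set_option autoImplicit false

open MeasureTheory ProbabilityTheory unitInterval

namespace Pool.Agent.H13.SK

open Pool.Agent.H89.Perc Pool.Agent.H83.Site

/-- The square of side `4 m` is crossed with probability at least `1 - δ`. -/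
def Good (δ : ℝ) (p : I) (r : Bool) (m : ℕ) : Prop :=
  1 - δ ≤ PT p r {η | HC η 0 (4 * m) 0 (4 * m)}

theorem Good.mono {δ δ' : ℝ} (h : δ ≤ δ') {p : I} {r : Bool} {m : ℕ} (hg : Good δ p r m) :
    Good δ' p r m := by
  unfold Good at hg ⊢
  linarith

/-- At a good scale long rectangles are crossed. -/
theorem good_long {δ : ℝ} (hδ : 0 ≤ δ) {p : I} {r : Bool} {m : ℕ} (hm : 1 ≤ m)
    (h : Good δ p r m) : 1 - 100 * Real.sqrt δ ≤ PT p r {η | HC η 0 (24 * m) 0 (4 * m)} := by
  have h1 := near_rsw p r (l := 2 * m) (by omega) hδ (by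
    have e : (2 : ℤ) * ((2 * m : ℕ) : ℤ) = 4 * m := by push_cast; ring
    rw [e]
    exact h)
  have e1 : (12 : ℤ) * ((2 * m : ℕ) : ℤ) = 24 * m := by push_cast; ring
  have e2 : (2 : ℤ) * ((2 * m : ℕ) : ℤ) = 4 * m := by push_cast; ring
  rw [e1, e2] at h1
  exact h1

theorem sqrt_small : 100 * Real.sqrt (1 / 10 ^ 10) = 1 / 1000 := by
  have : (1 : ℝ) / 10 ^ 10 = (1 / 10 ^ 5) ^ 2 := by norm_num
  rw [this, Real.sqrt_sq (by norm_num)]
  norm_num

/-- At a good scale the other colour decays. -/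
theorem good_qc {p : I} {r : Bool} {m : ℕ} (hm : 1 ≤ m) (h : Good (1 / 10 ^ 10) p r m) :
    qc p r (4 * m + 1) ≤ 1 / 242 := by
  have h1 := good_long (by norm_num) hm h
  rw [sqrt_small] at h1
  rw [qc_eq p r (by omega)]
  have h2 : PT p r {η | HC η 0 (24 * m) 0 (4 * m)} ≤
      PT p r {η | HC η 0 (4 * ((4 * m + 1 : ℕ) : ℤ)) 1 ((4 * m + 1 : ℕ) : ℤ)} := by
    rw [← PT_HC_shf p r 0 (24 * m) 0 (4 * m) 0 1]
    refine PT_mono fun η hη => ?_
    simp only [Set.mem_ofPred_eq] at hη ⊢
    exact hη.mono (by omega) (by omega) (by push_cast; omega) (by omega) (by push_cast; omega)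
  linarith

/-- At a good scale the percolation probability is comparable to the one-arm probability. -/
theorem theta_low {p₀ : I} {r : Bool} (h : BXP p₀ r) : ∃ δ > (0 : ℝ), ∃ c > (0 : ℝ),
    ∀ p : I, p₀ ≤ p → ∀ m : ℕ, 1 ≤ m → Good δ p r m → c * ab p r 0 m ≤ thT p r := by
  obtain ⟨ε, hε, c, hc, H⟩ := fs_strong h
  refine ⟨(ε / 100) ^ 2, by positivity, c, hc, fun p hp m hm hg => H p hp m hm ?_⟩
  have h1 := good_long (by positivity) hm hg
  rw [Real.sqrt_sq (by positivity)] at h1
  have h2 : PT p r {η | HC η 0 (24 * m) 0 (4 * m)} ≤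
      PT p r {η | HC η m (25 * m) (-m) (4 * m)} := by
    rw [← PT_HC_shf p r 0 (24 * m) 0 (4 * m) m 0]
    refine PT_mono fun η hη => ?_
    simp only [Set.mem_ofPred_eq] at hη ⊢
    exact hη.mono (by omega) (by omega) (by omega) (by omega) (by omega)
  linarith

end Pool.Agent.H13.SK
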