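import Pool.Agent.H13.SK.BddLoc

/-!
# The box-crossing regime of site percolation and the characteristic length
-/

set_option autoImplicit false

open MeasureTheory ProbabilityTheory unitInterval Filter Topology

namespace Pool.Agent.H13.SK

open Pool.Agent.H89.Perc Pool.Agent.H83.Site

/-- Box-crossing regime for both colours: rectangles of aspect ratio `K` and height at most `n` are
crossed by open paths and by closed paths of the matching lattice with probability at least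
`c`. -/
def RegT (K : ℕ) (c : ℝ) (n : ℕ) (q : I) : Prop :=
  ∀ m : ℕ, 1 ≤ m → m ≤ n → c ≤ PT q false {η | HC η 0 (K * m) 0 m} ∧
    c ≤ PT (σ q) true {η | HC η 0 (K * m) 0 m}

theorem RegT.anti {K : ℕ} {c : ℝ} {n n' : ℕ} {q : I} (h : RegT K c n q) (hn : n' ≤ n) :
    RegT K c n' q := fun m hm hmn => h m hm (hmn.trans hn)

theorem RegT.mono_c {K : ℕ} {c c' : ℝ} {n : ℕ} {q : I} (h : RegT K c n q) (hc : c' ≤ c) :
    RegT K c' n q := fun m hm hmn => ⟨hc.trans (h m hm hmn).1, hc.trans (h m hm hmn).2⟩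

theorem RegT.mono_K {K K' : ℕ} {c : ℝ} {n : ℕ} {q : I} (h : RegT K c n q) (hK : K' ≤ K) :
    RegT K' c n q := by
  intro m hm hmn
  have h1 : ∀ (p : I) (r : Bool), PT p r {η | HC η 0 (K * m) 0 m} ≤
      PT p r {η | HC η 0 (K' * m) 0 m} := by
    intro p r
    refine PT_mono fun η hη => ?_
    refine HC.mono hη le_rfl (by positivity) ?_ le_rfl le_rfl
    exact_mod_cast Nat.mul_le_mul_right m hK
  exact ⟨(h m hm hmn).1.trans (h1 _ _), (h m hm hmn).2.trans (h1 _ _)⟩

theorem sigma_anti {p q : I} (h : p ≤ q) : σ q ≤ σ p := by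
  have h' : (p : ℝ) ≤ q := h
  change (1 - (q : ℝ)) ≤ 1 - (p : ℝ)
  linarith

/-- At a bad scale the square is crossed by the other colour. -/
theorem bad_dual {δ : ℝ} {p : I} {r : Bool} {m : ℕ} (h : ¬ Good δ p r m) :
    δ ≤ PT (σ p) (!r) {η | HC η 0 (4 * m) 0 (4 * m)} := by
  unfold Good at h
  have h1 := crit_dual p r (a := 0) (b := 4 * (m : ℤ)) (c := 0) (d := 4 * (m : ℤ)) (by omega)
    (by omega)
  push Not at h
  rw [h1] at h
  linarith

/-- Below the first good scale of the colour `r` long rectangles are crossed by the other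
colour. -/
theorem cross_of_bad : ∀ δ > (0 : ℝ), ∀ K K' : ℕ, ∃ c > (0 : ℝ), ∀ (p q : I) (r : Bool) (n : ℕ),
    2 ≤ n → (∀ m : ℕ, 1 ≤ m → m < n → ¬ Good δ p r m) → q ≤ p →
      ∀ m : ℕ, 1 ≤ m → m ≤ K' * n → c ≤ PT (σ q) (!r) {η | HC η 0 (K * m) 0 m} := by
  intro δ hδ K K'
  obtain ⟨c, hc, H⟩ := bdd_local' hδ K (2 * K')
  refine ⟨c, hc, fun p q r n hn hb hqp m hm hmn => ?_⟩
  have h1 := H (σ p) (!r) (n - 1) (by omega) (fun k hk hkn => bad_dual (hb k hk (by omega))) m hm (by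
    obtain ⟨k, rfl⟩ : ∃ k, n = k + 2 := ⟨n - 2, by omega⟩
    have : k + 2 - 1 = k + 1 := by omega
    rw [this]
    nlinarith)
  exact h1.trans (PT_mono_param (localOn_HC _ _ _ _) (incr_HC _ _ _ _) (sigma_anti hqp))

/-- The regime above the critical density. -/
theorem reg_plus : ∀ δ > (0 : ℝ), ∀ K K' : ℕ, ∃ c > (0 : ℝ), ∀ (p : I) (n : ℕ), 2 ≤ n →
    (∀ m : ℕ, 1 ≤ m → m < n → ¬ Good δ p false m) →
      ∀ q : I, pc ≤ q → q ≤ p → RegT K c (K' * n) q := by
  intro δ hδ K K'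
  obtain ⟨c, hc, H⟩ := cross_of_bad δ hδ K K'
  obtain ⟨c', hc', H'⟩ := bxp_pc.1 K
  refine ⟨min c c', lt_min hc hc', fun p n hn hb q hq hqp m hm hmn => ⟨?_, ?_⟩⟩
  · exact (min_le_right _ _).trans ((H' m hm).trans
      (PT_mono_param (localOn_HC _ _ _ _) (incr_HC _ _ _ _) hq))
  · exact (min_le_left _ _).trans (H p q false n hn hb hqp m hm hmn)

/-- The regime below the critical density. -/
theorem reg_minus : ∀ δ > (0 : ℝ), ∀ K K' : ℕ, ∃ c > (0 : ℝ), ∀ (p : I) (n : ℕ), 2 ≤ n →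
    (∀ m : ℕ, 1 ≤ m → m < n → ¬ Good δ (σ p) true m) →
      ∀ q : I, p ≤ q → q ≤ pc → RegT K c (K' * n) q := by
  intro δ hδ K K'
  obtain ⟨c, hc, H⟩ := cross_of_bad δ hδ K K'
  obtain ⟨c', hc', H'⟩ := bxp_pc.2 K
  refine ⟨min c c', lt_min hc hc', fun p n hn hb q hpq hq m hm hmn => ⟨?_, ?_⟩⟩
  · have h1 := H (σ p) (σ q) true n hn hb (sigma_anti hpq) m hm hmn
    rw [σσ] at h1
    exact (min_le_left _ _).trans h1
  · exact (min_le_right _ _).trans ((H' m hm).trans
      (PT_mono_param (localOn_HC _ _ _ _) (incr_HC _ _ _ _) (sigma_anti hq)))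

/-- No scale is good at the critical density. -/
theorem exists_bad_pc : ∃ δ > (0 : ℝ), ∀ m : ℕ, 1 ≤ m →
    ¬ Good δ pc false m ∧ ¬ Good δ (σ pc) true m := by
  obtain ⟨c, hc, H⟩ := bxp_pc.1 1
  obtain ⟨c', hc', H'⟩ := bxp_pc.2 1
  refine ⟨min c c' / 2, by positivity, fun m hm => ?_⟩
  have h1 := H (4 * m) (by omega)
  have h2 := H' (4 * m) (by omega)
  have e : ((1 : ℕ) : ℤ) * ((4 * m : ℕ) : ℤ) = 4 * m := by push_cast; ring
  have e' : ((4 * m : ℕ) : ℤ) = 4 * m := by push_cast; ring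
  rw [e, e'] at h1 h2
  have h3 := crit_dual pc false (a := 0) (b := 4 * (m : ℤ)) (c := 0) (d := 4 * (m : ℤ)) (by omega)
    (by omega)
  have h4 : 0 < min c c' := lt_min hc hc'
  have h5 := min_le_left c c'
  have h6 := min_le_right c c'
  constructor
  · intro hg
    unfold Good at hg
    simp only [Bool.not_false] at h3
    linarith
  · intro hg
    unfold Good at hg
    simp only [Bool.not_false] at h3
    linarith

/-- Continuity: small scales stay bad near a density where they are bad. -/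
theorem bad_near {δ : ℝ} {p₀ : I} {r : Bool} (hbad : ∀ m : ℕ, 1 ≤ m → ¬ Good δ p₀ r m) (m₀ : ℕ) :
    ∀ᶠ p : I in 𝓝 p₀, ∀ m : ℕ, 1 ≤ m → m < m₀ → ¬ Good δ p r m := by
  induction m₀ with
  | zero => exact Eventually.of_forall fun p m _ hm => absurd hm (by omega)
  | succ k ih =>
    by_cases hk : 1 ≤ k
    · have h1 : PT p₀ r {η | HC η 0 (4 * k) 0 (4 * k)} < 1 - δ := by
        have := hbad k hk
        unfold Good at this
        linarith
      have h2 := (PT_continuous (localOn_HC 0 (4 * (k : ℤ)) 0 (4 * (k : ℤ))) r).continuousAt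
        (x := p₀)
      have h3 := h2.eventually_lt_const h1
      filter_upwards [ih, h3] with p hp1 hp2 m hm hmk
      rcases Nat.lt_succ_iff_lt_or_eq.1 hmk with h | h
      · exact hp1 m hm h
      · subst h
        unfold Good
        linarith
    · filter_upwards [ih] with p hp m hm hmk
      exact hp m hm (by omega)

/-- The characteristic length of the colour `r`. -/
noncomputable def Len (δ : ℝ) (p : I) (r : Bool) : ℕ := sInf {m : ℕ | 1 ≤ m ∧ Good δ p r m}

theorem Len_spec {δ : ℝ} {p : I} {r : Bool} (h : ∃ m : ℕ, 1 ≤ m ∧ Good δ p r m) :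
    1 ≤ Len δ p r ∧ Good δ p r (Len δ p r) := Nat.sInf_mem h

theorem not_good_of_lt {δ : ℝ} {p : I} {r : Bool} {m : ℕ} (hm : 1 ≤ m) (h : m < Len δ p r) :
    ¬ Good δ p r m := fun hg => Nat.notMem_of_lt_sInf h ⟨hm, hg⟩

theorem le_Len {δ : ℝ} {p : I} {r : Bool} {m₀ : ℕ} (h : ∃ m : ℕ, 1 ≤ m ∧ Good δ p r m)
    (hb : ∀ m : ℕ, 1 ≤ m → m < m₀ → ¬ Good δ p r m) : m₀ ≤ Len δ p r := by
  by_contra hlt
  push Not at hlt
  exact hb _ (Len_spec h).1 hlt (Len_spec h).2

end Pool.Agent.H13.SK
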