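import Pool.Agent.H92.SN.Fin
import Pool.Agent.H38.SK.Gap
import Pool.Agent.H13.SK.BlockLowS
import Pool.Agent.H13.SK.FinalThree

/-!
# The near-critical facts of site percolation on the square lattice, from gluing on the torus
-/

set_option autoImplicit false

open MeasureTheory ProbabilityTheory unitInterval

namespace Pool.Agent.H13.SK

open Pool.Agent.H89.Perc Pool.Agent.H83.Site
open Pool.Agent.H92.SN (SReg WindS GLTorus)

/-- The near-critical interface holds. -/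
theorem nc_holds (hGL : GLTorus) :
    NC Pool.Agent.H92.SN.a4 (fun q N => Pool.Agent.H89.Perc.Pr q (WindS N)) SReg where
  dict := fun c hc => ⟨c, hc, fun _ _ h =>
    Pool.Agent.H83.SK.WG.rswreg_of_regT (h.mono_K (by norm_num))⟩
  up := fun c hc => by
    obtain ⟨C, hC, h⟩ := Pool.Agent.H92.SN.scale_upper' hGL blockLow c hc
    exact ⟨C, hC, h⟩
  lo := fun c hc => by
    obtain ⟨C, hC, h⟩ := Pool.Agent.H92.SN.scale_lower' hGL blockLow c hc
    exact ⟨C, hC, h⟩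
  low := fun c hc => by
    obtain ⟨C, δ, hC, hδ, hδ1, h⟩ := Pool.Agent.H92.SN.a4_low hGL blockLow c hc
    exact ⟨C, hC, δ, hδ, hδ1, h⟩
  high := fun c hc => by
    obtain ⟨C, δ, hC, hδ, hδ1, h⟩ := Pool.Agent.H92.SN.a4_up hGL blockLow blockUp c hc
    exact ⟨C, hC, δ, hδ, hδ1, h⟩
  nonneg := Pool.Agent.H92.SN.a4_nonneg
  anti := fun q _ _ h1 h => Pool.Agent.H92.SN.a4_anti q h1 h
  pos := Pool.Agent.H92.SN.a4_one_pos pc_lt_one
  gap := by
    obtain ⟨δ₁, hδ₁, c₁, hc₁, h1⟩ := Pool.Agent.H83.SK.WG.gap_plus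
    obtain ⟨δ₂, hδ₂, c₂, hc₂, h2⟩ := Pool.Agent.H83.SK.WG.gap_minus
    refine ⟨min δ₁ δ₂, lt_min hδ₁ hδ₂, min c₁ c₂, lt_min hc₁ hc₂, ?_, ?_⟩
    · intro p _ m hm hg
      exact (min_le_left _ _).trans (h1 p m hm (hg.mono (min_le_left _ _)))
    · intro p _ m hm hg
      exact (min_le_right _ _).trans (h2 p m hm (hg.mono (min_le_right _ _)))

end Pool.Agent.H13.SK
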