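import Pool.Agent.H92.SN.KCnt
import Pool.Agent.H92.SN.Tau
import Pool.Agent.H13.SK.SigmaMono

/-!
# The expected number of open clusters in a box and its derivative
-/

set_option autoImplicit false

open MeasureTheory ProbabilityTheory unitInterval Filter Topology

namespace Pool.Agent.H13.SK

open Pool.Agent.H89.Perc Pool.Agent.H92.SN
open Pool.Agent.H83.SK (sv sit)

/-- The vertices of the box. -/
def bV (n : ℕ) : Set Vert := {v | 0 ≤ v.1 ∧ v.1 < n ∧ 0 ≤ v.2 ∧ v.2 < n}

/-- The expected number of open clusters in the box. -/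
noncomputable def EKO (n : ℕ) (p : ℝ) : ℝ :=
  Pool.Agent.Perc.Ex p (tSites n) (fun S => (KO (ofS S) (bV n) : ℝ))

theorem bV_finite (n : ℕ) : (bV n).Finite := by
  refine ((Finset.Icc (0 : ℤ) n ×ˢ Finset.Icc (0 : ℤ) n).finite_toSet).subset ?_
  rintro ⟨x, y⟩ ⟨h1, h2, h3, h4⟩
  simp only [Finset.coe_product, Finset.coe_Icc, Set.mem_prod, Set.mem_Icc]
  exact ⟨⟨h1, h2.le⟩, h3, h4.le⟩

theorem sv_mem_tSites {n : ℕ} {v : Vert} : sv v ∈ tSites n ↔ v ∈ bV n := by
  simp only [tSites, Finset.mem_product, Finset.mem_Ico, Finset.mem_singleton, sv, bV,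
    Set.mem_ofPred_eq, and_true]
  tauto

theorem eq_sv_of_mem {n : ℕ} {e : Edge} (h : e ∈ tSites n) : e = sv (src e) := by
  simp only [tSites, Finset.mem_product, Finset.mem_singleton] at h
  obtain ⟨x, y, t⟩ := e
  have ht : t = false := h.2.2
  subst ht
  rfl

theorem src_mem_bV {n : ℕ} {e : Edge} (h : e ∈ tSites n) : src e ∈ bV n := by
  rw [← sv_mem_tSites, ← eq_sv_of_mem h]
  exact h

open Classical in
/-- The number of neighbours of `v` in the box. -/
noncomputable def nbc (n : ℕ) (v : Vert) : ℝ :=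
  ∑ i ∈ Finset.range 4, if nb v i ∈ bV n then (1 : ℝ) else 0

/-- The expected change of the number of clusters when `v` is opened. -/
noncomputable def dS (n : ℕ) (q : I) (v : Vert) : ℝ :=
  1 - q * nbc n v + ∑ i ∈ Finset.Icc 1 3, Pool.Agent.H83.SK.Pr q (Dn (bV n) v i)

theorem localOn_sitDn_box (n : ℕ) (v : Vert) (i : ℕ) :
    LocalOn (tSites n) {w | sit w ∈ Dn (bV n) v i} := by
  intro w w' h hw
  refine Dn_congr (fun e h1 h2 => ?_) hw
  simp only [sit]
  rw [h _ (sv_mem_tSites.2 h1), h _ (sv_mem_tSites.2 h2)]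

theorem localOn_open {n : ℕ} {v : Vert} (hv : v ∈ bV n) :
    LocalOn (tSites n) {w : Config | w (sv v) = true} := by
  intro w w' h hw
  rw [Set.mem_ofPred_eq] at hw ⊢
  rw [← h _ (sv_mem_tSites.2 hv)]
  exact hw

open Classical in
theorem EKO_hasDerivAt (n : ℕ) (q : I) :
    HasDerivAt (EKO n) (∑ e ∈ tSites n, dS n q (src e)) q := by
  unfold EKO
  refine (Pool.Agent.Perc.hasDerivAt_Ex (tSites n) _ (q : ℝ)).congr_deriv ?_
  refine Finset.sum_congr rfl fun e he => ?_
  obtain ⟨v, hv⟩ : ∃ v, v = src e := ⟨_, rfl⟩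
  have hev : e = sv v := by rw [hv]; exact eq_sv_of_mem he
  have hvb : v ∈ bV n := by rw [hv]; exact src_mem_bV he
  rw [← hv]
  have key : ∀ S, S ⊆ tSites n →
      Pool.Agent.Perc.DD e (fun S => (KO (ofS S) (bV n) : ℝ)) S =
        (1 - ∑ i ∈ Finset.range 4, (if nb v i ∈ bV n then (1 : ℝ) else 0) *
          Pool.Agent.Perc.ind (fun S => ofS S ∈ {w : Config | w (sv (nb v i)) = true}) S) +
        ∑ i ∈ Finset.Icc 1 3,
          Pool.Agent.Perc.ind (fun S => ofS S ∈ {w : Config | sit w ∈ Dn (bV n) v i}) S := by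
    intro S _
    have hk := KO_update (bV_finite n) hvb (ofS S)
    obtain ⟨u1, u2⟩ := Pool.Agent.H29.Kap.ofS_update S e
    unfold Pool.Agent.Perc.DD
    beta_reduce
    rw [← u1, ← u2, hev]
    have hk' := congrArg (fun z : ℤ => (z : ℝ)) hk
    push_cast at hk'
    rw [hk']
    congr 1
    · congr 1
      refine Finset.sum_congr rfl fun i _ => ?_
      by_cases h1 : nb v i ∈ bV n
      · by_cases h2 : ofS S (sv (nb v i)) = true
        · rw [if_pos ⟨h1, h2⟩, if_pos h1, Pool.Agent.Perc.ind_of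
            (A := fun S => ofS S ∈ {w : Config | w (sv (nb v i)) = true}) h2, one_mul]
        · rw [if_neg (fun h => h2 h.2), Pool.Agent.Perc.ind_of_not
            (A := fun S => ofS S ∈ {w : Config | w (sv (nb v i)) = true}) h2, mul_zero]
      · rw [if_neg (fun h => h1 h.1), if_neg h1, zero_mul]
  rw [Pool.Agent.Perc.Ex_congr key, Pool.Agent.Perc.Ex_add, Pool.Agent.Perc.Ex_sub,
    Pool.Agent.Perc.Ex_const, Pool.Agent.Perc.Ex_sum, Pool.Agent.Perc.Ex_sum]
  unfold dS nbc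
  rw [Finset.mul_sum]
  congr 1
  · congr 1
    refine Finset.sum_congr rfl fun i _ => ?_
    rw [Pool.Agent.Perc.Ex_const_mul, mul_comm]
    by_cases h1 : nb v i ∈ bV n
    · rw [← Pr_eq_Ex (localOn_open h1), Pr_open]
    · rw [if_neg h1, mul_zero, mul_zero]
  · refine Finset.sum_congr rfl fun i _ => ?_
    rw [← Pr_eq_Ex (localOn_sitDn_box n v i)]
    rfl

theorem nbc_nonneg (n : ℕ) (v : Vert) : 0 ≤ nbc n v := by
  unfold nbc
  refine Finset.sum_nonneg fun i _ => ?_
  split_ifs <;> norm_num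

theorem nbc_le (n : ℕ) (v : Vert) : nbc n v ≤ 4 := by
  unfold nbc
  have : ∑ i ∈ Finset.range 4, (1 : ℝ) = 4 := by simp
  rw [← this]
  refine Finset.sum_le_sum fun i _ => ?_
  split_ifs <;> norm_num

theorem abs_dS_le (n : ℕ) (q : I) (v : Vert) : |dS n q v| ≤ 4 := by
  have h1 := nbc_nonneg n v
  have h2 := nbc_le n v
  have h3 : 0 ≤ ∑ i ∈ Finset.Icc 1 3, Pool.Agent.H83.SK.Pr q (Dn (bV n) v i) :=
    Finset.sum_nonneg fun _ _ => Pool.Agent.H83.SK.Pr_nonneg
  have h4 : ∑ i ∈ Finset.Icc 1 3, Pool.Agent.H83.SK.Pr q (Dn (bV n) v i) ≤ 3 := by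
    have : ∑ i ∈ Finset.Icc 1 3, Pool.Agent.H83.SK.Pr q (Dn (bV n) v i) ≤
        ∑ i ∈ Finset.Icc 1 3, (1 : ℝ) :=
      Finset.sum_le_sum fun _ _ => Pool.Agent.H83.SK.Pr_le_one
    simpa using this
  have h5 := q.2.1
  have h6 := q.2.2
  have h7 : (q : ℝ) * nbc n v ≤ 1 * 4 := mul_le_mul h6 h2 h1 zero_le_one
  have h8 : 0 ≤ (q : ℝ) * nbc n v := mul_nonneg h5 h1
  rw [abs_le]
  unfold dS
  constructor <;> linarith

theorem card_tSites (n : ℕ) : ((tSites n).card : ℝ) = (n : ℝ) ^ 2 := by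
  unfold tSites
  rw [Finset.card_product, Finset.card_product, Int.card_Ico, Finset.card_singleton]
  have : ((n : ℤ) - 0).toNat = n := by omega
  rw [this]
  push_cast
  ring

theorem EKO_zero (n : ℕ) : EKO n 0 = 0 := by
  unfold EKO
  unfold Pool.Agent.Perc.Ex
  refine Finset.sum_eq_zero fun S hS => ?_
  rcases S.eq_empty_or_nonempty with rfl | hne
  · have h0 : KO (ofS ∅) (bV n) = 0 := by
      unfold KO oClus
      have : {C : Set Vert | ∃ v ∈ bV n, ofS ∅ (sv v) = true ∧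
          C = {u | Conn (sit (ofS ∅)) (bV n) v u}} = ∅ := by
        ext C
        simp only [Set.mem_ofPred_eq, Set.mem_empty_iff_false, iff_false]
        rintro ⟨v, -, h, -⟩
        rw [ofS_eq_true] at h
        exact Finset.notMem_empty _ h
      rw [this, Set.ncard_empty]
    beta_reduce
    rw [h0]
    simp
  · have : S.card ≠ 0 := fun h => hne.ne_empty (Finset.card_eq_zero.1 h)
    rw [zero_pow this]
    simp

end Pool.Agent.H13.SK
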