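import Pool.Agent.H13.SK.KExp
import Pool.Agent.H29.Kap.Integral
import Pool.Agent.H83.Site.Transfer

/-!
# The number of clusters of the graph of open sites
-/

set_option autoImplicit false

open MeasureTheory ProbabilityTheory unitInterval Filter Topology

namespace Pool.Agent.H13.SK

open Pool.Agent.H89.Perc Pool.Agent.H92.SN
open Pool.Agent.H83.SK (sv sit)
open Pool.Agent.H83.Site (SA extS resS map_resS)

/-- A local function is measurable. -/
theorem measurable_of_local {s : Finset Edge} {f : Config → ℝ}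
    (hf : ∀ ω ω' : Config, (∀ e ∈ s, ω e = ω' e) → f ω = f ω') : Measurable f := by
  classical
  have h1 : f = fun ω => ∑ S ∈ s.powerset, (cyl s S).indicator (fun _ => f (ofS S)) ω := by
    funext ω
    set S0 : Finset Edge := s.filter (fun e => ω e = true) with hS0
    have hS0s : S0 ∈ s.powerset := Finset.mem_powerset.2 (Finset.filter_subset _ _)
    have hω : ω ∈ cyl s S0 := by
      rw [mem_cyl]
      intro e he
      rw [ofS_apply, hS0]
      simp [he]
    rw [Finset.sum_eq_single_of_mem S0 hS0s]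
    · rw [Set.indicator_of_mem hω]
      exact hf _ _ fun e he => mem_cyl.1 hω e he
    · intro S hS hne
      rw [Set.indicator_of_notMem]
      intro hc
      rw [mem_cyl] at hc hω
      apply hne
      ext e
      by_cases he : e ∈ s
      · have := (hc e he).symm.trans (hω e he)
        rw [ofS_apply, ofS_apply, decide_eq_decide] at this
        exact this
      · exact ⟨fun h => absurd (Finset.mem_powerset.1 hS h) he,
          fun h => absurd (Finset.mem_powerset.1 hS0s h) he⟩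
  rw [h1]
  exact Finset.measurable_sum _ fun S _ => measurable_const.indicator (measurableSet_cyl s S)

theorem conn_sit_congr {w w' : Config} {S : Set Vert} (h : ∀ v ∈ S, w (sv v) = w' (sv v))
    (u v : Vert) : Conn (sit w) S u v ↔ Conn (sit w') S u v := by
  have key : ∀ e, src e ∈ S → tgt e ∈ S → sit w e = sit w' e := by
    intro e h1 h2
    simp only [sit]
    rw [h _ h1, h _ h2]
  exact ⟨Conn.congr key, Conn.congr fun e h1 h2 => (key e h1 h2).symm⟩

theorem KO_congr {w w' : Config} {S : Set Vert} (h : ∀ v ∈ S, w (sv v) = w' (sv v)) :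
    KO w S = KO w' S := by
  unfold KO oClus
  congr 1
  ext C
  simp only [Set.mem_ofPred_eq]
  constructor
  · rintro ⟨v, hv, ho, rfl⟩
    refine ⟨v, hv, by rw [← h v hv]; exact ho, ?_⟩
    ext u
    exact conn_sit_congr h v u
  · rintro ⟨v, hv, ho, rfl⟩
    refine ⟨v, hv, by rw [h v hv]; exact ho, ?_⟩
    ext u
    exact (conn_sit_congr h v u).symm

theorem KO_local (n : ℕ) (w w' : Config) (h : ∀ e ∈ tSites n, w e = w' e) :
    (KO w (bV n) : ℝ) = KO w' (bV n) := by
  have := KO_congr (w := w) (w' := w') (S := bV n) fun v hv => h _ (sv_mem_tSites.2 hv)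
  rw [this]

theorem joins_of_SA {u v : Vert} (h : SA false u v) : ∃ e, Joins e u v := by
  obtain ⟨a, b⟩ := u
  obtain ⟨c, d⟩ := v
  obtain ⟨h1, h2, h3, h4⟩ := h
  simp only [abs_le, Bool.false_eq_true, false_or] at h2 h3 h4
  have hne : a ≠ c ∨ b ≠ d := by
    by_contra hcon
    push Not at hcon
    exact h1 (by rw [hcon.1, hcon.2])
  have hcases : (c = a + 1 ∧ b = d) ∨ (c = a - 1 ∧ b = d) ∨ (a = c ∧ d = b + 1) ∨
      (a = c ∧ d = b - 1) := by omega
  rcases hcases with ⟨rfl, rfl⟩ | ⟨rfl, rfl⟩ | ⟨rfl, rfl⟩ | ⟨rfl, rfl⟩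
  · exact ⟨(a, b, false), Or.inl ⟨rfl, by simp [tgt]⟩⟩
  · exact ⟨(a - 1, b, false), Or.inr ⟨by simp [tgt], rfl⟩⟩
  · exact ⟨(a, b, true), Or.inl ⟨rfl, by simp [tgt]⟩⟩
  · exact ⟨(a, b - 1, true), Or.inr ⟨by simp [tgt], rfl⟩⟩

theorem SA_of_joins {e : Edge} {u v : Vert} (h : Joins e u v) : SA false u v := by
  obtain ⟨x, y, t⟩ := e
  rcases h with ⟨h1, h2⟩ | ⟨h1, h2⟩
  · subst h1 h2
    cases t
    · refine ⟨?_, ?_, ?_, ?_⟩ <;> simp [src, tgt]
    · refine ⟨?_, ?_, ?_, ?_⟩ <;> simp [src, tgt]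
  · subst h1 h2
    cases t
    · refine ⟨?_, ?_, ?_, ?_⟩ <;> simp [src, tgt]
    · refine ⟨?_, ?_, ?_, ?_⟩ <;> simp [src, tgt]

section graph

variable {G : (ℤ × ℤ → Bool) → SimpleGraph (ℤ × ℤ)}

theorem extS_sv (ω : ℤ × ℤ → Bool) (v : Vert) : extS ω (sv v) = ω v := rfl

theorem step_ext_iff (hG : ∀ ω u v, (G ω).Adj u v ↔ ω u = true ∧ ω v = true ∧ SA false u v)
    (ω : ℤ × ℤ → Bool) (S : Set Vert) (u v : ℤ × ℤ) :
    Step (sit (extS ω)) S u v ↔ u ∈ S ∧ v ∈ S ∧ (G ω).Adj u v := by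
  unfold Step
  refine and_congr_right fun _ => and_congr_right fun _ => ?_
  rw [hG]
  constructor
  · rintro ⟨e, he, ho⟩
    rw [Pool.Agent.H83.SK.sit_true, extS_sv, extS_sv] at ho
    refine ⟨?_, ?_, SA_of_joins he⟩
    · rcases he with ⟨h1, -⟩ | ⟨h1, -⟩
      · rw [h1]; exact ho.1
      · rw [h1]; exact ho.2
    · rcases he with ⟨-, h1⟩ | ⟨-, h1⟩
      · rw [h1]; exact ho.2
      · rw [h1]; exact ho.1
  · rintro ⟨h1, h2, h3⟩
    obtain ⟨e, he⟩ := joins_of_SA h3
    refine ⟨e, he, ?_⟩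
    rw [Pool.Agent.H83.SK.sit_true, extS_sv, extS_sv]
    rcases he with ⟨h4, h5⟩ | ⟨h4, h5⟩
    · rw [← h4, ← h5]; exact ⟨h1, h2⟩
    · rw [← h4, ← h5]; exact ⟨h2, h1⟩

theorem reach_iff (hG : ∀ ω u v, (G ω).Adj u v ↔ ω u = true ∧ ω v = true ∧ SA false u v)
    (ω : ℤ × ℤ → Bool) (S : Set Vert) (u v : {v : ℤ × ℤ | v ∈ S ∧ ω v = true}) :
    ((G ω).induce {v | v ∈ S ∧ ω v = true}).Reachable u v ↔
      Conn (sit (extS ω)) S (u : ℤ × ℤ) (v : ℤ × ℤ) := by
  constructor
  · rintro ⟨w⟩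
    have key : ∀ x y : {v : ℤ × ℤ | v ∈ S ∧ ω v = true},
        ((G ω).induce {v | v ∈ S ∧ ω v = true}).Walk x y →
        Conn (sit (extS ω)) S (x : ℤ × ℤ) (y : ℤ × ℤ) := by
      intro x y w
      induction w with
      | @nil x => exact Conn.refl x.2.1
      | @cons x y z h _ ih =>
        refine Conn.trans (Step.conn ?_) ih
        rw [step_ext_iff hG]
        exact ⟨x.2.1, y.2.1, h⟩
    exact key u v w
  · intro h
    have key : ∀ x : Vert, Conn (sit (extS ω)) S (u : ℤ × ℤ) x → ∀ hx : x ∈ S ∧ ω x = true,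
        ((G ω).induce {v | v ∈ S ∧ ω v = true}).Reachable u ⟨x, hx⟩ := by
      intro x hc
      refine hc.induction_right (P := fun x => ∀ hx : x ∈ S ∧ ω x = true,
        ((G ω).induce {v | v ∈ S ∧ ω v = true}).Reachable u ⟨x, hx⟩)
        (fun hx => SimpleGraph.Reachable.refl _) ?_
      intro a b _ hab ih hb
      rw [step_ext_iff hG] at hab
      have ha : a ∈ S ∧ ω a = true := ⟨hab.1, ((hG ω a b).1 hab.2.2).1⟩
      refine (ih ha).trans ?_
      exact SimpleGraph.Adj.reachable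
        (u := (⟨a, ha⟩ : {v : ℤ × ℤ | v ∈ S ∧ ω v = true}))
        (v := (⟨b, hb⟩ : {v : ℤ × ℤ | v ∈ S ∧ ω v = true})) hab.2.2
    exact key v h v.2

theorem card_comp_eq (hG : ∀ ω u v, (G ω).Adj u v ↔ ω u = true ∧ ω v = true ∧ SA false u v)
    (ω : ℤ × ℤ → Bool) (S : Set Vert) :
    Nat.card ((G ω).induce {v | v ∈ S ∧ ω v = true}).ConnectedComponent = KO (extS ω) S := by
  unfold KO
  rw [← Nat.card_coe_set_eq]
  let φ : ((G ω).induce {v | v ∈ S ∧ ω v = true}).ConnectedComponent → oClus (extS ω) S :=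
    Quot.lift (fun v : {v : ℤ × ℤ | v ∈ S ∧ ω v = true} =>
      ⟨{u | Conn (sit (extS ω)) S (v : ℤ × ℤ) u}, v, v.2.1, v.2.2, rfl⟩) (by
      intro u v huv
      have huv' : Conn (sit (extS ω)) S (u : ℤ × ℤ) (v : ℤ × ℤ) := (reach_iff hG ω S u v).1 huv
      apply Subtype.ext
      ext w
      exact ⟨fun h => huv'.symm.trans h, fun h => huv'.trans h⟩)
  refine Nat.card_eq_of_bijective φ ⟨?_, ?_⟩
  · intro x y
    refine Quot.induction_on₂ x y fun u v h => ?_
    have h1 : ({w | Conn (sit (extS ω)) S (u : ℤ × ℤ) w} : Set Vert) =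
        {w | Conn (sit (extS ω)) S (v : ℤ × ℤ) w} := congrArg Subtype.val h
    have h2 : (v : Vert) ∈ ({w | Conn (sit (extS ω)) S (u : ℤ × ℤ) w} : Set Vert) := by
      rw [h1]; exact Conn.refl v.2.1
    exact Quot.sound ((reach_iff hG ω S u v).2 h2)
  · rintro ⟨C, v, hv, ho, rfl⟩
    exact ⟨Quot.mk _ ⟨v, hv, ho⟩, rfl⟩

/-- The expected number of clusters of the graph of open sites in the box. -/
theorem meanClusters_eq
    (hG : ∀ ω u v, (G ω).Adj u v ↔ ω u = true ∧ ω v = true ∧ SA false u v) (n : ℕ) (p : I) :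
    ∫ ω, (Nat.card ((G ω).induce {v | v ∈ bV n ∧ ω v = true}).ConnectedComponent : ℝ)
        ∂(Measure.infinitePi fun _ : ℤ × ℤ => bernoulliMeasure true false p) = EKO n p := by
  simp only [card_comp_eq hG]
  have hres : Measurable resS := by
    refine measurable_pi_lambda _ fun v => ?_
    exact measurable_pi_apply (v.1, v.2, false)
  have hext : Measurable extS := by
    refine measurable_pi_lambda _ fun v => ?_
    exact measurable_pi_apply (v.1, v.2.1)
  have hm : Measurable fun ω : ℤ × ℤ → Bool => (KO (extS ω) (bV n) : ℝ) :=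
    (measurable_of_local (s := tSites n) (f := fun w => (KO w (bV n) : ℝ))
      fun w w' h => KO_local n w w' h).comp hext
  rw [← map_resS, integral_map hres.aemeasurable hm.aestronglyMeasurable]
  have h1 : ∀ w : Config, (KO (extS (resS w)) (bV n) : ℝ) = KO w (bV n) := fun w => by
    have := KO_congr (w := extS (resS w)) (w' := w) (S := bV n) fun v _ => rfl
    rw [this]
  simp only [h1]
  exact Pool.Agent.H29.Kap.integral_eq_Ex (s := tSites n) (f := fun w => (KO w (bV n) : ℝ))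
    (fun w w' h => KO_local n w w' h) p

end graph

end Pool.Agent.H13.SK
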