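import Pool.Agent.H13.SK.Regime
import Pool.Agent.H13.SK.Compare

/-!
# The characteristic lengths on the two sides of the critical density

`NC a4 Wp Reg` collects the results of near-critical percolation on the torus which are used:
`a4` is the four-arm probability, `Wp` the winding probability and `Reg` the box-crossing regime.
-/

set_option autoImplicit false

open MeasureTheory ProbabilityTheory unitInterval Filter Topology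

namespace Pool.Agent.H13.SK

open Pool.Agent.H89.Perc Pool.Agent.H83.Site

/-- Interface. -/
structure NC (a4 : I → ℕ → ℝ) (Wp : I → ℕ → ℝ) (Reg : ℝ → ℕ → I → Prop) : Prop where
  dict : ∀ c > (0 : ℝ), ∃ c' > (0 : ℝ), ∀ (n : ℕ) (q : I), RegT 8 c n q → Reg c' n q
  up : ∀ c > (0 : ℝ), ∃ C > (0 : ℝ), ∀ (N : ℕ) (q₀ q₁ q : I), 64 ≤ N → q₀ ≤ q → q ≤ q₁ →
    (∀ q' : I, q₀ ≤ q' → q' ≤ q₁ → Reg c N q') →
      ((q₁ : ℝ) - q₀) * ((N : ℝ) ^ 2 * a4 q (N / 64)) ≤ C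
  lo : ∀ c > (0 : ℝ), ∃ C > (0 : ℝ), ∀ (N r : ℕ) (q₀ q₁ q : I), 64 ≤ N → 1 ≤ r →
    2 * r + 2 ≤ N → q₀ ≤ q → q ≤ q₁ → (∀ q' : I, q₀ ≤ q' → q' ≤ q₁ → Reg c N q') →
      Wp q₁ N - Wp q₀ N ≤ C * (((q₁ : ℝ) - q₀) * ((N : ℝ) ^ 2 * a4 q r))
  low : ∀ c > (0 : ℝ), ∃ C > (0 : ℝ), ∃ δ₀ > (0 : ℝ), δ₀ ≤ 1 ∧ ∀ (m n : ℕ) (q : I), 1 ≤ m →
    m ≤ n → Reg c (64 * n) q → a4 q m ≤ C * ((n : ℝ) / m) ^ (2 - δ₀) * a4 q n
  high : ∀ c > (0 : ℝ), ∃ C > (0 : ℝ), ∃ δ₀ > (0 : ℝ), δ₀ ≤ 1 ∧ ∀ (m n : ℕ) (q : I), 1 ≤ m →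
    m ≤ n → Reg c (64 * n) q → a4 q n ≤ C * ((m : ℝ) / n) ^ (1 + δ₀) * a4 q m
  nonneg : ∀ (q : I) (r : ℕ), 0 ≤ a4 q r
  anti : ∀ (q : I) (r r' : ℕ), 1 ≤ r → r ≤ r' → a4 q r' ≤ a4 q r
  pos : 0 < a4 pc 1
  gap : ∃ δ > (0 : ℝ), ∃ c > (0 : ℝ),
    (∀ p : I, pc ≤ p → ∀ m : ℕ, 1 ≤ m → Good δ p false m →
      c ≤ Wp p (14 * m) - Wp pc (14 * m)) ∧
    (∀ p : I, p ≤ pc → ∀ m : ℕ, 1 ≤ m → Good δ (σ p) true m →
      c ≤ Wp pc (14 * m) - Wp p (14 * m))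

variable {a4 : I → ℕ → ℝ} {Wp : I → ℕ → ℝ} {Reg : ℝ → ℕ → I → Prop}

/-- The critical density is in the regime at all scales. -/
theorem NC.reg_pc (H : NC a4 Wp Reg) : ∃ c > (0 : ℝ), ∀ n : ℕ, Reg c n pc := by
  obtain ⟨c, hc, h1⟩ := bxp_pc.1 8
  obtain ⟨c', hc', h2⟩ := bxp_pc.2 8
  obtain ⟨c'', hc'', h3⟩ := H.dict (min c c') (lt_min hc hc')
  exact ⟨c'', hc'', fun n => h3 n pc fun m hm _ =>
    ⟨(min_le_left _ _).trans (h1 m hm), (min_le_right _ _).trans (h2 m hm)⟩⟩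

/-- Growth of `n ^ 2 a4(n)` at the critical density. -/
theorem NC.growth1 (H : NC a4 Wp Reg) :
    ∃ c₀ > (0 : ℝ), ∃ δ₀ > (0 : ℝ), δ₀ ≤ 1 ∧ Grow c₀ δ₀ 1 (a4 pc) := by
  obtain ⟨c, hc, hreg⟩ := H.reg_pc
  obtain ⟨C, hC, δ₀, hδ₀, hδ₁, hg⟩ := H.low c hc
  refine ⟨1 / C, by positivity, δ₀, hδ₀, hδ₁, fun m n hm hmn => ?_⟩
  have hm0 : (0 : ℝ) < m := by exact_mod_cast (by omega : 0 < m)
  have hn0 : (0 : ℝ) < n := by exact_mod_cast (by omega : 0 < n)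
  have h1 := hg m n pc hm (by omega) (hreg _)
  have h2 : ((m : ℝ) / n) ^ (2 - δ₀) * ((n : ℝ) / m) ^ (2 - δ₀) = 1 := by
    rw [← Real.mul_rpow (by positivity) (by positivity)]
    have : (m : ℝ) / n * (n / m) = 1 := by field_simp
    rw [this, Real.one_rpow]
  have h3 : 0 ≤ 1 / C * ((m : ℝ) / n) ^ (2 - δ₀) := by positivity
  calc 1 / C * ((m : ℝ) / n) ^ (2 - δ₀) * a4 pc m
      ≤ 1 / C * ((m : ℝ) / n) ^ (2 - δ₀) * (C * ((n : ℝ) / m) ^ (2 - δ₀) * a4 pc n) :=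
        mul_le_mul_of_nonneg_left h1 h3
    _ = (1 / C * C) * (((m : ℝ) / n) ^ (2 - δ₀) * ((n : ℝ) / m) ^ (2 - δ₀)) * a4 pc n := by ring
    _ = a4 pc n := by rw [h2, one_div_mul_cancel hC.ne', one_mul, one_mul]

/-- Growth of `n ^ 2 a4(n)` at the critical density. -/
theorem NC.growth (H : NC a4 Wp Reg) : ∃ c₀ > (0 : ℝ), ∃ δ₀ > (0 : ℝ), Grow c₀ δ₀ 64 (a4 pc) := by
  obtain ⟨c₀, hc₀, δ₀, hδ₀, -, hG⟩ := H.growth1
  exact ⟨c₀, hc₀, δ₀, hδ₀, fun m n hm hmn => hG m n hm (by omega)⟩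

/-- `n ^ 2 a4(n)` is unbounded. -/
theorem NC.unbounded (H : NC a4 Wp Reg) (B : ℝ) :
    ∃ n : ℕ, 1 ≤ n ∧ B < (n : ℝ) ^ 2 * a4 pc n := by
  obtain ⟨c₀, hc₀, δ₀, hδ₀, hG⟩ := H.growth
  have h6 : Tendsto (fun r : ℕ => (r : ℝ) ^ δ₀) atTop atTop :=
    (tendsto_rpow_atTop hδ₀).comp tendsto_natCast_atTop_atTop
  obtain ⟨r, hr1, hr2⟩ := ((h6.eventually_gt_atTop (B / (c₀ * a4 pc 1))).and
    (eventually_ge_atTop 64)).exists
  have hp := H.pos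
  refine ⟨r, by omega, ?_⟩
  have h1 := grow_sq hG (m := 1) (n := r) le_rfl (by omega) (by omega)
  rw [div_lt_iff₀ (by positivity)] at hr1
  refine lt_of_lt_of_le hr1 (le_trans (le_of_eq ?_) h1)
  push_cast
  rw [div_one]
  ring

/-- Above the critical density there are good scales. -/
theorem NC.exists_good_plus (H : NC a4 Wp Reg) {δ : ℝ} (hδ : 0 < δ) {p : I} (hp : pc < p) :
    ∃ m : ℕ, 1 ≤ m ∧ Good δ p false m := by
  by_contra hno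
  push Not at hno
  obtain ⟨c, hc, hr⟩ := reg_plus δ hδ 8 64
  obtain ⟨c', hc', hd⟩ := H.dict c hc
  obtain ⟨C, hC, hC'⟩ := H.up c' hc'
  have hx : 0 < (p : ℝ) - pc := sub_pos.2 hp
  obtain ⟨n, hn, hB⟩ := H.unbounded (C / ((p : ℝ) - pc))
  have h1 := hC' (64 * n) pc p pc (by omega) le_rfl hp.le fun q h2 h3 =>
    hd _ q ((hr p (n + 2) (by omega) (fun m hm _ => hno m hm) q h2 h3).anti (by omega))
  rw [Nat.mul_div_cancel_left n (by norm_num)] at h1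
  rw [div_lt_iff₀ hx] at hB
  have h2 : 0 ≤ (n : ℝ) ^ 2 * a4 pc n := mul_nonneg (by positivity) (H.nonneg _ _)
  push_cast at h1
  nlinarith

/-- Below the critical density the closed colour has good scales. -/
theorem NC.exists_good_minus (H : NC a4 Wp Reg) {δ : ℝ} (hδ : 0 < δ) {p : I} (hp : p < pc) :
    ∃ m : ℕ, 1 ≤ m ∧ Good δ (σ p) true m := by
  by_contra hno
  push Not at hno
  obtain ⟨c, hc, hr⟩ := reg_minus δ hδ 8 64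
  obtain ⟨c', hc', hd⟩ := H.dict c hc
  obtain ⟨C, hC, hC'⟩ := H.up c' hc'
  have hx : 0 < (pc : ℝ) - p := sub_pos.2 hp
  obtain ⟨n, hn, hB⟩ := H.unbounded (C / ((pc : ℝ) - p))
  have h1 := hC' (64 * n) p pc pc (by omega) hp.le le_rfl fun q h2 h3 =>
    hd _ q ((hr p (n + 2) (by omega) (fun m hm _ => hno m hm) q h2 h3).anti (by omega))
  rw [Nat.mul_div_cancel_left n (by norm_num)] at h1
  rw [div_lt_iff₀ hx] at hB
  have h2 : 0 ≤ (n : ℝ) ^ 2 * a4 pc n := mul_nonneg (by positivity) (H.nonneg _ _)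
  push_cast at h1
  nlinarith

/-- The scale relation above the critical density. -/
theorem NC.scale_plus (H : NC a4 Wp Reg) : ∃ δ₁ > (0 : ℝ), ∀ δ : ℝ, 0 < δ → δ ≤ δ₁ →
    ∃ c > (0 : ℝ), ∃ C > (0 : ℝ), ∀ p : I, pc < p → 5 ≤ Len δ p false →
      c ≤ ((p : ℝ) - pc) * ((Len δ p false : ℝ) ^ 2 * a4 pc (Len δ p false)) ∧
      ((p : ℝ) - pc) * ((Len δ p false : ℝ) ^ 2 * a4 pc (Len δ p false)) ≤ C := by
  obtain ⟨δ₁, hδ₁, cg, hcg, hgap, -⟩ := H.gap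
  refine ⟨δ₁, hδ₁, fun δ hδ hδ' => ?_⟩
  obtain ⟨c, hc, hr⟩ := reg_plus δ hδ 8 64
  obtain ⟨c', hc', hd⟩ := H.dict c hc
  obtain ⟨C, hC, hup⟩ := H.up c' hc'
  obtain ⟨C', hC', hlo⟩ := H.lo c' hc'
  refine ⟨cg / (196 * C'), by positivity, C, hC, fun p hp hL => ?_⟩
  have hex := H.exists_good_plus hδ hp
  have hsp := Len_spec hex
  obtain ⟨L, hLe⟩ : ∃ L : ℕ, L = Len δ p false := ⟨_, rfl⟩
  have hbad : ∀ m : ℕ, 1 ≤ m → m < L → ¬ Good δ p false m := fun m hm h =>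
    not_good_of_lt hm (by rw [← hLe]; exact h)
  rw [← hLe] at hL hsp ⊢
  have hx : 0 < (p : ℝ) - pc := sub_pos.2 hp
  have hreg : ∀ q : I, pc ≤ q → q ≤ p → RegT 8 c (64 * L) q := hr p L (by omega) hbad
  constructor
  · have h1 := hlo (14 * L) (6 * L) pc p pc (by omega) (by omega) (by omega) le_rfl hp.le
      fun q h2 h3 => hd _ q ((hreg q h2 h3).anti (by omega))
    have h2 := hgap p hp.le L hsp.1 (hsp.2.mono hδ')
    have h3 := H.anti pc L (6 * L) hsp.1 (by omega)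
    rw [div_le_iff₀ (by positivity)]
    calc cg ≤ C' * (((p : ℝ) - pc) * ((14 * L : ℕ) ^ 2 * a4 pc (6 * L))) := h2.trans h1
      _ ≤ C' * (((p : ℝ) - pc) * ((14 * L : ℕ) ^ 2 * a4 pc L)) := by gcongr
      _ = _ := by push_cast; ring
  · have h1 := hup (64 * L) pc p pc (by omega) le_rfl hp.le fun q h2 h3 => hd _ q (hreg q h2 h3)
    rw [Nat.mul_div_cancel_left L (by norm_num)] at h1
    have h2 : 0 ≤ (L : ℝ) ^ 2 * a4 pc L := mul_nonneg (by positivity) (H.nonneg _ _)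
    push_cast at h1
    nlinarith [mul_nonneg hx.le h2]

/-- The scale relation below the critical density. -/
theorem NC.scale_minus (H : NC a4 Wp Reg) : ∃ δ₁ > (0 : ℝ), ∀ δ : ℝ, 0 < δ → δ ≤ δ₁ →
    ∃ c > (0 : ℝ), ∃ C > (0 : ℝ), ∀ p : I, p < pc → 5 ≤ Len δ (σ p) true →
      c ≤ ((pc : ℝ) - p) * ((Len δ (σ p) true : ℝ) ^ 2 * a4 pc (Len δ (σ p) true)) ∧
      ((pc : ℝ) - p) * ((Len δ (σ p) true : ℝ) ^ 2 * a4 pc (Len δ (σ p) true)) ≤ C := by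
  obtain ⟨δ₁, hδ₁, cg, hcg, -, hgap⟩ := H.gap
  refine ⟨δ₁, hδ₁, fun δ hδ hδ' => ?_⟩
  obtain ⟨c, hc, hr⟩ := reg_minus δ hδ 8 64
  obtain ⟨c', hc', hd⟩ := H.dict c hc
  obtain ⟨C, hC, hup⟩ := H.up c' hc'
  obtain ⟨C', hC', hlo⟩ := H.lo c' hc'
  refine ⟨cg / (196 * C'), by positivity, C, hC, fun p hp hL => ?_⟩
  have hex := H.exists_good_minus hδ hp
  have hsp := Len_spec hex
  obtain ⟨L, hLe⟩ : ∃ L : ℕ, L = Len δ (σ p) true := ⟨_, rfl⟩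
  have hbad : ∀ m : ℕ, 1 ≤ m → m < L → ¬ Good δ (σ p) true m := fun m hm h =>
    not_good_of_lt hm (by rw [← hLe]; exact h)
  rw [← hLe] at hL hsp ⊢
  have hx : 0 < (pc : ℝ) - p := sub_pos.2 hp
  have hreg : ∀ q : I, p ≤ q → q ≤ pc → RegT 8 c (64 * L) q := hr p L (by omega) hbad
  constructor
  · have h1 := hlo (14 * L) (6 * L) p pc pc (by omega) (by omega) (by omega) hp.le le_rfl
      fun q h2 h3 => hd _ q ((hreg q h2 h3).anti (by omega))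
    have h2 := hgap p hp.le L hsp.1 (hsp.2.mono hδ')
    have h3 := H.anti pc L (6 * L) hsp.1 (by omega)
    rw [div_le_iff₀ (by positivity)]
    calc cg ≤ C' * (((pc : ℝ) - p) * ((14 * L : ℕ) ^ 2 * a4 pc (6 * L))) := h2.trans h1
      _ ≤ C' * (((pc : ℝ) - p) * ((14 * L : ℕ) ^ 2 * a4 pc L)) := by gcongr
      _ = _ := by push_cast; ring
  · have h1 := hup (64 * L) p pc pc (by omega) hp.le le_rfl fun q h2 h3 => hd _ q (hreg q h2 h3)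
    rw [Nat.mul_div_cancel_left L (by norm_num)] at h1
    have h2 : 0 ≤ (L : ℝ) ^ 2 * a4 pc L := mul_nonneg (by positivity) (H.nonneg _ _)
    push_cast at h1
    nlinarith [mul_nonneg hx.le h2]

end Pool.Agent.H13.SK
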