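import Pool.Agent.H13.SK.SigmaSum
import Pool.Agent.H83.Site.Transfer

/-!
# The mean cluster size as a sum of the two-point function
-/

set_option autoImplicit false

open MeasureTheory ProbabilityTheory unitInterval
open scoped ENNReal

namespace Pool.Agent.H13.SK

open Pool.Agent.H89.Perc Pool.Agent.H83.Site

theorem tconn_box {η : Config} {v : TV} (h : TConn η Set.univ (0, 0, false) v) :
    ∃ R : ℕ, TConn η (TR (-R) R (-R) R) (0, 0, false) v := by
  refine h.induction_right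
    (P := fun v => ∃ R : ℕ, TConn η (TR (-R) R (-R) R) (0, 0, false) v)
    ⟨0, TConn.refl (by rw [mem_TR_site]; simp) h.open_left⟩ ?_
  rintro a b - hab ⟨R, hR⟩
  have h1 : TConn η (TR (-(R + 1 : ℕ)) (R + 1 : ℕ) (-(R + 1 : ℕ)) (R + 1 : ℕ)) (0, 0, false) a :=
    hR.mono_set (TR_mono (by push_cast; omega) (by push_cast; omega) (by push_cast; omega)
      (by push_cast; omega))
  have ha := hR.mem_right
  rw [mem_TR] at ha
  have h2 := hab.2.2.1.fx_le (a := R + 1) (by omega)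
  have h3 := hab.2.2.1.le_fx (a := -(R + 1)) (by omega)
  have h4 := hab.2.2.1.fy_le (a := R + 1) (by omega)
  have h5 := hab.2.2.1.le_fy (a := -(R + 1)) (by omega)
  refine ⟨R + 1, h1.tail ⟨h1.mem_right, ?_, hab.2.2⟩⟩
  rw [mem_TR]
  push_cast
  omega

theorem meas_C0 (r : Bool) (v : ℤ × ℤ) : MeasurableSet {ω : Config | full r ω ∈ C0 v} := by
  have h : {ω : Config | full r ω ∈ C0 v} = ⋃ R : ℕ,
      {ω | full r ω ∈ {η | TConn η (TR (-R) R (-R) R) (0, 0, false) (sit0 v)}} := by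
    ext ω
    simp only [Set.mem_ofPred_eq, Set.mem_iUnion]
    constructor
    · intro h
      exact tconn_box h
    · rintro ⟨R, hR⟩
      exact hR.mono_set (Set.subset_univ _)
  rw [h]
  exact MeasurableSet.iUnion fun R =>
    (localOn_full r (localOn_tconn _ _ _ _ (0, 0, false) (sit0 v))).measurableSet

/-- The mean cluster size is bounded by bounds for the finite sums of the two-point function. -/
theorem sigma_le_of (p : I) (r : Bool) (G : (ℤ × ℤ → Bool) → SimpleGraph (ℤ × ℤ))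
    (hG : ∀ ω u v, (G ω).Adj u v ↔ ω u = true ∧ ω v = true ∧ SA r u v) {B : ℝ}
    (hB : ∀ F : Finset (ℤ × ℤ), ∑ v ∈ F, PT p r (C0 v) ≤ B) :
    ∫⁻ ω, (({v | ω (0, 0) = true ∧ (G ω).Reachable (0, 0) v}.encard : ℕ∞) : ℝ≥0∞)
        ∂(Measure.infinitePi (fun _ : ℤ × ℤ => bernoulliMeasure true false p)) ≤
      ENNReal.ofReal B := by
  classical
  set ν := Measure.infinitePi (fun _ : ℤ × ℤ => bernoulliMeasure true false p) with hν
  have hext : Measurable extS := by
    refine measurable_pi_lambda _ fun v => ?_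
    exact measurable_pi_apply (v.1, v.2.1)
  have hres : Measurable resS := by
    refine measurable_pi_lambda _ fun v => ?_
    exact measurable_pi_apply (v.1, v.2, false)
  set T : ℤ × ℤ → Set (ℤ × ℤ → Bool) := fun v => {w | full r (extS w) ∈ C0 v} with hT
  have hmeas : ∀ v, MeasurableSet (T v) := fun v => hext (meas_C0 r v)
  have hiff : ∀ (w : ℤ × ℤ → Bool) (v : ℤ × ℤ),
      (w (0, 0) = true ∧ (G w).Reachable (0, 0) v) ↔ w ∈ T v := by
    intro w v
    constructor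
    · rintro ⟨h1, h2⟩
      exact tconn_of_reachable (hG w) h1 h2
    · intro h
      have h0 : TConn (full r (extS w)) Set.univ (0, 0, false) (v.1, v.2, false) := h
      have h1 := h0.open_left
      have h2 := h0.open_right
      rw [full_site] at h1 h2
      exact ⟨h1, reachable_of_tconn (u := (0, 0)) (hG w) h0 v (by simp [crn]) h2⟩
  have h1 : ∀ w : ℤ × ℤ → Bool,
      (({v | w (0, 0) = true ∧ (G w).Reachable (0, 0) v}.encard : ℕ∞) : ℝ≥0∞) =
      ∑' v : ℤ × ℤ, Set.indicator (T v) (fun _ => (1 : ℝ≥0∞)) w := by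
    intro w
    rw [← ENNReal.tsum_set_one,
      tsum_subtype {v | w (0, 0) = true ∧ (G w).Reachable (0, 0) v} (fun _ => (1 : ℝ≥0∞))]
    refine tsum_congr fun v => ?_
    by_cases h : w ∈ T v
    · rw [Set.indicator_of_mem (show v ∈ {v | w (0, 0) = true ∧ (G w).Reachable (0, 0) v} from
        (hiff w v).2 h), Set.indicator_of_mem h]
    · rw [Set.indicator_of_notMem (show v ∉ {v | w (0, 0) = true ∧ (G w).Reachable (0, 0) v} from
        fun h' => h ((hiff w v).1 h')), Set.indicator_of_notMem h]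
  simp_rw [h1]
  rw [lintegral_tsum fun v => (measurable_const.indicator (hmeas v)).aemeasurable]
  have h2 : ∀ v : ℤ × ℤ, ∫⁻ w, Set.indicator (T v) (fun _ => (1 : ℝ≥0∞)) w ∂ν =
      ENNReal.ofReal (PT p r (C0 v)) := by
    intro v
    rw [lintegral_indicator (hmeas v), lintegral_const, Measure.restrict_apply_univ, one_mul,
      hν, ← map_resS, Measure.map_apply hres (hmeas v)]
    unfold PT Pr
    rw [ofReal_measureReal]
    congr 1
    ext ω
    simp only [hT, Set.mem_preimage, Set.mem_ofPred_eq, full_extS_resS]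
  simp_rw [h2]
  rw [ENNReal.tsum_eq_iSup_sum]
  refine iSup_le fun F => ?_
  rw [← ENNReal.ofReal_sum_of_nonneg fun v _ => PT_nonneg]
  exact ENNReal.ofReal_le_ofReal (hB F)

/-- Upper bound for the sums of the two-point function at a good scale of the other colour. -/
theorem sum_good {p₀ : I} {r : Bool} (h : BXP p₀ r) :
    ∃ δ > (0 : ℝ), ∃ C > (0 : ℝ), ∀ p : I, p ≤ p₀ → ∀ m : ℕ, 1 ≤ m → Good δ (σ p) (!r) m →
      ∀ F : Finset (ℤ × ℤ), ∑ v ∈ F, PT p r (C0 v) ≤ C * (m : ℝ) ^ 2 * ab p₀ r 0 m ^ 2 := by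
  obtain ⟨C, hC, H⟩ := sum_upper h
  refine ⟨1 / 10 ^ 10, by positivity, 25 * C, by positivity, fun p hp m hm hg F => ?_⟩
  refine (H p hp (4 * m + 1) (by omega) (good_qc hm hg) F).trans ?_
  have h1 : ab p₀ r 0 (4 * m + 1) ≤ ab p₀ r 0 m := ab_mono le_rfl (by omega) (by omega)
  have h2 : 0 ≤ ab p₀ r 0 (4 * m + 1) := ab_nonneg
  have h3 : (((4 * m + 1 : ℕ) : ℝ)) ≤ 5 * m := by
    have : (1 : ℝ) ≤ m := by exact_mod_cast hm
    push_cast
    linarith
  calc C * (((4 * m + 1 : ℕ) : ℝ)) ^ 2 * ab p₀ r 0 (4 * m + 1) ^ 2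
      ≤ C * (5 * m) ^ 2 * ab p₀ r 0 m ^ 2 := by gcongr
    _ = _ := by ring

/-- Upper bound for the mean cluster size of the colour `r`. -/
theorem sigma_upper {p₀ : I} {r : Bool} (h : BXP p₀ r)
    (G : (ℤ × ℤ → Bool) → SimpleGraph (ℤ × ℤ))
    (hG : ∀ ω u v, (G ω).Adj u v ↔ ω u = true ∧ ω v = true ∧ SA r u v) :
    ∃ δ > (0 : ℝ), ∃ C > (0 : ℝ), ∀ p : I, p ≤ p₀ → ∀ m : ℕ, 1 ≤ m → Good δ (σ p) (!r) m →
      ∫⁻ ω, (({v | ω (0, 0) = true ∧ (G ω).Reachable (0, 0) v}.encard : ℕ∞) : ℝ≥0∞)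
        ∂(Measure.infinitePi (fun _ : ℤ × ℤ => bernoulliMeasure true false p)) ≤
      ENNReal.ofReal (C * (m : ℝ) ^ 2 * ab p₀ r 0 m ^ 2) := by
  obtain ⟨δ, hδ, C, hC, H⟩ := sum_good h
  exact ⟨δ, hδ, C, hC, fun p hp m hm hg => sigma_le_of p r G hG (H p hp m hm hg)⟩

end Pool.Agent.H13.SK
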