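import Pool.Agent.H13.SK.SigmaUp

/-!
# Upper bound for the mean cluster size: summation
-/

set_option autoImplicit false

open MeasureTheory ProbabilityTheory unitInterval

namespace Pool.Agent.H13.SK

open Pool.Agent.H89.Perc Pool.Agent.H83.Site

/-- The one-arm probability at distance `m` is at least of order `m ^ (-1/2)`. -/
theorem arm_low {p₀ : I} {r : Bool} (h : BXP p₀ r) : ∃ C > (0 : ℝ),
    ∀ m : ℕ, 1 ≤ m → 1 ≤ C * m * ab p₀ r 0 m ^ 2 := by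
  obtain ⟨c, hc, H⟩ := arm_extT h
  obtain ⟨c₁, hc₁, H₁⟩ := arm_one_lowerT h
  have h1 := H₁ p₀ le_rfl
  refine ⟨1 / (c * c₁) ^ 2, by positivity, fun m hm => ?_⟩
  have hmp : (1 : ℝ) ≤ m := by exact_mod_cast hm
  have h2 := H p₀ le_rfl 1 m le_rfl hm
  have h3 : c * Real.sqrt (1 / m) * c₁ ≤ ab p₀ r 0 m := by
    refine le_trans ?_ h2
    have : 0 ≤ c * Real.sqrt (1 / m) := by positivity
    simpa using mul_le_mul_of_nonneg_left h1 this
  have h4 : (c * Real.sqrt (1 / m) * c₁) ^ 2 ≤ ab p₀ r 0 m ^ 2 := by gcongr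
  have h5 : (c * Real.sqrt (1 / m) * c₁) ^ 2 = (c * c₁) ^ 2 / m := by
    rw [mul_pow, mul_pow, Real.sq_sqrt (by positivity)]
    ring
  rw [h5] at h4
  rw [div_le_iff₀ (by positivity)] at h4
  rw [div_mul_eq_mul_div, div_mul_eq_mul_div, one_mul, le_div_iff₀ (by positivity), one_mul]
  linarith

/-- Regularity of the one-arm probability. -/
theorem arm_reg {p₀ : I} {r : Bool} (h : BXP p₀ r) : ∃ C > (0 : ℝ), ∀ p : I, p ≤ p₀ →
    ∀ m s : ℕ, 1 ≤ m → s ≤ m → ab p r 0 s ^ 2 ≤ C * (m / (s + 1)) * ab p₀ r 0 m ^ 2 := by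
  obtain ⟨c, hc, H⟩ := arm_extT h
  obtain ⟨C₁, hC₁, H₁⟩ := arm_low h
  refine ⟨2 / c ^ 2 + C₁, by positivity, fun p hp m s hm hs => ?_⟩
  have hmp : (1 : ℝ) ≤ m := by exact_mod_cast hm
  have hpi : 0 ≤ ab p₀ r 0 m := ab_nonneg
  have hm0 : ab p r 0 s ≤ ab p₀ r 0 s := PT_mono_param (localOn_AB _ _ _ _) (incr_AB _ _ _ _) hp
  have hs0 : 0 ≤ ab p r 0 s := ab_nonneg
  rcases Nat.eq_zero_or_pos s with h0 | h0
  · subst h0
    have h6 : ab p r 0 0 ^ 2 ≤ 1 := by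
      have h7 : ab p r 0 0 ≤ 1 := PT_le_one
      nlinarith
    have h8 := H₁ m hm
    have h9 : 0 ≤ 2 / c ^ 2 * m * ab p₀ r 0 m ^ 2 := by positivity
    calc ab p r 0 0 ^ 2 ≤ 1 := h6
      _ ≤ 2 / c ^ 2 * m * ab p₀ r 0 m ^ 2 + C₁ * m * ab p₀ r 0 m ^ 2 := by linarith
      _ = _ := by push_cast; ring
  · have hsp : (1 : ℝ) ≤ s := by exact_mod_cast h0
    have h2 := H p₀ le_rfl s m h0 hs
    have h3 : (c * Real.sqrt ((s : ℝ) / m) * ab p₀ r 0 s) ^ 2 ≤ ab p₀ r 0 m ^ 2 := by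
      have : 0 ≤ ab p₀ r 0 s := ab_nonneg
      gcongr
    have h5 : (c * Real.sqrt ((s : ℝ) / m) * ab p₀ r 0 s) ^ 2 =
        c ^ 2 * (s / m) * ab p₀ r 0 s ^ 2 := by
      rw [mul_pow, mul_pow, Real.sq_sqrt (by positivity)]
    rw [h5] at h3
    have h6 : ab p r 0 s ^ 2 ≤ ab p₀ r 0 s ^ 2 := by gcongr
    have h7 : ab p₀ r 0 s ^ 2 ≤ 1 / c ^ 2 * (m / s) * ab p₀ r 0 m ^ 2 := by
      calc ab p₀ r 0 s ^ 2 = 1 / c ^ 2 * (m / s) * (c ^ 2 * (s / m) * ab p₀ r 0 s ^ 2) := by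
            field_simp
        _ ≤ _ := by gcongr
    have h8 : (m : ℝ) / s ≤ 2 * (m / (s + 1)) := by
      rw [← mul_div_assoc, div_le_div_iff₀ (by positivity) (by positivity)]
      nlinarith
    have h9 : 0 ≤ C₁ * (m / (s + 1)) * ab p₀ r 0 m ^ 2 := by positivity
    calc ab p r 0 s ^ 2 ≤ 1 / c ^ 2 * (m / s) * ab p₀ r 0 m ^ 2 := h6.trans h7
      _ ≤ 1 / c ^ 2 * (2 * (m / (s + 1))) * ab p₀ r 0 m ^ 2 := by gcongr
      _ ≤ 1 / c ^ 2 * (2 * (m / (s + 1))) * ab p₀ r 0 m ^ 2 +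
          C₁ * (m / (s + 1)) * ab p₀ r 0 m ^ 2 := by linarith
      _ = _ := by ring

theorem bx_mono {n m : ℕ} (h : n ≤ m) : bx n ⊆ bx m := by
  intro v hv
  rw [mem_bx] at hv ⊢
  omega

/-- Near points. -/
theorem near_sum {p₀ : I} {r : Bool} (h : BXP p₀ r) : ∃ C > (0 : ℝ), ∀ p : I, p ≤ p₀ →
    ∀ m : ℕ, 1 ≤ m → ∑ v ∈ bx (4 * m), PT p r (C0 v) ≤ C * (m : ℝ) ^ 2 * ab p₀ r 0 m ^ 2 := by
  classical
  obtain ⟨C₀, hC₀, hreg⟩ := arm_reg h
  obtain ⟨C₁, hC₁, hlow⟩ := arm_low h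
  obtain ⟨C, hC⟩ : ∃ C, C = C₀ + C₁ := ⟨_, rfl⟩
  have hCp : 0 < C := by rw [hC]; positivity
  refine ⟨132 * C, by positivity, fun p hp m hm => ?_⟩
  have hmp : (1 : ℝ) ≤ m := by exact_mod_cast hm
  set π := ab p₀ r 0 m with hπ
  have hπ0 : 0 ≤ π := ab_nonneg
  have h1 : ∀ v ∈ bx (4 * m), PT p r (C0 v) ≤ 4 * C * m * π ^ 2 * (1 / ((nrm v : ℝ) + 1)) := by
    intro v hv
    rw [mem_bx] at hv
    set n := nrm v with hn
    set s := min ((n - 1) / 2) m with hs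
    have h2 : PT p r (C0 v) ≤ C * (m / (s + 1)) * π ^ 2 := by
      rcases Nat.eq_zero_or_pos n with h0 | h0
      · have hs0 : s = 0 := by rw [hs, h0]; simp
        rw [hs0]
        have h3 := hlow m hm
        have h4 : PT p r (C0 v) ≤ 1 := PT_le_one
        have h5 : 0 ≤ C₀ * m * π ^ 2 := by positivity
        rw [hC]
        push_cast
        rw [zero_add, div_one]
        nlinarith
      · refine (two_arms p r (by omega)).trans ((hreg p hp m s hm (min_le_right _ _)).trans ?_)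
        gcongr
        linarith
    have h3 : n + 1 ≤ 4 * (s + 1) := by omega
    have h4 : (n : ℝ) + 1 ≤ 4 * ((s : ℝ) + 1) := by exact_mod_cast h3
    have h5 : (m : ℝ) / (s + 1) ≤ 4 * m * (1 / ((n : ℝ) + 1)) := by
      rw [mul_one_div, div_le_div_iff₀ (by positivity) (by positivity)]
      nlinarith
    calc PT p r (C0 v) ≤ C * (m / (s + 1)) * π ^ 2 := h2
      _ ≤ C * (4 * m * (1 / ((n : ℝ) + 1))) * π ^ 2 := by gcongr
      _ = _ := by ring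
  refine (Finset.sum_le_sum h1).trans ?_
  rw [← Finset.mul_sum]
  have h6 := sum_box (4 * m)
  push_cast at h6
  have h7 : 8 * (4 * (m : ℝ)) + 1 ≤ 33 * m := by linarith
  calc 4 * C * m * π ^ 2 * ∑ v ∈ bx (4 * m), 1 / ((nrm v : ℝ) + 1)
      ≤ 4 * C * m * π ^ 2 * (33 * m) := by
        gcongr
        exact h6.trans h7
    _ = 132 * C * m ^ 2 * π ^ 2 := by ring

/-- **Upper bound for the sum of the two-point function.** -/
theorem sum_upper {p₀ : I} {r : Bool} (h : BXP p₀ r) : ∃ C > (0 : ℝ), ∀ p : I, p ≤ p₀ →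
    ∀ m : ℕ, 1 ≤ m → qc (σ p) (!r) m ≤ 1 / 242 → ∀ F : Finset (ℤ × ℤ),
      ∑ v ∈ F, PT p r (C0 v) ≤ C * (m : ℝ) ^ 2 * ab p₀ r 0 m ^ 2 := by
  classical
  obtain ⟨C, hC, hnear⟩ := near_sum h
  obtain ⟨C₁, hC₁, hreg⟩ := arm_reg h
  refine ⟨C + 200 * C₁, by positivity, fun p hp m hm hq F => ?_⟩
  have hmp : (1 : ℝ) ≤ m := by exact_mod_cast hm
  set π := ab p₀ r 0 m with hπ
  have hπ0 : 0 ≤ π := ab_nonneg
  have hP0 : ∀ v, 0 ≤ PT p r (C0 v) := fun v => PT_nonneg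
  have ha : ab p r 0 (m - 1) ^ 2 ≤ C₁ * π ^ 2 := by
    have h1 := hreg p hp m (m - 1) hm (Nat.sub_le _ _)
    have h2 : (((m - 1 : ℕ) : ℝ) + 1) = m := by
      have : m - 1 + 1 = m := by omega
      exact_mod_cast this
    rw [h2, div_self (by positivity), mul_one] at h1
    exact h1
  -- all boxes
  have hall : ∀ K : ℕ, ∑ v ∈ bx (4 * (2 ^ K * m)), PT p r (C0 v) ≤
      (C + 100 * C₁ * (2 - 2 * (1 / 2) ^ K)) * m ^ 2 * π ^ 2 := by
    intro K
    induction K with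
    | zero =>
      simp only [pow_zero, one_mul]
      refine (hnear p hp m hm).trans (le_of_eq ?_)
      ring
    | succ K ih =>
      have hn1 : 1 ≤ 2 ^ K * m := Nat.one_le_iff_ne_zero.2 (by positivity)
      have hsub : bx (4 * (2 ^ K * m)) ⊆ bx (4 * (2 ^ (K + 1) * m)) := by
        apply bx_mono
        rw [pow_succ]
        nlinarith
      rw [← Finset.sum_sdiff hsub]
      have hit := qc_iter hm hq K
      have h1 : ∀ v ∈ bx (4 * (2 ^ (K + 1) * m)) \ bx (4 * (2 ^ K * m)),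
          PT p r (C0 v) ≤ (C₁ * π ^ 2) * (4 * (1 / 121 * (1 / 2) ^ (2 ^ K))) := by
        intro v hv
        rw [Finset.mem_sdiff, mem_bx, mem_bx] at hv
        have h2 := far_le p r (m := m) (n := 2 ^ K * m) hm
          (Nat.le_mul_of_pos_left _ (by positivity)) (v := v) (by omega)
        refine h2.trans ?_
        have h3 : 0 ≤ qc (σ p) (!r) (2 ^ K * m) := PT_nonneg
        gcongr
      have h2 : ∑ v ∈ bx (4 * (2 ^ (K + 1) * m)) \ bx (4 * (2 ^ K * m)), PT p r (C0 v) ≤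
          (100 * C₁ * (1 / 2) ^ K) * m ^ 2 * π ^ 2 := by
        refine (Finset.sum_le_card_nsmul _ _ _ h1).trans ?_
        rw [nsmul_eq_mul]
        have h3 : ((bx (4 * (2 ^ (K + 1) * m)) \ bx (4 * (2 ^ K * m))).card : ℝ) ≤
            289 * 4 ^ K * m ^ 2 := by
          refine (Nat.cast_le.2 (Finset.card_le_card Finset.sdiff_subset)).trans ?_
          rw [card_bx]
          push_cast
          have h5 : (1 : ℝ) ≤ 2 ^ K * m := by
            have : (1 : ℝ) ≤ 2 ^ K := one_le_pow₀ (by norm_num)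
            nlinarith
          have h9 : (4 : ℝ) ^ K = ((2 : ℝ) ^ K) ^ 2 := by
            rw [← pow_mul, mul_comm, pow_mul]
            norm_num
          calc ((2 : ℝ) * (4 * ((2 : ℝ) ^ (K + 1) * (m : ℝ))) + 1) ^ 2
              ≤ (17 * ((2 : ℝ) ^ K * (m : ℝ))) ^ 2 := by
                gcongr
                rw [pow_succ]
                linarith
            _ = 289 * 4 ^ K * (m : ℝ) ^ 2 := by
                rw [h9]
                ring
        have h6 := pow_dbl K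
        calc ((bx (4 * (2 ^ (K + 1) * m)) \ bx (4 * (2 ^ K * m))).card : ℝ) *
              ((C₁ * π ^ 2) * (4 * (1 / 121 * (1 / 2) ^ (2 ^ K))))
            ≤ (289 * 4 ^ K * m ^ 2) * ((C₁ * π ^ 2) * (4 * (1 / 121 * (1 / 2) ^ (2 ^ K)))) := by
              gcongr
          _ = 289 * 4 / 121 * (4 ^ K * (1 / 2) ^ (2 ^ K)) * C₁ * m ^ 2 * π ^ 2 := by ring
          _ ≤ 289 * 4 / 121 * (4 * (1 / 2) ^ K) * C₁ * m ^ 2 * π ^ 2 := by gcongr
          _ = (289 * 16 / 121) * C₁ * (1 / 2) ^ K * m ^ 2 * π ^ 2 := by ring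
          _ ≤ 100 * C₁ * (1 / 2) ^ K * m ^ 2 * π ^ 2 := by
              gcongr
              norm_num
      calc _ ≤ (100 * C₁ * (1 / 2) ^ K) * m ^ 2 * π ^ 2 +
            (C + 100 * C₁ * (2 - 2 * (1 / 2) ^ K)) * m ^ 2 * π ^ 2 := add_le_add h2 ih
        _ = _ := by rw [pow_succ]; ring
  obtain ⟨K, hK⟩ : ∃ K : ℕ, F ⊆ bx (4 * (2 ^ K * m)) := by
    refine ⟨F.sup nrm, fun v hv => ?_⟩
    rw [mem_bx]
    have h1 : nrm v ≤ F.sup nrm := Finset.le_sup hv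
    have h2 : F.sup nrm < 2 ^ (F.sup nrm) := Nat.lt_pow_self (by norm_num)
    have h3 : 2 ^ (F.sup nrm) ≤ 2 ^ (F.sup nrm) * m := Nat.le_mul_of_pos_right _ hm
    omega
  calc ∑ v ∈ F, PT p r (C0 v) ≤ ∑ v ∈ bx (4 * (2 ^ K * m)), PT p r (C0 v) :=
        Finset.sum_le_sum_of_subset_of_nonneg hK fun v _ _ => hP0 v
    _ ≤ (C + 100 * C₁ * (2 - 2 * (1 / 2) ^ K)) * m ^ 2 * π ^ 2 := hall K
    _ ≤ (C + 200 * C₁) * m ^ 2 * π ^ 2 := by
        have h5 : (0 : ℝ) ≤ (1 / 2) ^ K := by positivity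
        have h6 : 100 * C₁ * (2 - 2 * (1 / 2) ^ K) ≤ 200 * C₁ := by
          nlinarith [mul_nonneg hC₁.le h5]
        have h7 : (0 : ℝ) ≤ m ^ 2 * π ^ 2 := by positivity
        nlinarith [mul_nonneg (sub_nonneg.2 h6) h7]

end Pool.Agent.H13.SK
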