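import Pool.Agent.H13.SK.Good

/-!
# Upper bound for the mean cluster size of site percolation at a scale where the other colour is
good
-/

set_option autoImplicit false

open MeasureTheory ProbabilityTheory unitInterval

namespace Pool.Agent.H13.SK

open Pool.Agent.H89.Perc Pool.Agent.H83.Site

/-- The site with coordinates `v`. -/
def sit0 (v : ℤ × ℤ) : TV := (v.1, v.2, false)

/-- The origin is joined to `v`. -/
def C0 (v : ℤ × ℤ) : Set Config := {η | TConn η Set.univ (0, 0, false) (sit0 v)}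

/-- Supremum norm. -/
def nrm (v : ℤ × ℤ) : ℕ := max v.1.natAbs v.2.natAbs

/-- Box of half side `n`. -/
noncomputable def bx (n : ℕ) : Finset (ℤ × ℤ) :=
  Finset.Icc (-(n : ℤ)) n ×ˢ Finset.Icc (-(n : ℤ)) n

theorem mem_bx {n : ℕ} {v : ℤ × ℤ} : v ∈ bx n ↔ nrm v ≤ n := by
  obtain ⟨x, y⟩ := v
  simp only [bx, Finset.mem_product, Finset.mem_Icc, nrm]
  omega

theorem card_bx (n : ℕ) : (bx n).card = (2 * n + 1) ^ 2 := by
  rw [bx, Finset.card_product, Int.card_Icc, sq]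
  have : ((n : ℤ) + 1 - -(n : ℤ)).toNat = 2 * n + 1 := by omega
  rw [this]

/-- Crossing of one of the four rectangles which form the annulus between half sides `n` and
`2 n`. -/
def F4 (n : ℕ) : Set Config :=
  (({η | VC η (-(2 * n)) (2 * n) (n + 1) (2 * n)} ∪
    {η | VC η (-(2 * n)) (2 * n) (-(2 * n)) (-n - 1)}) ∪
    {η | HC η (n + 1) (2 * n) (-(2 * n)) (2 * n)}) ∪
    {η | HC η (-(2 * n)) (-n - 1) (-(2 * n)) (2 * n)}

theorem F4_of_conn {η : Config} {n : ℕ} (hn : 1 ≤ n) {v : ℤ × ℤ} (hv : 2 * n < nrm v)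
    (h : η ∈ C0 v) : η ∈ F4 n := by
  have hc : TConn η Set.univ (0, 0, false) (sit0 v) := h
  have hu : ((0, 0, false) : TV) ∈ TR (-(2 * n)) (2 * n) (-(2 * n)) (2 * n) := by
    rw [mem_TR_site]; omega
  have hv' : sit0 v ∉ TR (-(2 * n)) (2 * n) (-(2 * n)) (2 * n) := by
    unfold sit0
    rw [mem_TR_site]
    unfold nrm at hv
    omega
  obtain ⟨w, w', h1, h2, h3, -⟩ := hc.exists_exit hu hv'
  rw [Set.univ_inter] at h1
  have hw := h1.mem_right
  rw [mem_TR] at hw h3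
  have hn' : (1 : ℤ) ≤ n := by exact_mod_cast hn
  have hw' : fx w = 2 * (2 * n) ∨ fx w = 2 * (-(2 * n)) ∨ fy w = 2 * (2 * n) ∨
      fy w = 2 * (-(2 * n)) := by
    by_contra hcon
    push Not at hcon
    obtain ⟨a1, a2, a3, a4⟩ := hcon
    have b1 := h2.2.2.1.fx_le (a := 2 * n) (by omega)
    have b2 := h2.2.2.1.le_fx (a := -(2 * n)) (by omega)
    have b3 := h2.2.2.1.fy_le (a := 2 * n) (by omega)
    have b4 := h2.2.2.1.le_fy (a := -(2 * n)) (by omega)
    exact h3 ⟨b2, b1, b4, b3⟩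
  rcases hw' with h4 | h4 | h4 | h4
  · left; right
    obtain ⟨y, y', h5, -, -⟩ := h1.cross_x (a := n + 1) (b := 2 * n)
      (by rw [fx_site]; omega) (by omega) (by omega)
    rw [TR_inter_x (by omega) (by omega)] at h5
    exact ⟨y, y', h5⟩
  · right
    obtain ⟨y, y', h5, -, -⟩ := h1.symm.cross_x (a := -(2 * n)) (b := -n - 1)
      (by omega) (by rw [fx_site]; omega) (by omega)
    rw [TR_inter_x (by omega) (by omega)] at h5
    exact ⟨y, y', h5⟩
  · left; left; left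
    obtain ⟨y, y', h5, -, -⟩ := h1.cross_y (c := n + 1) (d := 2 * n)
      (by rw [fy_site]; omega) (by omega) (by omega)
    rw [TR_inter_y (by omega) (by omega)] at h5
    exact ⟨y, y', h5⟩
  · left; left; right
    obtain ⟨y, y', h5, -, -⟩ := h1.symm.cross_y (c := -(2 * n)) (d := -n - 1)
      (by omega) (by rw [fy_site]; omega) (by omega)
    rw [TR_inter_y (by omega) (by omega)] at h5
    exact ⟨y, y', h5⟩

/-- The coordinates of the annulus. -/
noncomputable def rg (n : ℕ) : Finset Edge :=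
  (eRect (-(2 * n)) (2 * n) (-(2 * n)) (2 * n)) \ eRect (-n) n (-n) n

theorem localOn_F4 (n : ℕ) : LocalOn (rg n) (F4 n) := by
  classical
  have key : ∀ (a b c d : ℤ), -(2 * (n : ℤ)) ≤ a → b ≤ 2 * n → -(2 * (n : ℤ)) ≤ c → d ≤ 2 * n →
      (b < -n ∨ (n : ℤ) < a ∨ d < -n ∨ (n : ℤ) < c) → eRect a b c d ⊆ rg n := by
    intro a b c d h1 h2 h3 h4 h5 e he
    rw [rg, Finset.mem_sdiff, mem_eRect, mem_eRect]
    rw [mem_eRect] at he
    simp only [rect, Set.mem_ofPred_eq, src] at he ⊢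
    omega
  intro η η' h hη
  rcases hη with ((hη | hη) | hη) | hη
  · exact Or.inl (Or.inl (Or.inl ((localOn_VC _ _ _ _).mono
      (key _ _ _ _ le_rfl le_rfl (by omega) le_rfl (by omega)) η η' h hη)))
  · exact Or.inl (Or.inl (Or.inr ((localOn_VC _ _ _ _).mono
      (key _ _ _ _ le_rfl le_rfl le_rfl (by omega) (by omega)) η η' h hη)))
  · exact Or.inl (Or.inr ((localOn_HC _ _ _ _).mono
      (key _ _ _ _ (by omega) le_rfl le_rfl le_rfl (by omega)) η η' h hη))
  · exact Or.inr ((localOn_HC _ _ _ _).mono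
      (key _ _ _ _ le_rfl (by omega) le_rfl le_rfl (by omega)) η η' h hη)

theorem PT_F4 {p : I} {r : Bool} {n : ℕ} (hn : 1 ≤ n) : PT p r (F4 n) ≤ 4 * qc (σ p) (!r) n := by
  have hq : qc (σ p) (!r) n = PT p r {η | VC η 0 (4 * n) 1 n} := by
    unfold qc
    have := PT_neg (p := σ p) (r := !r) (localOn_VC 0 (4 * (n : ℤ)) 1 n)
    rw [σσ, Bool.not_not] at this
    exact this
  have h1 : PT p r {η | VC η (-(2 * n)) (2 * n) (n + 1) (2 * n)} =
      PT p r {η | VC η 0 (4 * n) 1 n} := by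
    rw [← PT_VC_shf p r 0 (4 * n) 1 n (-(2 * n)) n]
    congr 1
    ext η
    simp only [Set.mem_ofPred_eq]
    rw [show 0 + -(2 * (n : ℤ)) = -(2 * n) by ring, show 4 * (n : ℤ) + -(2 * n) = 2 * n by ring,
      show 1 + (n : ℤ) = n + 1 by ring, show (n : ℤ) + n = 2 * n by ring]
  have h2 : PT p r {η | VC η (-(2 * n)) (2 * n) (-(2 * n)) (-n - 1)} =
      PT p r {η | VC η 0 (4 * n) 1 n} := by
    rw [← PT_VC_shf p r 0 (4 * n) 1 n (-(2 * n)) (-(2 * n) - 1)]
    congr 1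
    ext η
    simp only [Set.mem_ofPred_eq]
    rw [show 0 + -(2 * (n : ℤ)) = -(2 * n) by ring, show 4 * (n : ℤ) + -(2 * n) = 2 * n by ring,
      show 1 + (-(2 * (n : ℤ)) - 1) = -(2 * n) by ring,
      show (n : ℤ) + (-(2 * n) - 1) = -n - 1 by ring]
  have h3 : PT p r {η | HC η (n + 1) (2 * n) (-(2 * n)) (2 * n)} =
      PT p r {η | VC η 0 (4 * n) 1 n} := by
    rw [← PT_VC_eq_HC]; exact h1
  have h4 : PT p r {η | HC η (-(2 * n)) (-n - 1) (-(2 * n)) (2 * n)} =
      PT p r {η | VC η 0 (4 * n) 1 n} := by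
    rw [← PT_VC_eq_HC]; exact h2
  have e1 := PT_union_le (p := p) (r := r)
    (E := ({η | VC η (-(2 * n)) (2 * n) (n + 1) (2 * n)} ∪
      {η | VC η (-(2 * n)) (2 * n) (-(2 * n)) (-n - 1)}) ∪
      {η : Config | HC η (n + 1) (2 * n) (-(2 * n)) (2 * n)})
    (F := {η | HC η (-(2 * n)) (-n - 1) (-(2 * n)) (2 * n)})
  have e2 := PT_union_le (p := p) (r := r)
    (E := ({η : Config | VC η (-(2 * n)) (2 * n) (n + 1) (2 * n)} ∪
      {η | VC η (-(2 * n)) (2 * n) (-(2 * n)) (-n - 1)}))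
    (F := {η : Config | HC η (n + 1) (2 * n) (-(2 * n)) (2 * n)})
  have e3 := PT_union_le (p := p) (r := r)
    (E := {η : Config | VC η (-(2 * n)) (2 * n) (n + 1) (2 * n)})
    (F := {η : Config | VC η (-(2 * n)) (2 * n) (-(2 * n)) (-n - 1)})
  unfold F4
  rw [hq]
  linarith

/-- A path from the origin to a far point has an arm. -/
theorem arm_of_conn {η : Config} {x y : ℤ} {s : ℕ} {u v : TV} (hu : u = (x, y, false))
    (hv : v ∉ TR (x - s) (x + s) (y - s) (y + s))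
    (h : TConn η Set.univ u v) : η ∈ AB x y 0 s := by
  subst hu
  have hu : ((x, y, false) : TV) ∈ TR (x - s) (x + s) (y - s) (y + s) := by
    rw [mem_TR_site]; omega
  obtain ⟨w, w', h1, h2, h3, -⟩ := h.exists_exit hu hv
  rw [Set.univ_inter] at h1
  have hw := h1.mem_right
  have hw0 := hw
  rw [mem_TR] at hw h3
  have hw' : fx w = 2 * (x + s) ∨ fx w = 2 * (x - s) ∨ fy w = 2 * (y + s) ∨
      fy w = 2 * (y - s) := by
    by_contra hcon
    push Not at hcon
    obtain ⟨a1, a2, a3, a4⟩ := hcon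
    have b1 := h2.2.2.1.fx_le (a := x + s) (by omega)
    have b2 := h2.2.2.1.le_fx (a := x - s) (by omega)
    have b3 := h2.2.2.1.fy_le (a := y + s) (by omega)
    have b4 := h2.2.2.1.le_fy (a := y - s) (by omega)
    exact h3 ⟨b2, b1, b4, b3⟩
  refine ⟨(x, y, false), by rw [mem_TR_site]; simp, w, ⟨hw0, ?_, ?_⟩, h1⟩
  · rcases hw' with h4 | h4 | h4 | h4
    · exact (site_of_fx h4).1
    · exact (site_of_fx h4).1
    · exact (site_of_fy h4).1
    · exact (site_of_fy h4).1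
  · rcases hw' with h4 | h4 | h4 | h4
    · exact Or.inr (Or.inl (site_of_fx h4).2)
    · exact Or.inl (site_of_fx h4).2
    · exact Or.inr (Or.inr (Or.inr (site_of_fy h4).2))
    · exact Or.inr (Or.inr (Or.inl (site_of_fy h4).2))

theorem two_arms (p : I) (r : Bool) {v : ℤ × ℤ} {s : ℕ} (hs : 2 * s < nrm v) :
    PT p r (C0 v) ≤ ab p r 0 s ^ 2 := by
  have hsub : C0 v ⊆ AB 0 0 0 s ∩ AB v.1 v.2 0 s := by
    intro η hη
    have hc : TConn η Set.univ (0, 0, false) (sit0 v) := hη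
    refine ⟨arm_of_conn rfl ?_ hc, arm_of_conn rfl ?_ hc.symm⟩
    · unfold sit0
      rw [mem_TR_site]
      unfold nrm at hs
      omega
    · rw [mem_TR_site]
      unfold nrm at hs
      omega
  have hd : Disjoint (eRect (0 - s) (0 + s) (0 - s) (0 + s))
      (eRect (v.1 - s) (v.1 + s) (v.2 - s) (v.2 + s)) := by
    apply eRect_disjoint_x
    unfold nrm at hs
    omega
  calc PT p r (C0 v) ≤ PT p r (AB 0 0 0 s ∩ AB v.1 v.2 0 s) := PT_mono hsub
    _ = PT p r (AB 0 0 0 s) * PT p r (AB v.1 v.2 0 s) :=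
        PT_indep (localOn_AB _ _ _ _) (localOn_AB _ _ _ _) hd
    _ = ab p r 0 s ^ 2 := by rw [PT_AB, PT_AB, sq]

/-- Far points: three events on disjoint sets of sites. -/
theorem far_le (p : I) (r : Bool) {m n : ℕ} (hm : 1 ≤ m) (hmn : m ≤ n) {v : ℤ × ℤ}
    (hv : 4 * n < nrm v) : PT p r (C0 v) ≤ ab p r 0 (m - 1) ^ 2 * (4 * qc (σ p) (!r) n) := by
  classical
  set s := m - 1 with hs
  have hsub : C0 v ⊆ (AB 0 0 0 s ∩ F4 n) ∩ AB v.1 v.2 0 s := by
    intro η hη
    have hc : TConn η Set.univ (0, 0, false) (sit0 v) := hη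
    refine ⟨⟨arm_of_conn rfl ?_ hc, F4_of_conn (by omega) (by omega) hη⟩,
      arm_of_conn rfl ?_ hc.symm⟩
    · unfold sit0
      rw [mem_TR_site]
      unfold nrm at hv
      omega
    · rw [mem_TR_site]
      unfold nrm at hv
      omega
  have hl1 : LocalOn (eRect (-(n : ℤ)) n (-(n : ℤ)) n) (AB 0 0 0 s) := by
    refine (localOn_AB 0 0 0 s).mono ?_
    intro e he
    rw [mem_eRect] at he ⊢
    simp only [rect, Set.mem_ofPred_eq, src] at he ⊢
    omega
  have hl2 := localOn_F4 n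
  have hl12 : LocalOn (eRect (-(2 * n : ℤ)) (2 * n) (-(2 * n)) (2 * n)) (AB 0 0 0 s ∩ F4 n) := by
    refine (hl1.mono ?_).inter (hl2.mono Finset.sdiff_subset)
    intro e he
    rw [mem_eRect] at he ⊢
    simp only [rect, Set.mem_ofPred_eq, src] at he ⊢
    omega
  have hd1 : Disjoint (eRect (-(n : ℤ)) n (-(n : ℤ)) n) (rg n) := Finset.disjoint_sdiff
  have hd2 : Disjoint (eRect (-(2 * n : ℤ)) (2 * n) (-(2 * n)) (2 * n))
      (eRect (v.1 - s) (v.1 + s) (v.2 - s) (v.2 + s)) := by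
    apply eRect_disjoint_x
    unfold nrm at hv
    omega
  have h3 := PT_F4 (p := p) (r := r) (n := n) (by omega)
  have h4 : 0 ≤ ab p r 0 s := ab_nonneg
  calc PT p r (C0 v) ≤ PT p r ((AB 0 0 0 s ∩ F4 n) ∩ AB v.1 v.2 0 s) := PT_mono hsub
    _ = PT p r (AB 0 0 0 s) * PT p r (F4 n) * PT p r (AB v.1 v.2 0 s) := by
        rw [PT_indep hl12 (localOn_AB _ _ _ _) hd2, PT_indep hl1 hl2 hd1]
    _ = ab p r 0 s ^ 2 * PT p r (F4 n) := by rw [PT_AB, PT_AB]; ring
    _ ≤ _ := by gcongr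

/-- Sum of `1 / (|v| + 1)` over a box. -/
theorem sum_box (N : ℕ) : ∑ v ∈ bx N, 1 / ((nrm v : ℝ) + 1) ≤ 8 * N + 1 := by
  classical
  induction N with
  | zero =>
    have h : bx 0 = {(0, 0)} := by
      ext v
      rw [mem_bx, Finset.mem_singleton]
      obtain ⟨x, y⟩ := v
      simp only [nrm, Prod.mk.injEq]
      omega
    rw [h, Finset.sum_singleton]
    simp [nrm]
  | succ N ih =>
    have hsub : bx N ⊆ bx (N + 1) := by
      intro v hv
      rw [mem_bx] at hv ⊢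
      omega
    rw [← Finset.sum_sdiff hsub]
    have h1 : ∑ v ∈ bx (N + 1) \ bx N, 1 / ((nrm v : ℝ) + 1) ≤ 8 := by
      have h2 : ∀ v ∈ bx (N + 1) \ bx N, 1 / ((nrm v : ℝ) + 1) ≤ 1 / ((N : ℝ) + 1) := by
        intro v hv
        rw [Finset.mem_sdiff, mem_bx, mem_bx] at hv
        have : (N : ℝ) ≤ nrm v := by exact_mod_cast (by omega)
        apply one_div_le_one_div_of_le (by positivity)
        linarith
      refine (Finset.sum_le_card_nsmul _ _ _ h2).trans ?_
      rw [nsmul_eq_mul, Finset.cast_card_sdiff hsub, card_bx, card_bx]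
      have : (0 : ℝ) < (N : ℝ) + 1 := by positivity
      rw [mul_one_div, div_le_iff₀ this]
      push_cast
      nlinarith
    push_cast
    linarith

theorem pow_dbl (k : ℕ) : (4 : ℝ) ^ k * (1 / 2) ^ (2 ^ k) ≤ 4 * (1 / 2) ^ k := by
  have h : 3 * k ≤ 2 + 2 ^ k := by
    induction k with
    | zero => norm_num
    | succ k ih =>
      rcases Nat.lt_or_ge k 2 with h | h
      · interval_cases k <;> norm_num
      · have h3 : 3 ≤ 2 ^ k := by
          calc 3 ≤ 2 ^ 2 := by norm_num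
            _ ≤ 2 ^ k := Nat.pow_le_pow_right (by norm_num) h
        rw [pow_succ]
        omega
  have h1 : (8 : ℝ) ^ k ≤ 4 * 2 ^ (2 ^ k) := by
    have h2 : (2 : ℝ) ^ (3 * k) ≤ 2 ^ (2 + 2 ^ k) := pow_le_pow_right₀ (by norm_num) h
    have h3 : (2 : ℝ) ^ (3 * k) = 8 ^ k := by
      rw [pow_mul]; norm_num
    rw [h3, pow_add] at h2
    linarith
  have h4 : (8 : ℝ) ^ k = 4 ^ k * 2 ^ k := by rw [← mul_pow]; norm_num
  rw [one_div, inv_pow, inv_pow]
  rw [← div_eq_mul_inv, ← div_eq_mul_inv, div_le_div_iff₀ (by positivity) (by positivity)]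
  rw [h4] at h1
  linarith

end Pool.Agent.H13.SK
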