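import Pool.Agent.H13.SK.BlockEv
import Pool.Agent.H38.SK.WindP
import Pool.Agent.H89.Perc.TorusSym

/-!
# Exploration of the clusters of the cutting lines of the torus, block by block (sites)
-/

open MeasureTheory ProbabilityTheory unitInterval

namespace Pool.Agent.H13.SK

open Pool.Agent.H89.Perc Pool.Agent.H85.Kes
open Pool.Agent.H83.SK (sit sv sit_true)
open Pool.Agent.H92.SN (tSites WindS)
open Pool.Agent.H83.SK.WG (mem_tSites localOn_windS incr_windS)

section state

variable {κ : Type*} [DecidableEq κ]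

/-- State of a block exploration. -/
def bState (s : Finset Edge) (β : Edge → κ) (R : BRule κ) (ω : Config) (n : ℕ) :
    Finset κ × Finset Edge := (bStep s β R ω)^[n] (∅, ∅)

variable {s : Finset Edge} {β : Edge → κ} {R : BRule κ}

theorem bState_succ (ω : Config) (n : ℕ) :
    bState s β R ω (n + 1) = bStep s β R ω (bState s β R ω n) := by
  simp only [bState, Function.iterate_succ_apply']

theorem revealed_eq (ω : Config) (n : ℕ) : revealed s β R ω n = (bState s β R ω n).1 := rfl

theorem mem_bState (ω : Config) (n : ℕ) (e : Edge) :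
    e ∈ (bState s β R ω n).2 ↔ e ∈ s ∧ β e ∈ (bState s β R ω n).1 ∧ ω e = true := by
  induction n with
  | zero => simp [bState]
  | succ n ih =>
    rw [bState_succ]
    rcases h : R (bState s β R ω n).1 (bState s β R ω n).2 with _ | b
    · rw [bStep_none h]; exact ih
    · rw [bStep_some h]
      simp only [Finset.mem_union, Finset.mem_filter, mem_blk, Finset.mem_insert, ih]
      tauto

theorem bState_stop {K : Finset κ} (hR : ∀ D O b, R D O = some b → b ∈ K ∧ b ∉ D) (ω : Config)
    (n : ℕ) : (bState s β R ω n).1 ⊆ K ∧ (R (bState s β R ω n).1 (bState s β R ω n).2 = none ∨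
      n ≤ (bState s β R ω n).1.card) := by
  induction n with
  | zero => simp [bState]
  | succ n ih =>
    obtain ⟨h1, h2⟩ := ih
    rcases h : R (bState s β R ω n).1 (bState s β R ω n).2 with _ | b
    · rw [bState_succ, bStep_none h]
      exact ⟨h1, Or.inl h⟩
    · have hb := hR _ _ _ h
      rw [bState_succ, bStep_some h]
      refine ⟨Finset.insert_subset hb.1 h1, Or.inr ?_⟩
      rw [Finset.card_insert_of_notMem hb.2]
      rcases h2 with h2 | h2
      · rw [h] at h2
        exact absurd h2 (by simp)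
      · omega

theorem bState_final {K : Finset κ} (hR : ∀ D O b, R D O = some b → b ∈ K ∧ b ∉ D)
    (ω : Config) :
    R (bState s β R ω K.card).1 (bState s β R ω K.card).2 = none := by
  obtain ⟨h1, h2⟩ := bState_stop hR ω K.card
  rcases h2 with h2 | h2
  · exact h2
  · have h3 : (bState s β R ω K.card).1 = K := Finset.eq_of_subset_of_card_le h1 h2
    rcases h : R (bState s β R ω K.card).1 (bState s β R ω K.card).2 with _ | b
    · rfl
    · have hb := hR _ _ _ h
      rw [h3] at hb
      exact absurd hb.1 hb.2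

theorem exists_step_of_revealed (ω : Config) (n : ℕ) {b : κ} (hb : b ∈ revealed s β R ω n) :
    ∃ m, R (bState s β R ω m).1 (bState s β R ω m).2 = some b := by
  induction n with
  | zero => simp [revealed, bFrom] at hb
  | succ n ih =>
    rw [revealed_eq, bState_succ] at hb
    rcases h : R (bState s β R ω n).1 (bState s β R ω n).2 with _ | b'
    · rw [bStep_none h] at hb
      exact ih hb
    · rw [bStep_some h] at hb
      rcases Finset.mem_insert.1 hb with rfl | hb
      · exact ⟨n, h⟩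
      · exact ih hb

end state

/-! ### The clusters of the cutting lines -/

/-- The vertex lies on a cutting line. -/
def OnL (N : ℕ) (u : Vert) : Prop := (N : ℤ) ∣ u.1 ∨ (N : ℤ) ∣ u.2

/-- The vertices joined to the cutting lines. -/
def Rch (N : ℕ) (ω : Config) : Set Vert :=
  {v | ∃ u, OnL N u ∧ Conn (sit (per N ω)) Set.univ u v}

/-- The site is in a cluster of the cutting lines or next to one. -/
def Want (N : ℕ) (ω : Config) (e : Edge) : Prop :=
  e ∈ tSites N ∧ ∃ a ∈ Rch N ω, a = src e ∨ ∃ f, Joins f a (src e)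

theorem sit_joins {ω : Config} {e : Edge} {u v : Vert} (h : Joins e u v) :
    sit ω e = true ↔ ω (sv u) = true ∧ ω (sv v) = true :=
  Pool.Agent.H83.SK.Dict.sit_joins h

theorem sit_per_conn_shift {N : ℕ} {ω : Config} (a b : ℤ) {u v : Vert}
    (h : Conn (sit (per N ω)) Set.univ u v) :
    Conn (sit (per N ω)) Set.univ (u.1 + a * N, u.2 + b * N) (v.1 + a * N, v.2 + b * N) := by
  refine h.map (fun w => (w.1 + a * N, w.2 + b * N)) (fun _ _ => Set.mem_univ _) ?_
  intro e x y hj ho
  refine ⟨shiftE (a * N, b * N) e, joins_shift (a * N, b * N) hj, ?_⟩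
  rw [sit_joins hj] at ho
  rw [sit_joins (joins_shift (a * N, b * N) hj)]
  simp only [per, sv, Int.add_mul_emod_self_right] at ho ⊢
  exact ho

theorem rch_shift {N : ℕ} {ω : Config} (a b : ℤ) {v : Vert} (h : v ∈ Rch N ω) :
    ((v.1 + a * N, v.2 + b * N) : Vert) ∈ Rch N ω := by
  obtain ⟨u, hu, hc⟩ := h
  refine ⟨_, ?_, sit_per_conn_shift a b hc⟩
  rcases hu with hu | hu
  · exact Or.inl (dvd_add hu (Dvd.intro_left a rfl))
  · exact Or.inr (dvd_add hu (Dvd.intro_left b rfl))

theorem rch_mono {N : ℕ} {ω ω' : Config} (h : ∀ e, ω e = true → ω' e = true) :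
    Rch N ω ⊆ Rch N ω' := by
  rintro v ⟨u, hu, hc⟩
  exact ⟨u, hu, hc.mono le_rfl (Pool.Agent.H83.SK.sit_mono fun e he => h _ he)⟩

theorem emod_eq (N : ℕ) (x : ℤ) : x % N = x + -(x / N) * N := by
  have := Int.emod_add_ediv_mul x N
  linarith

/-- A site which is reached, or next to a reached one, is wanted (after translation). -/
theorem want_of_near {N : ℕ} (hN : 1 ≤ N) {ω : Config} {y v : Vert} (hy : y ∈ Rch N ω)
    (h : y = v ∨ ∃ f, Joins f y v) : Want N ω (v.1 % N, v.2 % N, false) := by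
  have hN0 : (0 : ℤ) < N := by exact_mod_cast hN
  refine ⟨?_, (y.1 + -(v.1 / N) * N, y.2 + -(v.2 / N) * N), rch_shift _ _ hy, ?_⟩
  · rw [mem_tSites]
    exact ⟨rfl, Int.emod_nonneg _ hN0.ne', Int.emod_lt_of_pos _ hN0,
      Int.emod_nonneg _ hN0.ne', Int.emod_lt_of_pos _ hN0⟩
  · have hs : src ((v.1 % N, v.2 % N, false) : Edge) =
        ((v.1 + -(v.1 / N) * N, v.2 + -(v.2 / N) * N) : Vert) := by
      simp only [src, emod_eq]
    rw [hs]
    rcases h with h | ⟨f, hf⟩
    · left
      rw [h]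
    · right
      exact ⟨_, joins_shift (-(v.1 / N) * N, -(v.2 / N) * N) hf⟩

/-- A path whose first coordinate increases by the period hits a cutting line. -/
theorem hit_line {N : ℕ} (hN : 1 ≤ N) {η : Config} {u v : Vert} (h : Conn η Set.univ u v)
    (hd : u.1 + N ≤ v.1) :
    ∃ x : Vert, (N : ℤ) ∣ x.1 ∧ Conn η Set.univ u x ∧ Conn η Set.univ x v := by
  have hN0 : (0 : ℤ) < N := by exact_mod_cast hN
  have h1 := Int.emod_add_ediv_mul u.1 N
  have h2 := Int.emod_nonneg u.1 hN0.ne'
  have h3 := Int.emod_lt_of_pos u.1 hN0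
  obtain ⟨w, w', h4, h5, h6, h7⟩ := h.exists_exit (T := {x : Vert | x.1 < (u.1 / N + 1) * N})
    (by simp only [Set.mem_ofPred_eq]; linarith) (by simp only [Set.mem_ofPred_eq]; linarith)
  have h8 := h4.mem_right.2
  simp only [Set.mem_ofPred_eq, not_lt] at h6 h8
  have h9 := h5.fst_le
  refine ⟨w', ?_, (h4.mono_set Set.inter_subset_left).tail h5, h7⟩
  have : w'.1 = (u.1 / N + 1) * N := by omega
  rw [this]
  exact Dvd.intro_left _ rfl

/-- A winding path can be rotated so that it starts on a cutting line. -/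
theorem wind_from_line {N : ℕ} (hN : 1 ≤ N) {ω : Config} (h : ω ∈ WindS N) :
    ∃ (x : Vert) (a b : ℤ), a ≠ 0 ∧ OnL N x ∧
      Conn (sit (per N ω)) Set.univ x (x.1 + a * N, x.2 + b * N) := by
  obtain ⟨u, a, b, ha, hc⟩ := h
  have hN0 : (0 : ℤ) < N := by exact_mod_cast hN
  have key : ∃ x : Vert, (N : ℤ) ∣ x.1 ∧ Conn (sit (per N ω)) Set.univ u x ∧
      Conn (sit (per N ω)) Set.univ x (u.1 + a * N, u.2 + b * N) := by
    rcases lt_or_gt_of_ne ha with h1 | h1
    · obtain ⟨x, h2, h3, h4⟩ := hit_line hN hc.symm (by simp only; nlinarith)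
      exact ⟨x, h2, h4.symm, h3.symm⟩
    · exact hit_line hN hc (by simp only; nlinarith)
  obtain ⟨x, h1, h2, h3⟩ := key
  exact ⟨x, a, b, ha, Or.inl h1, h3.trans (sit_per_conn_shift a b h2)⟩

/-- If `ω₀` knows all open sites of `ω` it wants, then it knows the winding. -/
theorem wind_of_wanted {N : ℕ} (hN : 1 ≤ N) {ω ω₀ : Config}
    (hcl : ∀ e, Want N ω₀ e → ω e = true → ω₀ e = true) (h : ω ∈ WindS N) : ω₀ ∈ WindS N := by
  obtain ⟨x, a, b, ha, hx, hc⟩ := wind_from_line hN h
  refine ⟨x, a, b, ha, ?_⟩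
  refine hc.induction_right (P := fun y => Conn (sit (per N ω₀)) Set.univ x y)
    (Conn.refl (Set.mem_univ _)) ?_
  rintro y y' - ⟨-, -, e, he, ho⟩ ih
  have hy : y ∈ Rch N ω₀ := ⟨x, hx, ih⟩
  rw [sit_joins he] at ho
  refine ih.tail ⟨Set.mem_univ _, Set.mem_univ _, e, he, ?_⟩
  rw [sit_joins he]
  exact ⟨hcl _ (want_of_near hN hy (Or.inl rfl)) ho.1, hcl _ (want_of_near hN hy (Or.inr ⟨e, he⟩)) ho.2⟩

/-! ### The rule -/

section rule

variable {κ : Type*} [DecidableEq κ]

/-- The exploration of the clusters of the cutting lines, block by block. -/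
noncomputable def tRule (N : ℕ) (β : Edge → κ) : BRule κ := fun D O => by
  classical exact if h : ∃ e, Want N (ofS O) e ∧ β e ∉ D then some (β h.choose) else none

variable {N : ℕ} {β : Edge → κ}

theorem tRule_some {D : Finset κ} {O : Finset Edge} {b : κ} (h : tRule N β D O = some b) :
    ∃ e, Want N (ofS O) e ∧ β e = b ∧ b ∉ D := by
  classical
  unfold tRule at h
  split_ifs at h with h'
  have h1 := h'.choose_spec
  have h2 := Option.some.inj h
  exact ⟨h'.choose, h1.1, h2, h2 ▸ h1.2⟩

theorem tRule_none {D : Finset κ} {O : Finset Edge} (h : tRule N β D O = none) {e : Edge}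
    (he : Want N (ofS O) e) : β e ∈ D := by
  classical
  by_contra hc
  unfold tRule at h
  rw [dif_pos ⟨e, he, hc⟩] at h
  exact absurd h (by simp)

theorem tRule_mem {K : Finset κ} (hK : ∀ e ∈ tSites N, β e ∈ K) (D : Finset κ) (O : Finset Edge)
    (b : κ) (h : tRule N β D O = some b) : b ∈ K ∧ b ∉ D := by
  obtain ⟨e, he, h1, h2⟩ := tRule_some h
  exact ⟨h1 ▸ hK e he.1, h2⟩

/-- The revealed blocks determine the winding. -/
theorem tRule_det (hN : 1 ≤ N) {K : Finset κ} (hK : ∀ e ∈ tSites N, β e ∈ K) (ω ω' : Config)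
    (h : ∀ e ∈ tSites N, β e ∈ revealed (tSites N) β (tRule N β) ω K.card → ω e = ω' e)
    (hω : ω ∈ WindS N) : ω' ∈ WindS N := by
  have hfin := bState_final (s := tSites N) (β := β) (tRule_mem hK) ω
  have h1 : ofS (bState (tSites N) β (tRule N β) ω K.card).2 ∈ WindS N := by
    refine wind_of_wanted hN (fun e he ho => ?_) hω
    rw [ofS_apply, decide_eq_true_iff, mem_bState]
    exact ⟨he.1, tRule_none hfin he, ho⟩
  refine incr_windS N _ _ (fun e he => ?_) h1
  rw [ofS_apply, decide_eq_true_iff, mem_bState] at he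
  rw [← h e he.1 he.2.1]
  exact he.2.2

/-- A revealed block has an open arm. -/
theorem tRule_arm {b : κ} {z : Vert} {ρ R : ℕ}
    (hblk : ∀ e ∈ blk (tSites N) β b, src e ∈ ball z ρ) (hρ : ρ + 1 ≤ R)
    (hR1 : (R : ℤ) < z.1 ∧ z.1 + R < N) (hR2 : (R : ℤ) < z.2 ∧ z.2 + R < N) (n : ℕ) :
    {ω | b ∈ revealed (tSites N) β (tRule N β) ω n} ⊆ {ω | sit ω ∈ ArmBox z (ρ + 1) R} := by
  intro ω hω
  obtain ⟨m, hm⟩ := exists_step_of_revealed ω n hω
  obtain ⟨e, ⟨he, a, ha, hae⟩, hb, -⟩ := tRule_some hm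
  have hsrc := hblk e (mem_blk.2 ⟨he, hb⟩)
  have ha' : a ∈ Rch N ω := by
    refine rch_mono (fun f hf => ?_) ha
    rw [ofS_apply, decide_eq_true_iff, mem_bState] at hf
    exact hf.2.2
  obtain ⟨u, hu, hc⟩ := ha'
  have hab : a ∈ ball z (ρ + 1) := by
    rcases hae with h1 | ⟨f, hf⟩
    · rw [h1]
      rw [mem_ball] at hsrc ⊢
      push_cast
      omega
    · have h2 : Step (fun _ => true) Set.univ a (src e) :=
        ⟨Set.mem_univ _, Set.mem_univ _, f, hf, rfl⟩
      have h3 := h2.fst_le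
      have h4 := h2.snd_le
      rw [mem_ball] at hsrc ⊢
      push_cast
      omega
  have haR : a ∈ ball z R := by
    have : ((ρ + 1 : ℕ) : ℤ) ≤ R := by exact_mod_cast hρ
    rw [mem_ball] at hab ⊢
    omega
  have huR : u ∉ ball z R := by
    intro h
    rw [mem_ball] at h
    rcases hu with ⟨k, hk⟩ | ⟨k, hk⟩
    · rcases lt_trichotomy k 0 with h1 | h1 | h1
      · have : (N : ℤ) * k ≤ 0 := by nlinarith
        omega
      · rw [h1, mul_zero] at hk
        omega
      · have : (N : ℤ) ≤ N * k := by nlinarith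
        omega
    · rcases lt_trichotomy k 0 with h1 | h1 | h1
      · have : (N : ℤ) * k ≤ 0 := by nlinarith
        omega
      · rw [h1, mul_zero] at hk
        omega
      · have : (N : ℤ) ≤ N * k := by nlinarith
        omega
  obtain ⟨y, hy, hcy⟩ := hc.symm.to_sphere haR (Or.inl huR)
  refine ⟨a, hab, y, hy, ?_⟩
  refine Conn.mono_set Set.inter_subset_right (Conn.congr (fun f h1 h2 => ?_) hcy)
  have key : ∀ v ∈ ball z R, per N ω (sv v) = ω (sv v) := by
    intro v hv
    rw [mem_ball] at hv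
    simp only [per, sv]
    rw [Int.emod_eq_of_lt (by omega) (by omega), Int.emod_eq_of_lt (by omega) (by omega)]
  simp only [sit]
  rw [key _ h1.2, key _ h2.2]

end rule

end Pool.Agent.H13.SK
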