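import Pool.Agent.H13.SK.TBlock
import Pool.Agent.H61.NC.BlockTwo
import Pool.Agent.H31.EX.BlockLow

/-!
# Pivotal blocks of the torus (sites): translations, two distinct crossing clusters
-/

open MeasureTheory ProbabilityTheory unitInterval

namespace Pool.Agent.H13.SK

open Pool.Agent.H89.Perc Pool.Agent.H85.Kes
open Pool.Agent.H83.SK (sit sv)
open Pool.Agent.H92.SN (tSites WindS blkS BlockPiv)
open Pool.Agent.H83.SK.WG (mem_tSites localOn_windS incr_windS)
open Pool.Agent.H61.NC (Two Ring mid)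

/-! ### Translations -/

theorem sit_shiftE (η : Config) (z : Vert) :
    sit (fun f => η (shiftE z f)) = fun f => sit η (shiftE z f) := by
  funext ⟨x, y, t⟩
  cases t
  · simp only [sit, shiftE, sv, src, tgt]
    simp only [Bool.false_eq_true, if_false]
    rw [add_right_comm]
  · simp only [sit, shiftE, sv, src, tgt]
    simp only [if_true]
    rw [add_right_comm y 1]

theorem windS_tau (N : ℕ) (z : Vert) (ω : Config) :
    (fun f => ω (torusSym_tau N z f)) ∈ WindS N ↔ ω ∈ WindS N := by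
  have h0 : sit (per N (fun f => ω (torusSym_tau N z f))) =
      fun f => sit (per N ω) (shiftE z f) := by
    rw [torusSym_per, sit_shiftE]
  unfold Pool.Agent.H92.SN.WindS
  simp only [Set.mem_ofPred_eq, h0, conn_shift]
  constructor
  · rintro ⟨u, a, b, ha, h⟩
    refine ⟨(u.1 + z.1, u.2 + z.2), a, b, ha, ?_⟩
    rw [show u.1 + a * (N : ℤ) + z.1 = u.1 + z.1 + a * N by ring,
      show u.2 + b * (N : ℤ) + z.2 = u.2 + z.2 + b * N by ring] at h
    exact h.mono_set (Set.subset_univ _)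
  · rintro ⟨u, a, b, ha, h⟩
    refine ⟨(u.1 - z.1, u.2 - z.2), a, b, ha, ?_⟩
    simp only
    rw [show u.1 - z.1 + a * (N : ℤ) + z.1 = u.1 + a * N by ring,
      show u.2 - z.2 + b * (N : ℤ) + z.2 = u.2 + b * N by ring,
      show u.1 - z.1 + z.1 = u.1 by ring, show u.2 - z.2 + z.2 = u.2 by ring]
    refine h.mono_set fun w _ => Set.mem_univ _

theorem tSites_subset (N : ℕ) : tSites N ⊆ tEdges N := by
  intro e he
  rw [mem_tSites] at he
  rw [Pool.Agent.H31.EX.mem_tEdges]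
  exact ⟨he.2.1 |> fun h => ⟨h, he.2.2.1⟩, he.2.2.2⟩

/-- All translates of a block have the same probability of being pivotal. -/
theorem Pr_bpiv_tau {N : ℕ} (hN : 1 ≤ N) (q : I) {B : Finset Edge} (hB : B ⊆ tSites N)
    (z : Vert) : Pr q (BPiv (B.image (torusSym_tau N z)) (WindS N)) = Pr q (BPiv B (WindS N)) := by
  rw [← Pr_comp (localOn_BPiv (localOn_windS hN) B)
    ((torusSym_tau_injOn N z).mono (by exact_mod_cast tSites_subset N))]
  congr 1
  ext ω
  have key : ∀ b : Bool, setB (B.image (torusSym_tau N z)) b ω ∈ WindS N ↔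
      setB B b (fun e => ω (torusSym_tau N z e)) ∈ WindS N := by
    intro b
    rw [← windS_tau N z (setB (B.image (torusSym_tau N z)) b ω)]
    have key2 : ∀ f ∈ tSites N, setB (B.image (torusSym_tau N z)) b ω (torusSym_tau N z f) =
        setB B b (fun e => ω (torusSym_tau N z e)) f := by
      intro f hf
      have h1 : torusSym_tau N z f ∈ B.image (torusSym_tau N z) ↔ f ∈ B := by
        rw [Finset.mem_image]
        constructor
        · rintro ⟨g, hg, hgf⟩
          rwa [← torusSym_tau_injOn N z (tSites_subset N (hB hg)) (tSites_subset N hf) hgf]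
        · intro h; exact ⟨f, h, rfl⟩
      unfold setB
      by_cases hfB : f ∈ B
      · rw [if_pos (h1.2 hfB), if_pos hfB]
      · rw [if_neg (fun h => hfB (h1.1 h)), if_neg hfB]
    exact ⟨fun h1 => localOn_windS hN _ _ key2 h1,
      fun h1 => localOn_windS hN _ _ (fun f hf => (key2 f hf).symm) h1⟩
  simp only [BPiv, Set.mem_ofPred_eq, key]

/-- The block of radius `r` around `z`. -/
noncomputable def zB (z : Vert) (r : ℕ) : Finset Edge :=
  Finset.Icc (z.1 - r) (z.1 + r) ×ˢ Finset.Icc (z.2 - r) (z.2 + r) ×ˢ {false}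

theorem mem_zB {z : Vert} {r : ℕ} {e : Edge} : e ∈ zB z r ↔
    e.2.2 = false ∧ (z.1 - r ≤ e.1 ∧ e.1 ≤ z.1 + r) ∧ (z.2 - r ≤ e.2.1 ∧ e.2.1 ≤ z.2 + r) := by
  simp only [zB, Finset.mem_product, Finset.mem_Icc, Finset.mem_singleton]
  tauto

theorem zB_mid (N r : ℕ) : zB (mid N, mid N) r = blkS N r := by
  unfold zB blkS
  rfl

theorem blockPiv_eq (N r : ℕ) : BlockPiv N r = BPiv (blkS N r) (WindS N) := by
  ext ω
  simp only [Pool.Agent.H92.SN.BlockPiv, BPiv, Pool.Agent.H31.EX.fill_eq_setB]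

theorem zB_subset {N r : ℕ} {z : Vert} (h1 : (r : ℤ) ≤ z.1 ∧ z.1 + r < N)
    (h2 : (r : ℤ) ≤ z.2 ∧ z.2 + r < N) : zB z r ⊆ tSites N := by
  intro e he
  rw [mem_zB] at he
  rw [mem_tSites]
  obtain ⟨h3, h4, h5⟩ := he
  refine ⟨h3, ?_⟩
  omega

theorem blkS_subset {N r : ℕ} (hr : 1 ≤ r) (h : 4 * r ≤ N) : blkS N r ⊆ tSites N := by
  rw [← zB_mid]
  refine zB_subset ?_ ?_ <;> simp only [mid] <;> omega

/-- The block of radius `r` around `z` is pivotal with the same probability as the one in the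
middle. -/
theorem Pr_bpiv_zB {N r : ℕ} (hr : 1 ≤ r) (h : 4 * r ≤ N) (q : I) {z : Vert}
    (h1 : (r : ℤ) ≤ z.1 ∧ z.1 + r < N) (h2 : (r : ℤ) ≤ z.2 ∧ z.2 + r < N) :
    Pr q (BPiv (zB z r) (WindS N)) = Pr q (BlockPiv N r) := by
  classical
  rw [blockPiv_eq, ← Pr_bpiv_tau (by omega) q (blkS_subset hr h) (z.1 - mid N, z.2 - mid N)]
  congr 2
  ext e
  rw [← zB_mid, Finset.mem_image, mem_zB]
  constructor
  · rintro ⟨h3, h4, h5⟩
    refine ⟨(e.1 - (z.1 - mid N), e.2.1 - (z.2 - mid N), e.2.2), ?_, ?_⟩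
    · rw [mem_zB]
      simp only
      exact ⟨h3, by omega, by omega⟩
    · simp only [torusSym_tau, sub_add_cancel]
      rw [Int.emod_eq_of_lt (by omega) (by omega), Int.emod_eq_of_lt (by omega) (by omega)]
  · rintro ⟨f, hf, rfl⟩
    rw [mem_zB] at hf
    obtain ⟨h3, h4, h5⟩ := hf
    simp only at h4 h5
    simp only [torusSym_tau]
    rw [Int.emod_eq_of_lt (by omega) (by omega), Int.emod_eq_of_lt (by omega) (by omega)]
    exact ⟨h3, by omega, by omega⟩

/-! ### A pivotal block has two distinct crossing clusters around it -/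

/-- A long path crosses the annulus. -/
theorem ring_cross {η : Config} {m : Vert} {t R' : ℕ} (ht : 1 ≤ t) (htR : t ≤ R') {v v' : Vert}
    (hv : v ∈ ball m t) (hv' : v' ∉ ball m R') (h : Conn η Set.univ v v') :
    ∃ x ∈ sphere m t, (∃ w ∈ sphere m R', Conn η (Ring m t R') x w) ∧ Conn η Set.univ v x := by
  have htR'' : (t : ℤ) ≤ R' := by exact_mod_cast htR
  have ht1 : ((t - 1 : ℕ) : ℤ) = (t : ℤ) - 1 := by push_cast [Nat.cast_sub ht]; ring
  have hsub : ball m t ⊆ ball m R' := by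
    intro x hx
    rw [mem_ball] at hx ⊢
    omega
  obtain ⟨w, hw, h1⟩ := h.to_sphere (r := R') (hsub hv) (Or.inl hv')
  rcases htR.eq_or_lt with heq | hlt
  · subst heq
    refine ⟨w, hw, ⟨w, hw, Conn.refl ⟨hw.1, fun h3 => ?_⟩⟩, h1.mono_set (Set.subset_univ _)⟩
    have h4 := hw.2
    have h5 := hw.1
    rw [mem_ball] at h3 h5
    rw [ht1] at h3
    omega
  have htR' : (t : ℤ) < R' := by exact_mod_cast hlt
  have hwt : w ∉ ball m t := by
    intro hh
    rw [mem_ball] at hh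
    have h2 := hw
    simp only [sphere, ball, rect, Set.mem_ofPred_eq] at h2
    omega
  obtain ⟨x, x', h2, h3, h4, h5⟩ := h1.exists_last (T := ball m t) hv hwt
  have h6 := h5.mem_left
  have e1 := h4.fst_le
  have e2 := h4.snd_le
  have hx : x ∈ sphere m t := by
    refine ⟨h2, ?_⟩
    have h7 := h6.2
    rw [mem_ball] at h2 h7
    omega
  have hring : ∀ y ∈ sphere m t, y ∈ Ring m t R' := by
    intro y hy
    refine ⟨hsub hy.1, ?_⟩
    have h7 := hy.2
    have h8 := hy.1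
    rw [mem_ball] at h8 ⊢
    rw [ht1]
    omega
  have h8 : Conn η (Ring m t R') x' w := by
    refine h5.mono_set ?_
    rintro y ⟨⟨-, hy1⟩, hy2⟩
    refine ⟨hy1, fun hy3 => hy2 ?_⟩
    rw [mem_ball] at hy3 ⊢
    rw [ht1] at hy3
    omega
  have h9 : Step η (Ring m t R') x x' := ⟨hring x hx, h8.mem_left, h4.2.2⟩
  exact ⟨x, hx, ⟨w, hw, h9.conn.trans h8⟩, h3.mono_set (Set.subset_univ _)⟩

/-- The vertices of the copy `(a, b)` of the block and their neighbours. -/
def tB (N : ℕ) (z : Vert) (R : ℕ) (a b : ℤ) : Set Vert :=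
  {v | z.1 - R - 1 + a * N ≤ v.1 ∧ v.1 ≤ z.1 + R + 1 + a * N ∧
    z.2 - R - 1 + b * N ≤ v.2 ∧ v.2 ≤ z.2 + R + 1 + b * N}

theorem tB_shift {N R : ℕ} {z : Vert} {a b a' b' : ℤ} {v : Vert} (h : v ∈ tB N z R a b) :
    ((v.1 + a' * N, v.2 + b' * N) : Vert) ∈ tB N z R (a + a') (b + b') := by
  simp only [tB, Set.mem_ofPred_eq] at h ⊢
  have e1 : (a + a') * (N : ℤ) = a * N + a' * N := by ring
  have e2 : (b + b') * (N : ℤ) = b * N + b' * N := by ring
  rw [e1, e2]
  omega

/-- A site of the block, seen in the periodic extension. -/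
theorem tB_of_mem {N R : ℕ} {z : Vert} {v : Vert}
    (h : ((v.1 % N, v.2 % N, false) : Edge) ∈ zB z R) :
    z.1 - R + v.1 / N * N ≤ v.1 ∧ v.1 ≤ z.1 + R + v.1 / N * N ∧
    z.2 - R + v.2 / N * N ≤ v.2 ∧ v.2 ≤ z.2 + R + v.2 / N * N := by
  rw [mem_zB] at h
  have e1 : v.1 % N + v.1 / N * N = v.1 := Int.emod_add_ediv_mul v.1 N
  have e2 : v.2 % N + v.2 / N * N = v.2 := Int.emod_add_ediv_mul v.2 N
  simp only at h
  omega

/-- A step of the filled configuration is a step of the emptied one, or it is near a block. -/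
theorem tB_step {N R : ℕ} {z : Vert} {ω : Config} {v v' : Vert}
    (h : Step (sit (per N (setB (zB z R) true ω))) Set.univ v v') :
    Step (sit (per N (setB (zB z R) false ω))) Set.univ v v' ∨
      ∃ a b : ℤ, v ∈ tB N z R a b ∧ v' ∈ tB N z R a b := by
  have e1 := h.fst_le
  have e2 := h.snd_le
  obtain ⟨-, -, e, he, hω⟩ := h
  by_cases hb : ((v.1 % N, v.2 % N, false) : Edge) ∈ zB z R
  · right
    have h1 := tB_of_mem hb
    refine ⟨v.1 / N, v.2 / N, ?_, ?_⟩ <;> simp only [tB, Set.mem_ofPred_eq] <;> omega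
  by_cases hb' : ((v'.1 % N, v'.2 % N, false) : Edge) ∈ zB z R
  · right
    have h1 := tB_of_mem hb'
    refine ⟨v'.1 / N, v'.2 / N, ?_, ?_⟩ <;> simp only [tB, Set.mem_ofPred_eq] <;> omega
  · left
    refine ⟨Set.mem_univ _, Set.mem_univ _, e, he, ?_⟩
    rw [sit_joins he] at hω ⊢
    simp only [per, sv, setB, if_neg hb, if_neg hb'] at hω ⊢
    exact hω

/-- **A pivotal block has two distinct crossing clusters around it.** -/
theorem two_of_bpiv {N R t R' : ℕ} {z : Vert} (hRt : R + 1 ≤ t) (htR : t ≤ R')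
    (hN : R + R' + 2 ≤ N) {ω : Config} (h : ω ∈ BPiv (zB z R) (WindS N)) :
    sit (per N ω) ∈ Two z t R' := by
  obtain ⟨⟨u, a, b, ha, hc⟩, hno⟩ := h
  have hNR : (R : ℤ) + R' + 2 ≤ N := by exact_mod_cast hN
  have hRt' : (R : ℤ) + 1 ≤ t := by exact_mod_cast hRt
  have htR' : (t : ℤ) ≤ R' := by exact_mod_cast htR
  set η0 := sit (per N (setB (zB z R) false ω)) with hη0
  set η1 := sit (per N (setB (zB z R) true ω)) with hη1
  -- an excursion which winds
  have hexc : ∃ v ∈ tB N z R 0 0, ∃ a b : ℤ, ∃ v' ∈ tB N z R a b, a ≠ 0 ∧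
      Conn η0 Set.univ v v' := by
    by_contra hnone
    push Not at hnone
    have hnone' : ∀ (a₁ b₁ a₂ b₂ : ℤ) (v v' : Vert), v ∈ tB N z R a₁ b₁ → v' ∈ tB N z R a₂ b₂ →
        Conn η0 Set.univ v v' → a₁ = a₂ := by
      intro a₁ b₁ a₂ b₂ v v' h1 h2 h3
      have h4 := tB_shift (a' := -a₁) (b' := -b₁) h1
      have h5 := tB_shift (a' := -a₁) (b' := -b₁) h2
      have h6 := sit_per_conn_shift (-a₁) (-b₁) h3
      rw [add_neg_cancel, add_neg_cancel] at h4
      by_contra hne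
      exact hnone _ h4 _ _ _ h5 (by intro h; apply hne; linarith) h6
    have key : Conn η0 Set.univ u (u.1 + a * N, u.2 + b * N) ∨ ∃ a₁ b₁ b₂ : ℤ,
        ∃ v₁ ∈ tB N z R a₁ b₁, ∃ v₂ ∈ tB N z R a₁ b₂, Conn η0 Set.univ u v₁ ∧
          Conn η0 Set.univ v₂ (u.1 + a * N, u.2 + b * N) := by
      refine hc.induction_right (P := fun w => Conn η0 Set.univ u w ∨ ∃ a₁ b₁ b₂ : ℤ,
        ∃ v₁ ∈ tB N z R a₁ b₁, ∃ v₂ ∈ tB N z R a₁ b₂, Conn η0 Set.univ u v₁ ∧
          Conn η0 Set.univ v₂ w) (Or.inl (Conn.refl (Set.mem_univ _))) ?_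
      intro w w' _ hs ih
      rcases tB_step hs with h1 | ⟨a₂, b₂, h1, h2⟩
      · rcases ih with ih | ⟨a₁, b₁, b₂, v₁, hv₁, v₂, hv₂, h2, h3⟩
        · exact Or.inl (ih.tail h1)
        · exact Or.inr ⟨a₁, b₁, b₂, v₁, hv₁, v₂, hv₂, h2, h3.tail h1⟩
      · rcases ih with ih | ⟨a₁, b₁, b₂', v₁, hv₁, v₂, hv₂, h3, h4⟩
        · exact Or.inr ⟨a₂, b₂, b₂, w, h1, w', h2, ih, Conn.refl (Set.mem_univ _)⟩
        · have := hnone' _ _ _ _ _ _ hv₂ h1 h4
          subst this
          exact Or.inr ⟨a₁, b₁, b₂, v₁, hv₁, w', h2, h3, Conn.refl (Set.mem_univ _)⟩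
    rcases key with h1 | ⟨a₁, b₁, b₂, v₁, hv₁, v₂, hv₂, h1, h2⟩
    · exact hno ⟨u, a, b, ha, h1⟩
    · have h3 := sit_per_conn_shift a b h1
      have h4 := hnone' _ _ _ _ _ _ hv₂ (tB_shift (a' := a) (b' := b) hv₁) (h2.trans h3)
      exact ha (by linarith)
  obtain ⟨v, hv, a', b', v', hv', ha', hvv⟩ := hexc
  -- geometry
  have habs : (N : ℤ) ≤ |a'| * N := by
    have h1 : (1 : ℤ) ≤ |a'| := Int.one_le_abs ha'
    have h2 : (0 : ℤ) ≤ N := by positivity
    nlinarith
  have hball : ∀ w ∈ tB N z R 0 0, w ∈ ball z t := by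
    intro w hw
    simp only [tB, zero_mul, add_zero, Set.mem_ofPred_eq] at hw
    rw [mem_ball]
    omega
  have hfar : ∀ (c : ℤ) (b'' : ℤ), |c| = |a'| → ∀ w ∈ tB N z R c b'', w ∉ ball z R' := by
    intro c b'' hcc w hw hw'
    simp only [tB, Set.mem_ofPred_eq] at hw
    rw [mem_ball] at hw'
    have h1 : |c * (N : ℤ)| = |a'| * N := by
      rw [abs_mul, hcc, abs_of_nonneg (by positivity : (0 : ℤ) ≤ N)]
    rcases abs_cases (c * (N : ℤ)) with h2 | h2 <;> omega
  have hcongr : ∀ v : Vert, v ∈ Ring z t R' →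
      per N ω (sv v) = per N (setB (zB z R) false ω) (sv v) := by
    intro v he
    have ht1 : ((t - 1 : ℕ) : ℤ) = (t : ℤ) - 1 := by
      push_cast [Nat.cast_sub (show 1 ≤ t by omega)]; ring
    have hb : ((v.1 % N, v.2 % N, false) : Edge) ∉ zB z R := by
      intro hb
      have h3 := tB_of_mem hb
      obtain ⟨h1, h2⟩ := he
      simp only [mem_ball, ht1] at h1 h2
      have hz : ∀ k : ℤ, |k * (N : ℤ)| < N → k = 0 := by
        intro k hk
        by_contra hk0
        have h3 : (1 : ℤ) ≤ |k| := Int.one_le_abs hk0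
        rw [abs_mul, abs_of_nonneg (by positivity : (0 : ℤ) ≤ N)] at hk
        nlinarith
      have k1 : v.1 / N = 0 := hz _ (abs_lt.2 ⟨by omega, by omega⟩)
      have k2 : v.2 / N = 0 := hz _ (abs_lt.2 ⟨by omega, by omega⟩)
      rw [k1, k2] at h3
      apply h2
      omega
    simp only [per, sv, setB, if_neg hb]
  have hcon : ∀ x y : Vert, Conn (sit (per N ω)) (Ring z t R') x y →
      Conn η0 Set.univ x y := fun x y hxy =>
    (hxy.congr fun e h1 h2 => by
      rw [hη0]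
      simp only [sit]
      rw [hcongr _ h1, hcongr _ h2]).mono_set (Set.subset_univ _)
  have hcon' : ∀ x y : Vert, Conn η0 (Ring z t R') x y →
      Conn (sit (per N ω)) (Ring z t R') x y := fun x y hxy =>
    hxy.congr fun e h1 h2 => by
      rw [hη0]
      simp only [sit]
      rw [hcongr _ h1, hcongr _ h2]
  -- the second cluster is the first one translated
  have hv'' := tB_shift (a' := -a') (b' := -b') hv'
  rw [add_neg_cancel, add_neg_cancel] at hv''
  have hvm := tB_shift (a' := -a') (b' := -b') hv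
  have h2 := sit_per_conn_shift (-a') (-b') hvv
  obtain ⟨x, hx, ⟨w, hw, hxw⟩, hvx⟩ := ring_cross (by omega) htR (hball v hv)
    (hfar a' b' rfl v' hv') hvv
  obtain ⟨x', hx', ⟨w', hw', hxw'⟩, hvx'⟩ := ring_cross (by omega) htR (hball _ hv'')
    (hfar (0 + -a') (0 + -b') (by rw [zero_add, abs_neg]) _ hvm) h2.symm
  refine ⟨x, x', hx, hx', ⟨w, hw, hcon' _ _ hxw⟩, ⟨w', hw', hcon' _ _ hxw'⟩, fun hxx => ?_⟩
  have h3 := (hvx'.trans (hcon _ _ hxx).symm).trans hvx.symm
  have h4 := h3.trans hvv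
  refine hno ⟨(v'.1 + -a' * N, v'.2 + -b' * N), a', b', ha', ?_⟩
  simp only
  rw [show v'.1 + -a' * (N : ℤ) + a' * N = v'.1 by ring,
    show v'.2 + -b' * (N : ℤ) + b' * N = v'.2 by ring]
  exact h4

/-- **A pivotal block in the middle has two distinct crossing clusters around it.** -/
theorem two_of_blockPiv {N R t R' : ℕ} (hRt : R + 1 ≤ t) (htR : t ≤ R')
    (hN : R + R' + 2 ≤ N) {ω : Config} (h : ω ∈ BlockPiv N R) :
    sit (per N ω) ∈ Two (mid N, mid N) t R' := by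
  rw [blockPiv_eq, ← zB_mid] at h
  exact two_of_bpiv hRt htR hN h

end Pool.Agent.H13.SK
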